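import Pool.Agent.H44.ChainInst

/-!
Averaging: existence of an `r`-clique with good local statistics.
-/

namespace Pool.Agent.H44

open Finset

set_option linter.unusedSectionVars false

variable {V : Type*} [Fintype V] [DecidableEq V]

/-- (twice) the number of edges inside the common neighbourhood of `S` -/
def inS (G : SimpleGraph V) [DecidableRel G.Adj] (S : Finset V) : ℕ :=
  ∑ x ∈ cn G S, (cn G (insert x S)).card

/-- number of bad pairs around `S` -/
def bdS (G : SimpleGraph V) [DecidableRel G.Adj] (S : Finset V) : ℕ :=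
  ∑ x ∈ cn G S, (bad G (insert x S)).card

/-- local statistic of `S` -/
noncomputable def psi (G : SimpleGraph V) [DecidableRel G.Adj] (a : ℝ) (S : Finset V) : ℝ :=
  (((cn G S).card : ℝ) - a) ^ 2 + inS G S + bdS G S

/-- the total statistic -/
noncomputable def Ph (G : SimpleGraph V) [DecidableRel G.Adj] (a : ℝ) (t : Finset V) : ℝ :=
  (Fintype.card V : ℝ) * (bad G t).card + (Fintype.card V : ℝ) * (cn G t).card
    + ∑ x ∈ t, psi G a (t.erase x)

variable {G : SimpleGraph V} [DecidableRel G.Adj]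

lemma psi_nonneg (a : ℝ) (S : Finset V) : 0 ≤ psi G a S := by
  unfold psi; positivity

lemma sum_erase_insert (s : ℕ) (g : Finset V → ℝ) :
    ∑ S ∈ Kc G univ s, ∑ x ∈ cn G S, g (insert x S)
      = (s + 1) * ∑ t ∈ Kc G univ (s + 1), g t := by
  have h := sum_Kc_succ (G := G) univ s (fun S x => g (insert x S))
  simp only [inter_univ] at h
  rw [← h, mul_sum]
  apply sum_congr rfl
  intro t ht
  have h2 : ∀ x ∈ t, g (insert x (t.erase x)) = g t := by
    intro x hx
    rw [insert_erase hx]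
  rw [sum_congr rfl h2, sum_const, (mem_Kc.1 ht).2.2, nsmul_eq_mul]
  push_cast
  ring

lemma sum_inS (s : ℕ) :
    ∑ S ∈ Kc G univ s, (inS G S : ℝ) = (s + 1) * ((s + 2) * kr G (s + 2)) := by
  have h := sum_erase_insert (G := G) s (fun t => ((cn G t).card : ℝ))
  have h2 := sum_cn_real (G := G) (s + 1)
  have e : ((s : ℝ) + 2) * kr G (s + 2) = ∑ S ∈ Kc G univ (s + 1), ((cn G S).card : ℝ) := by
    rw [h2]; push_cast; ring
  rw [e, ← h]
  apply sum_congr rfl
  intro S _
  unfold inS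
  push_cast
  rfl

lemma sum_bdS (s : ℕ) :
    ∑ S ∈ Kc G univ s, (bdS G S : ℝ) = (s + 1) * btot G (s + 1) := by
  have h := sum_erase_insert (G := G) s (fun t => ((bad G t).card : ℝ))
  unfold btot
  rw [← h]
  apply sum_congr rfl
  intro S _
  unfold bdS
  push_cast
  rfl

lemma sum_sq_dev (a : ℝ) (s : ℕ) :
    ∑ S ∈ Kc G univ s, (((cn G S).card : ℝ) - a) ^ 2
      = sq2 G s - 2 * a * ((s + 1) * kr G (s + 1)) + a ^ 2 * kr G s := by
  rw [← sum_cn_real]
  unfold sq2 kr
  rw [mul_sum, ← sum_sub_distrib]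
  have : a ^ 2 * ((Kc G univ s).card : ℝ) = ∑ _S ∈ Kc G univ s, a ^ 2 := by
    rw [sum_const, nsmul_eq_mul]; ring
  rw [this, ← sum_add_distrib]
  apply sum_congr rfl
  intro S _
  ring

lemma sum_psi (a : ℝ) (s : ℕ) :
    ∑ S ∈ Kc G univ s, psi G a S
      = (sq2 G s - 2 * a * ((s + 1) * kr G (s + 1)) + a ^ 2 * kr G s)
        + (s + 1) * ((s + 2) * kr G (s + 2)) + (s + 1) * btot G (s + 1) := by
  unfold psi
  rw [sum_add_distrib, sum_add_distrib, sum_sq_dev, sum_inS, sum_bdS]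

lemma sum_Ph (a : ℝ) (s : ℕ) :
    ∑ t ∈ Kc G univ (s + 1), Ph G a t ≤ (Fintype.card V : ℝ) * (btot G (s + 1)
      + (s + 2) * kr G (s + 2) + ∑ S ∈ Kc G univ s, psi G a S) := by
  unfold Ph
  rw [sum_add_distrib, sum_add_distrib, ← mul_sum, ← mul_sum]
  have h1 : ∑ t ∈ Kc G univ (s + 1), ((cn G t).card : ℝ) = (s + 2) * kr G (s + 2) := by
    rw [sum_cn_real]; push_cast; ring
  have h2 := sum_Kc_succ (G := G) univ s (fun S _ => psi G a S)
  simp only [inter_univ] at h2
  rw [h1, h2]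
  have h3 : ∑ S ∈ Kc G univ s, ∑ x ∈ cn G S, psi G a S
      ≤ (Fintype.card V : ℝ) * ∑ S ∈ Kc G univ s, psi G a S := by
    rw [mul_sum]
    apply sum_le_sum
    intro S _
    rw [sum_const, nsmul_eq_mul]
    apply mul_le_mul_of_nonneg_right _ (psi_nonneg _ _)
    exact_mod_cast card_le_univ _
  have h4 : ∑ t ∈ Kc G univ (s + 1), ((bad G t).card : ℝ) = btot G (s + 1) := rfl
  rw [h4]
  linarith

/-- existence of a good clique -/
theorem good_clique (q : ℕ) (C : ℝ) (hC : 0 ≤ C) (hE : Eul G (2 * (q + 1) + 1))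
    (hn : ((q : ℝ) + 1) ^ 2 * (C + 1) ≤ Fintype.card V)
    (hx1 : - C ≤ xi (q + 1) (kr G) (Fintype.card V) q)
    (hx2 : xi (q + 1) (kr G) (Fintype.card V) q ≤ C)
    (hB : btot G (q + 1) + (sq2 G q - (((q : ℝ) + 1) * kr G (q + 1)) ^ 2 / kr G q)
      ≤ C * kr G (q + 1))
    (hk : kr G (q + 2) ≤ C * kr G (q + 1)) :
    ∃ t ∈ Kc G univ (q + 1), Ph G ((Fintype.card V : ℝ) / (q + 1)) t
      ≤ (C + (q + 2) * C + (C + ((q + 1) * C) ^ 2 + (q + 1) * (q + 2) * C + (q + 1) * C))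
        * Fintype.card V := by
  set n : ℝ := (Fintype.card V : ℝ) with hndef
  set a : ℝ := n / (q + 1) with ha
  have hch := ch_inst (r := q + 1) (by omega) hE
  have hn1 : 1 ≤ n := hch.n1
  have hk0 : 0 < kr G q := kr_pos hE (by omega)
  have hk1 : 0 < kr G (q + 1) := kr_pos hE (by omega)
  have hq : (0 : ℝ) < (q : ℝ) + 1 := by positivity
  have hV : 0 ≤ sq2 G q - (((q : ℝ) + 1) * kr G (q + 1)) ^ 2 / kr G q := by
    have := cauchy_cn (G := G) q
    rw [sub_nonneg, div_le_iff₀ hk0]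
    linarith
  have hb0 := btot_nonneg (G := G) (q + 1)
  have hb : btot G (q + 1) ≤ C * kr G (q + 1) := by linarith
  have hVC : sq2 G q - (((q : ℝ) + 1) * kr G (q + 1)) ^ 2 / kr G q ≤ C * kr G (q + 1) := by
    linarith
  set ξ := xi (q + 1) (kr G) n q with hξ
  -- relation of consecutive face numbers
  have hsucc : kr G (q + 1) = kr G q * (a / (q + 1) + ξ) := by
    have h1 := hch.succ_eq (s := q) (by omega)
    rw [h1, ← hξ, ha]
    congr 2
    push_cast
    field_simp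
    ring
  have hkle : kr G q ≤ kr G (q + 1) := by
    rw [hsucc]
    have h1 : 1 ≤ a / (q + 1) + ξ := by
      have h2 : C + 1 ≤ a / (q + 1) := by
        rw [ha, div_div, le_div_iff₀ (by positivity)]
        nlinarith
      linarith
    nlinarith
  have hdev : sq2 G q - 2 * a * ((q + 1) * kr G (q + 1)) + a ^ 2 * kr G q
      = (sq2 G q - (((q : ℝ) + 1) * kr G (q + 1)) ^ 2 / kr G q)
        + kr G q * ((q + 1) * ξ) ^ 2 := by
    rw [hsucc]
    field_simp
    ring
  have hξ2 : ((q + 1) * ξ) ^ 2 ≤ ((q + 1) * C) ^ 2 := by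
    rw [mul_pow, mul_pow]
    apply mul_le_mul_of_nonneg_left _ (by positivity)
    rw [sq_le_sq, abs_of_nonneg hC, abs_le]
    exact ⟨hx1, hx2⟩
  have hpsi : ∑ S ∈ Kc G univ q, psi G a S
      ≤ (C + ((q + 1) * C) ^ 2 + (q + 1) * (q + 2) * C + (q + 1) * C) * kr G (q + 1) := by
    rw [sum_psi, hdev]
    have h1 : kr G q * ((q + 1) * ξ) ^ 2 ≤ kr G (q + 1) * ((q + 1) * C) ^ 2 :=
      mul_le_mul hkle hξ2 (by positivity) hk1.le
    have h2 : ((q : ℝ) + 1) * ((q + 2) * kr G (q + 2))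
        ≤ ((q : ℝ) + 1) * ((q + 2) * (C * kr G (q + 1))) := by
      apply mul_le_mul_of_nonneg_left _ hq.le
      apply mul_le_mul_of_nonneg_left hk (by positivity)
    have h3 : ((q : ℝ) + 1) * btot G (q + 1) ≤ ((q : ℝ) + 1) * (C * kr G (q + 1)) :=
      mul_le_mul_of_nonneg_left hb hq.le
    have e : (C + ((q + 1) * C) ^ 2 + (q + 1) * (q + 2) * C + (q + 1) * C) * kr G (q + 1)
        = C * kr G (q + 1) + kr G (q + 1) * ((q + 1) * C) ^ 2
          + ((q : ℝ) + 1) * ((q + 2) * (C * kr G (q + 1)))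
          + ((q : ℝ) + 1) * (C * kr G (q + 1)) := by ring
    rw [e]
    linarith
  set M : ℝ := (C + (q + 2) * C + (C + ((q + 1) * C) ^ 2 + (q + 1) * (q + 2) * C + (q + 1) * C))
    with hM
  have htot : ∑ t ∈ Kc G univ (q + 1), Ph G a t ≤ ∑ _t ∈ Kc G univ (q + 1), M * n := by
    refine (sum_Ph a q).trans ?_
    rw [sum_const, nsmul_eq_mul]
    have h4 : ((q : ℝ) + 2) * kr G (q + 2) ≤ ((q : ℝ) + 2) * (C * kr G (q + 1)) :=
      mul_le_mul_of_nonneg_left hk (by positivity)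
    have h5 : btot G (q + 1) + (q + 2) * kr G (q + 2) + ∑ S ∈ Kc G univ q, psi G a S
        ≤ M * kr G (q + 1) := by
      have e : M * kr G (q + 1) = C * kr G (q + 1) + ((q : ℝ) + 2) * (C * kr G (q + 1))
        + (C + ((q + 1) * C) ^ 2 + (q + 1) * (q + 2) * C + (q + 1) * C) * kr G (q + 1) := by
        rw [hM]; ring
      rw [e]
      linarith
    have h6 : n * (btot G (q + 1) + (q + 2) * kr G (q + 2) + ∑ S ∈ Kc G univ q, psi G a S)
        ≤ n * (M * kr G (q + 1)) := mul_le_mul_of_nonneg_left h5 (by linarith)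
    refine h6.trans (le_of_eq ?_)
    unfold kr
    ring
  have hne : (Kc G univ (q + 1)).Nonempty := by
    rw [← card_pos]
    unfold kr at hk1
    exact_mod_cast hk1
  exact exists_le_of_sum_le hne htot

end Pool.Agent.H44
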