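import Mathlib

/-!
Basic notions on cliques, common neighbourhoods, clique polynomials and flag Eulerian complexes.
-/

namespace Pool.Agent.H44

open Finset Polynomial

set_option linter.unusedSectionVars false

variable {V : Type*} [Fintype V] [DecidableEq V]

/-- The cliques of `G` contained in `A` (as finsets). -/
def cl (G : SimpleGraph V) [DecidableRel G.Adj] (A : Finset V) : Finset (Finset V) :=
  A.powerset.filter (fun s => G.IsClique (s : Set V))

/-- The common neighbourhood of `S`. -/
def cn (G : SimpleGraph V) [DecidableRel G.Adj] (S : Finset V) : Finset V :=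
  univ.filter (fun w => ∀ x ∈ S, G.Adj w x)

/-- Clique polynomial of `G` restricted to `A`. -/
noncomputable def cp (G : SimpleGraph V) [DecidableRel G.Adj] (A : Finset V) : ℤ[X] :=
  ∑ s ∈ cl G A, X ^ s.card

variable {G : SimpleGraph V} [DecidableRel G.Adj]

lemma mem_cl {A s : Finset V} : s ∈ cl G A ↔ s ⊆ A ∧ G.IsClique (s : Set V) := by
  simp [cl]

lemma mem_cn {S : Finset V} {w : V} : w ∈ cn G S ↔ ∀ x ∈ S, G.Adj w x := by
  simp [cn]

lemma not_mem_of_mem_cn {S : Finset V} {w : V} (h : w ∈ cn G S) : w ∉ S := by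
  intro hw
  exact G.irrefl (mem_cn.1 h w hw)

lemma cn_anti {S T : Finset V} (h : S ⊆ T) : cn G T ⊆ cn G S := by
  intro w hw
  rw [mem_cn] at *
  exact fun x hx => hw x (h hx)

lemma cn_empty : cn G (∅ : Finset V) = univ := by
  ext w; simp [mem_cn]

lemma cn_union {S T : Finset V} : cn G (S ∪ T) = cn G S ∩ cn G T := by
  ext w
  simp only [mem_cn, mem_union, mem_inter]
  constructor
  · intro h
    exact ⟨fun x hx => h x (Or.inl hx), fun x hx => h x (Or.inr hx)⟩
  · rintro ⟨h1, h2⟩ x (hx | hx)
    · exact h1 x hx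
    · exact h2 x hx

lemma isClique_mono {s t : Finset V} (h : s ⊆ t) (ht : G.IsClique (t : Set V)) :
    G.IsClique (s : Set V) :=
  ht.subset (by exact_mod_cast h)

lemma isClique_union {s t : Finset V} :
    G.IsClique ((s ∪ t : Finset V) : Set V) ↔
      G.IsClique (s : Set V) ∧ G.IsClique (t : Set V) ∧ ∀ x ∈ s, ∀ y ∈ t, x ≠ y → G.Adj x y := by
  constructor
  · intro h
    refine ⟨isClique_mono subset_union_left h, isClique_mono subset_union_right h, ?_⟩
    intro x hx y hy hxy
    exact h (by simp [hx]) (by simp [hy]) hxy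
  · rintro ⟨h1, h2, h3⟩ x hx y hy hxy
    simp only [coe_union, Set.mem_union, mem_coe] at hx hy
    rcases hx with hx | hx <;> rcases hy with hy | hy
    · exact h1 hx hy hxy
    · exact h3 x hx y hy hxy
    · exact (h3 y hy x hx hxy.symm).symm
    · exact h2 hx hy hxy

lemma isClique_union_of_subset_cn {s t : Finset V} (hs : G.IsClique (s : Set V))
    (ht : G.IsClique (t : Set V)) (h : t ⊆ cn G s) : G.IsClique ((s ∪ t : Finset V) : Set V) := by
  rw [isClique_union]
  refine ⟨hs, ht, ?_⟩
  intro x hx y hy _
  exact (mem_cn.1 (h hy) x hx).symm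

lemma disjoint_of_subset_cn {s t : Finset V} (h : t ⊆ cn G s) : Disjoint s t := by
  rw [Finset.disjoint_right]
  intro x hx
  exact not_mem_of_mem_cn (h hx)

/-- pure flag Eulerian complexes: every clique extends to a clique with `d` vertices, there is no
larger one, and every link has the Euler characteristic of a sphere of the right dimension. -/
structure Eul (G : SimpleGraph V) [DecidableRel G.Adj] (d : ℕ) : Prop where
  card_le : ∀ s : Finset V, G.IsClique (s : Set V) → s.card ≤ d
  pure : ∀ s : Finset V, G.IsClique (s : Set V) →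
    ∃ t : Finset V, s ⊆ t ∧ G.IsClique (t : Set V) ∧ t.card = d
  euler : ∀ s : Finset V, G.IsClique (s : Set V) →
    ∑ t ∈ (cl G univ).filter (fun t => s ⊆ t), (-1 : ℤ) ^ t.card = (-1) ^ d

/-- the cliques containing `s` correspond to the cliques of the common neighbourhood. -/
lemma sum_cl_superset {M : Type*} [AddCommMonoid M] {s : Finset V}
    (hs : G.IsClique (s : Set V)) (f : Finset V → M) :
    ∑ t ∈ cl G (cn G s), f (s ∪ t) = ∑ t ∈ (cl G univ).filter (fun t => s ⊆ t), f t := by
  refine Finset.sum_bij' (fun t _ => s ∪ t) (fun t _ => t \ s) ?_ ?_ ?_ ?_ ?_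
  · intro t ht
    rw [mem_cl] at ht
    simp only [mem_filter, mem_cl, subset_univ, true_and]
    exact ⟨isClique_union_of_subset_cn hs ht.2 ht.1, subset_union_left⟩
  · intro t ht
    simp only [mem_filter, mem_cl, subset_univ, true_and] at ht
    rw [mem_cl]
    refine ⟨?_, isClique_mono sdiff_subset ht.1⟩
    intro w hw
    rw [mem_sdiff] at hw
    rw [mem_cn]
    intro x hx
    refine ht.1 (by exact_mod_cast hw.1) (by exact_mod_cast ht.2 hx) ?_
    rintro rfl
    exact hw.2 hx
  · intro t ht
    rw [mem_cl] at ht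
    have hd := disjoint_of_subset_cn ht.1
    rw [union_sdiff_left]
    exact sdiff_eq_self_of_disjoint hd.symm
  · intro t ht
    simp only [mem_filter, mem_cl, subset_univ, true_and] at ht
    exact union_sdiff_of_subset ht.2
  · intro t _
    rfl

end Pool.Agent.H44
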