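import Mathlib

/-!
Real-variable part of the Moon-Moser chain.
-/

namespace Pool.Agent.H44

open Finset

/-- a sequence satisfying the Moon-Moser inequalities -/
structure Ch (r : ℕ) (k : ℕ → ℝ) (n : ℝ) : Prop where
  n1 : 1 ≤ n
  r1 : 1 ≤ r
  k0 : k 0 = 1
  k1 : k 1 = n
  pos : ∀ s ≤ r + 1, 0 < k s
  mm : ∀ s, s + 1 ≤ r → ((s : ℝ) + 1) ^ 2 * (k (s + 1)) ^ 2
    ≤ k s * (n * k (s + 1) + s * (s + 2) * k (s + 2))

/-- deviation of the ratio from its Turan value -/
noncomputable def xi (r : ℕ) (k : ℕ → ℝ) (n : ℝ) (s : ℕ) : ℝ :=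
  k (s + 1) / k s - ((r : ℝ) - s) / (s + 1) * (n / r)

/-- normalised deviation -/
noncomputable def eta (r : ℕ) (k : ℕ → ℝ) (n : ℝ) (s : ℕ) : ℝ :=
  ((s : ℝ) + 1) / s * xi r k n s

variable {r : ℕ} {k : ℕ → ℝ} {n : ℝ}

lemma Ch.succ_eq (h : Ch r k n) {s : ℕ} (hs : s ≤ r + 1) :
    k (s + 1) = k s * (((r : ℝ) - s) / (s + 1) * (n / r) + xi r k n s) := by
  have := (h.pos s hs).ne'
  unfold xi
  field_simp
  ring

lemma Ch.xi_zero (h : Ch r k n) : xi r k n 0 = 0 := by
  unfold xi
  have hr : (r : ℝ) ≠ 0 := by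
    have := h.r1
    positivity
  rw [h.k0, h.k1]
  field_simp
  simp

/-- the Moon-Moser identity in terms of the deviations, with an error term `B`. -/
lemma Ch.xi_step_gen (h : Ch r k n) {s : ℕ} (hs : s + 1 ≤ r) {B : ℝ}
    (hB : ((s : ℝ) + 1) ^ 2 * (k (s + 1)) ^ 2 + k s * B
      ≤ k s * (n * k (s + 1) + s * (s + 2) * k (s + 2))) :
    ((s : ℝ) + 1) ^ 2 * xi r k n s + B / k (s + 1) ≤ s * (s + 2) * xi r k n (s + 1) := by
  have h0 := h.pos s (by omega)
  have h1 := h.pos (s + 1) (by omega)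
  have hr : (0 : ℝ) < r := by
    have := h.r1
    positivity
  have e1 : k (s + 1) / k s = ((r : ℝ) - s) / (s + 1) * (n / r) + xi r k n s := by
    unfold xi; ring
  have e2 : k (s + 2) / k (s + 1)
      = ((r : ℝ) - (s + 1 : ℕ)) / ((s + 1 : ℕ) + 1) * (n / r) + xi r k n (s + 1) := by
    unfold xi; ring
  have h2 : ((s : ℝ) + 1) ^ 2 * (k (s + 1) / k s) + B / k (s + 1)
      ≤ n + s * (s + 2) * (k (s + 2) / k (s + 1)) := by
    have h3 : ((s : ℝ) + 1) ^ 2 * (k (s + 1) / k s) + B / k (s + 1)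
        = (((s : ℝ) + 1) ^ 2 * (k (s + 1)) ^ 2 + k s * B) / (k s * k (s + 1)) := by
      field_simp
    have h4 : n + s * (s + 2) * (k (s + 2) / k (s + 1))
        = (k s * (n * k (s + 1) + s * (s + 2) * k (s + 2))) / (k s * k (s + 1)) := by
      field_simp
    rw [h3, h4]
    apply div_le_div_of_nonneg_right hB (by positivity)
  rw [e1, e2] at h2
  have hs1 : (0 : ℝ) < (s : ℝ) + 1 := by positivity
  have hs2 : (0 : ℝ) < (s : ℝ) + 2 := by positivity
  have e3 : ((s : ℝ) + 1) ^ 2 * (((r : ℝ) - s) / (s + 1) * (n / r))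
      = n + s * (s + 2) * (((r : ℝ) - (s + 1 : ℕ)) / ((s + 1 : ℕ) + 1) * (n / r)) := by
    push_cast
    field_simp
    ring
  nlinarith

lemma Ch.xi_step (h : Ch r k n) {s : ℕ} (hs : s + 1 ≤ r) :
    ((s : ℝ) + 1) ^ 2 * xi r k n s ≤ s * (s + 2) * xi r k n (s + 1) := by
  have := h.xi_step_gen hs (B := 0) (by rw [mul_zero, add_zero]; exact h.mm s hs)
  rwa [zero_div, add_zero] at this

lemma Ch.eta_step (h : Ch r k n) {s : ℕ} (hs1 : 1 ≤ s) (hs : s + 1 ≤ r) :
    eta r k n s ≤ eta r k n (s + 1) := by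
  have h1 := h.xi_step hs
  have hs0 : (0 : ℝ) < s := by positivity
  unfold eta
  push_cast
  rw [div_mul_eq_mul_div, div_mul_eq_mul_div, div_le_div_iff₀ hs0 (by positivity)]
  nlinarith

lemma Ch.eta_mono (h : Ch r k n) {s t : ℕ} (hs1 : 1 ≤ s) (hst : s ≤ t) (ht : t ≤ r) :
    eta r k n s ≤ eta r k n t := by
  induction t, hst using Nat.le_induction with
  | base => exact le_rfl
  | succ t hst ih => exact (ih (by omega)).trans (h.eta_step (by omega) ht)

/-- if the deviations up to `i` are nonpositive, we are below Turan -/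
lemma Ch.le_turan (h : Ch r k n) {s : ℕ} (hs : s ≤ r) (hneg : ∀ t < s, xi r k n t ≤ 0) :
    k s ≤ r.choose s * (n / r) ^ s := by
  have hr : (0 : ℝ) < r := by
    have := h.r1
    positivity
  have hn : 0 < n := lt_of_lt_of_le one_pos h.n1
  induction s with
  | zero => rw [h.k0]; simp
  | succ s ih =>
    have h1 := ih (by omega) (fun t ht => hneg t (by omega))
    have h2 := hneg s (by omega)
    have hpos := h.pos s (by omega)
    rw [h.succ_eq (by omega)]
    have hrs : (0 : ℝ) ≤ (r : ℝ) - s := by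
      have : (s : ℝ) ≤ r := by exact_mod_cast (by omega : s ≤ r)
      linarith
    have h3 : k s * (((r : ℝ) - s) / (s + 1) * (n / r) + xi r k n s)
        ≤ (r.choose s * (n / r) ^ s) * (((r : ℝ) - s) / (s + 1) * (n / r)) := by
      calc k s * (((r : ℝ) - s) / (s + 1) * (n / r) + xi r k n s)
          ≤ k s * (((r : ℝ) - s) / (s + 1) * (n / r)) := by
            apply mul_le_mul_of_nonneg_left _ hpos.le
            linarith
        _ ≤ _ := by
            apply mul_le_mul_of_nonneg_right h1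
            positivity
    refine h3.trans (le_of_eq ?_)
    have h4 : ((r.choose (s + 1) : ℕ) : ℝ) * (s + 1) = r.choose s * ((r : ℝ) - s) := by
      have := Nat.choose_succ_right_eq r s
      have h5 : (((r - s : ℕ)) : ℝ) = (r : ℝ) - s := by
        rw [Nat.cast_sub (by omega)]
      rw [← h5]
      exact_mod_cast this
    have h6 : ((r.choose (s + 1) : ℕ) : ℝ) = r.choose s * (((r : ℝ) - s) / (s + 1)) := by
      field_simp
      linarith
    rw [h6, pow_succ]
    ring

lemma choose_succ_real {r s : ℕ} (hs : s ≤ r) :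
    ((r.choose (s + 1) : ℕ) : ℝ) = r.choose s * (((r : ℝ) - s) / (s + 1)) := by
  have h4 : ((r.choose (s + 1) : ℕ) : ℝ) * (s + 1) = r.choose s * ((r : ℝ) - s) := by
    have := Nat.choose_succ_right_eq r s
    have h5 : (((r - s : ℕ)) : ℝ) = (r : ℝ) - s := by
      rw [Nat.cast_sub hs]
    rw [← h5]
    exact_mod_cast this
  field_simp
  linarith

/-- Step 1: the deviation at `i-1` is bounded below. -/
lemma Ch.xi_lower (h : Ch r k n) {i : ℕ} (hi : 1 ≤ i) (hir : i + 1 ≤ r) {C1 : ℝ} (hC1 : 0 ≤ C1)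
    (hk : r.choose (i + 1) * (n / r) ^ (i + 1) - C1 * n ^ i ≤ k (i + 1)) :
    - (C1 * r ^ i) ≤ xi r k n i := by
  have hr : (0 : ℝ) < r := by
    have := h.r1
    positivity
  have hn : 0 < n := lt_of_lt_of_le one_pos h.n1
  by_cases hx : 0 ≤ xi r k n i
  · have : 0 ≤ C1 * r ^ i := by positivity
    linarith
  · push Not at hx
    have hneg : ∀ t < i, xi r k n t ≤ 0 := by
      intro t ht
      by_cases ht0 : t = 0
      · rw [ht0, h.xi_zero]
      · have h1 := h.eta_mono (s := t) (t := i) (by omega) (by omega) (by omega)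
        have h2 : eta r k n i < 0 := by
          unfold eta
          have hi0 : (0 : ℝ) < i := by positivity
          have : 0 < ((i : ℝ) + 1) / i := by positivity
          exact mul_neg_of_pos_of_neg this hx
        have h3 : eta r k n t < 0 := lt_of_le_of_lt h1 h2
        unfold eta at h3
        have ht1 : (0 : ℝ) < t := by
          have : 0 < t := by omega
          positivity
        have h4 : 0 < ((t : ℝ) + 1) / t := by positivity
        by_contra hcon
        push Not at hcon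
        have := mul_pos h4 hcon
        linarith
    have h1 := h.le_turan (s := i) (by omega) hneg
    have hpos := h.pos i (by omega)
    have hpos' := h.pos (i + 1) (by omega)
    have h2 := h.succ_eq (s := i) (by omega)
    have hR : 0 < ((r : ℝ) - i) / (i + 1) * (n / r) + xi r k n i := by
      by_contra hcon
      push Not at hcon
      have := mul_nonpos_of_nonneg_of_nonpos hpos.le hcon
      linarith
    have h3 : k (i + 1) ≤ (r.choose i * (n / r) ^ i)
        * (((r : ℝ) - i) / (i + 1) * (n / r) + xi r k n i) := by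
      rw [h2]
      exact mul_le_mul_of_nonneg_right h1 hR.le
    have h4 := choose_succ_real (r := r) (s := i) (by omega)
    have h5 : (n : ℝ) ^ i = r ^ i * (n / r) ^ i := by
      rw [← mul_pow]
      congr 1
      field_simp
    rw [h4, h5] at hk
    have ha : 0 < (n / r) ^ i := by positivity
    have h6 : (r.choose i : ℝ) * (((r : ℝ) - i) / (i + 1)) * (n / r) ^ (i + 1)
        - C1 * (r ^ i * (n / r) ^ i) ≤ (r.choose i * (n / r) ^ i)
        * (((r : ℝ) - i) / (i + 1) * (n / r) + xi r k n i) := hk.trans h3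
    have h7 : 0 ≤ (n / r) ^ i * (C1 * r ^ i + r.choose i * xi r k n i) := by
      rw [pow_succ] at h6
      nlinarith
    have h8 : 0 ≤ C1 * r ^ i + r.choose i * xi r k n i := by
      by_contra hcon
      push Not at hcon
      have := mul_neg_of_pos_of_neg ha hcon
      linarith
    have h9 : (1 : ℝ) ≤ r.choose i := by
      have : 0 < r.choose i := Nat.choose_pos (by omega)
      exact_mod_cast this
    nlinarith

/-- Step 2 -/
lemma Ch.xi_lower' (h : Ch r k n) {i : ℕ} (hi : 1 ≤ i) {C2 : ℝ} (hC2 : 0 ≤ C2)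
    (hx : - C2 ≤ xi r k n i) {s : ℕ} (hs : i ≤ s) (hsr : s ≤ r) :
    - (2 * C2) ≤ xi r k n s := by
  have h1 := h.eta_mono hi hs hsr
  unfold eta at h1
  have hi0 : (1 : ℝ) ≤ i := by exact_mod_cast hi
  have hs0 : (1 : ℝ) ≤ s := by exact_mod_cast hi.trans hs
  have h2 : ((i : ℝ) + 1) / i ≤ 2 := by
    rw [div_le_iff₀ (by linarith)]
    linarith
  have h3 : 0 < ((i : ℝ) + 1) / i := by positivity
  have h4 : -(2 * C2) ≤ ((i : ℝ) + 1) / i * xi r k n i := by
    nlinarith
  have h5 : 1 ≤ ((s : ℝ) + 1) / s := by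
    rw [le_div_iff₀ (by linarith)]
    linarith
  by_contra hcon
  push Not at hcon
  have h6 : ((s : ℝ) + 1) / s * xi r k n s ≤ 1 * xi r k n s := by
    apply mul_le_mul_of_nonpos_right h5
    linarith
  linarith

/-- Step 5 -/
lemma Ch.xi_upper (h : Ch r k n) {X : ℝ} (hX : 0 ≤ X)
    (hx : xi r k n r ≤ X) {s : ℕ} (hs : s ≤ r) :
    xi r k n s ≤ X := by
  by_cases hs0 : s = 0
  · rw [hs0, h.xi_zero]; exact hX
  have h1 := h.eta_mono (s := s) (t := r) (by omega) hs le_rfl
  unfold eta at h1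
  have hs1 : (0 : ℝ) < s := by
    have : 0 < s := by omega
    positivity
  have hr1 : (0 : ℝ) < r := by
    have := h.r1
    positivity
  have hsr : (s : ℝ) ≤ r := by exact_mod_cast hs
  have h2 : ((r : ℝ) + 1) / r ≤ ((s : ℝ) + 1) / s := by
    rw [div_le_div_iff₀ hr1 hs1]
    nlinarith
  have h3 : 0 < ((r : ℝ) + 1) / r := by positivity
  by_contra hcon
  push Not at hcon
  have h4 : ((r : ℝ) + 1) / r * xi r k n r ≤ ((r : ℝ) + 1) / r * X :=
    mul_le_mul_of_nonneg_left hx h3.le
  have h5 : ((s : ℝ) + 1) / s * X ≤ ((s : ℝ) + 1) / s * xi r k n s := by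
    apply mul_le_mul_of_nonneg_left hcon.le (by positivity)
  have h6 : ((r : ℝ) + 1) / r * X ≤ ((s : ℝ) + 1) / s * X := mul_le_mul_of_nonneg_right h2 hX
  have h7 : ((s : ℝ) + 1) / s * X < ((s : ℝ) + 1) / s * xi r k n s := by
    apply mul_lt_mul_of_pos_left hcon (by positivity)
  linarith

/-- Step 6 -/
lemma Ch.upper (r : ℕ) (X : ℝ) (hX : 0 ≤ X) (s : ℕ) :
    ∃ D : ℝ, 0 ≤ D ∧ ∀ (k : ℕ → ℝ) (n : ℝ), Ch r k n → (∀ t ≤ r, xi r k n t ≤ X) → s + 1 ≤ r →
      k (s + 1) ≤ r.choose (s + 1) * (n / r) ^ (s + 1) + D * n ^ s := by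
  induction s with
  | zero =>
    refine ⟨0, le_rfl, ?_⟩
    intro k n h _ hs
    have hr : (0 : ℝ) < r := by
      have := h.r1
      positivity
    rw [zero_add, h.k1]
    simp only [Nat.choose_one_right, pow_one, zero_mul, add_zero]
    rw [mul_div_cancel₀ _ hr.ne']
  | succ s ih =>
    obtain ⟨D, hD, hih⟩ := ih
    refine ⟨(r.choose (s + 1) : ℝ) * X + D * (r + X), by positivity, ?_⟩
    intro k n h hx hs
    have h1 := hih k n h hx (by omega)
    have hr : (0 : ℝ) < r := by
      have := h.r1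
      positivity
    have hr1 : (1 : ℝ) ≤ r := by exact_mod_cast h.r1
    have hn : 0 < n := lt_of_lt_of_le one_pos h.n1
    have hn1 := h.n1
    have h2 := h.succ_eq (s := s + 1) (by omega)
    have h3 := hx (s + 1) (by omega)
    have hpos := h.pos (s + 1) (by omega)
    have han : n / r ≤ n := by
      rw [div_le_iff₀ hr]; nlinarith
    have ha0 : 0 < n / r := by positivity
    have hq : ((r : ℝ) - (s + 1 : ℕ)) / ((s + 1 : ℕ) + 1) ≤ r := by
      rw [div_le_iff₀ (by positivity)]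
      push_cast
      nlinarith [mul_nonneg hr.le (Nat.cast_nonneg (α := ℝ) s)]
    have hq0 : 0 ≤ ((r : ℝ) - (s + 1 : ℕ)) / ((s + 1 : ℕ) + 1) := by
      apply div_nonneg _ (by positivity)
      have : ((s + 1 : ℕ) : ℝ) ≤ r := by exact_mod_cast (by omega : s + 1 ≤ r)
      linarith
    have h4 : k (s + 1 + 1) ≤ (r.choose (s + 1) * (n / r) ^ (s + 1) + D * n ^ s)
        * (((r : ℝ) - (s + 1 : ℕ)) / ((s + 1 : ℕ) + 1) * (n / r) + X) := by
      rw [h2]
      apply mul_le_mul h1 (by linarith) _ (by positivity)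
      have hpos2 := h.pos (s + 2) (by omega)
      by_contra hcon
      push Not at hcon
      have := mul_neg_of_pos_of_neg hpos hcon
      have e : s + 1 + 1 = s + 2 := rfl
      rw [e] at h2
      linarith
    have h5 := choose_succ_real (r := r) (s := s + 1) (by omega)
    rw [h5]
    refine h4.trans ?_
    have h6 : (n / r) ^ (s + 1) ≤ n ^ (s + 1) := pow_le_pow_left₀ ha0.le han _
    have h7 : D * n ^ s * (((r : ℝ) - (s + 1 : ℕ)) / ((s + 1 : ℕ) + 1) * (n / r) + X)
        ≤ D * n ^ s * ((r + X) * n) := by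
      apply mul_le_mul_of_nonneg_left _ (by positivity)
      have h8 : ((r : ℝ) - (s + 1 : ℕ)) / ((s + 1 : ℕ) + 1) * (n / r) ≤ r * n :=
        mul_le_mul hq han ha0.le hr.le
      nlinarith
    have h9 : (r.choose (s + 1) : ℝ) * (n / r) ^ (s + 1) * X
        ≤ r.choose (s + 1) * X * n ^ (s + 1) := by
      have : (r.choose (s + 1) : ℝ) * X * (n / r) ^ (s + 1) ≤ r.choose (s + 1) * X * n ^ (s + 1) :=
        mul_le_mul_of_nonneg_left h6 (by positivity)
      linarith
    have e1 : (r.choose (s + 1) * (n / r) ^ (s + 1) + D * n ^ s)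
        * (((r : ℝ) - (s + 1 : ℕ)) / ((s + 1 : ℕ) + 1) * (n / r) + X)
        = r.choose (s + 1) * (((r : ℝ) - (s + 1 : ℕ)) / ((s + 1 : ℕ) + 1)) * (n / r) ^ (s + 1 + 1)
          + (r.choose (s + 1) : ℝ) * (n / r) ^ (s + 1) * X
          + D * n ^ s * (((r : ℝ) - (s + 1 : ℕ)) / ((s + 1 : ℕ) + 1) * (n / r) + X) := by
      rw [pow_succ (n / r) (s + 1)]
      ring
    rw [e1]
    have e2 : D * n ^ s * ((r + X) * n) = D * (r + X) * n ^ (s + 1) := by
      rw [pow_succ]; ring
    rw [e2] at h7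
    linarith

end Pool.Agent.H44
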