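import Pool.Agent.H44.Chain

/-!
Consequences of the Moon-Moser chain for sequences close to the Turan value.
-/

namespace Pool.Agent.H44

open Finset

variable {r : ℕ} {k : ℕ → ℝ} {n : ℝ}

/-- Step 3 -/
lemma Ch.k_lower (h : Ch r k n) {i : ℕ} {C2 : ℝ}
    (hx : ∀ s, i ≤ s → s ≤ r → - C2 ≤ xi r k n s)
    (hk : (1 / 2 : ℝ) * (n / r) ^ (i + 1) ≤ k (i + 1)) (hn : 2 * r ^ 2 * C2 ≤ n)
    {s : ℕ} (hs : i + 1 ≤ s) (hsr : s ≤ r) :
    (1 / 2 : ℝ) * (n / (2 * r ^ 2)) ^ s ≤ k s := by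
  have hr : (0 : ℝ) < r := by
    have := h.r1
    positivity
  have hr1 : (1 : ℝ) ≤ r := by exact_mod_cast h.r1
  have hn0 : 0 < n := lt_of_lt_of_le one_pos h.n1
  induction s, hs using Nat.le_induction with
  | base =>
    refine le_trans ?_ hk
    apply mul_le_mul_of_nonneg_left _ (by norm_num)
    apply pow_le_pow_left₀ (by positivity)
    rw [div_le_div_iff₀ (by positivity) hr]
    apply mul_le_mul_of_nonneg_left _ hn0.le
    nlinarith
  | succ s hs ih =>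
    have h1 := ih (by omega)
    have h2 := h.succ_eq (s := s) (by omega)
    have h3 := hx s (by omega) (by omega)
    have hrs : (1 : ℝ) ≤ (r : ℝ) - s := by
      have : ((s + 1 : ℕ) : ℝ) ≤ r := by exact_mod_cast hsr
      push_cast at this
      linarith
    have hs1 : (s : ℝ) + 1 ≤ r := by linarith
    have h4 : (1 : ℝ) / r ≤ ((r : ℝ) - s) / (s + 1) := by
      rw [div_le_div_iff₀ hr (by positivity)]
      have h9 : (1 : ℝ) * r ≤ ((r : ℝ) - s) * r := mul_le_mul_of_nonneg_right hrs hr.le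
      linarith
    have h5 : n / (2 * r ^ 2) ≤ ((r : ℝ) - s) / (s + 1) * (n / r) + xi r k n s := by
      have h6 : 1 / r * (n / r) ≤ ((r : ℝ) - s) / (s + 1) * (n / r) :=
        mul_le_mul_of_nonneg_right h4 (by positivity)
      have h7 : C2 ≤ n / (2 * r ^ 2) := by
        rw [le_div_iff₀ (by positivity)]; linarith
      have h8 : 1 / r * (n / r) = n / (2 * r ^ 2) + n / (2 * r ^ 2) := by
        field_simp; ring
      linarith
    rw [h2, pow_succ, ← mul_assoc]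
    apply mul_le_mul h1 h5 (by positivity) (h.pos s (by omega)).le

/-- Summary of the chain. -/
theorem chain_main (r i : ℕ) (hi : 1 ≤ i) (hir : i + 1 ≤ r) (C1 C3 : ℝ) (hC1 : 0 ≤ C1)
    (hC3 : 0 ≤ C3) :
    ∃ C c N : ℝ, 0 ≤ C ∧ 0 < c ∧ 0 ≤ N ∧ ∀ (k : ℕ → ℝ) (n : ℝ), Ch r k n → N ≤ n →
      r.choose (i + 1) * (n / r) ^ (i + 1) - C1 * n ^ i ≤ k (i + 1) →
      k (r + 1) ≤ (r + 2) * k r + C3 * n ^ (r - 1) →
      (∀ s ≤ r, xi r k n s ≤ r + 3) ∧ (∀ s, i ≤ s → s ≤ r → - C ≤ xi r k n s) ∧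
      c * n ^ r ≤ k r ∧ k r ≤ (n / r) ^ r + C * n ^ (r - 1) ∧
      r.choose i * (n / r) ^ i - C * n ^ (i - 1) ≤ k i ∧
      (∀ B : ℝ, ((r : ℝ) ^ 2) * (k r) ^ 2 + k (r - 1) * B
        ≤ k (r - 1) * (n * k r + ((r : ℝ) - 1) * (r + 1) * k (r + 1)) → B ≤ C * k r) := by
  set C2 : ℝ := 2 * (C1 * r ^ i) with hC2def
  have hr0 : (0 : ℝ) < r := by
    have : 0 < r := by omega
    positivity
  have hr1 : (1 : ℝ) ≤ r := by exact_mod_cast (by omega : 1 ≤ r)
  have hC2 : 0 ≤ C2 := by positivity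
  set c : ℝ := (1 / 2) * (1 / (2 * r ^ 2)) ^ r with hc
  have hcpos : 0 < c := by positivity
  obtain ⟨r', rfl⟩ : ∃ r', r = r' + 1 := ⟨r - 1, by omega⟩
  obtain ⟨i', rfl⟩ : ∃ i', i = i' + 1 := ⟨i - 1, by omega⟩
  obtain ⟨D, hD, hup⟩ := Ch.upper (r' + 1) ((r' + 1 : ℕ) + 3) (by positivity) r'
  set X : ℝ := ((r' + 1 : ℕ) : ℝ) + 3 with hX
  have hX0 : 0 < X := by positivity
  set ch : ℝ := ((r' + 1).choose (i' + 1) : ℝ) with hch
  have hch0 : 0 ≤ ch := by positivity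
  set C : ℝ := C2 + D + (((r' + 1 : ℕ) : ℝ) ^ 2 * (ch * X + C1))
    + ((((r' + 1 : ℕ) : ℝ)) ^ 2 * (C2 + X)) with hC
  refine ⟨C, c, 2 * ((r' + 1 : ℕ) : ℝ) ^ 2 * C2 + 2 * C1 * ((r' + 1 : ℕ) : ℝ) ^ (i' + 2) + C3 / c,
    by positivity, hcpos, by positivity, ?_⟩
  intro k n h hN hk hk1
  have hn0 : 0 < n := lt_of_lt_of_le one_pos h.n1
  have hn1 := h.n1
  have hN1 : 2 * ((r' + 1 : ℕ) : ℝ) ^ 2 * C2 ≤ n := by
    have h1 : 0 ≤ 2 * C1 * ((r' + 1 : ℕ) : ℝ) ^ (i' + 2) := by positivity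
    have h2 : 0 ≤ C3 / c := by positivity
    linarith
  have hN2 : 2 * C1 * ((r' + 1 : ℕ) : ℝ) ^ (i' + 2) ≤ n := by
    have h1 : 0 ≤ 2 * ((r' + 1 : ℕ) : ℝ) ^ 2 * C2 := by positivity
    have h2 : 0 ≤ C3 / c := by positivity
    linarith
  have hN3 : C3 / c ≤ n := by
    have h1 : 0 ≤ 2 * ((r' + 1 : ℕ) : ℝ) ^ 2 * C2 := by positivity
    have h2 : 0 ≤ 2 * C1 * ((r' + 1 : ℕ) : ℝ) ^ (i' + 2) := by positivity
    linarith
  -- Step 1, 2
  have s1 := h.xi_lower (i := i' + 1) hi hir hC1 hk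
  have s2 : ∀ s, i' + 1 ≤ s → s ≤ r' + 1 → - C2 ≤ xi (r' + 1) k n s := by
    intro s hs hsr
    have := h.xi_lower' hi (by positivity) s1 hs hsr
    exact this
  -- half Turan
  have s3a : (1 / 2 : ℝ) * (n / ((r' + 1 : ℕ) : ℝ)) ^ (i' + 1 + 1) ≤ k (i' + 1 + 1) := by
    refine le_trans ?_ hk
    have h1 : (1 : ℝ) ≤ (r' + 1).choose (i' + 1 + 1) := by
      have : 0 < (r' + 1).choose (i' + 1 + 1) := Nat.choose_pos (by omega)
      exact_mod_cast this
    have h2 : C1 * n ^ (i' + 1) ≤ (1 / 2 : ℝ) * (n / ((r' + 1 : ℕ) : ℝ)) ^ (i' + 1 + 1) := by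
      rw [div_pow, mul_div_assoc', le_div_iff₀ (by positivity)]
      have : C1 * n ^ (i' + 1) * ((r' + 1 : ℕ) : ℝ) ^ (i' + 1 + 1)
          = (1 / 2) * n ^ (i' + 1) * (2 * C1 * ((r' + 1 : ℕ) : ℝ) ^ (i' + 2)) := by ring
      rw [this]
      calc (1 / 2) * n ^ (i' + 1) * (2 * C1 * ((r' + 1 : ℕ) : ℝ) ^ (i' + 2))
          ≤ (1 / 2) * n ^ (i' + 1) * n := mul_le_mul_of_nonneg_left hN2 (by positivity)
        _ = 1 / 2 * n ^ (i' + 1 + 1) := by rw [pow_succ n (i' + 1)]; ring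
    have h3 : 0 ≤ (n / ((r' + 1 : ℕ) : ℝ)) ^ (i' + 1 + 1) := by positivity
    have h4 := mul_le_mul_of_nonneg_right h1 h3
    linarith
  have s3 : c * n ^ (r' + 1) ≤ k (r' + 1) := by
    have := h.k_lower s2 s3a hN1 (s := r' + 1) hir le_rfl
    refine le_trans (le_of_eq ?_) this
    rw [hc, mul_assoc, ← mul_pow]
    congr 2
    field_simp
  -- Step 4
  have s4 : xi (r' + 1) k n (r' + 1) ≤ X := by
    unfold xi
    have hpos := h.pos (r' + 1) (by omega)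
    rw [sub_self, zero_div, zero_mul, sub_zero, div_le_iff₀ hpos]
    refine hk1.trans ?_
    have h1 : C3 * n ^ (r' + 1 - 1) ≤ k (r' + 1) := by
      refine le_trans ?_ s3
      rw [Nat.add_sub_cancel, pow_succ]
      have h2 : C3 ≤ c * n := by
        rw [div_le_iff₀ hcpos] at hN3; linarith
      have h3 : 0 ≤ n ^ r' := by positivity
      have h4 := mul_le_mul_of_nonneg_right h2 h3
      have e5 : c * (n ^ r' * n) = c * n * n ^ r' := by ring
      rw [e5]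
      exact h4
    rw [hX]
    linarith
  have s5 : ∀ s ≤ r' + 1, xi (r' + 1) k n s ≤ X := fun s hs => h.xi_upper hX0.le s4 hs
  have s6 := hup k n h s5 le_rfl
  rw [Nat.choose_self, Nat.cast_one, one_mul] at s6
  have hCD : D ≤ C := by
    rw [hC]
    have h1 : 0 ≤ ((r' + 1 : ℕ) : ℝ) ^ 2 * (ch * X + C1) := by positivity
    have h2 : 0 ≤ (((r' + 1 : ℕ) : ℝ)) ^ 2 * (C2 + X) := by positivity
    linarith
  have hCC2 : C2 ≤ C := by
    rw [hC]
    have h1 : 0 ≤ ((r' + 1 : ℕ) : ℝ) ^ 2 * (ch * X + C1) := by positivity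
    have h2 : 0 ≤ (((r' + 1 : ℕ) : ℝ)) ^ 2 * (C2 + X) := by positivity
    linarith
  have hCE : ((r' + 1 : ℕ) : ℝ) ^ 2 * (ch * X + C1) ≤ C := by
    rw [hC]
    have h2 : 0 ≤ (((r' + 1 : ℕ) : ℝ)) ^ 2 * (C2 + X) := by positivity
    linarith
  have hCF : (((r' + 1 : ℕ) : ℝ)) ^ 2 * (C2 + X) ≤ C := by
    rw [hC]
    have h2 : 0 ≤ ((r' + 1 : ℕ) : ℝ) ^ 2 * (ch * X + C1) := by positivity
    linarith
  refine ⟨s5, ?_, s3, ?_, ?_, ?_⟩
  · intro s hs hsr
    have := s2 s hs hsr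
    linarith
  · refine s6.trans ?_
    rw [Nat.add_sub_cancel]
    have : D * n ^ r' ≤ C * n ^ r' := mul_le_mul_of_nonneg_right hCD (by positivity)
    linarith
  · -- Step 7
    rw [Nat.add_sub_cancel]
    have hpos := h.pos (i' + 1) (by omega)
    have h1 := h.succ_eq (s := i' + 1) (by omega)
    have h2 := s5 (i' + 1) (by omega)
    set ρ : ℝ := (((r' + 1 : ℕ) : ℝ) - (i' + 1 : ℕ)) / ((i' + 1 : ℕ) + 1) with hρ
    have hρ1 : 1 / ((r' + 1 : ℕ) : ℝ) ≤ ρ := by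
      rw [hρ, div_le_div_iff₀ hr0 (by positivity)]
      have h6 : ((i' + 1 + 1 : ℕ) : ℝ) ≤ ((r' + 1 : ℕ) : ℝ) := by exact_mod_cast hir
      push_cast at h6 ⊢
      have h7 : (1 : ℝ) ≤ (r' : ℝ) + 1 - (i' + 1) := by linarith
      have h8 : (1 : ℝ) * (r' + 1) ≤ ((r' : ℝ) + 1 - (i' + 1)) * (r' + 1) :=
        mul_le_mul_of_nonneg_right h7 (by positivity)
      linarith
    have hρ0 : 0 < ρ := lt_of_lt_of_le (by positivity) hρ1
    set a : ℝ := n / ((r' + 1 : ℕ) : ℝ) with ha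
    have ha0 : 0 < a := by positivity
    have h3 : k (i' + 1 + 1) ≤ k (i' + 1) * (ρ * a + X) := by
      rw [h1]
      apply mul_le_mul_of_nonneg_left _ hpos.le
      linarith
    have h4 := choose_succ_real (r := r' + 1) (s := i' + 1) (by omega)
    rw [← hρ] at h4
    have h5 : (ch * a ^ (i' + 1) - C * n ^ i') * (ρ * a + X)
        ≤ ch * ρ * a ^ (i' + 1 + 1) - C1 * n ^ (i' + 1) := by
      have h6 : C * n ^ i' * (ρ * a) ≥ ch * a ^ (i' + 1) * X + C1 * n ^ (i' + 1) := by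
        have h7 : 1 / ((r' + 1 : ℕ) : ℝ) * a ≤ ρ * a := mul_le_mul_of_nonneg_right hρ1 ha0.le
        have h8 : 1 / ((r' + 1 : ℕ) : ℝ) * a = n / ((r' + 1 : ℕ) : ℝ) ^ 2 := by
          rw [ha]; field_simp
        have h9 : C * n ^ i' * (n / ((r' + 1 : ℕ) : ℝ) ^ 2) ≤ C * n ^ i' * (ρ * a) := by
          rw [← h8]
          apply mul_le_mul_of_nonneg_left h7 (by positivity)
        have h10 : (((r' + 1 : ℕ) : ℝ) ^ 2 * (ch * X + C1)) * n ^ i'
            * (n / ((r' + 1 : ℕ) : ℝ) ^ 2) ≤ C * n ^ i' * (n / ((r' + 1 : ℕ) : ℝ) ^ 2) := by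
          apply mul_le_mul_of_nonneg_right _ (by positivity)
          apply mul_le_mul_of_nonneg_right hCE (by positivity)
        have h11 : (((r' + 1 : ℕ) : ℝ) ^ 2 * (ch * X + C1)) * n ^ i'
            * (n / ((r' + 1 : ℕ) : ℝ) ^ 2) = (ch * X + C1) * n ^ (i' + 1) := by
          rw [pow_succ n i']; field_simp
        have h12 : a ^ (i' + 1) ≤ n ^ (i' + 1) := by
          apply pow_le_pow_left₀ ha0.le
          rw [ha, div_le_iff₀ hr0]
          exact le_mul_of_one_le_right hn0.le hr1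
        have h13 : ch * X * a ^ (i' + 1) ≤ ch * X * n ^ (i' + 1) :=
          mul_le_mul_of_nonneg_left h12 (by positivity)
        have e1 : (ch * X + C1) * n ^ (i' + 1) = ch * X * n ^ (i' + 1) + C1 * n ^ (i' + 1) := by
          ring
        have e2 : ch * a ^ (i' + 1) * X = ch * X * a ^ (i' + 1) := by ring
        rw [h11, e1] at h10
        rw [e2]
        linarith
      have h14 : 0 ≤ C * n ^ i' * X := by positivity
      have h15 : (ch * a ^ (i' + 1) - C * n ^ i') * (ρ * a + X)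
          = ch * ρ * a ^ (i' + 1 + 1) + ch * a ^ (i' + 1) * X - C * n ^ i' * (ρ * a)
            - C * n ^ i' * X := by
        rw [pow_succ a (i' + 1)]; ring
      rw [h15]
      linarith
    rw [h4] at hk
    have h16 : (ch * a ^ (i' + 1) - C * n ^ i') * (ρ * a + X) ≤ k (i' + 1) * (ρ * a + X) :=
      h5.trans (hk.trans h3)
    exact le_of_mul_le_mul_right h16 (by positivity)
  · intro B hB
    have hposr := h.pos (r' + 1) (by omega)
    rw [Nat.add_sub_cancel] at hB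
    have h1 : ((r' : ℝ) + 1) ^ 2 * (k (r' + 1)) ^ 2 + k r' * B
        ≤ k r' * (n * k (r' + 1) + r' * (r' + 2) * k (r' + 2)) := by
      push_cast at hB
      have e1 : ((r' : ℝ) + 1 - 1) * (r' + 1 + 1) = r' * (r' + 2) := by ring
      rw [e1] at hB
      exact hB
    have h2 := h.xi_step_gen le_rfl h1
    have h3 := s2 r'
    have h3' : - C2 ≤ xi (r' + 1) k n r' := h3 (by omega) (by omega)
    have h4 := s4
    have h5 : B / k (r' + 1) ≤ C := by
      refine le_trans ?_ hCF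
      push_cast
      have h6 : ((r' : ℝ) + 1) ^ 2 * (- C2) ≤ ((r' : ℝ) + 1) ^ 2 * xi (r' + 1) k n r' :=
        mul_le_mul_of_nonneg_left h3' (by positivity)
      have h7 : (r' : ℝ) * (r' + 2) * xi (r' + 1) k n (r' + 1) ≤ (r' : ℝ) * (r' + 2) * X :=
        mul_le_mul_of_nonneg_left h4 (by positivity)
      have h8 : (r' : ℝ) * (r' + 2) * X ≤ ((r' : ℝ) + 1) ^ 2 * X := by
        apply mul_le_mul_of_nonneg_right _ hX0.le
        have e3 : ((r' : ℝ) + 1) ^ 2 = (r' : ℝ) * (r' + 2) + 1 := by ring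
        linarith
      have e4 : ((r' : ℝ) + 1) ^ 2 * (C2 + X) = ((r' : ℝ) + 1) ^ 2 * X
        - ((r' : ℝ) + 1) ^ 2 * (- C2) := by ring
      rw [e4]
      linarith
    rwa [div_le_iff₀ hposr] at h5

end Pool.Agent.H44
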