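import Pool.Agent.H44.Counting

/-!
Local structure of flag Eulerian complexes near faces of small codimension.
-/

namespace Pool.Agent.H44

open Finset Polynomial

set_option linter.unusedSectionVars false

variable {V : Type*} [Fintype V] [DecidableEq V]
variable {G : SimpleGraph V} [DecidableRel G.Adj] {d : ℕ}

lemma cn_insert {S : Finset V} {x : V} : cn G (insert x S) = cn G S ∩ cn G {x} := by
  ext w
  simp only [mem_cn, mem_insert, forall_eq_or_imp, mem_inter, mem_singleton, forall_eq]
  tauto

lemma card_le_of_cl_cn (hE : Eul G d) {s : Finset V} (hs : G.IsClique (s : Set V))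
    {t : Finset V} (ht : t ∈ cl G (cn G s)) : s.card + t.card ≤ d := by
  rw [mem_cl] at ht
  have := hE.card_le _ (isClique_union_of_subset_cn hs ht.2 ht.1)
  rwa [card_union_of_disjoint (disjoint_of_subset_cn ht.1)] at this

lemma euler_sum (hE : Eul G d) {s : Finset V} (hs : G.IsClique (s : Set V)) {N : ℕ}
    (hN : d = s.card + N) :
    ∑ i ∈ range (N + 1), (-1 : ℤ) ^ i * ((Kc G (cn G s) i).card : ℤ) = (-1) ^ N := by
  have h0 : (∅ : Finset V) ∈ cl G (cn G s) := by rw [mem_cl]; simp
  have h1 := euler_link hE hs h0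
  have h2 : (cl G (cn G s)).filter (fun t => ∅ ⊆ t) = cl G (cn G s) := by
    apply Finset.filter_true_of_mem
    intro t _; exact empty_subset t
  rw [h2] at h1
  have h3 : d - s.card = N := by omega
  rw [h3] at h1
  rw [← h1, ← Finset.sum_fiberwise_of_maps_to (g := fun s : Finset V => s.card)
    (t := range (N + 1))]
  · apply Finset.sum_congr rfl
    intro i _
    have : (cl G (cn G s)).filter (fun t => t.card = i) = Kc G (cn G s) i := rfl
    rw [this, Finset.sum_congr rfl (fun t ht => by rw [(mem_Kc.1 ht).2.2]), Finset.sum_const,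
      nsmul_eq_mul, mul_comm]
  · intro t ht
    rw [mem_range]
    have := card_le_of_cl_cn hE hs ht
    omega

/-- codimension one faces lie in exactly two facets. -/
lemma card_cn_two (hE : Eul G d) {s : Finset V} (hs : G.IsClique (s : Set V))
    (hd : d = s.card + 1) : (cn G s).card = 2 := by
  have h := euler_sum hE hs hd
  rw [Finset.sum_range_succ, Finset.sum_range_succ, Finset.sum_range_zero, Kc_zero,
    Kc_one_card] at h
  simp at h
  omega

lemma not_adj_cn (hE : Eul G d) {s : Finset V} (hs : G.IsClique (s : Set V))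
    (hd : d = s.card + 1) {x y : V} (hx : x ∈ cn G s) (hy : y ∈ cn G s) : ¬ G.Adj x y := by
  intro hxy
  have h1 := isClique_insert_of_mem_cn hs hx
  have hy' : y ∈ cn G (insert x s) := by
    rw [cn_insert, mem_inter, mem_cn]
    refine ⟨mem_cn.1 hy, ?_⟩
    rw [mem_cn]
    intro z hz
    rw [mem_singleton] at hz
    subst hz
    exact hxy.symm
  have h2 := isClique_insert_of_mem_cn h1 hy'
  have h3 := hE.card_le _ h2
  rw [card_insert_of_notMem (not_mem_of_mem_cn hy'), card_insert_of_notMem
    (not_mem_of_mem_cn hx)] at h3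
  omega

/-- every clique with fewer than `d` vertices has a common neighbour. -/
lemma cn_nonempty (hE : Eul G d) {s : Finset V} (hs : G.IsClique (s : Set V))
    (hd : s.card < d) : (cn G s).Nonempty := by
  obtain ⟨t, hst, ht, htc⟩ := hE.pure s hs
  have : ∃ x ∈ t, x ∉ s := by
    by_contra hcon
    push Not at hcon
    have := card_le_card (show t ⊆ s from hcon)
    omega
  obtain ⟨x, hx, hxs⟩ := this
  refine ⟨x, ?_⟩
  rw [mem_cn]
  intro y hy
  refine ht (by exact_mod_cast hx) (by exact_mod_cast hst hy) ?_
  rintro rfl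
  exact hxs hy

/-- for `|s| = d - 2` the link is 2-regular. -/
lemma card_cn_insert_two (hE : Eul G d) {s : Finset V} (hs : G.IsClique (s : Set V))
    (hd : d = s.card + 2) {w : V} (hw : w ∈ cn G s) : (cn G (insert w s)).card = 2 := by
  apply card_cn_two hE (isClique_insert_of_mem_cn hs hw)
  rw [card_insert_of_notMem (not_mem_of_mem_cn hw)]
  omega

/-- for `|s| = d - 2` the link has at least four vertices. -/
lemma four_le_card_cn (hE : Eul G d) {s : Finset V} (hs : G.IsClique (s : Set V))
    (hd : d = s.card + 2) : 4 ≤ (cn G s).card := by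
  obtain ⟨w, hw⟩ := cn_nonempty hE hs (by omega)
  have hws := isClique_insert_of_mem_cn hs hw
  have hwc : d = (insert w s).card + 1 := by
    rw [card_insert_of_notMem (not_mem_of_mem_cn hw)]; omega
  have h2 := card_cn_insert_two hE hs hd hw
  obtain ⟨x, y, hxy, hxy'⟩ := Finset.card_eq_two.1 h2
  have hx : x ∈ cn G (insert w s) := by rw [hxy']; simp
  have hy : y ∈ cn G (insert w s) := by rw [hxy']; simp
  have hnxy : ¬ G.Adj x y := not_adj_cn hE hws hwc hx hy
  have hxs : x ∈ cn G s := cn_anti (subset_insert _ _) hx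
  have hys : y ∈ cn G s := cn_anti (subset_insert _ _) hy
  have hwx : G.Adj x w := mem_cn.1 hx w (mem_insert_self _ _)
  have hwy : G.Adj y w := mem_cn.1 hy w (mem_insert_self _ _)
  have h3 := card_cn_insert_two hE hs hd hxs
  have hwx' : w ∈ cn G (insert x s) := by
    rw [cn_insert, mem_inter]
    refine ⟨hw, ?_⟩
    rw [mem_cn]; intro z hz; rw [mem_singleton] at hz; subst hz; exact hwx.symm
  obtain ⟨z, hz, hzw⟩ : ∃ z ∈ cn G (insert x s), z ≠ w := by
    by_contra hcon
    push Not at hcon
    have : cn G (insert x s) ⊆ {w} := fun z hz => mem_singleton.2 (hcon z hz)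
    have := card_le_card this
    rw [h3] at this
    simp at this
  have hzs : z ∈ cn G s := cn_anti (subset_insert _ _) hz
  have hzx : G.Adj z x := mem_cn.1 hz x (mem_insert_self _ _)
  have hzy : z ≠ y := by rintro rfl; exact hnxy hzx.symm
  have hsub : ({w, x, y, z} : Finset V) ⊆ cn G s := by
    intro a ha
    simp only [mem_insert, mem_singleton] at ha
    rcases ha with rfl | rfl | rfl | rfl
    · exact hw
    · exact hxs
    · exact hys
    · exact hzs
  have hcard : ({w, x, y, z} : Finset V).card = 4 := by
    have h1 : w ≠ x := (G.ne_of_adj hwx).symm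
    have h2 : w ≠ y := (G.ne_of_adj hwy).symm
    have h4 : x ≠ z := (G.ne_of_adj hzx).symm
    rw [card_insert_of_notMem, card_insert_of_notMem, card_insert_of_notMem, card_singleton]
    · simp [hzy.symm]
    · simp [hxy, h4]
    · simp [h1, h2, hzw.symm]
  rw [← hcard]
  exact card_le_card hsub

/-- for `|s| = d - 3` the link is a graph with `3v - 6` edges. -/
lemma edges_cn (hE : Eul G d) {s : Finset V} (hs : G.IsClique (s : Set V))
    (hd : d = s.card + 3) :
    ((Kc G (cn G s) 2).card : ℤ) = 3 * (cn G s).card - 6 := by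
  have h := euler_sum hE hs hd
  have h3 : 3 * (Kc G (cn G s) 3).card = 2 * (Kc G (cn G s) 2).card := by
    have h4 := sum_Kc_card (G := G) (A := cn G s) 2
    rw [← h4, mul_comm 2, ← smul_eq_mul, ← Finset.sum_const]
    apply Finset.sum_congr rfl
    intro S hS
    rw [mem_Kc] at hS
    have h5 : cn G S ∩ cn G s = cn G (s ∪ S) := by rw [cn_union, inter_comm]
    rw [h5]
    apply card_cn_two hE (isClique_union_of_subset_cn hs hS.2.1 hS.1)
    rw [card_union_of_disjoint (disjoint_of_subset_cn hS.1), hS.2.2]
    omega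
  rw [Finset.sum_range_succ, Finset.sum_range_succ, Finset.sum_range_succ, Finset.sum_range_succ,
    Finset.sum_range_zero, Kc_zero, Kc_one_card] at h
  simp at h
  have h3' : (3 : ℤ) * (Kc G (cn G s) 3).card = 2 * (Kc G (cn G s) 2).card := by
    exact_mod_cast h3
  linarith

/-- for `|s| = d - 3` the link has minimum degree at least four. -/
lemma four_le_degree (hE : Eul G d) {s : Finset V} (hs : G.IsClique (s : Set V))
    (hd : d = s.card + 3) {w : V} (hw : w ∈ cn G s) : 4 ≤ (cn G (insert w s)).card := by
  apply four_le_card_cn hE (isClique_insert_of_mem_cn hs hw)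
  rw [card_insert_of_notMem (not_mem_of_mem_cn hw)]
  omega

end Pool.Agent.H44
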