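import Pool.Agent.H44.Counting

/-!
The Moon-Moser identity.
-/

namespace Pool.Agent.H44

open Finset

set_option linter.unusedSectionVars false

variable {V : Type*} [Fintype V] [DecidableEq V]

/-- the elements of `t` not adjacent to `w` -/
def miss (G : SimpleGraph V) [DecidableRel G.Adj] (w : V) (t : Finset V) : Finset V :=
  t.filter (fun x => ¬ G.Adj w x)

/-- the vertices missing at least two elements of `t` -/
def bad (G : SimpleGraph V) [DecidableRel G.Adj] (t : Finset V) : Finset V :=
  univ.filter (fun w => 2 ≤ (miss G w t).card)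

variable {G : SimpleGraph V} [DecidableRel G.Adj]

lemma mem_miss {w x : V} {t : Finset V} : x ∈ miss G w t ↔ x ∈ t ∧ ¬ G.Adj w x := by
  simp [miss]

lemma mem_bad {w : V} {t : Finset V} : w ∈ bad G t ↔ 2 ≤ (miss G w t).card := by
  simp [bad]

lemma mem_cn_iff_miss {w : V} {t : Finset V} : w ∈ cn G t ↔ miss G w t = ∅ := by
  rw [mem_cn, Finset.eq_empty_iff_forall_notMem]
  constructor
  · intro h x hx
    rw [mem_miss] at hx
    exact hx.2 (h x hx.1)
  · intro h x hx
    by_contra hn
    exact h x (mem_miss.2 ⟨hx, hn⟩)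

lemma mem_cn_erase_iff_miss {w x : V} {t : Finset V} :
    w ∈ cn G (t.erase x) ↔ miss G w t ⊆ {x} := by
  rw [mem_cn]
  constructor
  · intro h y hy
    rw [mem_miss] at hy
    rw [mem_singleton]
    by_contra hn
    exact hy.2 (h y (mem_erase.2 ⟨hn, hy.1⟩))
  · intro h y hy
    rw [mem_erase] at hy
    by_contra hn
    exact hy.1 (mem_singleton.1 (h (mem_miss.2 ⟨hy.2, hn⟩)))

lemma count_aux {t D : Finset V} (hD : D ⊆ t) {s : ℕ} (ht : t.card = s + 1) :
    (t.filter (fun x => D ⊆ {x})).card + (if 2 ≤ D.card then 1 else 0)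
      = 1 + (if D = ∅ then s else 0) := by
  by_cases h0 : D = ∅
  · subst h0
    simp [ht, add_comm]
  · by_cases h2 : 2 ≤ D.card
    · rw [if_pos h2, if_neg h0]
      have : t.filter (fun x => D ⊆ {x}) = ∅ := by
        apply filter_eq_empty_iff.2
        intro x _ hx
        have := card_le_card hx
        rw [card_singleton] at this
        omega
      rw [this]; simp
    · rw [if_neg h2, if_neg h0]
      have h1 : D.card = 1 := by
        have := card_pos.2 (nonempty_iff_ne_empty.2 h0)
        omega
      obtain ⟨y, hy⟩ := card_eq_one.1 h1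
      have : t.filter (fun x => D ⊆ {x}) = {y} := by
        ext x
        rw [mem_filter, mem_singleton, hy, singleton_subset_iff, mem_singleton]
        constructor
        · rintro ⟨_, h⟩; exact h.symm
        · rintro rfl
          exact ⟨hD (by rw [hy]; simp), rfl⟩
      rw [this]; simp

lemma sum_card_cn_erase {t : Finset V} {s : ℕ} (ht : t.card = s + 1) :
    ∑ x ∈ t, (cn G (t.erase x)).card + (bad G t).card
      = Fintype.card V + s * (cn G t).card := by
  have h1 : ∑ x ∈ t, (cn G (t.erase x)).card
      = ∑ w : V, (t.filter (fun x => miss G w t ⊆ {x})).card := by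
    simp only [card_filter]
    rw [Finset.sum_comm]
    apply sum_congr rfl
    intro x _
    rw [← card_filter]
    congr 1
    ext w
    rw [mem_filter]
    simp only [mem_univ, true_and]
    exact mem_cn_erase_iff_miss
  have h2 : (bad G t).card = ∑ w : V, (if 2 ≤ (miss G w t).card then 1 else 0) := by
    unfold bad
    rw [card_filter]
  have h3 : s * (cn G t).card = ∑ w : V, (if miss G w t = ∅ then s else 0) := by
    rw [← sum_filter, sum_const, smul_eq_mul, mul_comm]
    congr 2
    ext w
    simp only [mem_filter, mem_univ, true_and]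
    exact mem_cn_iff_miss
  rw [h1, h2, h3, ← sum_add_distrib]
  have h4 : ∀ w : V, (t.filter (fun x => miss G w t ⊆ {x})).card
      + (if 2 ≤ (miss G w t).card then 1 else 0) = 1 + (if miss G w t = ∅ then s else 0) :=
    fun w => count_aux (filter_subset _ _) ht
  rw [sum_congr rfl (fun w _ => h4 w), sum_add_distrib, sum_const, card_univ, smul_eq_mul, mul_one]

/-- The Moon-Moser identity. -/
theorem moon_moser (s : ℕ) :
    ∑ S ∈ Kc G univ s, (cn G S).card ^ 2 + ∑ t ∈ Kc G univ (s + 1), (bad G t).card
      = Fintype.card V * (Kc G univ (s + 1)).card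
        + s * (s + 2) * (Kc G univ (s + 2)).card := by
  have h1 := sum_Kc_succ (G := G) univ s (fun S _ => (cn G S).card)
  have h2 : ∑ S ∈ Kc G univ s, ∑ x ∈ cn G S ∩ univ, (cn G S).card
      = ∑ S ∈ Kc G univ s, (cn G S).card ^ 2 := by
    apply sum_congr rfl
    intro S _
    rw [inter_univ, sum_const, smul_eq_mul, sq]
  rw [h2] at h1
  rw [← h1, ← sum_add_distrib]
  have h3 : ∀ t ∈ Kc G univ (s + 1), (∑ x ∈ t, (cn G (t.erase x)).card + (bad G t).card)
      = Fintype.card V + s * (cn G t).card := by
    intro t ht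
    exact sum_card_cn_erase (mem_Kc.1 ht).2.2
  rw [sum_congr rfl h3, sum_add_distrib, sum_const, smul_eq_mul, ← mul_sum]
  have h4 := sum_Kc_card (G := G) (A := univ) (s + 1)
  simp only [inter_univ] at h4
  rw [h4]
  ring

end Pool.Agent.H44
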