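import Pool.Agent.H44.Chain2
import Pool.Agent.H44.MoonMoser
import Pool.Agent.H44.Local

/-!
The face numbers of a flag Eulerian complex satisfy the Moon-Moser chain.
-/

namespace Pool.Agent.H44

open Finset

set_option linter.unusedSectionVars false

variable {V : Type*} [Fintype V] [DecidableEq V]

/-- real face numbers -/
noncomputable def kr (G : SimpleGraph V) [DecidableRel G.Adj] (s : ℕ) : ℝ :=
  ((Kc G univ s).card : ℝ)

/-- sum of squares of the sizes of the common neighbourhoods -/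
noncomputable def sq2 (G : SimpleGraph V) [DecidableRel G.Adj] (s : ℕ) : ℝ :=
  ∑ S ∈ Kc G univ s, ((cn G S).card : ℝ) ^ 2

/-- total number of bad pairs -/
noncomputable def btot (G : SimpleGraph V) [DecidableRel G.Adj] (s : ℕ) : ℝ :=
  ∑ t ∈ Kc G univ s, ((bad G t).card : ℝ)

variable {G : SimpleGraph V} [DecidableRel G.Adj] {d : ℕ}

lemma moon_moser_real (s : ℕ) :
    sq2 G s + btot G (s + 1)
      = (Fintype.card V : ℝ) * kr G (s + 1) + s * (s + 2) * kr G (s + 2) := by
  have h := moon_moser (G := G) s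
  unfold sq2 btot kr
  exact_mod_cast h

lemma sum_cn_real (s : ℕ) :
    ∑ S ∈ Kc G univ s, ((cn G S).card : ℝ) = (s + 1) * kr G (s + 1) := by
  have h := sum_Kc_card (G := G) (A := univ) s
  simp only [inter_univ] at h
  unfold kr
  exact_mod_cast h

lemma cauchy_cn (s : ℕ) :
    (((s : ℝ) + 1) * kr G (s + 1)) ^ 2 ≤ kr G s * sq2 G s := by
  rw [← sum_cn_real]
  unfold kr sq2
  exact sq_sum_le_card_mul_sum_sq

lemma kr_pos (hE : Eul G d) {s : ℕ} (hs : s ≤ d) : 0 < kr G s := by
  obtain ⟨t, _, ht, htc⟩ := hE.pure ∅ (by simp)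
  obtain ⟨u, hu, huc⟩ := Finset.exists_subset_card_eq (s := t) (n := s) (by omega)
  unfold kr
  have : u ∈ Kc G univ s := mem_Kc.2 ⟨subset_univ _, isClique_mono hu ht, huc⟩
  exact_mod_cast card_pos.2 ⟨u, this⟩

lemma kr_zero : kr G 0 = 1 := by
  unfold kr
  rw [Kc_zero, card_singleton, Nat.cast_one]

lemma kr_one : kr G 1 = Fintype.card V := by
  unfold kr
  rw [Kc_one_card, card_univ]

lemma btot_nonneg (s : ℕ) : 0 ≤ btot G s := sum_nonneg (fun _ _ => by positivity)

lemma ch_inst {r : ℕ} (hr : 1 ≤ r) (hE : Eul G (2 * r + 1)) :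
    Ch r (kr G) (Fintype.card V : ℝ) := by
  have hpos : ∀ s ≤ r + 1, 0 < kr G s := fun s hs => kr_pos hE (by omega)
  refine ⟨?_, hr, kr_zero, kr_one, hpos, ?_⟩
  · have h1 := hpos 1 (by omega)
    rw [kr_one] at h1
    have : 0 < Fintype.card V := by exact_mod_cast h1
    exact_mod_cast this
  · intro s hs
    have h1 := cauchy_cn (G := G) s
    have h2 := moon_moser_real (G := G) s
    have h3 := btot_nonneg (G := G) (s + 1)
    have h4 := hpos s (by omega)
    calc ((s : ℝ) + 1) ^ 2 * (kr G (s + 1)) ^ 2 = (((s : ℝ) + 1) * kr G (s + 1)) ^ 2 := by ring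
      _ ≤ kr G s * sq2 G s := h1
      _ ≤ kr G s * ((Fintype.card V : ℝ) * kr G (s + 1) + s * (s + 2) * kr G (s + 2)) := by
        apply mul_le_mul_of_nonneg_left _ h4.le
        linarith

end Pool.Agent.H44
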