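import Pool.Agent.H44.StructGamma
import Pool.Agent.H64.CabSM
import Pool.Agent.H64.CabJG

/-!
Comparison of the gamma vector of a structured complex with that of `J_r^*(n)`.
-/

namespace Pool.Agent.H44

open Finset Polynomial

set_option linter.unusedSectionVars false

lemma gamma_unique {d : ℕ} {γ γ' : ℕ → ℤ}
    (h : ∑ j ∈ range (d / 2 + 1), C (γ j) * gb d j = ∑ j ∈ range (d / 2 + 1), C (γ' j) * gb d j) :
    ∀ j ≤ d / 2, γ j = γ' j := by
  intro j
  induction j using Nat.strong_induction_on with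
  | _ j ih =>
    intro hj
    have h1 := coeff_gamma_le (P := ∑ j ∈ range (d / 2 + 1), C (γ j) * gb d j) rfl hj
    have h2 := coeff_gamma_le (P := ∑ j ∈ range (d / 2 + 1), C (γ j) * gb d j) h hj
    rw [h1] at h2
    have h3 : ∑ i ∈ range j, γ i * (gb d i).coeff j = ∑ i ∈ range j, γ' i * (gb d i).coeff j := by
      apply sum_congr rfl
      intro i hi
      rw [mem_range] at hi
      rw [ih i hi (by omega)]
    rw [h3] at h2
    exact add_left_cancel h2

lemma group_by_card {r d : ℕ} (a : Finset (Fin r) → ℕ) :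
    ∑ T : Finset (Fin r), C ((a T : ℕ) : ℤ) * gb d T.card
      = ∑ j ∈ range (r + 1),
        C (((∑ T ∈ powersetCard j (univ : Finset (Fin r)), a T : ℕ)) : ℤ) * gb d j := by
  have h1 := Finset.sum_powerset (univ : Finset (Fin r))
    (fun T => C ((a T : ℕ) : ℤ) * gb d T.card)
  rw [powerset_univ, card_univ, Fintype.card_fin] at h1
  rw [h1]
  apply sum_congr rfl
  intro j _
  push_cast
  rw [map_sum, sum_mul]
  apply sum_congr rfl
  intro T hT
  rw [(mem_powersetCard.1 hT).2]

/-- the gamma numbers of `J_r^*(n)` -/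
def gJ {r : ℕ} (m : Fin r → ℕ) (l : ℕ) : ℕ :=
  ∑ T ∈ powersetCard l (univ : Finset (Fin r)), ∏ j ∈ T, (m j - 4)

open Pool.Agent.H64.CabJG in
theorem cp_JStar_gamma {r : ℕ} (m : Fin r → ℕ) (hm : ∀ j, 4 ≤ m j) :
    cp (JStar m) univ = ∑ j ∈ range ((2 * r + 1) / 2 + 1), C ((gJ m j : ℕ) : ℤ)
      * gb (2 * r + 1) j := by
  have hd : (2 * r + 1) / 2 = r := by omega
  rw [cp_JStar m hm, hd]
  have h2 := group_by_card (r := r) (d := 2 * r + 1) (fun T => ∏ j ∈ T, (m j - 4))
  unfold gJ
  rw [← h2]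
  have h3 : ∏ j : Fin r, (1 + (m j : ℤ[X]) * X * (1 + X))
      = ∏ j : Fin r, ((((m j - 4 : ℕ) : ℤ[X]) * (X * (1 + X))) + (1 + 4 * (X * (1 + X)))) := by
    apply prod_congr rfl
    intro j _
    have h4 : (m j : ℤ[X]) = ((m j - 4 : ℕ) : ℤ[X]) + 4 := by
      have : m j = (m j - 4) + 4 := (Nat.sub_add_cancel (hm j)).symm
      conv_lhs => rw [this]
      push_cast
      ring
    rw [h4]
    ring
  rw [h3, Finset.prod_add, powerset_univ, mul_sum]
  apply sum_congr rfl
  intro T _
  have hT : T.card ≤ r := by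
    have := Finset.card_le_univ T
    rwa [Fintype.card_fin] at this
  rw [gb_eq hT le_rfl, prod_mul_distrib, prod_const, prod_const,
    card_sdiff_of_subset (subset_univ _), card_univ, Fintype.card_fin]
  have hC : (C (((∏ j ∈ T, (m j - 4) : ℕ)) : ℤ) : ℤ[X]) = ∏ j ∈ T, ((m j - 4 : ℕ) : ℤ[X]) := by
    rw [Nat.cast_prod, map_prod]
    apply prod_congr rfl
    intro j _
    exact map_natCast C _
  rw [hC]
  ring

variable {V : Type*} [Fintype V] [DecidableEq V] {r : ℕ}
variable {G : SimpleGraph V} [DecidableRel G.Adj] {c : V → Fin r}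

theorem structured_le {u v : Fin r → V} (hE : Eul G (2 * r + 1)) (h : FullEdges G c u v)
    (hf : ∀ j, 7 ≤ (full G c j).card) {m : Fin r → ℕ} (hm : ∀ j, 4 ≤ m j)
    (hbal : ∀ j k, m j ≤ m k + 1) (hsum : ∑ j, m j + 2 = Fintype.card V) {γ : ℕ → ℤ}
    (hγ : cp G univ = ∑ j ∈ range ((2 * r + 1) / 2 + 1), C (γ j) * gb (2 * r + 1) j) :
    ∀ l ≤ r, γ l ≤ gJ m l := by
  classical
  have hd : (2 * r + 1) / 2 = r := by omega
  obtain ⟨P, hP⟩ : ∃ P : Finset V, P = cn G (tau u v ∅) := ⟨_, rfl⟩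
  have hP2 : P.card = 2 := by
    rw [hP]
    apply card_cn_two hE (h.tau_clique ∅)
    rw [h.tau_card, card_empty]
    omega
  -- choice of four full vertices in each class
  have hex : ∀ j, ∃ Q ⊆ full G c j \ P, Q.card = 4 := by
    intro j
    apply Finset.exists_subset_card_eq
    have h1 := hf j
    have h2 := Finset.le_card_sdiff P (full G c j)
    omega
  choose Qj hQj hQj4 using hex
  obtain ⟨Q, hQ⟩ : ∃ Q : Finset V, Q = univ.biUnion Qj := ⟨_, rfl⟩
  have hclsQ : ∀ j, cls c Q j = Qj j := by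
    intro j
    ext x
    rw [mem_cls, hQ, mem_biUnion]
    constructor
    · rintro ⟨⟨i, _, hx⟩, hc⟩
      have h1 := mem_full.1 (mem_sdiff.1 (hQj i hx)).1
      have : i = j := by rw [← h1.1, hc]
      rwa [this] at hx
    · intro hx
      exact ⟨⟨j, mem_univ _, hx⟩, (mem_full.1 (mem_sdiff.1 (hQj j hx)).1).1⟩
  have hQP : Disjoint Q P := by
    rw [Finset.disjoint_left]
    intro x hx
    rw [hQ, mem_biUnion] at hx
    obtain ⟨i, _, hx⟩ := hx
    exact (mem_sdiff.1 (hQj i hx)).2
  have hfull : ∀ x ∈ Q, ∀ w, c w ≠ c x → G.Adj w x := by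
    intro x hx w hw
    rw [hQ, mem_biUnion] at hx
    obtain ⟨i, _, hx⟩ := hx
    have h1 := mem_full.1 (mem_sdiff.1 (hQj i hx)).1
    exact h1.2 w (by rw [← h1.1]; exact hw)
  have hcp := h.cp_gamma le_rfl hE (Q := Q) (by rw [← hP]; exact hQP)
    (fun j => by rw [hclsQ j]; exact hQj4 j) hfull
  rw [← hP, group_by_card] at hcp
  obtain ⟨H, hH⟩ : ∃ H : Finset V, H = (univ \ P) \ Q := ⟨_, rfl⟩
  rw [← hH] at hcp
  have huniq := gamma_unique (d := 2 * r + 1) (γ := γ)
    (γ' := fun l => (((∑ T ∈ powersetCard l (univ : Finset (Fin r)),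
      (RC G c H T).card : ℕ)) : ℤ)) (by rw [← hγ, hcp, hd])
  intro l hl
  rw [huniq l (by omega)]
  -- bound the number of rainbow cliques
  have h1 : ∑ T ∈ powersetCard l (univ : Finset (Fin r)), (RC G c H T).card
      ≤ ∑ T ∈ powersetCard l (univ : Finset (Fin r)), ∏ j ∈ T, (cls c H j).card := by
    apply sum_le_sum
    intro T _
    rw [← rb_card]
    exact card_filter_le _ _
  have hQcard : Q.card = 4 * r := by
    have h2 : ∑ j, (cls c Q j).card = Q.card := by
      unfold cls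
      exact (Finset.card_eq_sum_card_fiberwise (f := c) (s := Q) (t := univ)
        (fun _ _ => mem_coe.2 (mem_univ _))).symm
    rw [← h2, sum_congr rfl (fun j _ => by rw [hclsQ j, hQj4 j]), sum_const, card_univ,
      Fintype.card_fin, smul_eq_mul, mul_comm]
  have hQsub : Q ⊆ univ \ P := by
    intro x hx
    rw [mem_sdiff]
    exact ⟨mem_univ _, Finset.disjoint_left.1 hQP hx⟩
  have hHcard : H.card = Fintype.card V - 2 - 4 * r := by
    rw [hH, card_sdiff_of_subset hQsub, card_sdiff_of_subset (subset_univ _), card_univ, hP2,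
      hQcard]
  have hsumH : ∑ j, (cls c H j).card = H.card := by
    unfold cls
    exact (Finset.card_eq_sum_card_fiberwise (f := c) (s := H) (t := univ)
      (fun _ _ => mem_coe.2 (mem_univ _))).symm
  have hsumm : ∑ j, (m j - 4) + 4 * r = ∑ j, m j := by
    have h3 : ∑ j : Fin r, (m j - 4) + ∑ _j : Fin r, 4 = ∑ j, m j := by
      rw [← sum_add_distrib]
      apply sum_congr rfl
      intro j _
      exact Nat.sub_add_cancel (hm j)
    rw [sum_const, card_univ, Fintype.card_fin, smul_eq_mul] at h3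
    omega
  have h4 := Pool.Agent.H64.CabSM.esymm_le_of_balanced (fun j => (cls c H j).card)
    (fun j => m j - 4) (by rw [hsumH, hHcard]; omega)
    (fun j k => by have := hbal j k; have := hm j; have := hm k; omega) l
  have h5 : ∑ T ∈ powersetCard l (univ : Finset (Fin r)), (RC G c H T).card ≤ gJ m l := by
    refine h1.trans ?_
    exact h4
  exact_mod_cast h5

end Pool.Agent.H44
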