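import Pool.Agent.H44.DS

/-!
Double counting of cliques.
-/

namespace Pool.Agent.H44

open Finset Polynomial

set_option linter.unusedSectionVars false

variable {V : Type*} [Fintype V] [DecidableEq V]

/-- cliques with `s` vertices inside `A` -/
def Kc (G : SimpleGraph V) [DecidableRel G.Adj] (A : Finset V) (s : ℕ) : Finset (Finset V) :=
  (cl G A).filter (fun t => t.card = s)

variable {G : SimpleGraph V} [DecidableRel G.Adj]

lemma mem_Kc {A : Finset V} {s : ℕ} {t : Finset V} :
    t ∈ Kc G A s ↔ t ⊆ A ∧ G.IsClique (t : Set V) ∧ t.card = s := by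
  simp only [Kc, mem_filter, mem_cl, and_assoc]

lemma isClique_insert_of_mem_cn {S : Finset V} {x : V} (hS : G.IsClique (S : Set V))
    (hx : x ∈ cn G S) : G.IsClique ((insert x S : Finset V) : Set V) := by
  rw [Finset.coe_insert]
  apply SimpleGraph.IsClique.insert hS
  intro y hy _
  exact mem_cn.1 hx y (by exact_mod_cast hy)

lemma mem_cn_erase {t : Finset V} {x : V} (ht : G.IsClique (t : Set V)) (hx : x ∈ t) :
    x ∈ cn G (t.erase x) := by
  rw [mem_cn]
  intro y hy
  rw [mem_erase] at hy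
  exact ht (by exact_mod_cast hx) (by exact_mod_cast hy.2) (Ne.symm hy.1)

lemma sum_Kc_succ {M : Type*} [AddCommMonoid M] (A : Finset V) (s : ℕ) (f : Finset V → V → M) :
    ∑ t ∈ Kc G A (s + 1), ∑ x ∈ t, f (t.erase x) x
      = ∑ S ∈ Kc G A s, ∑ x ∈ cn G S ∩ A, f S x := by
  rw [Finset.sum_sigma', Finset.sum_sigma']
  refine Finset.sum_bij' (fun p _ => ⟨p.1.erase p.2, p.2⟩) (fun p _ => ⟨insert p.2 p.1, p.2⟩)
    ?_ ?_ ?_ ?_ ?_
  · rintro ⟨t, x⟩ h
    simp only [mem_sigma, mem_Kc, mem_inter] at h ⊢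
    obtain ⟨⟨h1, h2, h3⟩, h4⟩ := h
    refine ⟨⟨(erase_subset _ _).trans h1, isClique_mono (erase_subset _ _) h2, ?_⟩,
      mem_cn_erase h2 h4, h1 h4⟩
    rw [card_erase_of_mem h4, h3]; rfl
  · rintro ⟨S, x⟩ h
    simp only [mem_sigma, mem_Kc, mem_inter] at h ⊢
    obtain ⟨⟨h1, h2, h3⟩, h4, h5⟩ := h
    refine ⟨⟨insert_subset h5 h1, isClique_insert_of_mem_cn h2 h4, ?_⟩, mem_insert_self _ _⟩
    rw [card_insert_of_notMem (not_mem_of_mem_cn h4), h3]
  · rintro ⟨t, x⟩ h
    simp only [mem_sigma] at h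
    simp only [insert_erase h.2]
  · rintro ⟨S, x⟩ h
    simp only [mem_sigma, mem_inter] at h
    simp only [erase_insert (not_mem_of_mem_cn h.2.1)]
  · rintro ⟨t, x⟩ _
    rfl

lemma sum_Kc_card {A : Finset V} (s : ℕ) :
    ∑ S ∈ Kc G A s, (cn G S ∩ A).card = (s + 1) * (Kc G A (s + 1)).card := by
  have h := sum_Kc_succ (G := G) A s (fun _ _ => (1 : ℕ))
  simp only [Finset.sum_const, smul_eq_mul, mul_one] at h
  rw [← h]
  rw [Finset.sum_congr rfl (fun t ht => (mem_Kc.1 ht).2.2), Finset.sum_const, smul_eq_mul,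
    mul_comm]

lemma Kc_zero (A : Finset V) : Kc G A 0 = {∅} := by
  ext t
  simp only [mem_Kc, mem_singleton, card_eq_zero]
  constructor
  · rintro ⟨_, _, h⟩; exact h
  · rintro rfl; simp

lemma Kc_one_card (A : Finset V) : (Kc G A 1).card = A.card := by
  have h := sum_Kc_card (G := G) (A := A) 0
  rw [Kc_zero, Finset.sum_singleton, cn_empty, univ_inter, zero_add, one_mul] at h
  exact h.symm

lemma card_Kc_le (A : Finset V) (s : ℕ) : (Kc G A s).card ≤ A.card ^ s := by
  induction s with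
  | zero => rw [Kc_zero]; simp
  | succ s ih =>
    have h := sum_Kc_card (G := G) (A := A) s
    have h2 : ∑ S ∈ Kc G A s, (cn G S ∩ A).card ≤ (Kc G A s).card * A.card := by
      rw [← smul_eq_mul]
      apply Finset.sum_le_card_nsmul
      intro S _
      exact card_le_card inter_subset_right
    calc (Kc G A (s + 1)).card ≤ (s + 1) * (Kc G A (s + 1)).card := by nlinarith
      _ = ∑ S ∈ Kc G A s, (cn G S ∩ A).card := h.symm
      _ ≤ (Kc G A s).card * A.card := h2
      _ ≤ A.card ^ s * A.card := Nat.mul_le_mul_right _ ih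
      _ = A.card ^ (s + 1) := (pow_succ _ _).symm

lemma cp_eq_sum (A : Finset V) {N : ℕ} (hN : ∀ s ∈ cl G A, s.card ≤ N) :
    cp G A = ∑ i ∈ range (N + 1), C (((Kc G A i).card : ℕ) : ℤ) * X ^ i := by
  unfold cp
  rw [← Finset.sum_fiberwise_of_maps_to (g := fun s : Finset V => s.card) (t := range (N + 1))]
  · apply Finset.sum_congr rfl
    intro i _
    have : (cl G A).filter (fun t => t.card = i) = Kc G A i := rfl
    rw [this, Finset.sum_congr rfl (fun t ht => by rw [(mem_Kc.1 ht).2.2]), Finset.sum_const]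
    simp
  · intro s hs
    rw [mem_range]
    exact Nat.lt_succ_of_le (hN s hs)

lemma cp_coeff (A : Finset V) (i : ℕ) : (cp G A).coeff i = (Kc G A i).card := by
  unfold cp Kc
  rw [Polynomial.finsetSum_coeff]
  simp only [Polynomial.coeff_X_pow]
  rw [Finset.sum_ite, Finset.sum_const_zero, add_zero, Finset.sum_const, nsmul_eq_mul, mul_one]
  congr 2
  ext σ
  simp only [mem_filter, eq_comm]

end Pool.Agent.H44
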