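import Pool.Agent.H44.Basic

/-!
Dehn-Sommerville relations for flag Eulerian complexes, in the multiplicative form
`F(-1-x) = (-1)^d F(x)`.
-/

namespace Pool.Agent.H44

open Finset Polynomial

set_option linter.unusedSectionVars false

variable {V : Type*} [Fintype V] [DecidableEq V]
variable {G : SimpleGraph V} [DecidableRel G.Adj]

lemma euler_link {d : ℕ} (hE : Eul G d) {s : Finset V} (hs : G.IsClique (s : Set V))
    {u : Finset V} (hu : u ∈ cl G (cn G s)) :
    ∑ t ∈ (cl G (cn G s)).filter (fun t => u ⊆ t), (-1 : ℤ) ^ t.card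
      = (-1) ^ (d - s.card) := by
  have hu' := mem_cl.1 hu
  have hcl : G.IsClique ((s ∪ u : Finset V) : Set V) :=
    isClique_union_of_subset_cn hs hu'.2 hu'.1
  have h1 := hE.euler _ hcl
  have h2 : ∑ t ∈ (cl G univ).filter (fun t => s ∪ u ⊆ t), (-1 : ℤ) ^ t.card
      = ∑ t ∈ (cl G univ).filter (fun t => s ⊆ t), (if u ⊆ t then (-1 : ℤ) ^ t.card else 0) := by
    rw [← Finset.sum_filter, Finset.filter_filter]
    apply Finset.sum_congr _ (fun _ _ => rfl)
    ext t
    simp only [mem_filter, union_subset_iff]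
  rw [h2, ← sum_cl_superset hs] at h1
  have h3 : ∑ t ∈ cl G (cn G s), (if u ⊆ s ∪ t then (-1 : ℤ) ^ (s ∪ t).card else 0)
      = (-1) ^ s.card * ∑ t ∈ (cl G (cn G s)).filter (fun t => u ⊆ t), (-1 : ℤ) ^ t.card := by
    rw [Finset.mul_sum, Finset.sum_filter]
    apply Finset.sum_congr rfl
    intro t ht
    have ht' := mem_cl.1 ht
    have hd := disjoint_of_subset_cn ht'.1
    have hdu := disjoint_of_subset_cn hu'.1
    have : u ⊆ s ∪ t ↔ u ⊆ t := by
      constructor
      · intro h x hx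
        rcases mem_union.1 (h hx) with h' | h'
        · exact absurd hx (Finset.disjoint_left.1 hdu h')
        · exact h'
      · intro h
        exact h.trans subset_union_right
    simp only [this]
    split_ifs
    · rw [Finset.card_union_of_disjoint hd, pow_add]
    · rfl
  rw [h3] at h1
  have hle : s.card ≤ d := hE.card_le s hs
  have h4 : ((-1 : ℤ) ^ s.card) * ((-1 : ℤ) ^ s.card) = 1 := by
    rw [← pow_add, ← two_mul, pow_mul]; norm_num
  have h5 : (-1 : ℤ) ^ d = (-1) ^ s.card * (-1) ^ (d - s.card) := by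
    rw [← pow_add]; congr 1; omega
  calc ∑ t ∈ (cl G (cn G s)).filter (fun t => u ⊆ t), (-1 : ℤ) ^ t.card
      = ((-1 : ℤ) ^ s.card * (-1 : ℤ) ^ s.card) *
        ∑ t ∈ (cl G (cn G s)).filter (fun t => u ⊆ t), (-1 : ℤ) ^ t.card := by rw [h4, one_mul]
    _ = (-1 : ℤ) ^ s.card * (-1) ^ d := by rw [mul_assoc, h1]
    _ = ((-1 : ℤ) ^ s.card * (-1 : ℤ) ^ s.card) * (-1) ^ (d - s.card) := by rw [h5, mul_assoc]
    _ = _ := by rw [h4, one_mul]

lemma sum_powerset_X (s : Finset V) :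
    ∑ u ∈ s.powerset, (X : ℤ[X]) ^ u.card = (1 + X) ^ s.card := by
  have := Finset.sum_pow_mul_eq_add_pow (X : ℤ[X]) 1 s
  simp only [one_pow, mul_one] at this
  rw [this, add_comm]

theorem ds {d : ℕ} (hE : Eul G d) {s : Finset V} (hs : G.IsClique (s : Set V)) :
    (cp G (cn G s)).comp (-1 - X) = (-1) ^ (d - s.card) * cp G (cn G s) := by
  have h1 : (cp G (cn G s)).comp (-1 - X)
      = ∑ t ∈ cl G (cn G s), ∑ u ∈ t.powerset, (-1 : ℤ[X]) ^ t.card * X ^ u.card := by
    unfold cp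
    rw [Polynomial.sum_comp]
    apply Finset.sum_congr rfl
    intro t _
    rw [Polynomial.X_pow_comp, ← Finset.mul_sum, sum_powerset_X, ← mul_pow]
    congr 1
    ring
  rw [h1]
  have h2 : ∀ t ∈ cl G (cn G s), ∀ u ∈ t.powerset, u ∈ cl G (cn G s) := by
    intro t ht u hu
    rw [mem_cl] at *
    rw [mem_powerset] at hu
    exact ⟨hu.trans ht.1, isClique_mono hu ht.2⟩
  have h3 : ∑ t ∈ cl G (cn G s), ∑ u ∈ t.powerset, (-1 : ℤ[X]) ^ t.card * X ^ u.card
      = ∑ u ∈ cl G (cn G s), ∑ t ∈ (cl G (cn G s)).filter (fun t => u ⊆ t),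
          (-1 : ℤ[X]) ^ t.card * X ^ u.card := by
    apply Finset.sum_comm'
    intro t u
    constructor
    · rintro ⟨ht, hu⟩
      refine ⟨?_, h2 t ht u hu⟩
      rw [mem_filter]
      exact ⟨ht, mem_powerset.1 hu⟩
    · rintro ⟨ht, _⟩
      rw [mem_filter] at ht
      exact ⟨ht.1, mem_powerset.2 ht.2⟩
  rw [h3]
  unfold cp
  rw [Finset.mul_sum]
  apply Finset.sum_congr rfl
  intro u hu
  rw [← Finset.sum_mul]
  congr 1
  have h4 := euler_link hE hs hu
  have h5 : ((∑ t ∈ (cl G (cn G s)).filter (fun t => u ⊆ t), (-1 : ℤ) ^ t.card : ℤ) : ℤ[X])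
      = (((-1) ^ (d - s.card) : ℤ) : ℤ[X]) := by rw [h4]
  push_cast at h5
  exact h5

end Pool.Agent.H44
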