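import Pool.Agent.H44.Exchange

/-!
Elementary bounds for elementary symmetric sums.
-/

namespace Pool.Agent.H44

open Finset

lemma young_aux (m : ℕ) {μ y : ℝ} (hμ : 0 ≤ μ) (hy : 0 ≤ y) :
    ((m : ℝ) + 1) * μ * y ^ m ≤ μ ^ (m + 1) + m * y ^ (m + 1) := by
  induction m with
  | zero => simp
  | succ m ih =>
    have h1 := mul_le_mul_of_nonneg_left ih hμ
    have h2 : 0 ≤ ((m : ℝ) + 1) * y ^ m * (μ - y) ^ 2 := by positivity
    push_cast
    have e1 : μ * (μ ^ (m + 1) + m * y ^ (m + 1)) = μ ^ (m + 1 + 1) + m * μ * y ^ m * y := by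
      rw [pow_succ μ (m + 1), pow_succ y m]; ring
    have e2 : μ * (((m : ℝ) + 1) * μ * y ^ m) = ((m : ℝ) + 1) * y ^ m * μ ^ 2 := by ring
    have e3 : ((m : ℝ) + 1) * y ^ m * (μ - y) ^ 2 = ((m : ℝ) + 1) * y ^ m * μ ^ 2
        - 2 * ((m : ℝ) + 1) * μ * y ^ m * y + ((m : ℝ) + 1) * y ^ m * y ^ 2 := by ring
    rw [e1, e2] at h1
    rw [e3] at h2
    have e4 : ((m : ℝ) + 1 + 1) * μ * y ^ (m + 1) = ((m : ℝ) + 2) * μ * y ^ m * y := by
      rw [pow_succ]; ring
    have e5 : ((m : ℝ) + 1) * y ^ (m + 1 + 1) = ((m : ℝ) + 1) * y ^ m * y ^ 2 := by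
      rw [pow_succ, pow_succ]; ring
    rw [e4, e5]
    nlinarith

lemma mac_step {n y t b0 b1 b2 : ℝ} {i : ℕ} (hn : 0 ≤ n) (hy : 0 ≤ y) (ht : 0 ≤ t)
    (hb0 : 0 ≤ b0) (hb1 : b2 = b0 + b1) (hb2 : b2 * (i + 1) = (n + 1) * b0) :
    b1 * y ^ (i + 1) + t * (b0 * y ^ i) ≤ b2 * ((t + n * y) / (n + 1)) ^ (i + 1) := by
  obtain ⟨μ, hμ⟩ : ∃ μ : ℝ, μ = (t + n * y) / (n + 1) := ⟨_, rfl⟩
  rw [← hμ]
  have hn1 : (0 : ℝ) < n + 1 := by positivity
  have hμ0 : 0 ≤ μ := by rw [hμ]; positivity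
  have ht' : t = (n + 1) * μ - n * y := by
    rw [hμ]; field_simp; ring
  have hyoung := young_aux i hμ0 hy
  have hi1 : (0 : ℝ) < (i : ℝ) + 1 := by positivity
  have hb4 : b2 = (n + 1) * b0 / (i + 1) := by
    rw [← hb2]; field_simp
  have hb3 : b1 = (n + 1) * b0 / (i + 1) - b0 := by
    rw [← hb4, hb1]; ring
  rw [ht', hb3, hb4]
  have h6 : 0 ≤ (n + 1) * b0 / (i + 1) := by positivity
  have h7 := mul_le_mul_of_nonneg_left hyoung h6
  have e1 : (n + 1) * b0 / (i + 1) * (((i : ℝ) + 1) * μ * y ^ i)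
      = (n + 1) * b0 * μ * y ^ i := by
    field_simp
  have e2 : (n + 1) * b0 / (i + 1) * (μ ^ (i + 1) + i * y ^ (i + 1))
      = (n + 1) * b0 / (i + 1) * μ ^ (i + 1)
        + ((n + 1) * b0 - (n + 1) * b0 / (i + 1)) * y ^ (i + 1) := by
    field_simp; ring
  rw [e1, e2] at h7
  have e3 : ((n + 1) * b0 / (i + 1) - b0) * y ^ (i + 1)
      + ((n + 1) * μ - n * y) * (b0 * y ^ i)
      = ((n + 1) * b0 / (i + 1)) * y ^ (i + 1)
        - (n + 1) * b0 * y ^ (i + 1) + (n + 1) * b0 * μ * y ^ i := by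
    rw [pow_succ]; ring
  rw [e3]
  linarith

/-- Maclaurin type inequality -/
lemma maclaurin {ι : Type*} [DecidableEq ι] (x : ι → ℝ) (S : Finset ι) (hx : ∀ j ∈ S, 0 ≤ x j) :
    ∀ i : ℕ, ∑ J ∈ powersetCard i S, ∏ j ∈ J, x j
      ≤ (S.card.choose i : ℝ) * ((∑ j ∈ S, x j) / S.card) ^ i := by
  induction S using Finset.induction_on with
  | empty =>
    intro i
    cases i with
    | zero => simp
    | succ i =>
      rw [powersetCard_eq_empty.2 (by simp)]
      simp
  | insert t S ht ih =>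
    intro i
    have hxS : ∀ j ∈ S, 0 ≤ x j := fun j hj => hx j (mem_insert_of_mem hj)
    have hxt : 0 ≤ x t := hx t (mem_insert_self _ _)
    have hS0 : 0 ≤ ∑ j ∈ S, x j := sum_nonneg hxS
    cases i with
    | zero => simp
    | succ i =>
      rw [powersetCard_succ_insert ht, sum_union, card_insert_of_notMem ht, sum_insert ht]
      · have h1 : ∑ J ∈ (powersetCard i S).image (insert t), ∏ j ∈ J, x j
            = x t * ∑ J ∈ powersetCard i S, ∏ j ∈ J, x j := by
          rw [sum_image, mul_sum]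
          · apply sum_congr rfl
            intro J hJ
            rw [prod_insert]
            intro h
            exact ht ((mem_powersetCard.1 hJ).1 h)
          · intro J hJ J' hJ' heq
            have h2 : t ∉ J := fun h => ht ((mem_powersetCard.1 hJ).1 h)
            have h3 : t ∉ J' := fun h => ht ((mem_powersetCard.1 hJ').1 h)
            rw [← erase_insert h2, heq, erase_insert h3]
        rw [h1]
        have h2 := ih hxS (i + 1)
        have h3 := ih hxS i
        have h4 : x t * ∑ J ∈ powersetCard i S, ∏ j ∈ J, x j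
            ≤ x t * (S.card.choose i * ((∑ j ∈ S, x j) / S.card) ^ i) :=
          mul_le_mul_of_nonneg_left h3 hxt
        have hb1 : ((S.card + 1).choose (i + 1) : ℝ) * (i + 1)
            = ((S.card : ℝ) + 1) * S.card.choose i := by
          have := Nat.add_one_mul_choose_eq S.card i
          have h4 : ((((S.card + 1) * S.card.choose i : ℕ)) : ℝ)
              = (((S.card + 1).choose (i + 1) * (i + 1) : ℕ) : ℝ) := by exact_mod_cast this
          push_cast at h4
          rw [← h4]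
        have hb2 : ((S.card + 1).choose (i + 1) : ℝ)
            = S.card.choose i + S.card.choose (i + 1) := by
          rw [Nat.choose_succ_succ]; push_cast; ring
        have hSy : ∑ j ∈ S, x j = S.card * ((∑ j ∈ S, x j) / S.card) := by
          by_cases h0 : S.card = 0
          · have h0' := h0
            rw [card_eq_zero] at h0'
            rw [h0']; simp
          · have : (S.card : ℝ) ≠ 0 := by exact_mod_cast h0
            field_simp
        have h5 := mac_step (n := (S.card : ℝ)) (y := (∑ j ∈ S, x j) / S.card) (t := x t)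
          (i := i) (Nat.cast_nonneg _) (div_nonneg hS0 (Nat.cast_nonneg _)) hxt
          (Nat.cast_nonneg _) hb2 hb1
        rw [← hSy] at h5
        push_cast
        linarith
      · rw [Finset.disjoint_left]
        intro J hJ hJ'
        rw [mem_image] at hJ'
        obtain ⟨J', _, rfl⟩ := hJ'
        exact ht ((mem_powersetCard.1 hJ).1 (mem_insert_self _ _))

lemma es_maclaurin {r : ℕ} (i : ℕ) (x : Fin r → ℝ) (hx : ∀ j, 0 ≤ x j) :
    es i x ≤ (r.choose i : ℝ) * ((∑ j, x j) / r) ^ i := by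
  have := maclaurin x univ (fun j _ => hx j) i
  rw [card_univ, Fintype.card_fin] at this
  exact this

lemma pow_sub_pow_le {x y : ℝ} (hx : 0 ≤ x) (hxy : x ≤ y) (hy : y ≤ 1) (m : ℕ) :
    y ^ m - x ^ m ≤ m * (y - x) := by
  induction m with
  | zero => simp
  | succ m ih =>
    have h1 : y ^ (m + 1) - x ^ (m + 1) = y ^ m * (y - x) + x * (y ^ m - x ^ m) := by ring
    rw [h1]
    have h2 : y ^ m ≤ 1 := pow_le_one₀ (by linarith) hy
    have h3 : y ^ m * (y - x) ≤ 1 * (y - x) := mul_le_mul_of_nonneg_right h2 (by linarith)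
    have h4 : 0 ≤ y ^ m - x ^ m := by
      have := pow_le_pow_left₀ hx hxy m
      linarith
    have h5 : x * (y ^ m - x ^ m) ≤ 1 * (y ^ m - x ^ m) :=
      mul_le_mul_of_nonneg_right (by linarith) h4
    push_cast
    linarith

lemma one_sub_pow_le {t : ℝ} (h0 : 0 ≤ t) (h1 : t ≤ 1) (m : ℕ) :
    (1 - t) ^ m ≤ 1 - m * t + m ^ 2 * t ^ 2 := by
  induction m with
  | zero => simp
  | succ m ih =>
    have h2 : (1 - t) ^ (m + 1) ≤ (1 - m * t + m ^ 2 * t ^ 2) * (1 - t) := by
      rw [pow_succ]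
      exact mul_le_mul_of_nonneg_right ih (by linarith)
    refine h2.trans ?_
    push_cast
    have h3 : (0 : ℝ) ≤ (m : ℝ) ^ 2 * t ^ 3 := by positivity
    have h4 : (0 : ℝ) ≤ (m : ℝ) * t ^ 2 := by positivity
    nlinarith [sq_nonneg t]

lemma es_le_two_pow {r : ℕ} (i : ℕ) (p : Fin r → ℝ) (h0 : ∀ j, 0 ≤ p j) (h1 : ∀ j, p j ≤ 1) :
    es i p ≤ 2 ^ r := by
  unfold es
  have h2 : ∑ J ∈ powersetCard i (univ : Finset (Fin r)), ∏ j ∈ J, p j
      ≤ ∑ J ∈ powersetCard i (univ : Finset (Fin r)), (1 : ℝ) := by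
    apply sum_le_sum
    intro J _
    exact prod_le_one (fun j _ => h0 j) (fun j _ => h1 j)
  refine h2.trans ?_
  rw [sum_const, nsmul_eq_mul, mul_one, card_powersetCard, card_univ, Fintype.card_fin]
  exact_mod_cast Nat.choose_le_two_pow r i

lemma es_nonneg {r : ℕ} (i : ℕ) (p : Fin r → ℝ) (h0 : ∀ j, 0 ≤ p j) : 0 ≤ es i p := by
  unfold es
  exact sum_nonneg (fun J _ => prod_nonneg (fun j _ => h0 j))

lemma es_mul_le {r : ℕ} (i : ℕ) (p α : Fin r → ℝ) {β : ℝ} (h0 : ∀ j, 0 ≤ p j)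
    (hα : ∀ j, 0 ≤ α j) (hβ : ∀ j, α j ≤ β) :
    es i (fun j => p j * α j) ≤ β ^ i * es i p := by
  unfold es
  rw [mul_sum]
  apply sum_le_sum
  intro J hJ
  rw [mem_powersetCard] at hJ
  rw [prod_mul_distrib, mul_comm]
  apply mul_le_mul_of_nonneg_right _ (prod_nonneg (fun j _ => h0 j))
  rw [← hJ.2, ← prod_const]
  exact prod_le_prod (fun j _ => hα j) (fun j _ => hβ j)

end Pool.Agent.H44
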