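import Pool.Agent.H44.Rainbow

/-!
The exchange inequality for elementary symmetric sums on the unit cube.
-/

namespace Pool.Agent.H44

open Finset

variable {q : ℕ}

/-- product weights -/
noncomputable def wt {ι : Type*} [Fintype ι] [DecidableEq ι] (p : ι → ℝ) (S : Finset ι) : ℝ :=
  (∏ i ∈ S, p i) * ∏ i ∈ univ \ S, (1 - p i)

lemma wt_nonneg {ι : Type*} [Fintype ι] [DecidableEq ι] {p : ι → ℝ} (h0 : ∀ i, 0 ≤ p i)
    (h1 : ∀ i, p i ≤ 1) (S : Finset ι) : 0 ≤ wt p S := by
  unfold wt
  apply mul_nonneg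
  · exact prod_nonneg (fun i _ => h0 i)
  · exact prod_nonneg (fun i _ => by linarith [h1 i])

lemma cyl {ι : Type*} [Fintype ι] [DecidableEq ι] (p : ι → ℝ) (J K : Finset ι)
    (hJK : Disjoint J K) :
    ∑ S : Finset ι, (if J ⊆ S ∧ Disjoint S K then wt p S else 0)
      = (∏ i ∈ J, p i) * ∏ i ∈ K, (1 - p i) := by
  have h := Finset.prod_add (fun i => if i ∈ K then (0 : ℝ) else p i)
    (fun i => if i ∈ J then (0 : ℝ) else 1 - p i) univ
  rw [powerset_univ] at h
  have h1 : ∏ i : ι, ((if i ∈ K then (0 : ℝ) else p i) + (if i ∈ J then (0 : ℝ) else 1 - p i))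
      = (∏ i ∈ J, p i) * ∏ i ∈ K, (1 - p i) := by
    have e : ∀ i : ι, ((if i ∈ K then (0 : ℝ) else p i) + (if i ∈ J then (0 : ℝ) else 1 - p i))
        = (if i ∈ J then p i else 1) * (if i ∈ K then 1 - p i else 1) := by
      intro i
      by_cases hJ : i ∈ J
      · have hK : i ∉ K := Finset.disjoint_left.1 hJK hJ
        simp [hJ, hK]
      · by_cases hK : i ∈ K
        · simp [hJ, hK]
        · simp [hJ, hK]
    rw [prod_congr rfl (fun i _ => e i), prod_mul_distrib, prod_ite_mem, prod_ite_mem,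
      univ_inter, univ_inter]
  rw [← h1, h]
  apply sum_congr rfl
  intro S _
  by_cases hS : J ⊆ S ∧ Disjoint S K
  · rw [if_pos hS]
    unfold wt
    congr 1
    · apply prod_congr rfl
      intro i hi
      rw [if_neg (Finset.disjoint_left.1 hS.2 hi)]
    · apply prod_congr rfl
      intro i hi
      rw [mem_sdiff] at hi
      rw [if_neg (fun hJ => hi.2 (hS.1 hJ))]
  · rw [if_neg hS]
    symm
    by_cases h2 : J ⊆ S
    · have h3 : ¬ Disjoint S K := fun h3 => hS ⟨h2, h3⟩
      rw [Finset.not_disjoint_iff] at h3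
      obtain ⟨i, hiS, hiK⟩ := h3
      rw [prod_eq_zero hiS (by simp [hiK]), zero_mul]
    · rw [Finset.not_subset] at h2
      obtain ⟨i, hiJ, hiS⟩ := h2
      rw [mul_comm, prod_eq_zero (i := i) (by simp [hiS]) (by simp [hiJ]), zero_mul]

lemma es_eq_sum_wt {r : ℕ} (m : ℕ) (p : Fin r → ℝ) :
    es m p = ∑ S : Finset (Fin r), wt p S * (S.card.choose m : ℝ) := by
  unfold es
  have h1 : ∀ J ∈ powersetCard m (univ : Finset (Fin r)), ∏ j ∈ J, p j
      = ∑ S : Finset (Fin r), (if J ⊆ S then wt p S else 0) := by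
    intro J _
    have := cyl p J ∅ (disjoint_empty_right _)
    rw [prod_empty, mul_one] at this
    rw [← this]
    apply sum_congr rfl
    intro S _
    simp
  rw [sum_congr rfl h1, sum_comm]
  apply sum_congr rfl
  intro S _
  rw [← sum_filter, sum_const, nsmul_eq_mul, mul_comm]
  congr 2
  rw [← card_powersetCard]
  congr 1
  ext J
  rw [mem_filter, mem_powersetCard, mem_powersetCard]
  constructor
  · rintro ⟨⟨_, h2⟩, h3⟩; exact ⟨h3, h2⟩
  · rintro ⟨h3, h2⟩; exact ⟨⟨subset_univ _, h2⟩, h3⟩

lemma choose_aux {q s N : ℕ} (hs : s + 1 ≤ q) (hN : N + 1 ≤ q) :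
    (N.choose (s + 1) : ℝ) ≤ (q.choose (s + 1) : ℝ) - 1 := by
  obtain ⟨q', rfl⟩ : ∃ q', q = q' + 1 := ⟨q - 1, by omega⟩
  have h1 : N.choose (s + 1) ≤ q'.choose (s + 1) := Nat.choose_le_choose _ (by omega)
  have h2 : (q' + 1).choose (s + 1) = q'.choose s + q'.choose (s + 1) := Nat.choose_succ_succ _ _
  have h3 : 1 ≤ q'.choose s := Nat.choose_pos (by omega)
  have h4 : N.choose (s + 1) + 1 ≤ (q' + 1).choose (s + 1) := by omega
  have h5 : ((N.choose (s + 1) + 1 : ℕ) : ℝ) ≤ (((q' + 1).choose (s + 1) : ℕ) : ℝ) := by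
    exact_mod_cast h4
  push_cast at h5
  linarith

/-- the exchange inequality -/
theorem exchange_ineq {q s : ℕ} (hs : s + 1 ≤ q) (p : Fin (q + 1) → ℝ) (h0 : ∀ i, 0 ≤ p i)
    (h1 : ∀ i, p i ≤ 1) {j k : Fin (q + 1)} (hjk : j ≠ k) :
    es (s + 1) p ≤ q.choose (s + 1) + q.choose s * ∏ i, p i - (1 - p j) * (1 - p k) := by
  rw [es_eq_sum_wt]
  have ha : ∑ S : Finset (Fin (q + 1)), wt p S = 1 := by
    have := cyl p ∅ ∅ (disjoint_empty_right _)
    simp only [empty_subset, disjoint_empty_right, and_self, if_true, prod_empty, mul_one] at this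
    exact this
  have hb : ∑ S : Finset (Fin (q + 1)), (if S = univ then wt p S else 0) = ∏ i, p i := by
    rw [sum_ite_eq' univ univ]
    simp [wt]
  have hc : ∑ S : Finset (Fin (q + 1)), (if j ∉ S ∧ k ∉ S then wt p S else 0)
      = (1 - p j) * (1 - p k) := by
    have := cyl p ∅ {j, k} (disjoint_empty_left _)
    rw [prod_empty, one_mul, prod_pair hjk] at this
    rw [← this]
    apply sum_congr rfl
    intro S _
    congr 1
    simp only [empty_subset, true_and, eq_iff_iff]
    rw [Finset.disjoint_right]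
    simp
  have hpt : ∀ S : Finset (Fin (q + 1)), wt p S * (S.card.choose (s + 1) : ℝ)
      ≤ q.choose (s + 1) * wt p S + q.choose s * (if S = univ then wt p S else 0)
        - (if j ∉ S ∧ k ∉ S then wt p S else 0) := by
    intro S
    have hw := wt_nonneg h0 h1 S
    by_cases hS : S = univ
    · subst hS
      rw [if_pos rfl, if_neg (by simp), card_univ, Fintype.card_fin, Nat.choose_succ_succ]
      push_cast
      linarith
    · rw [if_neg hS]
      have hlt : S.card < q + 1 := by
        have := Finset.card_lt_card (Finset.ssubset_univ_iff.2 hS)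
        rwa [card_univ, Fintype.card_fin] at this
      by_cases hjkS : j ∉ S ∧ k ∉ S
      · rw [if_pos hjkS]
        have hcard : S.card + 1 ≤ q := by
          have h2 : S ⊆ univ \ {j, k} := by
            intro x hx
            rw [mem_sdiff, mem_insert, mem_singleton]
            refine ⟨mem_univ _, ?_⟩
            rintro (rfl | rfl)
            · exact hjkS.1 hx
            · exact hjkS.2 hx
          have h3 := card_le_card h2
          rw [card_sdiff_of_subset (subset_univ _), card_univ, Fintype.card_fin,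
            card_pair hjk] at h3
          omega
        have h4 := choose_aux hs hcard
        have h5 := mul_le_mul_of_nonneg_left h4 hw
        linarith
      · rw [if_neg hjkS]
        have h4 : (S.card.choose (s + 1) : ℝ) ≤ q.choose (s + 1) := by
          exact_mod_cast Nat.choose_le_choose _ (by omega)
        have h5 := mul_le_mul_of_nonneg_left h4 hw
        linarith
  calc ∑ S : Finset (Fin (q + 1)), wt p S * (S.card.choose (s + 1) : ℝ)
      ≤ ∑ S : Finset (Fin (q + 1)), (q.choose (s + 1) * wt p S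
        + q.choose s * (if S = univ then wt p S else 0)
        - (if j ∉ S ∧ k ∉ S then wt p S else 0)) := sum_le_sum (fun S _ => hpt S)
    _ = _ := by
      rw [sum_sub_distrib, sum_add_distrib, ← mul_sum, ← mul_sum, ha, hb, hc]
      ring

end Pool.Agent.H44
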