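import Pool.Agent.H44.HVec
import Pool.Agent.H44.Counting

/-!
Face numbers of clique complexes.
-/

namespace Pool.Agent.H44

open Finset Polynomial

set_option linter.unusedSectionVars false

/-- The number of faces with `i` vertices (dimension `i - 1`) of the clique complex of `G`. -/
noncomputable def faceNum {V : Type*} (G : SimpleGraph V) (i : ℕ) : ℕ := (G.cliqueSet i).ncard

lemma faceNum_eq {V : Type*} [Fintype V] [DecidableEq V] (G : SimpleGraph V)
    [DecidableRel G.Adj] (i : ℕ) : faceNum G i = (Kc G univ i).card := by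
  unfold faceNum
  have h : G.cliqueSet i = ((Kc G univ i : Finset (Finset V)) : Set (Finset V)) := by
    ext s
    rw [SimpleGraph.mem_cliqueSet_iff, mem_coe, mem_Kc, SimpleGraph.isNClique_iff]
    exact ⟨fun h => ⟨subset_univ _, h⟩, fun h => h.2⟩
  rw [h, Set.ncard_coe_finset]

lemma faceNum_eq_coeff {V : Type*} [Fintype V] [DecidableEq V] (G : SimpleGraph V)
    [DecidableRel G.Adj] (i : ℕ) : (faceNum G i : ℤ) = (cp G univ).coeff i := by
  rw [faceNum_eq, cp_coeff]

/-- If the clique polynomial has a gamma representation, so has the truncated face polynomial. -/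
lemma trunc_eq {V : Type*} [Fintype V] [DecidableEq V] (G : SimpleGraph V)
    [DecidableRel G.Adj] {d : ℕ} {γ : ℕ → ℤ}
    (h : cp G univ = ∑ j ∈ range (d / 2 + 1), C (γ j) * gb d j) :
    (∑ i ∈ range (d + 1), C (faceNum G i : ℤ) * X ^ i : ℤ[X]) = cp G univ := by
  have hdeg : (cp G univ).natDegree < d + 1 := by
    rw [Nat.lt_succ_iff, h]
    apply natDegree_sum_le_of_forall_le
    intro j hj
    rw [mem_range] at hj
    apply (natDegree_C_mul_le _ _).trans
    exact gb_natDegree_le (by omega)
  rw [(cp G univ).as_sum_range_C_mul_X_pow' hdeg]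
  apply sum_congr rfl
  intro i _
  rw [faceNum_eq_coeff]

end Pool.Agent.H44
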