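import Pool.Agent.H44.Structure
import Pool.Agent.H44.Local

/-!
Existence of full edges, given that most vertices are full and there are not too many edges
inside the colour classes.
-/

namespace Pool.Agent.H44

open Finset Polynomial

set_option linter.unusedSectionVars false

variable {V : Type*} [Fintype V] [DecidableEq V]
variable {G : SimpleGraph V} [DecidableRel G.Adj] {d r : ℕ}

/-- exchange of one vertex of a facet -/
lemma exchange (hE : Eul G d) {Q : Finset V} (hQ : G.IsClique (Q : Set V)) (hQd : Q.card = d)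
    {u : V} (hu : u ∈ Q) :
    ∃ Q' : Finset V, G.IsClique (Q' : Set V) ∧ Q'.card = d ∧ Q.erase u ⊆ Q' ∧ u ∉ Q' := by
  have h1 : G.IsClique ((Q.erase u : Finset V) : Set V) := isClique_mono (erase_subset _ _) hQ
  have hpos : 0 < Q.card := card_pos.2 ⟨u, hu⟩
  have h2 : (Q.erase u).card + 1 = d := by
    rw [card_erase_of_mem hu]; omega
  have h3 := card_cn_two hE h1 h2.symm
  obtain ⟨z, hz, hzu⟩ : ∃ z ∈ cn G (Q.erase u), z ≠ u := by
    by_contra hcon
    push Not at hcon
    have : cn G (Q.erase u) ⊆ {u} := fun z hz => mem_singleton.2 (hcon z hz)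
    have := card_le_card this
    rw [h3] at this
    simp at this
  refine ⟨insert z (Q.erase u), isClique_insert_of_mem_cn h1 hz, ?_, subset_insert _ _, ?_⟩
  · rw [card_insert_of_notMem (not_mem_of_mem_cn hz)]; exact h2
  · rw [mem_insert]
    push Not
    exact ⟨hzu.symm, by simp⟩

/-- there is no nonempty set `U` avoiding `v` contained in all facets through `v`. -/
lemma not_all_facets (hE : Eul G d) {v : V} {U : Finset V} (hv : v ∉ U) (hU : U.Nonempty)
    (h : ∀ Q : Finset V, G.IsClique (Q : Set V) → Q.card = d → v ∈ Q → U ⊆ Q) : False := by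
  have h1 : G.IsClique (({v} : Finset V) : Set V) := by simp
  obtain ⟨Q, hvQ, hQ, hQd⟩ := hE.pure {v} h1
  have hvQ' : v ∈ Q := hvQ (mem_singleton_self v)
  obtain ⟨u, hu⟩ := hU
  have huQ : u ∈ Q := h Q hQ hQd hvQ' hu
  obtain ⟨Q', hQ', hQd', hsub, hnu⟩ := exchange hE hQ hQd huQ
  have hvu : v ≠ u := by rintro rfl; exact hv hu
  have hvQ'' : v ∈ Q' := hsub (mem_erase.2 ⟨hvu, hvQ'⟩)
  exact hnu (h Q' hQ' hQd' hvQ'' hu)

/-- neighbours of `v` with the colour of `v`. -/
def inn (G : SimpleGraph V) [DecidableRel G.Adj] (c : V → Fin r) (v : V) : Finset V :=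
  univ.filter (fun w => c w = c v ∧ G.Adj v w)

/-- the full vertices of colour `i`. -/
def full (G : SimpleGraph V) [DecidableRel G.Adj] (c : V → Fin r) (i : Fin r) : Finset V :=
  univ.filter (fun v => c v = i ∧ ∀ w, c w ≠ i → G.Adj w v)

/-- the non-full vertices of colour `i`. -/
def nonfull (G : SimpleGraph V) [DecidableRel G.Adj] (c : V → Fin r) (i : Fin r) : Finset V :=
  univ.filter (fun v => c v = i) \ full G c i

variable {c : V → Fin r}

lemma mem_inn {v w : V} : w ∈ inn G c v ↔ c w = c v ∧ G.Adj v w := by simp [inn]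

lemma mem_full {i : Fin r} {v : V} :
    v ∈ full G c i ↔ c v = i ∧ ∀ w, c w ≠ i → G.Adj w v := by simp [full]

lemma mem_nonfull {i : Fin r} {v : V} :
    v ∈ nonfull G c i ↔ c v = i ∧ v ∉ full G c i := by simp [nonfull]

lemma full_subset_cn {i : Fin r} {φ : Finset V} (hφ : ∀ x ∈ φ, c x ≠ i) :
    full G c i ⊆ cn G φ := by
  intro v hv
  rw [mem_full] at hv
  rw [mem_cn]
  intro x hx
  exact (hv.2 x (hφ x hx)).symm

lemma no_clique_A (hE : Eul G d) {i : Fin r} (h3 : 3 ≤ (full G c i).card) {φ : Finset V}
    (hφ : ∀ x ∈ φ, c x ≠ i) (hc : G.IsClique (φ : Set V)) (hd : d = φ.card + 1) : False := by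
  have h1 := card_le_card (full_subset_cn (G := G) hφ)
  rw [card_cn_two hE hc hd] at h1
  omega

lemma cn_subset_color (_hE : Eul G d) {i : Fin r} {k : ℕ}
    (hno : ∀ φ : Finset V, (∀ x ∈ φ, c x ≠ i) → G.IsClique (φ : Set V) → d = φ.card + k → False)
    {φ : Finset V} (hφ : ∀ x ∈ φ, c x ≠ i) (hc : G.IsClique (φ : Set V))
    (hd : d = φ.card + (k + 1)) {z : V} (hz : z ∈ cn G φ) : c z = i := by
  by_contra hne
  apply hno (insert z φ) _ (isClique_insert_of_mem_cn hc hz)
  · rw [card_insert_of_notMem (not_mem_of_mem_cn hz)]; omega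
  · intro x hx
    rw [mem_insert] at hx
    rcases hx with rfl | hx
    · exact hne
    · exact hφ x hx

lemma no_clique_C (hE : Eul G d) {i : Fin r} (h3 : 3 ≤ (full G c i).card)
    (hN : (nonfull G c i).card < (full G c i).card)
    (hind : ∀ x ∈ full G c i, ∀ y ∈ full G c i, ¬ G.Adj x y) {φ : Finset V}
    (hφ : ∀ x ∈ φ, c x ≠ i) (hc : G.IsClique (φ : Set V)) (hd : d = φ.card + 2) : False := by
  have hcol : ∀ z ∈ cn G φ, c z = i := fun z hz =>
    cn_subset_color hE (k := 1) (fun φ' h1 h2 h3' => no_clique_A hE h3 h1 h2 h3') hφ hc hd hz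
  have hsub := full_subset_cn (G := G) hφ
  -- count adjacent pairs
  have h1 : ∑ v ∈ full G c i, (cn G (insert v φ)).card = 2 * (full G c i).card := by
    rw [Finset.sum_congr rfl (fun v hv => card_cn_insert_two hE hc hd (hsub hv))]
    rw [Finset.sum_const, smul_eq_mul, mul_comm]
  have h2 : ∑ v ∈ full G c i, (cn G (insert v φ)).card
      ≤ ∑ w ∈ nonfull G c i ∩ cn G φ, (cn G (insert w φ)).card := by
    have e1 : ∀ v ∈ full G c i, (cn G (insert v φ)).card
        = ∑ w ∈ nonfull G c i ∩ cn G φ, (if G.Adj v w then 1 else 0) := by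
      intro v hv
      rw [← Finset.sum_filter, Finset.sum_const, smul_eq_mul, mul_one]
      congr 1
      ext w
      simp only [mem_filter, mem_inter]
      constructor
      · intro hw
        have hwφ : w ∈ cn G φ := cn_anti (subset_insert _ _) hw
        have hwv : G.Adj w v := mem_cn.1 hw v (mem_insert_self _ _)
        refine ⟨⟨?_, hwφ⟩, hwv.symm⟩
        rw [mem_nonfull]
        refine ⟨hcol w hwφ, ?_⟩
        intro hwF
        exact hind w hwF v hv hwv
      · rintro ⟨⟨_, hwφ⟩, hvw⟩
        rw [cn_insert, mem_inter]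
        refine ⟨hwφ, ?_⟩
        rw [mem_cn]; intro z hz; rw [mem_singleton] at hz; subst hz; exact hvw.symm
    rw [Finset.sum_congr rfl e1, Finset.sum_comm]
    apply Finset.sum_le_sum
    intro w hw
    rw [mem_inter] at hw
    rw [← Finset.sum_filter, Finset.sum_const, smul_eq_mul, mul_one]
    apply card_le_card
    intro v hv
    rw [mem_filter] at hv
    rw [cn_insert, mem_inter]
    refine ⟨hsub hv.1, ?_⟩
    rw [mem_cn]; intro z hz; rw [mem_singleton] at hz; subst hz; exact hv.2
  have h4 : ∑ w ∈ nonfull G c i ∩ cn G φ, (cn G (insert w φ)).card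
      ≤ 2 * (nonfull G c i).card := by
    rw [Finset.sum_congr rfl (fun w hw => card_cn_insert_two hE hc hd (mem_inter.1 hw).2)]
    rw [Finset.sum_const, smul_eq_mul, mul_comm]
    exact Nat.mul_le_mul_left 2 (card_le_card inter_subset_left)
  omega

lemma no_clique_D (hE : Eul G d) {i : Fin r} (h3 : 3 ≤ (full G c i).card)
    (hN : 3 * (nonfull G c i).card < (full G c i).card)
    (hind : ∀ x ∈ full G c i, ∀ y ∈ full G c i, ¬ G.Adj x y) {φ : Finset V}
    (hφ : ∀ x ∈ φ, c x ≠ i) (hc : G.IsClique (φ : Set V)) (hd : d = φ.card + 3) : False := by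
  have hcol : ∀ z ∈ cn G φ, c z = i := fun z hz =>
    cn_subset_color hE (k := 2) (fun φ' h1 h2 h3' => no_clique_C hE h3 (by omega) hind h1 h2 h3')
      hφ hc hd hz
  have hsub := full_subset_cn (G := G) hφ
  have hcard : (cn G φ).card ≤ (full G c i).card + (nonfull G c i).card := by
    rw [← card_union_of_disjoint (by unfold nonfull; exact disjoint_sdiff)]
    apply card_le_card
    intro w hw
    rw [mem_union, mem_nonfull]
    by_cases hwF : w ∈ full G c i
    · exact Or.inl hwF
    · exact Or.inr ⟨hcol w hw, hwF⟩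
  have hedges := edges_cn hE hc hd
  -- edges from full vertices
  have h5 : ∑ v ∈ full G c i, (cn G (insert v φ)).card ≤ (Kc G (cn G φ) 2).card := by
    rw [← Finset.card_sigma]
    apply Finset.card_le_card_of_injOn (fun p => ({p.1, p.2} : Finset V))
    · rintro ⟨v, w⟩ hp
      simp only [coe_sigma, Set.mem_sigma_iff, mem_coe] at hp
      obtain ⟨hv, hw⟩ := hp
      rw [mem_coe, mem_Kc]
      have hwv : G.Adj w v := mem_cn.1 hw v (mem_insert_self _ _)
      refine ⟨?_, ?_, ?_⟩
      · intro z hz
        simp only [mem_insert, mem_singleton] at hz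
        rcases hz with rfl | rfl
        · exact hsub hv
        · exact cn_anti (subset_insert _ _) hw
      · rw [Finset.coe_insert, Finset.coe_singleton, SimpleGraph.isClique_pair]
        intro _; exact hwv.symm
      · rw [card_pair (G.ne_of_adj hwv).symm]
    · rintro ⟨v, w⟩ hp ⟨v', w'⟩ hp' heq
      simp only [coe_sigma, Set.mem_sigma_iff, mem_coe] at hp hp'
      obtain ⟨hv, hw⟩ := hp
      obtain ⟨hv', hw'⟩ := hp'
      have hwv : G.Adj w v := mem_cn.1 hw v (mem_insert_self _ _)
      have hwv' : G.Adj w' v' := mem_cn.1 hw' v' (mem_insert_self _ _)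
      simp only at heq
      have h1 : v ∈ ({v', w'} : Finset V) := by rw [← heq]; simp
      have h2 : w ∈ ({v', w'} : Finset V) := by rw [← heq]; simp
      simp only [mem_insert, mem_singleton] at h1 h2
      have hwF : w ∉ full G c i := fun h => hind w h v hv hwv
      have hvv : v = v' := by
        rcases h1 with h1 | h1
        · exact h1
        · exfalso
          have : w' ∉ full G c i := fun h => hind w' h v' hv' hwv'
          exact this (h1 ▸ hv)
      have hww : w = w' := by
        rcases h2 with h2 | h2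
        · exact absurd (h2 ▸ hv') hwF
        · exact h2
      subst hvv; subst hww; rfl
  have h6 : 4 * (full G c i).card ≤ ∑ v ∈ full G c i, (cn G (insert v φ)).card := by
    rw [mul_comm, ← smul_eq_mul, ← Finset.sum_const]
    apply Finset.sum_le_sum
    intro v hv
    exact four_le_degree hE hc hd (hsub hv)
  omega

lemma full_inn_ge_two (hE : Eul G d) {i : Fin r} (h3 : 3 ≤ (full G c i).card) {v : V}
    (hv : v ∈ full G c i) : 2 ≤ (inn G c v).card := by
  have hcv : c v = i := (mem_full.1 hv).1
  have hmeet : ∀ Q : Finset V, G.IsClique (Q : Set V) → Q.card = d → v ∈ Q →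
      ∃ u ∈ inn G c v, u ∈ Q := by
    intro Q hQ hQd hvQ
    by_contra hcon
    push Not at hcon
    have hpos : 0 < Q.card := card_pos.2 ⟨v, hvQ⟩
    apply no_clique_A hE h3 (φ := Q.erase v) _ (isClique_mono (erase_subset _ _) hQ)
    · rw [card_erase_of_mem hvQ]; omega
    · intro x hx hcx
      rw [mem_erase] at hx
      apply hcon x _ hx.2
      rw [mem_inn]
      exact ⟨by rw [hcx, hcv], hQ (by exact_mod_cast hvQ) (by exact_mod_cast hx.2) (Ne.symm hx.1)⟩
  by_contra hlt
  have hne : (inn G c v).Nonempty := by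
    obtain ⟨Q, hvQ, hQ, hQd⟩ := hE.pure {v} (by simp)
    obtain ⟨u, hu, _⟩ := hmeet Q hQ hQd (hvQ (mem_singleton_self v))
    exact ⟨u, hu⟩
  have h1 : (inn G c v).card = 1 := by
    have := card_pos.2 hne
    omega
  obtain ⟨u, hu⟩ := card_eq_one.1 h1
  apply not_all_facets hE (v := v) (U := inn G c v) _ hne
  · intro Q hQ hQd hvQ
    obtain ⟨u', hu', huQ⟩ := hmeet Q hQ hQd hvQ
    rw [hu, mem_singleton] at hu'
    subst hu'
    rw [hu]
    simpa using huQ
  · rw [mem_inn]
    rintro ⟨_, h⟩
    exact G.irrefl h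

lemma full_inn_ge_four (hE : Eul G d) {i : Fin r} (h3 : 3 ≤ (full G c i).card)
    (hN : 3 * (nonfull G c i).card < (full G c i).card)
    (hind : ∀ x ∈ full G c i, ∀ y ∈ full G c i, ¬ G.Adj x y) {v : V}
    (hv : v ∈ full G c i) : 4 ≤ (inn G c v).card := by
  have hcv : c v = i := (mem_full.1 hv).1
  have hmeet : ∀ Q : Finset V, G.IsClique (Q : Set V) → Q.card = d → v ∈ Q →
      3 ≤ (inn G c v ∩ Q).card := by
    intro Q hQ hQd hvQ
    by_contra hcon
    -- the vertices of Q of other colours
    set φ := Q.filter (fun x => c x ≠ i) with hφ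
    have hsplit : Q.card = φ.card + (Q.filter (fun x => c x = i)).card := by
      rw [hφ]
      have := Finset.card_filter_add_card_filter_not (s := Q) (fun x => c x = i)
      have h2 : (Q.filter (fun x => c x ≠ i)) = Q.filter (fun x => ¬ c x = i) := rfl
      rw [h2]
      omega
    have hi : (Q.filter (fun x => c x = i)).card ≤ (inn G c v ∩ Q).card + 1 := by
      have : Q.filter (fun x => c x = i) ⊆ insert v (inn G c v ∩ Q) := by
        intro x hx
        rw [mem_filter] at hx
        rw [mem_insert, mem_inter, mem_inn]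
        by_cases hxv : x = v
        · exact Or.inl hxv
        · right
          exact ⟨⟨by rw [hx.2, hcv], hQ (by exact_mod_cast hvQ) (by exact_mod_cast hx.1)
            (Ne.symm hxv)⟩, hx.1⟩
      exact (card_le_card this).trans (card_insert_le _ _)
    have hge : d ≤ φ.card + 3 := by omega
    have h3d : 3 ≤ d := by
      by_contra hlt
      -- d < 3: use the empty set or smaller
      have hd0 : 0 < d := by rw [← hQd]; exact card_pos.2 ⟨v, hvQ⟩
      have hdeg : d = 1 ∨ d = 2 := by omega
      rcases hdeg with hd1 | hd2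
      · exact no_clique_A hE h3 (φ := ∅) (by simp) (by simp) (by simp [hd1])
      · exact no_clique_C hE h3 (by omega) hind (φ := ∅) (by simp) (by simp) (by simp [hd2])
    obtain ⟨φ', hφ', hφc⟩ := Finset.exists_subset_card_eq (s := φ) (n := d - 3) (by omega)
    apply no_clique_D hE h3 hN hind (φ := φ') _ (isClique_mono (hφ'.trans (filter_subset _ _)) hQ)
    · omega
    · intro x hx
      have := hφ' hx
      rw [hφ, mem_filter] at this
      exact this.2
  by_contra hlt
  have hne : (inn G c v).Nonempty := by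
    obtain ⟨Q, hvQ, hQ, hQd⟩ := hE.pure {v} (by simp)
    have := hmeet Q hQ hQd (hvQ (mem_singleton_self v))
    have h4 : 0 < (inn G c v ∩ Q).card := by omega
    obtain ⟨u, hu⟩ := card_pos.1 h4
    exact ⟨u, (mem_inter.1 hu).1⟩
  apply not_all_facets hE (v := v) (U := inn G c v) _ hne
  · intro Q hQ hQd hvQ
    have h1 := hmeet Q hQ hQd hvQ
    have h2 : (inn G c v ∩ Q) = inn G c v := by
      apply eq_of_subset_of_card_le inter_subset_left
      omega
    rw [← h2]
    exact inter_subset_right
  · rw [mem_inn]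
    rintro ⟨_, h⟩
    exact G.irrefl h

/-- existence of an edge between full vertices of colour `i`. -/
theorem exists_full_edge (hE : Eul G d) (h3 : ∀ j, 3 ≤ (full G c j).card) (i : Fin r)
    (hN : 3 * (nonfull G c i).card < (full G c i).card)
    (hI : ∑ v, (inn G c v).card < 6 * (full G c i).card + 2 * ∑ j, (full G c j).card) :
    ∃ x ∈ full G c i, ∃ y ∈ full G c i, G.Adj x y := by
  by_contra hcon
  push Not at hcon
  have hfull4 : ∀ v ∈ full G c i, 4 ≤ (inn G c v).card := fun v hv =>
    full_inn_ge_four hE (h3 i) hN hcon hv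
  -- split the sum over colours
  have h1 : ∑ v, (inn G c v).card = ∑ j : Fin r, ∑ v ∈ univ.filter (fun v => c v = j),
      (inn G c v).card := by
    rw [Finset.sum_fiberwise]
  have h2 : ∀ j, (univ.filter (fun v => c v = j)) = full G c j ∪ nonfull G c j := by
    intro j
    unfold nonfull
    rw [union_sdiff_of_subset]
    intro v hv
    rw [mem_full] at hv
    simp [hv.1]
  have hdisj : ∀ j, Disjoint (full G c j) (nonfull G c j) := by
    intro j; unfold nonfull; exact disjoint_sdiff
  have h4 : ∀ j, 2 * (full G c j).card ≤ ∑ v ∈ univ.filter (fun v => c v = j),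
      (inn G c v).card := by
    intro j
    rw [h2 j, sum_union (hdisj j)]
    have : 2 * (full G c j).card ≤ ∑ v ∈ full G c j, (inn G c v).card := by
      rw [mul_comm, ← smul_eq_mul, ← Finset.sum_const]
      apply Finset.sum_le_sum
      intro v hv
      exact full_inn_ge_two hE (h3 j) hv
    omega
  have h5 : 8 * (full G c i).card ≤ ∑ v ∈ univ.filter (fun v => c v = i),
      (inn G c v).card := by
    rw [h2 i, sum_union (hdisj i)]
    have h6 : 4 * (full G c i).card ≤ ∑ v ∈ full G c i, (inn G c v).card := by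
      rw [mul_comm, ← smul_eq_mul, ← Finset.sum_const]
      apply Finset.sum_le_sum
      intro v hv
      exact hfull4 v hv
    have h7 : ∑ v ∈ full G c i, (inn G c v).card ≤ ∑ w ∈ nonfull G c i, (inn G c w).card := by
      have e1 : ∀ v ∈ full G c i, (inn G c v).card
          = ∑ w ∈ nonfull G c i, (if G.Adj v w then 1 else 0) := by
        intro v hv
        rw [← Finset.sum_filter, Finset.sum_const, smul_eq_mul, mul_one]
        congr 1
        ext w
        have hcv := (mem_full.1 hv).1
        simp only [mem_filter, mem_inn, mem_nonfull]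
        constructor
        · rintro ⟨ha, hb⟩
          refine ⟨⟨by rw [ha, hcv], ?_⟩, hb⟩
          intro hwF
          exact hcon v hv w hwF hb
        · rintro ⟨⟨ha, _⟩, hb⟩
          exact ⟨by rw [ha, hcv], hb⟩
      rw [Finset.sum_congr rfl e1, Finset.sum_comm]
      apply Finset.sum_le_sum
      intro w hw
      rw [← Finset.sum_filter, Finset.sum_const, smul_eq_mul, mul_one]
      apply card_le_card
      intro v hv
      rw [mem_filter] at hv
      rw [mem_inn]
      have hcw := (mem_nonfull.1 hw).1
      have hcv := (mem_full.1 hv.1).1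
      exact ⟨by rw [hcv, hcw], hv.2.symm⟩
    omega
  have h8 : 8 * (full G c i).card + ∑ j ∈ univ.erase i, 2 * (full G c j).card
      ≤ ∑ j : Fin r, ∑ v ∈ univ.filter (fun v => c v = j), (inn G c v).card := by
    rw [← Finset.add_sum_erase _ _ (mem_univ i)]
    apply Nat.add_le_add h5
    apply Finset.sum_le_sum
    intro j _
    exact h4 j
  have h9 : 2 * ∑ j, (full G c j).card
      = 2 * (full G c i).card + ∑ j ∈ univ.erase i, 2 * (full G c j).card := by
    rw [Finset.mul_sum, ← Finset.add_sum_erase _ _ (mem_univ i)]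
  omega

/-- existence of a system of full edges. -/
theorem exists_fullEdges (hE : Eul G d) (h3 : ∀ j, 3 ≤ (full G c j).card)
    (hN : ∀ i, 3 * (nonfull G c i).card < (full G c i).card)
    (hI : ∀ i, ∑ v, (inn G c v).card < 6 * (full G c i).card + 2 * ∑ j, (full G c j).card) :
    ∃ u v : Fin r → V, FullEdges G c u v := by
  choose u hu v hv huv using fun i => exists_full_edge hE h3 i (hN i) (hI i)
  refine ⟨u, v, ?_, ?_, huv, ?_, ?_⟩
  · intro i; exact (mem_full.1 (hu i)).1
  · intro i; exact (mem_full.1 (hv i)).1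
  · intro i w hw; exact (mem_full.1 (hu i)).2 w hw
  · intro i w hw; exact (mem_full.1 (hv i)).2 w hw

end Pool.Agent.H44
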