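import Pool.Agent.H44.Stability
import Pool.Agent.H44.FullExist

/-!
Existence of full edges in nearly extremal flag Eulerian complexes.
-/

namespace Pool.Agent.H44

open Finset

set_option linter.unusedSectionVars false

universe u

lemma sum_nonfull_le {V : Type*} [Fintype V] [DecidableEq V] {G : SimpleGraph V}
    [DecidableRel G.Adj] {q : ℕ} {c : V → Fin (q + 1)} :
    ∑ i, (nonfull G c i).card ≤ Msum G c univ := by
  have h1 : ∀ i, (nonfull G c i).card
      ≤ ∑ v ∈ (univ : Finset V).filter (fun v => c v = i), (misA G c univ v).card := by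
    intro i
    have h2 : nonfull G c i ⊆ (univ : Finset V).filter (fun v => c v = i) := by
      unfold nonfull; exact sdiff_subset
    refine le_trans ?_ (sum_le_sum_of_subset h2)
    rw [card_eq_sum_ones]
    apply sum_le_sum
    intro v hv
    rw [mem_nonfull, mem_full] at hv
    obtain ⟨hc, hv⟩ := hv
    push Not at hv
    obtain ⟨w, hw1, hw2⟩ := hv hc
    apply card_pos.2
    refine ⟨w, ?_⟩
    rw [mem_misA]
    refine ⟨mem_univ _, by rw [hc]; exact hw1, fun h => hw2 h.symm⟩
  refine (sum_le_sum (fun i _ => h1 i)).trans (le_of_eq ?_)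
  unfold Msum
  rw [Finset.sum_fiberwise]

lemma card_full_add {V : Type*} [Fintype V] [DecidableEq V] {G : SimpleGraph V}
    [DecidableRel G.Adj] {q : ℕ} {c : V → Fin (q + 1)} (i : Fin (q + 1)) :
    (full G c i).card + (nonfull G c i).card = (cls c univ i).card := by
  unfold nonfull
  have h1 : full G c i ⊆ (univ : Finset V).filter (fun v => c v = i) := by
    intro v hv
    rw [mem_full] at hv
    simp [hv.1]
  rw [add_comm, card_sdiff_add_card_eq_card h1]
  rfl

theorem full_edges_exist (q : ℕ) {V : Type*} [Fintype V] [DecidableEq V] (G : SimpleGraph V)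
    [DecidableRel G.Adj] {N b : ℝ} (hE : Eul G (2 * (q + 1) + 1))
    (hN : N = Fintype.card V) (hb : b = 1 / ((q : ℝ) + 1)) (hN0 : 10 / b ≤ N)
    (c : V → Fin (q + 1)) (hM : (Msum G c univ : ℝ) ≤ b / 10 * N)
    (hI : (Isum G c univ : ℝ) ≤ (2 * ((q : ℝ) + 3) * b + b / 10) * N)
    (hcls : ∀ j, (b - b / 10) * N ≤ ((cls c univ j).card : ℝ)) :
    (∃ u v : Fin (q + 1) → V, FullEdges G c u v) ∧ ∀ j, 7 ≤ (full G c j).card := by
  have hq1 : (0 : ℝ) < (q : ℝ) + 1 := by positivity
  have hb0 : 0 < b := by rw [hb]; positivity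
  have hbN : 10 ≤ b * N := by
    rw [div_le_iff₀ hb0] at hN0
    linarith
  have hN1 : 0 < N := by
    by_contra hcon
    push Not at hcon
    have := mul_nonpos_of_nonneg_of_nonpos hb0.le hcon
    linarith
  have hnf : ∀ i, ((nonfull G c i).card : ℝ) ≤ b / 10 * N := by
    intro i
    have h1 : (nonfull G c i).card ≤ ∑ i, (nonfull G c i).card :=
      single_le_sum (f := fun i => (nonfull G c i).card) (fun _ _ => Nat.zero_le _) (mem_univ i)
    have h2 := h1.trans sum_nonfull_le
    refine le_trans ?_ hM
    exact_mod_cast h2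
  have hfa : ∀ i, ((full G c i).card : ℝ) + (nonfull G c i).card = (cls c univ i).card := by
    intro i
    exact_mod_cast card_full_add (G := G) (c := c) i
  have hf : ∀ i, 8 / 10 * (b * N) ≤ ((full G c i).card : ℝ) := by
    intro i
    have h1 := hfa i
    have h2 := hcls i
    have h3 := hnf i
    have e : (b - b / 10) * N = 9 / 10 * (b * N) := by ring
    have e2 : b / 10 * N = 1 / 10 * (b * N) := by ring
    rw [e] at h2
    rw [e2] at h3
    linarith
  have hf8 : ∀ i, 7 ≤ (full G c i).card := by
    intro i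
    have h1 := hf i
    have h2 : (7 : ℝ) ≤ ((full G c i).card : ℝ) := by linarith
    exact_mod_cast h2
  have hsumf : (1 - b / 10) * N ≤ ((∑ j, (full G c j).card : ℕ) : ℝ) := by
    have h1 : ∑ j, (full G c j).card + ∑ j, (nonfull G c j).card = Fintype.card V := by
      rw [← sum_add_distrib, sum_congr rfl (fun i _ => card_full_add (G := G) (c := c) i),
        sum_cls, card_univ]
    have h2 : ((∑ j, (full G c j).card : ℕ) : ℝ) + ((∑ j, (nonfull G c j).card : ℕ) : ℝ) = N := by
      rw [hN]; exact_mod_cast h1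
    have h3 : ((∑ j, (nonfull G c j).card : ℕ) : ℝ) ≤ b / 10 * N := by
      refine le_trans ?_ hM
      exact_mod_cast sum_nonfull_le
    linarith
  refine ⟨?_, hf8⟩
  apply exists_fullEdges hE
  · intro j
    have := hf8 j
    omega
  · intro i
    have h1 := hf i
    have h2 := hnf i
    have e2 : b / 10 * N = 1 / 10 * (b * N) := by ring
    rw [e2] at h2
    have h3 : (3 * (nonfull G c i).card : ℝ) < (full G c i).card := by linarith
    exact_mod_cast h3
  · intro i
    have h0 : ∑ v, (inn G c v).card = Isum G c univ := rfl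
    rw [h0]
    have h1 := hf i
    have e1 : (2 * ((q : ℝ) + 3) * b + b / 10) * N = 2 * N + 41 / 10 * (b * N) := by
      have : ((q : ℝ) + 1) * b = 1 := by rw [hb]; field_simp
      have e : 2 * ((q : ℝ) + 3) * b = 2 * (((q : ℝ) + 1) * b) + 4 * b := by ring
      rw [e, this]
      ring
    rw [e1] at hI
    have e3 : (1 - b / 10) * N = N - 1 / 10 * (b * N) := by ring
    rw [e3] at hsumf
    have h3 : (Isum G c univ : ℝ) < 6 * (full G c i).card
        + 2 * ((∑ j, (full G c j).card : ℕ) : ℝ) := by linarith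
    exact_mod_cast h3

end Pool.Agent.H44
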