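import Mathlib

/-!
Polynomials of degree at most `2k+e` which vanish to order `k` at `0` and satisfy
`P(-1-x) = (-1)^e P(x)` are multiples of `x^k (1+x)^k (1+2x)^e`, for `e = 0, 1`.
-/

namespace Pool.Agent.H44

open Polynomial

lemma comp_neg_one_sub (P : ℤ[X]) : (P.comp (-1 - X)).comp (-1 - X) = P := by
  rw [Polynomial.comp_assoc]
  have : ((-1 - X : ℤ[X])).comp (-1 - X) = X := by
    simp
  rw [this, Polynomial.comp_X]

lemma base_comp (k : ℕ) : ((X : ℤ[X]) ^ k * (1 + X) ^ k).comp (-1 - X) = X ^ k * (1 + X) ^ k := by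
  rw [← mul_pow]
  have : ((X : ℤ[X]) * (1 + X)).comp (-1 - X) = X * (1 + X) := by
    simp
    ring
  rw [Polynomial.pow_comp, this]

lemma coprime_X_one_add_X (k : ℕ) : IsCoprime ((X : ℤ[X]) ^ k) ((1 + X) ^ k) := by
  apply IsCoprime.pow
  exact ⟨-1, 1, by ring⟩

lemma dvd_of_symm {P : ℤ[X]} {k e : ℕ} (h1 : (X : ℤ[X]) ^ k ∣ P)
    (h2 : P.comp (-1 - X) = (-1) ^ e * P) : (X : ℤ[X]) ^ k * (1 + X) ^ k ∣ P := by
  apply IsCoprime.mul_dvd (coprime_X_one_add_X k) h1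
  obtain ⟨Q, hQ⟩ := h1
  have h3 : P.comp (-1 - X) = (-1 - X) ^ k * Q.comp (-1 - X) := by
    rw [hQ]; simp
  have h4 : P = (-1) ^ e * ((-1 - X) ^ k * Q.comp (-1 - X)) := by
    rw [← h3, h2, ← mul_assoc, ← pow_add, ← two_mul, pow_mul]; norm_num
  have h5 : (-1 - X : ℤ[X]) ^ k = (-1) ^ k * (1 + X) ^ k := by
    rw [← mul_pow]; congr 1; ring
  rw [h4, h5]
  exact ⟨(-1) ^ e * ((-1) ^ k * Q.comp (-1 - X)), by ring⟩

theorem poly_form {P : ℤ[X]} {k e : ℕ} (he : e ≤ 1) (h1 : (X : ℤ[X]) ^ k ∣ P)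
    (h2 : P.comp (-1 - X) = (-1) ^ e * P) (h3 : P.natDegree ≤ 2 * k + e) :
    P = C (P.coeff k) * (X ^ k * (1 + X) ^ k * (1 + 2 * X) ^ e) := by
  obtain ⟨Q, hQ⟩ := dvd_of_symm h1 h2
  have hmon : (X ^ k * (1 + X) ^ k : ℤ[X]).Monic := by
    apply Polynomial.Monic.mul (Polynomial.monic_X_pow k)
    apply Polynomial.Monic.pow
    rw [add_comm]
    exact Polynomial.monic_X_add_C 1
  have hdeg : (X ^ k * (1 + X) ^ k : ℤ[X]).natDegree = 2 * k := by
    rw [Polynomial.Monic.natDegree_mul (Polynomial.monic_X_pow k)]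
    · rw [Polynomial.natDegree_X_pow, Polynomial.Monic.natDegree_pow]
      · have : (1 + X : ℤ[X]).natDegree = 1 := by
          rw [add_comm]; exact Polynomial.natDegree_X_add_C 1
        rw [this]; ring
      · rw [add_comm]
        exact Polynomial.monic_X_add_C 1
    · apply Polynomial.Monic.pow
      rw [add_comm]
      exact Polynomial.monic_X_add_C 1
  have hQdeg : Q.natDegree ≤ e := by
    by_cases hQ0 : Q = 0
    · rw [hQ0]; simp
    · have : P.natDegree = 2 * k + Q.natDegree := by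
        rw [hQ, Polynomial.Monic.natDegree_mul' hmon hQ0, hdeg]
      omega
  have hsym : Q.comp (-1 - X) = (-1) ^ e * Q := by
    have h4 : (X ^ k * (1 + X) ^ k : ℤ[X]) * Q.comp (-1 - X)
        = (X ^ k * (1 + X) ^ k : ℤ[X]) * ((-1) ^ e * Q) := by
      have h5 : P.comp (-1 - X) = (X ^ k * (1 + X) ^ k : ℤ[X]) * Q.comp (-1 - X) := by
        conv_lhs => rw [hQ]
        rw [Polynomial.mul_comp, base_comp]
      rw [← h5, h2, hQ]; ring
    exact mul_left_cancel₀ hmon.ne_zero h4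
  have hform : ∃ q : ℤ, Q = C q * (1 + 2 * X) ^ e := by
    rcases Nat.le_one_iff_eq_zero_or_eq_one.1 he with rfl | rfl
    · refine ⟨Q.coeff 0, ?_⟩
      rw [pow_zero, mul_one]
      exact Polynomial.eq_C_of_natDegree_le_zero hQdeg
    · obtain ⟨a, b, hab⟩ := Polynomial.exists_eq_X_add_C_of_natDegree_le_one hQdeg
      refine ⟨b, ?_⟩
      rw [hab] at hsym
      have h6 := congrArg (fun p : ℤ[X] => p.eval 0) hsym
      simp at h6
      have h7 : a = 2 * b := by linarith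
      rw [hab, h7]
      simp
      ring
  obtain ⟨q, hq⟩ := hform
  have hcoef : P.coeff k = q := by
    rw [hQ, hq]
    have : (X ^ k * (1 + X) ^ k * (C q * (1 + 2 * X) ^ e) : ℤ[X])
        = ((1 + X) ^ k * (C q * (1 + 2 * X) ^ e)) * X ^ k := by ring
    rw [this]
    have h8 := Polynomial.coeff_mul_X_pow ((1 + X) ^ k * (C q * (1 + 2 * X) ^ e) : ℤ[X]) k 0
    rw [zero_add] at h8
    rw [h8, Polynomial.coeff_zero_eq_eval_zero]
    simp
  rw [hcoef]
  conv_lhs => rw [hQ, hq]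
  ring

end Pool.Agent.H44
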