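import Pool.Agent.H44.Counting
import Pool.Agent.H44.PolyLemma

/-!
The gamma representation of the clique polynomial of a flag Eulerian complex.
-/

namespace Pool.Agent.H44

open Finset Polynomial

set_option linter.unusedSectionVars false

/-- the basis polynomials `x^j (1+x)^j (1+2x)^(d-2j)` -/
noncomputable def gb (d j : ℕ) : ℤ[X] := X ^ j * ((1 + X) ^ j * (1 + 2 * X) ^ (d - 2 * j))

/-- polynomials with nonnegative coefficients -/
def NN (P : ℤ[X]) : Prop := ∀ n, 0 ≤ P.coeff n

lemma NN.mul {P Q : ℤ[X]} (hP : NN P) (hQ : NN Q) : NN (P * Q) := by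
  intro n
  rw [coeff_mul]
  exact sum_nonneg (fun x _ => mul_nonneg (hP _) (hQ _))

lemma NN.one : NN 1 := by
  intro n
  rw [coeff_one]
  split_ifs <;> norm_num

lemma NN.pow {P : ℤ[X]} (hP : NN P) (n : ℕ) : NN (P ^ n) := by
  induction n with
  | zero => rw [pow_zero]; exact NN.one
  | succ n ih => rw [pow_succ]; exact ih.mul hP

lemma NN.add {P Q : ℤ[X]} (hP : NN P) (hQ : NN Q) : NN (P + Q) := by
  intro n
  rw [coeff_add]
  exact add_nonneg (hP n) (hQ n)

lemma NN_X : NN (X : ℤ[X]) := by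
  intro n
  rw [coeff_X]
  split_ifs <;> norm_num

lemma NN_two_X : NN (2 * X : ℤ[X]) := by
  have : (2 * X : ℤ[X]) = X + X := by ring
  rw [this]
  exact NN_X.add NN_X

lemma gb_NN (d j : ℕ) : NN (gb d j) :=
  (NN_X.pow j).mul (((NN.one.add NN_X).pow j).mul ((NN.one.add NN_two_X).pow _))

lemma gb_coeff_nonneg (d j s : ℕ) : 0 ≤ (gb d j).coeff s := gb_NN d j s

lemma gb_coeff_lt {d j s : ℕ} (h : s < j) : (gb d j).coeff s = 0 := by
  unfold gb
  rw [coeff_X_pow_mul', if_neg (by omega)]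

lemma gb_coeff_self (d j : ℕ) : (gb d j).coeff j = 1 := by
  unfold gb
  rw [coeff_X_pow_mul', if_pos le_rfl, Nat.sub_self, coeff_zero_eq_eval_zero]
  simp

lemma coeff_one_one_add_mul_pow (a : ℤ) (e : ℕ) : ((1 + C a * X : ℤ[X]) ^ e).coeff 1 = a * e := by
  induction e with
  | zero => simp [coeff_one]
  | succ e ih =>
    rw [pow_succ, mul_coeff_one, ih]
    have h1 : ((1 + C a * X : ℤ[X]) ^ e).coeff 0 = 1 := by
      rw [coeff_zero_eq_eval_zero]; simp
    have h2 : (1 + C a * X : ℤ[X]).coeff 1 = a := by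
      rw [coeff_add, coeff_one, if_neg (by norm_num), coeff_C_mul, coeff_X_one]; ring
    have h3 : (1 + C a * X : ℤ[X]).coeff 0 = 1 := by
      rw [coeff_zero_eq_eval_zero]; simp
    rw [h1, h2, h3]
    push_cast
    ring

lemma gb_coeff_succ (d j : ℕ) : (gb d j).coeff (j + 1) = j + 2 * ((d - 2 * j : ℕ) : ℤ) := by
  unfold gb
  rw [coeff_X_pow_mul', if_pos (by omega), Nat.add_sub_cancel_left, mul_coeff_one]
  have h1 := coeff_one_one_add_mul_pow 1 j
  have h2 := coeff_one_one_add_mul_pow 2 (d - 2 * j)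
  have e1 : (1 + C (1 : ℤ) * X : ℤ[X]) = 1 + X := by simp
  have e2 : (1 + C (2 : ℤ) * X : ℤ[X]) = 1 + 2 * X := by simp
  rw [e1] at h1
  rw [e2] at h2
  rw [h1, h2]
  have h3 : ((1 + X : ℤ[X]) ^ j).coeff 0 = 1 := by
    rw [coeff_zero_eq_eval_zero]; simp
  have h4 : ((1 + 2 * X : ℤ[X]) ^ (d - 2 * j)).coeff 0 = 1 := by
    rw [coeff_zero_eq_eval_zero]; simp
  rw [h3, h4]
  ring

lemma gb_comp {d j : ℕ} (h : 2 * j ≤ d) : (gb d j).comp (-1 - X) = (-1) ^ d * gb d j := by
  unfold gb
  rw [← mul_assoc, mul_comp, base_comp]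
  have h1 : ((1 + 2 * X : ℤ[X]) ^ (d - 2 * j)).comp (-1 - X)
      = (-1) ^ d * (1 + 2 * X) ^ (d - 2 * j) := by
    rw [pow_comp]
    have h2 : (1 + 2 * X : ℤ[X]).comp (-1 - X) = (-1) * (1 + 2 * X) := by
      simp; ring
    rw [h2, mul_pow]
    congr 1
    have : d = (d - 2 * j) + 2 * j := by omega
    conv_rhs => rw [this, pow_add, pow_mul]
    norm_num
  rw [h1]
  ring

theorem exists_gamma {P : ℤ[X]} {d : ℕ} (hsym : P.comp (-1 - X) = (-1) ^ d * P)
    (hdeg : P.natDegree ≤ d) :
    ∃ γ : ℕ → ℤ, P = ∑ j ∈ range (d / 2 + 1), C (γ j) * gb d j := by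
  have key : ∀ k, k ≤ d / 2 + 1 → ∃ γ : ℕ → ℤ,
      (X : ℤ[X]) ^ k ∣ P - ∑ j ∈ range k, C (γ j) * gb d j := by
    intro k
    induction k with
    | zero => intro _; exact ⟨fun _ => 0, by simp⟩
    | succ k ih =>
      intro hk
      obtain ⟨γ, Q, hQ⟩ := ih (by omega)
      refine ⟨fun j => if j = k then Q.coeff 0 else γ j, ?_⟩
      have h1 : ∑ j ∈ range (k + 1), C ((fun j => if j = k then Q.coeff 0 else γ j) j) * gb d j
          = ∑ j ∈ range k, C (γ j) * gb d j + C (Q.coeff 0) * gb d k := by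
        rw [sum_range_succ]
        congr 1
        · apply sum_congr rfl
          intro j hj
          rw [mem_range] at hj
          simp only
          rw [if_neg (by omega)]
        · simp
      rw [h1, ← sub_sub, hQ]
      have h2 : (X : ℤ[X]) ∣ Q - C (Q.coeff 0) * ((1 + X) ^ k * (1 + 2 * X) ^ (d - 2 * k)) := by
        rw [X_dvd_iff, coeff_sub, coeff_C_mul]
        have h4 : ((1 + X : ℤ[X]) ^ k * (1 + 2 * X) ^ (d - 2 * k)).coeff 0 = 1 := by
          rw [coeff_zero_eq_eval_zero]; simp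
        rw [h4]; ring
      obtain ⟨R, hR⟩ := h2
      refine ⟨R, ?_⟩
      have h3 : X ^ k * Q - C (Q.coeff 0) * gb d k
          = X ^ k * (Q - C (Q.coeff 0) * ((1 + X) ^ k * (1 + 2 * X) ^ (d - 2 * k))) := by
        unfold gb; ring
      rw [h3, hR, pow_succ]
      ring
  obtain ⟨γ, hγ⟩ := key (d / 2 + 1) le_rfl
  refine ⟨γ, ?_⟩
  set R := P - ∑ j ∈ range (d / 2 + 1), C (γ j) * gb d j with hR
  have hsymR : R.comp (-1 - X) = (-1) ^ d * R := by
    rw [hR, sub_comp, hsym, Polynomial.sum_comp, mul_sub, mul_sum]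
    congr 1
    apply sum_congr rfl
    intro j hj
    rw [mem_range] at hj
    rw [mul_comp, gb_comp (by omega), C_comp]
    ring
  have hdiv := dvd_of_symm hγ hsymR
  have hdegR : R.natDegree ≤ d := by
    rw [hR]
    apply (natDegree_sub_le _ _).trans
    apply max_le hdeg
    apply natDegree_sum_le_of_forall_le
    intro j hj
    rw [mem_range] at hj
    apply (natDegree_C_mul_le _ _).trans
    unfold gb
    apply natDegree_mul_le.trans
    have h1 : (X ^ j : ℤ[X]).natDegree ≤ j := natDegree_X_pow_le j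
    have h2 : ((1 + X : ℤ[X]) ^ j * (1 + 2 * X) ^ (d - 2 * j)).natDegree ≤ j + (d - 2 * j) := by
      apply natDegree_mul_le.trans
      apply Nat.add_le_add
      · apply (natDegree_pow_le).trans
        have : (1 + X : ℤ[X]).natDegree ≤ 1 := by
          apply (natDegree_add_le _ _).trans
          simp
        nlinarith
      · apply (natDegree_pow_le).trans
        have : (1 + 2 * X : ℤ[X]).natDegree ≤ 1 := by
          apply (natDegree_add_le _ _).trans
          apply max_le
          · simp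
          · apply natDegree_mul_le.trans
            have : (2 : ℤ[X]).natDegree = 0 := natDegree_ofNat 2
            rw [this]; simp
        nlinarith
    omega
  obtain ⟨Q, hQ⟩ := hdiv
  have hmon : (X ^ (d / 2 + 1) * (1 + X) ^ (d / 2 + 1) : ℤ[X]).Monic := by
    apply Polynomial.Monic.mul (Polynomial.monic_X_pow _)
    apply Polynomial.Monic.pow
    rw [add_comm]
    exact Polynomial.monic_X_add_C 1
  have hdeg2 : (X ^ (d / 2 + 1) * (1 + X) ^ (d / 2 + 1) : ℤ[X]).natDegree = 2 * (d / 2 + 1) := by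
    rw [Polynomial.Monic.natDegree_mul (Polynomial.monic_X_pow _)]
    · rw [Polynomial.natDegree_X_pow, Polynomial.Monic.natDegree_pow]
      · have : (1 + X : ℤ[X]).natDegree = 1 := by
          rw [add_comm]; exact Polynomial.natDegree_X_add_C 1
        rw [this]; ring
      · rw [add_comm]
        exact Polynomial.monic_X_add_C 1
    · apply Polynomial.Monic.pow
      rw [add_comm]
      exact Polynomial.monic_X_add_C 1
  have hR0 : R = 0 := by
    by_contra hne
    have hQ0 : Q ≠ 0 := by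
      rintro rfl
      rw [mul_zero] at hQ
      exact hne hQ
    have h1 : R.natDegree = 2 * (d / 2 + 1) + Q.natDegree := by
      rw [hQ, Polynomial.Monic.natDegree_mul' hmon hQ0, hdeg2]
    omega
  rw [hR] at hR0
  exact sub_eq_zero.1 hR0

variable {V : Type*} [Fintype V] [DecidableEq V]
variable {G : SimpleGraph V} [DecidableRel G.Adj]

/-- the gamma representation of the clique polynomial of a flag Eulerian complex -/
theorem Eul.exists_gamma {d : ℕ} (hE : Eul G d) :
    ∃ γ : ℕ → ℤ, cp G univ = ∑ j ∈ range (d / 2 + 1), C (γ j) * gb d j := by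
  apply Pool.Agent.H44.exists_gamma
  · have h := ds hE (s := ∅) (by simp)
    rw [cn_empty, card_empty, Nat.sub_zero] at h
    exact h
  · unfold cp
    apply natDegree_sum_le_of_forall_le
    intro s hs
    rw [natDegree_X_pow]
    exact hE.card_le s (mem_cl.1 hs).2

lemma coeff_gamma {P : ℤ[X]} {d : ℕ} {γ : ℕ → ℤ}
    (h : P = ∑ j ∈ range (d / 2 + 1), C (γ j) * gb d j) (s : ℕ) :
    P.coeff s = ∑ j ∈ range (d / 2 + 1), γ j * (gb d j).coeff s := by
  rw [h, finsetSum_coeff]
  apply sum_congr rfl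
  intro j _
  rw [coeff_C_mul]

lemma coeff_gamma_le {P : ℤ[X]} {d : ℕ} {γ : ℕ → ℤ}
    (h : P = ∑ j ∈ range (d / 2 + 1), C (γ j) * gb d j) {s : ℕ} (hs : s ≤ d / 2) :
    P.coeff s = ∑ j ∈ range s, γ j * (gb d j).coeff s + γ s := by
  rw [coeff_gamma h]
  have h1 : range (s + 1) ⊆ range (d / 2 + 1) := by
    intro x hx; rw [mem_range] at *; omega
  rw [← sum_subset h1]
  · rw [sum_range_succ, gb_coeff_self, mul_one]
  · intro j _ hj
    rw [mem_range] at hj
    rw [gb_coeff_lt (by omega), mul_zero]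

end Pool.Agent.H44
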