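import Pool.Agent.H44.Gamma

/-!
Size estimates for the gamma vector.
-/

namespace Pool.Agent.H44

open Finset Polynomial

set_option linter.unusedSectionVars false

/-- coefficients of the basis polynomials, as reals -/
noncomputable def gc (d j s : ℕ) : ℝ := (((gb d j).coeff s : ℤ) : ℝ)

lemma gc_nonneg (d j s : ℕ) : 0 ≤ gc d j s := by
  unfold gc
  exact_mod_cast gb_coeff_nonneg d j s

lemma gamma_bound (d s : ℕ) : ∃ C : ℝ, 0 ≤ C ∧ ∀ (f γ : ℕ → ℝ) (n : ℝ), 1 ≤ n →
    (∀ t ≤ s, f t = ∑ j ∈ range t, γ j * gc d j t + γ t) →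
    (∀ t ≤ s, |f t| ≤ n ^ t) → ∀ t ≤ s, |γ t| ≤ C * n ^ t := by
  induction s with
  | zero =>
    refine ⟨1, zero_le_one, ?_⟩
    intro f γ n _ h1 h2 t ht
    have ht0 : t = 0 := by omega
    subst ht0
    have h3 := h1 0 le_rfl
    rw [range_zero, sum_empty, zero_add] at h3
    rw [← h3, one_mul]
    exact h2 0 le_rfl
  | succ s ih =>
    obtain ⟨C, hC, h⟩ := ih
    refine ⟨C + (1 + ∑ j ∈ range (s + 1), C * gc d j (s + 1)), ?_, ?_⟩
    · have : 0 ≤ ∑ j ∈ range (s + 1), C * gc d j (s + 1) :=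
        sum_nonneg (fun j _ => mul_nonneg hC (gc_nonneg _ _ _))
      linarith
    intro f γ n hn h1 h2 t ht
    have hsum : 0 ≤ ∑ j ∈ range (s + 1), C * gc d j (s + 1) :=
      sum_nonneg (fun j _ => mul_nonneg hC (gc_nonneg _ _ _))
    have hih := h f γ n hn (fun t ht => h1 t (by omega)) (fun t ht => h2 t (by omega))
    have hnt : 0 ≤ n ^ t := by positivity
    by_cases hts : t ≤ s
    · refine (hih t hts).trans ?_
      apply mul_le_mul_of_nonneg_right _ hnt
      linarith
    · have hts' : t = s + 1 := by omega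
      subst hts'
      have h3 : γ (s + 1) = f (s + 1) - ∑ j ∈ range (s + 1), γ j * gc d j (s + 1) := by
        rw [h1 (s + 1) le_rfl]; ring
      rw [h3]
      refine (abs_sub _ _).trans ?_
      have h4 : |∑ j ∈ range (s + 1), γ j * gc d j (s + 1)|
          ≤ (∑ j ∈ range (s + 1), C * gc d j (s + 1)) * n ^ (s + 1) := by
        refine (abs_sum_le_sum_abs _ _).trans ?_
        rw [sum_mul]
        apply sum_le_sum
        intro j hj
        rw [mem_range] at hj
        rw [abs_mul, abs_of_nonneg (gc_nonneg _ _ _)]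
        have h5 := hih j (by omega)
        have h6 : n ^ j ≤ n ^ (s + 1) := pow_le_pow_right₀ hn (by omega)
        calc |γ j| * gc d j (s + 1) ≤ (C * n ^ (s + 1)) * gc d j (s + 1) := by
              apply mul_le_mul_of_nonneg_right _ (gc_nonneg _ _ _)
              exact h5.trans (mul_le_mul_of_nonneg_left h6 hC)
          _ = _ := by ring
      have h7 := h2 (s + 1) le_rfl
      have h8 : 0 ≤ C * n ^ (s + 1) := by positivity
      have e : (C + (1 + ∑ j ∈ range (s + 1), C * gc d j (s + 1))) * n ^ (s + 1)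
          = C * n ^ (s + 1) + n ^ (s + 1)
            + (∑ j ∈ range (s + 1), C * gc d j (s + 1)) * n ^ (s + 1) := by ring
      rw [e]
      linarith

lemma tail_bound {d m : ℕ} {C n : ℝ} {γ : ℕ → ℝ} (hC : 0 ≤ C) (hn : 1 ≤ n)
    (h : ∀ t ≤ m, |γ t| ≤ C * n ^ t) (s : ℕ) :
    |∑ j ∈ range (m + 1), γ j * gc d j s| ≤ (∑ j ∈ range (m + 1), C * gc d j s) * n ^ m := by
  refine (abs_sum_le_sum_abs _ _).trans ?_
  rw [sum_mul]
  apply sum_le_sum
  intro j hj
  rw [mem_range] at hj
  rw [abs_mul, abs_of_nonneg (gc_nonneg _ _ _)]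
  have h5 := h j (by omega)
  have h6 : n ^ j ≤ n ^ m := pow_le_pow_right₀ hn (by omega)
  calc |γ j| * gc d j s ≤ (C * n ^ m) * gc d j s := by
        apply mul_le_mul_of_nonneg_right _ (gc_nonneg _ _ _)
        exact h5.trans (mul_le_mul_of_nonneg_left h6 hC)
    _ = _ := by ring

universe u

/-- estimates relating the face numbers and the gamma vector -/
theorem gamma_facts (r : ℕ) : ∃ K : ℝ, 0 ≤ K ∧ ∀ (V : Type u) [Fintype V] [DecidableEq V]
    (G : SimpleGraph V) [DecidableRel G.Adj] (γ : ℕ → ℤ),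
    Eul G (2 * r + 1) → 1 ≤ Fintype.card V →
    cp G univ = ∑ j ∈ range ((2 * r + 1) / 2 + 1), C (γ j) * gb (2 * r + 1) j →
    (∀ m, m + 1 ≤ r → |((Kc G univ (m + 1)).card : ℝ) - γ (m + 1)|
      ≤ K * (Fintype.card V : ℝ) ^ m) ∧
    (∀ m, m + 2 ≤ r → |((Kc G univ (m + 2)).card : ℝ) - γ (m + 2)
      - (4 * r - 1 - 3 * m) * (Kc G univ (m + 1)).card| ≤ K * (Fintype.card V : ℝ) ^ m) ∧
    (∀ m, m + 1 = r → |((Kc G univ (r + 1)).card : ℝ) - (r + 2) * (Kc G univ r).card|
      ≤ K * (Fintype.card V : ℝ) ^ m) := by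
  set d := 2 * r + 1 with hd
  have hd2 : d / 2 = r := by omega
  obtain ⟨K, hK, hb⟩ := gamma_bound d r
  -- constants
  set A : ℝ := ∑ s ∈ range (r + 2), ∑ m ∈ range (r + 2), ∑ j ∈ range (m + 1), K * gc d j s with hA
  have hA0 : ∀ s m, 0 ≤ ∑ j ∈ range (m + 1), K * gc d j s := fun s m =>
    sum_nonneg (fun j _ => mul_nonneg hK (gc_nonneg _ _ _))
  have hAle : ∀ s m, s ≤ r + 1 → m ≤ r + 1 → ∑ j ∈ range (m + 1), K * gc d j s ≤ A := by
    intro s m hs hm
    rw [hA]
    have h1 : ∑ j ∈ range (m + 1), K * gc d j s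
        ≤ ∑ m ∈ range (r + 2), ∑ j ∈ range (m + 1), K * gc d j s :=
      single_le_sum (f := fun m => ∑ j ∈ range (m + 1), K * gc d j s)
        (fun m _ => hA0 s m) (mem_range.2 (by omega))
    refine h1.trans ?_
    exact single_le_sum (f := fun s => ∑ m ∈ range (r + 2), ∑ j ∈ range (m + 1), K * gc d j s)
        (fun s _ => sum_nonneg (fun m _ => hA0 s m)) (mem_range.2 (by omega))
  have hA00 : 0 ≤ A := sum_nonneg (fun s _ => sum_nonneg (fun m _ => hA0 s m))
  refine ⟨A + (4 * r + 5) * A, by positivity, ?_⟩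
  intro V _ _ G _ γ hE hV hγ
  set n : ℝ := (Fintype.card V : ℝ) with hn
  have hn1 : 1 ≤ n := by rw [hn]; exact_mod_cast hV
  set g : ℕ → ℝ := fun j => (γ j : ℝ) with hg
  have hk : ∀ t ≤ r, ((Kc G univ t).card : ℝ) = ∑ j ∈ range t, g j * gc d j t + g t := by
    intro t ht
    have h1 := coeff_gamma_le hγ (s := t) (by omega)
    rw [cp_coeff] at h1
    have h2 := congrArg (fun z : ℤ => (z : ℝ)) h1
    simp only [Int.cast_natCast, Int.cast_add, Int.cast_sum, Int.cast_mul] at h2
    exact h2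
  have hle : ∀ t ≤ r, |((Kc G univ t).card : ℝ)| ≤ n ^ t := by
    intro t _
    rw [abs_of_nonneg (by positivity), hn]
    have := card_Kc_le (G := G) univ t
    rw [card_univ] at this
    exact_mod_cast this
  have hγb := hb (fun t => ((Kc G univ t).card : ℝ)) g n hn1 hk hle
  have htail : ∀ s m, s ≤ r + 1 → m ≤ r →
      |∑ j ∈ range (m + 1), g j * gc d j s| ≤ A * n ^ m := by
    intro s m hs hm
    refine (tail_bound hK hn1 (fun t ht => hγb t (by omega)) s).trans ?_
    apply mul_le_mul_of_nonneg_right (hAle s m hs (by omega)) (by positivity)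
  have hi : ∀ m, m + 1 ≤ r → |((Kc G univ (m + 1)).card : ℝ) - γ (m + 1)| ≤ A * n ^ m := by
    intro m hm
    rw [hk (m + 1) hm]
    have : ∑ j ∈ range (m + 1), g j * gc d j (m + 1) + g (m + 1) - (γ (m + 1) : ℝ)
        = ∑ j ∈ range (m + 1), g j * gc d j (m + 1) := by rw [hg]; ring
    rw [this]
    exact htail _ _ (by omega) (by omega)
  have hAA : A ≤ A + (4 * r + 5) * A := by
    have : 0 ≤ (4 * (r : ℝ) + 5) * A := by positivity
    linarith
  refine ⟨?_, ?_, ?_⟩
  · intro m hm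
    refine (hi m hm).trans ?_
    exact mul_le_mul_of_nonneg_right hAA (by positivity)
  · intro m hm
    have h1 := hi m (by omega)
    have h2 := htail (m + 2) m (by omega) (by omega)
    have h3 : gc d (m + 1) (m + 2) = 4 * r - 1 - 3 * m := by
      unfold gc
      rw [gb_coeff_succ]
      have : ((d - 2 * (m + 1) : ℕ) : ℤ) = d - 2 * (m + 1) := by
        rw [Nat.cast_sub (by omega)]
        push_cast
        ring
      rw [this, hd]
      push_cast
      ring
    rw [hk (m + 2) hm, sum_range_succ, h3]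
    have e : ∑ j ∈ range (m + 1), g j * gc d j (m + 2) + g (m + 1) * (4 * r - 1 - 3 * m)
        + g (m + 2) - (γ (m + 2) : ℝ) - (4 * r - 1 - 3 * m) * (Kc G univ (m + 1)).card
        = ∑ j ∈ range (m + 1), g j * gc d j (m + 2)
          - (4 * r - 1 - 3 * m) * (((Kc G univ (m + 1)).card : ℝ) - γ (m + 1)) := by
      rw [hg]; ring
    rw [e]
    refine (abs_sub _ _).trans ?_
    rw [abs_mul]
    have hmr : (m : ℝ) + 2 ≤ r := by exact_mod_cast hm
    have hm0 : (0 : ℝ) ≤ m := by positivity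
    have h4 : |(4 * (r : ℝ) - 1 - 3 * m)| ≤ 4 * r + 5 := by
      rw [abs_le]
      constructor <;> linarith
    have h5 : |(4 * (r : ℝ) - 1 - 3 * m)| * |((Kc G univ (m + 1)).card : ℝ) - γ (m + 1)|
        ≤ (4 * r + 5) * (A * n ^ m) :=
      mul_le_mul h4 h1 (abs_nonneg _) (by positivity)
    have e2 : (A + (4 * r + 5) * A) * n ^ m = A * n ^ m + (4 * r + 5) * (A * n ^ m) := by ring
    rw [e2]
    linarith
  · intro m hm
    have h1 := hi m (by omega)
    have h2 := htail (r + 1) m (by omega) (by omega)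
    have h3 : gc d r (r + 1) = r + 2 := by
      unfold gc
      rw [gb_coeff_succ]
      have : ((d - 2 * r : ℕ) : ℤ) = 1 := by
        have : d - 2 * r = 1 := by omega
        rw [this]; rfl
      rw [this]
      push_cast
      ring
    have h4 : ((Kc G univ (r + 1)).card : ℝ)
        = ∑ j ∈ range (m + 1), g j * gc d j (r + 1) + g r * (r + 2) := by
      have h5 := coeff_gamma hγ (r + 1)
      rw [cp_coeff, hd2, sum_range_succ] at h5
      have h6 := congrArg (fun z : ℤ => (z : ℝ)) h5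
      simp only [Int.cast_natCast, Int.cast_add, Int.cast_sum, Int.cast_mul] at h6
      have h7 : (((gb d r).coeff (r + 1) : ℤ) : ℝ) = r + 2 := h3
      rw [h7] at h6
      rw [hm]
      exact h6
    rw [h4]
    rw [hm] at h1
    have e : ∑ j ∈ range (m + 1), g j * gc d j (r + 1) + g r * (r + 2)
        - (r + 2) * (Kc G univ r).card
        = ∑ j ∈ range (m + 1), g j * gc d j (r + 1)
          - (r + 2) * (((Kc G univ r).card : ℝ) - γ r) := by
      rw [hg]; ring
    rw [e]
    refine (abs_sub _ _).trans ?_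
    rw [abs_mul, abs_of_nonneg (by positivity : (0 : ℝ) ≤ (r : ℝ) + 2)]
    have h8 : ((r : ℝ) + 2) * |((Kc G univ r).card : ℝ) - γ r| ≤ (4 * r + 5) * (A * n ^ m) := by
      apply mul_le_mul _ h1 (abs_nonneg _) (by positivity)
      have : (0 : ℝ) ≤ r := by positivity
      linarith
    have e2 : (A + (4 * r + 5) * A) * n ^ m = A * n ^ m + (4 * r + 5) * (A * n ^ m) := by ring
    rw [e2]
    linarith

end Pool.Agent.H44
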