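import Pool.Agent.H44.Gamma

/-!
The h-vector and the gamma vector, as in the problem statement, and the translation between the
gamma vector and the representation of the clique polynomial.
-/

namespace Pool.Agent.H44

open Finset Polynomial

/-- `h` is the `h`-vector of a `(d-1)`-dimensional complex with `f i` faces with `i` vertices:
`∑ h_i t^(d-i) = ∑ f_(i-1) (t-1)^(d-i)`. -/
def IsHVector (d : ℕ) (f : ℕ → ℕ) (h : ℕ → ℤ) : Prop :=
  (∑ i ∈ range (d + 1), C (h i) * X ^ (d - i) : ℤ[X])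
    = ∑ i ∈ range (d + 1), C (f i : ℤ) * (X - 1) ^ (d - i)

/-- `γ` is the `γ`-vector belonging to the `h`-vector `h`:
`∑ h_i t^i = ∑ γ_i t^i (1+t)^(d-2i)`. -/
def IsGammaVector (d : ℕ) (h γ : ℕ → ℤ) : Prop :=
  (∑ i ∈ range (d + 1), C (h i) * X ^ i : ℤ[X])
    = ∑ i ∈ range (d / 2 + 1), C (γ i) * (X ^ i * (1 + X) ^ (d - 2 * i))

lemma eq_of_pos {P Q : ℤ[X]} (h : ∀ x : ℝ, 0 < x → aeval x P = aeval x Q) : P = Q := by
  apply Polynomial.map_injective (Int.castRingHom ℝ) Int.cast_injective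
  apply Polynomial.eq_of_infinite_eval_eq
  apply Set.Infinite.mono _ (Set.Ioi_infinite (0 : ℝ))
  intro x hx
  have h1 := h x hx
  rw [Polynomial.aeval_def, Polynomial.aeval_def] at h1
  rw [Set.mem_ofPred_eq, Polynomial.eval_map, Polynomial.eval_map]
  exact h1

lemma gb_natDegree_le {d j : ℕ} (h : 2 * j ≤ d) : (gb d j).natDegree ≤ d := by
  unfold gb
  apply natDegree_mul_le.trans
  have h1 : (X ^ j : ℤ[X]).natDegree ≤ j := natDegree_X_pow_le j
  have h2 : ((1 + X : ℤ[X]) ^ j * (1 + 2 * X) ^ (d - 2 * j)).natDegree ≤ j + (d - 2 * j) := by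
    apply natDegree_mul_le.trans
    apply Nat.add_le_add
    · apply (natDegree_pow_le).trans
      have : (1 + X : ℤ[X]).natDegree ≤ 1 := by
        apply (natDegree_add_le _ _).trans
        simp
      nlinarith
    · apply (natDegree_pow_le).trans
      have : (1 + 2 * X : ℤ[X]).natDegree ≤ 1 := by
        apply (natDegree_add_le _ _).trans
        apply max_le
        · simp
        · apply natDegree_mul_le.trans
          have : (2 : ℤ[X]).natDegree = 0 := natDegree_ofNat 2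
          rw [this]; simp
      nlinarith
  omega

/-- evaluation of both sides of the change of variables -/
lemma eval_gamma {d : ℕ} {γ : ℕ → ℤ} {x : ℝ} (hx : 0 < x) :
    (∑ i ∈ range (d / 2 + 1), (γ i : ℝ) * ((x / (1 + x)) ^ i * (1 + x / (1 + x)) ^ (d - 2 * i)))
      * (1 + x) ^ d
      = ∑ i ∈ range (d / 2 + 1), (γ i : ℝ) * (x ^ i * ((1 + x) ^ i * (1 + 2 * x) ^ (d - 2 * i))) := by
  rw [sum_mul]
  apply sum_congr rfl
  intro i hi
  rw [mem_range] at hi
  have h1 : (0 : ℝ) < 1 + x := by linarith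
  have h2 : 1 + x / (1 + x) = (1 + 2 * x) / (1 + x) := by field_simp; ring
  have h3 : (1 + x) ^ d = (1 + x) ^ i * ((1 + x) ^ (d - 2 * i) * (1 + x) ^ i) := by
    rw [← pow_add, ← pow_add]; congr 1; omega
  rw [h2, h3, div_pow, div_pow]
  field_simp

lemma aeval_gb_sum {d : ℕ} {γ : ℕ → ℤ} (x : ℝ) :
    aeval x (∑ j ∈ range (d / 2 + 1), C (γ j) * gb d j)
      = ∑ i ∈ range (d / 2 + 1), (γ i : ℝ) * (x ^ i * ((1 + x) ^ i * (1 + 2 * x) ^ (d - 2 * i))) := by
  rw [map_sum]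
  apply sum_congr rfl
  intro i _
  unfold gb
  have h2 : (aeval x (2 : ℤ[X]) : ℝ) = 2 := map_ofNat _ 2
  simp only [map_mul, map_pow, map_add, map_one, aeval_X, aeval_C, algebraMap_int_eq,
    Int.coe_castRingHom, h2]

lemma aeval_gamma_sum {d : ℕ} {γ : ℕ → ℤ} (t : ℝ) :
    aeval t (∑ i ∈ range (d / 2 + 1), C (γ i) * (X ^ i * (1 + X) ^ (d - 2 * i)) : ℤ[X])
      = ∑ i ∈ range (d / 2 + 1), (γ i : ℝ) * (t ^ i * (1 + t) ^ (d - 2 * i)) := by
  rw [map_sum]
  apply sum_congr rfl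
  intro i _
  simp

lemma aeval_h {d : ℕ} {h : ℕ → ℤ} {x : ℝ} (hx : 0 < x) :
    aeval (x / (1 + x)) (∑ i ∈ range (d + 1), C (h i) * X ^ i : ℤ[X]) * (1 + x) ^ d
      = aeval ((1 + x) / x) (∑ i ∈ range (d + 1), C (h i) * X ^ (d - i) : ℤ[X]) * x ^ d := by
  rw [map_sum, map_sum, sum_mul, sum_mul]
  apply sum_congr rfl
  intro i hi
  rw [mem_range] at hi
  simp only [map_mul, map_pow, aeval_X, aeval_C, algebraMap_int_eq, Int.coe_castRingHom]
  have h1 : (1 + x) ^ d = (1 + x) ^ i * (1 + x) ^ (d - i) := by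
    rw [← pow_add]; congr 1; omega
  have h2 : x ^ d = x ^ i * x ^ (d - i) := by
    rw [← pow_add]; congr 1; omega
  rw [h1, h2, div_pow, div_pow]
  field_simp

lemma aeval_f {d : ℕ} {f : ℕ → ℕ} {x : ℝ} (hx : 0 < x) :
    aeval x (∑ i ∈ range (d + 1), C (f i : ℤ) * X ^ i : ℤ[X])
      = aeval ((1 + x) / x) (∑ i ∈ range (d + 1), C (f i : ℤ) * (X - 1) ^ (d - i) : ℤ[X])
        * x ^ d := by
  rw [map_sum, map_sum, sum_mul]
  apply sum_congr rfl
  intro i hi
  rw [mem_range] at hi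
  simp only [map_mul, map_pow, map_sub, map_one, aeval_X, aeval_C, algebraMap_int_eq,
    Int.coe_castRingHom]
  have h2 : x ^ d = x ^ i * x ^ (d - i) := by
    rw [← pow_add]; congr 1; omega
  have h3 : (1 + x) / x - 1 = 1 / x := by field_simp; ring
  rw [h2, h3, one_div, inv_pow]
  field_simp

theorem gamma_fwd {d : ℕ} {f : ℕ → ℕ} {h γ : ℕ → ℤ} (hH : IsHVector d f h)
    (hG : IsGammaVector d h γ) :
    (∑ i ∈ range (d + 1), C (f i : ℤ) * X ^ i : ℤ[X])
      = ∑ j ∈ range (d / 2 + 1), C (γ j) * gb d j := by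
  apply eq_of_pos
  intro x hx
  unfold IsHVector at hH
  unfold IsGammaVector at hG
  rw [aeval_f hx, ← hH, ← aeval_h hx, hG, aeval_gamma_sum, eval_gamma hx, aeval_gb_sum]

theorem gamma_bwd {d : ℕ} {f : ℕ → ℕ} {γ : ℕ → ℤ}
    (hF : (∑ i ∈ range (d + 1), C (f i : ℤ) * X ^ i : ℤ[X])
      = ∑ j ∈ range (d / 2 + 1), C (γ j) * gb d j) :
    ∃ h : ℕ → ℤ, IsHVector d f h ∧ IsGammaVector d h γ := by
  obtain ⟨Q, hQ⟩ : ∃ Q : ℤ[X], Q = ∑ i ∈ range (d / 2 + 1), C (γ i)
      * (X ^ i * (1 + X) ^ (d - 2 * i)) := ⟨_, rfl⟩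
  have hdeg : Q.natDegree < d + 1 := by
    rw [Nat.lt_succ_iff, hQ]
    apply natDegree_sum_le_of_forall_le
    intro j hj
    rw [mem_range] at hj
    apply (natDegree_C_mul_le _ _).trans
    apply natDegree_mul_le.trans
    have h1 : (X ^ j : ℤ[X]).natDegree ≤ j := natDegree_X_pow_le j
    have h2 : ((1 + X : ℤ[X]) ^ (d - 2 * j)).natDegree ≤ d - 2 * j := by
      apply (natDegree_pow_le).trans
      have : (1 + X : ℤ[X]).natDegree ≤ 1 := by
        apply (natDegree_add_le _ _).trans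
        simp
      nlinarith
    omega
  have hG : IsGammaVector d (fun i => Q.coeff i) γ := by
    unfold IsGammaVector
    rw [← hQ]
    exact (Q.as_sum_range_C_mul_X_pow' hdeg).symm
  refine ⟨fun i => Q.coeff i, ?_, hG⟩
  unfold IsHVector
  -- compare on the points (1 + x) / x, x > 0
  apply Polynomial.map_injective (Int.castRingHom ℝ) Int.cast_injective
  apply Polynomial.eq_of_infinite_eval_eq
  apply Set.Infinite.mono _ (Set.Ioi_infinite (1 : ℝ))
  intro y hy
  rw [Set.mem_Ioi] at hy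
  rw [Set.mem_ofPred_eq, Polynomial.eval_map, Polynomial.eval_map]
  have hx : (0 : ℝ) < 1 / (y - 1) := by
    apply div_pos one_pos; linarith
  have hxy : (1 + 1 / (y - 1)) / (1 / (y - 1)) = y := by
    have : y - 1 ≠ 0 := by linarith
    field_simp
    ring
  have h1 := aeval_f (d := d) (f := f) hx
  have h2 := aeval_h (d := d) (h := fun i => Q.coeff i) hx
  unfold IsGammaVector at hG
  rw [hxy] at h1 h2
  rw [hG, aeval_gamma_sum, eval_gamma hx, ← aeval_gb_sum, ← hF, h1] at h2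
  have hxd : (0 : ℝ) < (1 / (y - 1)) ^ d := by positivity
  have h3 := mul_right_cancel₀ hxd.ne' h2
  rw [Polynomial.aeval_def, Polynomial.aeval_def] at h3
  exact h3.symm

end Pool.Agent.H44
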