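import Pool.Agent.H44.NumBound

/-!
The main theorem for flag Eulerian complexes with many vertices.
-/

namespace Pool.Agent.H44

open Finset Polynomial

set_option linter.unusedSectionVars false

universe u

/-- A flag Eulerian complex whose `(s+2)`-nd gamma number is nearly that of `J_r^*(n)` has a
structured partition. -/
theorem near_structured (q s : ℕ) (hs : s + 1 ≤ q) :
    ∃ η : ℝ, 0 < η ∧
      ∃ N0 : ℝ, ∀ (V : Type u) [Fintype V] [DecidableEq V] (G : SimpleGraph V) [DecidableRel G.Adj]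
      (γ : ℕ → ℤ) (m : Fin (q + 1) → ℕ), Eul G (2 * (q + 1) + 1) →
      N0 ≤ Fintype.card V → (∀ j, 4 ≤ m j) → (∀ j k, m j ≤ m k + 1) →
      ∑ j, m j + 2 = Fintype.card V →
      cp G univ = ∑ j ∈ range ((2 * (q + 1) + 1) / 2 + 1), C (γ j) * gb (2 * (q + 1) + 1) j →
      (gJ m (s + 2) : ℝ) - η * (Fintype.card V : ℝ) ^ (s + 1) ≤ (γ (s + 2) : ℝ) →
      ∃ (col : V → Fin (q + 1)) (u v : Fin (q + 1) → V), FullEdges G col u v ∧
        ∀ j, 7 ≤ (full G col j).card := by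
  obtain ⟨K1, hK1, hgf⟩ := gamma_facts.{u} (q + 1)
  obtain ⟨ch, hch⟩ : ∃ ch : ℝ, ch = (q + 1).choose (s + 2) * 4 ^ (s + 2) := ⟨_, rfl⟩
  have hch0 : 0 ≤ ch := by rw [hch]; positivity
  obtain ⟨c2, hc2⟩ : ∃ c2 : ℝ, c2 = (4 * (q + 1) + 2) * q.choose (s + 1) := ⟨_, rfl⟩
  have hc20 : 0 ≤ c2 := by rw [hc2]; positivity
  obtain ⟨C0, c, Nc, hC0, hc, hNc, hchain⟩ := chain_main (q + 1) (s + 1) (by omega) (by omega)
    (K1 + ch + c2 + 1) K1 (by positivity) hK1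
  obtain ⟨b, hb⟩ : ∃ b : ℝ, b = 1 / ((q : ℝ) + 1) := ⟨_, rfl⟩
  have hq1 : (0 : ℝ) < (q : ℝ) + 1 := by positivity
  have hb0 : 0 < b := by rw [hb]; positivity
  have hb1 : b ≤ 1 := by
    rw [hb, div_le_one hq1]
    have : (0 : ℝ) ≤ q := by positivity
    linarith
  obtain ⟨η, hη0, hη1, N1, hst⟩ := stability.{u} q s hs (K1 + (4 * (q + 1)) * C0 + ch) (b / 10)
    (by positivity) (by positivity)
  refine ⟨η, hη0, 1 + Nc + |N1| + 10 / b, ?_⟩
  intro V _ _ G _ γ m hE hN0 hm hbal hsum hγ hγJ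
  obtain ⟨N, hN⟩ : ∃ N : ℝ, N = Fintype.card V := ⟨_, rfl⟩
  rw [← hN] at hN0 hγJ
  have ha1 : 0 ≤ |N1| := abs_nonneg _
  have ha2 : 0 ≤ 10 / b := by positivity
  have hN1 : 1 ≤ N := by linarith
  have hNpos : 0 < N := by linarith
  have hNc' : Nc ≤ N := by linarith
  have hNst : N1 ≤ N := by
    have := le_abs_self N1
    linarith
  have hN10 : 10 / b ≤ N := by linarith
  have hcard : 1 ≤ Fintype.card V := by
    rw [hN] at hN1
    exact_mod_cast hN1
  obtain ⟨g1, g2, g3⟩ := hgf V G γ hE hcard hγ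
  have g1' := g1 (s + 1) (by omega)
  have g2' := g2 s (by omega)
  have g3' := g3 q rfl
  rw [← hN] at g1' g2' g3'
  have hsumN : ((∑ j, m j : ℕ) : ℝ) + 2 = N := by
    rw [hN]; exact_mod_cast hsum
  have hgJ := gJ_lower q s hm hbal hsumN hb
  rw [← hch, ← hc2] at hgJ
  have hbN0 : 0 < b * N := by positivity
  have hbNN : b * N ≤ N := by
    calc b * N ≤ 1 * N := mul_le_mul_of_nonneg_right hb1 hNpos.le
      _ = N := one_mul N
  have hpw : (b * N) ^ (s + 1) ≤ N ^ (s + 1) := pow_le_pow_left₀ hbN0.le hbNN _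
  have hNs : N ^ s ≤ N ^ (s + 1) := pow_le_pow_right₀ hN1 (by omega)
  have hbNr : N / ((q + 1 : ℕ) : ℝ) = b * N := by rw [hb]; push_cast; ring
  -- first order estimate
  have f1 : ((q + 1).choose (s + 1 + 1) : ℝ) * (N / ((q + 1 : ℕ) : ℝ)) ^ (s + 1 + 1)
      - (K1 + ch + c2 + 1) * N ^ (s + 1) ≤ kr G (s + 1 + 1) := by
    rw [hbNr]
    have h5 : η * N ^ (s + 1) ≤ 1 * N ^ (s + 1) :=
      mul_le_mul_of_nonneg_right hη1 (by positivity)
    have h1 := (abs_le.1 g1').1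
    have e : s + 1 + 1 = s + 2 := rfl
    rw [e] at h1 ⊢
    unfold kr
    have h2 : c2 * (b * N) ^ (s + 1) ≤ c2 * N ^ (s + 1) := mul_le_mul_of_nonneg_left hpw hc20
    have h3 : ch * N ^ s ≤ ch * N ^ (s + 1) := mul_le_mul_of_nonneg_left hNs hch0
    linarith
  have f2 : kr G (q + 1 + 1) ≤ (((q + 1 : ℕ) : ℝ) + 2) * kr G (q + 1)
      + K1 * N ^ (q + 1 - 1) := by
    rw [Nat.add_sub_cancel]
    have h1 := (abs_le.1 g3').2
    unfold kr
    linarith
  have hchi := ch_inst (r := q + 1) (by omega) hE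
  rw [← hN] at hchi
  obtain ⟨_, _, _, _, x5, _⟩ := hchain (kr G) N hchi hNc' f1 f2
  rw [Nat.add_sub_cancel, hbNr] at x5
  -- second order estimate
  have hs1 : (s : ℝ) + 1 ≤ q := by exact_mod_cast hs
  have hs0 : (0 : ℝ) ≤ s := by positivity
  have hcoef : (0 : ℝ) ≤ 4 * ((q + 1 : ℕ) : ℝ) - 1 - 3 * s := by
    push_cast
    linarith
  have hT : (q + 1).choose (s + 2) * (b * N) ^ (s + 2)
      + ((q : ℝ) + 3) * q.choose s * (b * N) ^ (s + 1)
      - (K1 + (4 * (q + 1)) * C0 + ch) * N ^ s - η * N ^ (s + 1) ≤ kr G (s + 2) := by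
    have h1 := (abs_le.1 g2').1
    have h2 := mul_le_mul_of_nonneg_left x5 hcoef
    have h3 : (4 * ((q + 1 : ℕ) : ℝ) - 1 - 3 * s) * (C0 * N ^ s) ≤ (4 * (q + 1)) * C0 * N ^ s := by
      rw [mul_assoc (4 * ((q : ℝ) + 1))]
      apply mul_le_mul_of_nonneg_right _ (by positivity)
      push_cast
      linarith
    have hP1 : ((q + 1).choose (s + 1) : ℝ) = q.choose s + q.choose (s + 1) := by
      rw [Nat.choose_succ_succ]; push_cast; ring
    have hP2 : (q.choose (s + 1) : ℝ) * (s + 1) = q.choose s * (q - s) := by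
      have h4 := Nat.choose_succ_right_eq q s
      have h5 : (((q - s : ℕ)) : ℝ) = (q : ℝ) - s := by
        rw [Nat.cast_sub (by omega)]
      rw [← h5]
      exact_mod_cast h4
    have hcomb : (4 * ((q + 1 : ℕ) : ℝ) - 1 - 3 * s) * (q + 1).choose (s + 1) - c2
        = ((q : ℝ) + 3) * q.choose s := by
      rw [hc2, hP1]
      push_cast
      have e1 : (4 * ((q : ℝ) + 1) - 1 - 3 * s) * (q.choose s + q.choose (s + 1))
          - (4 * (q + 1) + 2) * q.choose (s + 1)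
          = (4 * ((q : ℝ) + 1) - 1 - 3 * s) * q.choose s
            - 3 * (q.choose (s + 1) * (s + 1)) := by ring
      rw [e1, hP2]
      ring
    have h6 : ((q : ℝ) + 3) * q.choose s * (b * N) ^ (s + 1)
        = (4 * ((q + 1 : ℕ) : ℝ) - 1 - 3 * s) * ((q + 1).choose (s + 1) * (b * N) ^ (s + 1))
          - c2 * (b * N) ^ (s + 1) := by
      rw [← hcomb]; ring
    rw [h6]
    have e2 : (4 * ((q + 1 : ℕ) : ℝ) - 1 - 3 * s) * ((q + 1).choose (s + 1) * (b * N) ^ (s + 1)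
        - C0 * N ^ s) = (4 * ((q + 1 : ℕ) : ℝ) - 1 - 3 * s)
          * ((q + 1).choose (s + 1) * (b * N) ^ (s + 1))
          - (4 * ((q + 1 : ℕ) : ℝ) - 1 - 3 * s) * (C0 * N ^ s) := by ring
    rw [e2] at h2
    unfold kr at h2 ⊢
    linarith
  obtain ⟨col, c1, c3, c4⟩ := hst V G N b hE hN hb hNst hT
  obtain ⟨⟨u, v, huv⟩, hfull⟩ := full_edges_exist q G hE hN hb hN10 col c1 c3 c4
  exact ⟨col, u, v, huv, hfull⟩

theorem gamma_le_case (q s : ℕ) (hs : s + 1 ≤ q) :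
    ∃ N0 : ℝ, ∀ (V : Type u) [Fintype V] [DecidableEq V] (G : SimpleGraph V) [DecidableRel G.Adj]
      (γ : ℕ → ℤ) (m : Fin (q + 1) → ℕ), Eul G (2 * (q + 1) + 1) →
      N0 ≤ Fintype.card V → (∀ j, 4 ≤ m j) → (∀ j k, m j ≤ m k + 1) →
      ∑ j, m j + 2 = Fintype.card V →
      cp G univ = ∑ j ∈ range ((2 * (q + 1) + 1) / 2 + 1), C (γ j) * gb (2 * (q + 1) + 1) j →
      (gJ m (s + 2) : ℤ) < γ (s + 2) → ∀ l ≤ q + 1, γ l ≤ gJ m l := by
  obtain ⟨η, hη0, N0, h⟩ := near_structured.{u} q s hs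
  refine ⟨N0, ?_⟩
  intro V _ _ G _ γ m hE hN0 hm hbal hsum hγ hgt
  have hγJ : (gJ m (s + 2) : ℝ) - η * (Fintype.card V : ℝ) ^ (s + 1) ≤ (γ (s + 2) : ℝ) := by
    have h1 : (gJ m (s + 2) : ℤ) ≤ γ (s + 2) := hgt.le
    have h2 : (gJ m (s + 2) : ℝ) ≤ (γ (s + 2) : ℝ) := by exact_mod_cast h1
    have h3 : 0 ≤ η * (Fintype.card V : ℝ) ^ (s + 1) := by positivity
    linarith
  obtain ⟨col, u, v, huv, hfull⟩ := h V G γ m hE hN0 hm hbal hsum hγ hγJ
  exact structured_le hE huv hfull hm hbal hsum hγ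

/-- The main theorem for Eulerian complexes. -/
theorem gamma_le_main (r : ℕ) (hr : 1 ≤ r) :
    ∃ N0 : ℕ, ∀ (V : Type u) [Fintype V] [DecidableEq V] (G : SimpleGraph V) [DecidableRel G.Adj]
      (γ : ℕ → ℤ) (m : Fin r → ℕ), Eul G (2 * r + 1) →
      N0 ≤ Fintype.card V → (∀ j, 4 ≤ m j) → (∀ j k, m j ≤ m k + 1) →
      ∑ j, m j + 2 = Fintype.card V →
      cp G univ = ∑ j ∈ range ((2 * r + 1) / 2 + 1), C (γ j) * gb (2 * r + 1) j →
      ∀ l ≤ r, γ l ≤ gJ m l := by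
  obtain ⟨q, rfl⟩ : ∃ q, r = q + 1 := ⟨r - 1, by omega⟩
  have hcase : ∀ s, ∃ N0 : ℝ, s + 1 ≤ q → ∀ (V : Type u) [Fintype V] [DecidableEq V]
      (G : SimpleGraph V) [DecidableRel G.Adj]
      (γ : ℕ → ℤ) (m : Fin (q + 1) → ℕ), Eul G (2 * (q + 1) + 1) →
      N0 ≤ Fintype.card V → (∀ j, 4 ≤ m j) → (∀ j k, m j ≤ m k + 1) →
      ∑ j, m j + 2 = Fintype.card V →
      cp G univ = ∑ j ∈ range ((2 * (q + 1) + 1) / 2 + 1), C (γ j) * gb (2 * (q + 1) + 1) j →
      (gJ m (s + 2) : ℤ) < γ (s + 2) → ∀ l ≤ q + 1, γ l ≤ gJ m l := by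
    intro s
    by_cases hs : s + 1 ≤ q
    · obtain ⟨N0, h⟩ := gamma_le_case.{u} q s hs
      exact ⟨N0, fun _ => h⟩
    · exact ⟨0, fun h => absurd h hs⟩
  choose N0 hN0 using hcase
  refine ⟨∑ s ∈ range q, ⌈N0 s⌉₊, ?_⟩
  intro V _ _ G _ γ m hE hcard hm hbal hsum hγ
  intro l hl
  by_contra hcon
  push Not at hcon
  have hd : (2 * (q + 1) + 1) / 2 = q + 1 := by omega
  have h0 : γ 0 = 1 := by
    have h1 := coeff_gamma_le hγ (s := 0) (by omega)
    rw [range_zero, sum_empty, zero_add, cp_coeff, Kc_zero, card_singleton] at h1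
    exact_mod_cast h1.symm
  have hl2 : 2 ≤ l := by
    by_contra hlt
    have hl01 : l = 0 ∨ l = 1 := by omega
    rcases hl01 with rfl | rfl
    · rw [h0] at hcon
      have : gJ m 0 = 1 := by
        unfold gJ
        simp
      rw [this] at hcon
      simp at hcon
    · have h1 := coeff_gamma_le hγ (s := 1) (by omega)
      rw [sum_range_one, h0, cp_coeff, Kc_one_card, card_univ] at h1
      have h2 := gb_coeff_succ (2 * (q + 1) + 1) 0
      rw [zero_add] at h2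
      rw [h2] at h1
      have h3 : gJ m 1 = ∑ j, (m j - 4) := by
        unfold gJ
        rw [powersetCard_one, sum_map]
        apply sum_congr rfl
        intro j _
        simp
      have h4 : ∑ j : Fin (q + 1), (m j - 4) + 4 * (q + 1) = ∑ j, m j := by
        have h3 : ∑ j : Fin (q + 1), (m j - 4) + ∑ _j : Fin (q + 1), 4 = ∑ j, m j := by
          rw [← sum_add_distrib]
          apply sum_congr rfl
          intro j _
          exact Nat.sub_add_cancel (hm j)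
        rw [sum_const, card_univ, Fintype.card_fin, smul_eq_mul] at h3
        omega
      rw [h3] at hcon
      have h5 : (2 * (q + 1) + 1 - 2 * 0 : ℕ) = 2 * (q + 1) + 1 := by omega
      rw [h5] at h1
      push_cast at h1
      omega
  obtain ⟨s, rfl⟩ : ∃ s, l = s + 2 := ⟨l - 2, by omega⟩
  have hsq : s + 1 ≤ q := by omega
  have hNs : N0 s ≤ Fintype.card V := by
    have h1 : ⌈N0 s⌉₊ ≤ ∑ s ∈ range q, ⌈N0 s⌉₊ :=
      single_le_sum (f := fun s => ⌈N0 s⌉₊) (fun _ _ => Nat.zero_le _) (mem_range.2 (by omega))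
    have h2 : N0 s ≤ ((⌈N0 s⌉₊ : ℕ) : ℝ) := Nat.le_ceil _
    refine h2.trans ?_
    exact_mod_cast h1.trans hcard
  have := hN0 s hsq V G γ m hE hNs hm hbal hsum hγ hcon (s + 2) hl
  omega

end Pool.Agent.H44
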