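import Pool.Agent.H44.Main
import Pool.Agent.H44.FaceNum

/-!
The gamma vector of a structured complex is the f-vector of a flag complex.
-/

namespace Pool.Agent.H44

open Finset Polynomial

set_option linter.unusedSectionVars false

section

variable {V : Type*} [Fintype V] [DecidableEq V] {r : ℕ}
variable {G : SimpleGraph V} [DecidableRel G.Adj] {c : V → Fin r}

/-- The gamma numbers of a structured complex count rainbow cliques. -/
theorem structured_gamma {u v : Fin r → V} (hE : Eul G (2 * r + 1)) (h : FullEdges G c u v)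
    (hf : ∀ j, 7 ≤ (full G c j).card) {γ : ℕ → ℤ}
    (hγ : cp G univ = ∑ j ∈ range ((2 * r + 1) / 2 + 1), C (γ j) * gb (2 * r + 1) j) :
    ∃ H : Finset V, ∀ l ≤ r, γ l = ((∑ T ∈ powersetCard l (univ : Finset (Fin r)),
      (RC G c H T).card : ℕ) : ℤ) := by
  classical
  have hd : (2 * r + 1) / 2 = r := by omega
  obtain ⟨P, hP⟩ : ∃ P : Finset V, P = cn G (tau u v ∅) := ⟨_, rfl⟩
  have hP2 : P.card = 2 := by
    rw [hP]
    apply card_cn_two hE (h.tau_clique ∅)
    rw [h.tau_card, card_empty]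
    omega
  have hex : ∀ j, ∃ Q ⊆ full G c j \ P, Q.card = 4 := by
    intro j
    apply Finset.exists_subset_card_eq
    have h1 := hf j
    have h2 := Finset.le_card_sdiff P (full G c j)
    omega
  choose Qj hQj hQj4 using hex
  obtain ⟨Q, hQ⟩ : ∃ Q : Finset V, Q = univ.biUnion Qj := ⟨_, rfl⟩
  have hclsQ : ∀ j, cls c Q j = Qj j := by
    intro j
    ext x
    rw [mem_cls, hQ, mem_biUnion]
    constructor
    · rintro ⟨⟨i, _, hx⟩, hc⟩
      have h1 := mem_full.1 (mem_sdiff.1 (hQj i hx)).1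
      have : i = j := by rw [← h1.1, hc]
      rwa [this] at hx
    · intro hx
      exact ⟨⟨j, mem_univ _, hx⟩, (mem_full.1 (mem_sdiff.1 (hQj j hx)).1).1⟩
  have hQP : Disjoint Q P := by
    rw [Finset.disjoint_left]
    intro x hx
    rw [hQ, mem_biUnion] at hx
    obtain ⟨i, _, hx⟩ := hx
    exact (mem_sdiff.1 (hQj i hx)).2
  have hfull : ∀ x ∈ Q, ∀ w, c w ≠ c x → G.Adj w x := by
    intro x hx w hw
    rw [hQ, mem_biUnion] at hx
    obtain ⟨i, _, hx⟩ := hx
    have h1 := mem_full.1 (mem_sdiff.1 (hQj i hx)).1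
    exact h1.2 w (by rw [← h1.1]; exact hw)
  have hcp := h.cp_gamma le_rfl hE (Q := Q) (by rw [← hP]; exact hQP)
    (fun j => by rw [hclsQ j]; exact hQj4 j) hfull
  rw [← hP, group_by_card] at hcp
  obtain ⟨H, hH⟩ : ∃ H : Finset V, H = (univ \ P) \ Q := ⟨_, rfl⟩
  rw [← hH] at hcp
  have huniq := gamma_unique (d := 2 * r + 1) (γ := γ)
    (γ' := fun l => (((∑ T ∈ powersetCard l (univ : Finset (Fin r)),
      (RC G c H T).card : ℕ)) : ℤ)) (by rw [← hγ, hcp, hd])
  exact ⟨H, fun l hl => huniq l (by omega)⟩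

/-- The number of rainbow cliques of size `l` is the number of `l`-cliques of a graph. -/
theorem exists_graph_rainbow (G : SimpleGraph V) [DecidableRel G.Adj] (c : V → Fin r)
    (H : Finset V) :
    ∃ (N : ℕ) (Γ : SimpleGraph (Fin N)), Γ.Colorable r ∧
      ∀ l, faceNum Γ l = ∑ T ∈ powersetCard l (univ : Finset (Fin r)), (RC G c H T).card := by
  classical
  obtain ⟨f, hf⟩ : ∃ f : Fin H.card ↪ V, ∀ x, x ∈ H ↔ ∃ a, f a = x := by
    refine ⟨⟨fun a => (H.equivFin.symm a : V), ?_⟩, ?_⟩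
    · intro a b hab
      exact H.equivFin.symm.injective (Subtype.ext hab)
    · intro x
      constructor
      · intro hx
        exact ⟨H.equivFin ⟨x, hx⟩, by simp⟩
      · rintro ⟨a, rfl⟩
        exact (H.equivFin.symm a).2
  let Γ : SimpleGraph (Fin H.card) :=
    { Adj := fun a b => G.Adj (f a) (f b) ∧ c (f a) ≠ c (f b)
      symm := ⟨fun a b h => ⟨h.1.symm, h.2.symm⟩⟩
      loopless := ⟨fun a h => h.2 rfl⟩ }
  refine ⟨H.card, Γ, ⟨SimpleGraph.Coloring.mk (fun a => c (f a)) (fun h => h.2)⟩, ?_⟩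
  intro l
  rw [faceNum_eq]
  have hdisj : ∀ T ∈ powersetCard l (univ : Finset (Fin r)),
      ∀ T' ∈ powersetCard l (univ : Finset (Fin r)), T ≠ T' →
      Disjoint (RC G c H T) (RC G c H T') := by
    intro T _ T' _ hne
    rw [Finset.disjoint_left]
    intro s hs hs'
    rw [mem_RC, mem_rb] at hs hs'
    exact hne (by rw [← hs.1.2.1, hs'.1.2.1])
  rw [← card_biUnion hdisj]
  refine Finset.card_bij (fun s _ => s.map f) ?_ ?_ ?_
  · intro s hs
    rw [mem_Kc] at hs
    obtain ⟨_, hcl, hl⟩ := hs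
    have hinj : Set.InjOn c ((s.map f : Finset V) : Set V) := by
      intro x hx y hy hxy
      rw [mem_coe, mem_map] at hx hy
      obtain ⟨a, ha, rfl⟩ := hx
      obtain ⟨b, hb, rfl⟩ := hy
      by_contra hne
      have hab : a ≠ b := fun h => hne (by rw [h])
      exact (hcl (by exact_mod_cast ha) (by exact_mod_cast hb) hab).2 hxy
    rw [mem_biUnion]
    refine ⟨(s.map f).image c, ?_, ?_⟩
    · rw [mem_powersetCard]
      refine ⟨subset_univ _, ?_⟩
      rw [card_image_of_injOn hinj, card_map, hl]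
    · rw [mem_RC]
      refine ⟨rb_of_injOn ?_ hinj, ?_⟩
      · intro x hx
        rw [mem_map] at hx
        obtain ⟨a, _, rfl⟩ := hx
        exact (hf _).2 ⟨a, rfl⟩
      · intro x hx y hy hxy
        rw [mem_coe, mem_map] at hx hy
        obtain ⟨a, ha, rfl⟩ := hx
        obtain ⟨b, hb, rfl⟩ := hy
        have hab : a ≠ b := fun h => hxy (by rw [h])
        exact (hcl (by exact_mod_cast ha) (by exact_mod_cast hb) hab).1
  · intro s _ t _ hst
    exact Finset.map_injective f hst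
  · intro t ht
    rw [mem_biUnion] at ht
    obtain ⟨T, hT, ht⟩ := ht
    rw [mem_powersetCard] at hT
    rw [mem_RC] at ht
    obtain ⟨ht1, ht2⟩ := ht
    have hinj := rb_injOn ht1
    rw [mem_rb] at ht1
    have htf : (univ.filter (fun a => f a ∈ t)).map f = t := by
      ext x
      rw [mem_map]
      constructor
      · rintro ⟨a, ha, rfl⟩
        rw [mem_filter] at ha
        exact ha.2
      · intro hx
        obtain ⟨a, rfl⟩ := (hf x).1 (ht1.1 hx)
        exact ⟨a, by simp [hx], rfl⟩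
    refine ⟨univ.filter (fun a => f a ∈ t), ?_, htf⟩
    rw [mem_Kc]
    refine ⟨subset_univ _, ?_, ?_⟩
    · intro a ha b hb hab
      rw [mem_coe, mem_filter] at ha hb
      have hne : f a ≠ f b := fun h => hab (f.injective h)
      refine ⟨ht2 (by exact_mod_cast ha.2) (by exact_mod_cast hb.2) hne, ?_⟩
      intro hc
      exact hne (hinj (by exact_mod_cast ha.2) (by exact_mod_cast hb.2) hc)
    · rw [← card_map f, htf, ht1.2.2, hT.2]

end

/-- balanced partitions of a number -/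
lemma exists_balanced (r : ℕ) (hr : 1 ≤ r) (S : ℕ) :
    ∃ m : Fin r → ℕ, ∑ j, m j = S ∧ (∀ j k, m j ≤ m k + 1) ∧ ∀ j, S / r ≤ m j := by
  classical
  refine ⟨fun j => S / r + if (j : ℕ) < S % r then 1 else 0, ?_, ?_, ?_⟩
  · rw [sum_add_distrib, sum_const, card_univ, Fintype.card_fin, smul_eq_mul]
    have h1 : ∑ j : Fin r, (if (j : ℕ) < S % r then 1 else 0) = S % r := by
      rw [Fin.sum_univ_eq_sum_range (fun j => if j < S % r then 1 else 0) r, ← card_filter]
      have h2 : (range r).filter (fun j => j < S % r) = range (S % r) := by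
        ext j
        rw [mem_filter, mem_range, mem_range]
        have := Nat.mod_lt S (by omega : r > 0)
        omega
      rw [h2, card_range]
    rw [h1]
    exact Nat.div_add_mod S r
  · intro j k
    dsimp only
    split_ifs <;> omega
  · intro j
    dsimp only
    omega

universe u

/-- Near extremal flag Eulerian complexes of even dimension: the gamma polynomial is the
f-polynomial of a flag complex. -/
theorem np_main (r : ℕ) :
    ∃ η : ℝ, 0 < η ∧ ∃ N0 : ℕ, ∀ (V : Type u) [Fintype V] [DecidableEq V] (G : SimpleGraph V)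
      [DecidableRel G.Adj] (γ : ℕ → ℤ) (i : ℕ), Eul G (2 * r + 1) → N0 ≤ Fintype.card V →
      cp G univ = ∑ j ∈ range ((2 * r + 1) / 2 + 1), C (γ j) * gb (2 * r + 1) j →
      2 ≤ i → i ≤ r →
      (r.choose i : ℝ) * ((γ 1 : ℝ) / r) ^ i - η * (γ 1 : ℝ) ^ (i - 1) ≤ (γ i : ℝ) →
      ∃ (N : ℕ) (Γ : SimpleGraph (Fin N)), Γ.Colorable r ∧
        ∀ l, (faceNum Γ l : ℤ) = if l ≤ r then γ l else 0 := by
  by_cases hr : 2 ≤ r
  swap
  · refine ⟨1, one_pos, 0, ?_⟩
    intro V _ _ G _ γ i _ _ _ h2 h3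
    omega
  obtain ⟨q, rfl⟩ : ∃ q, r = q + 1 := ⟨r - 1, by omega⟩
  have hcase : ∀ s, ∃ η : ℝ, 0 < η ∧ ∃ N0 : ℝ, s + 1 ≤ q →
      ∀ (V : Type u) [Fintype V] [DecidableEq V] (G : SimpleGraph V) [DecidableRel G.Adj]
      (γ : ℕ → ℤ) (m : Fin (q + 1) → ℕ), Eul G (2 * (q + 1) + 1) →
      N0 ≤ Fintype.card V → (∀ j, 4 ≤ m j) → (∀ j k, m j ≤ m k + 1) →
      ∑ j, m j + 2 = Fintype.card V →
      cp G univ = ∑ j ∈ range ((2 * (q + 1) + 1) / 2 + 1), C (γ j) * gb (2 * (q + 1) + 1) j →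
      (gJ m (s + 2) : ℝ) - η * (Fintype.card V : ℝ) ^ (s + 1) ≤ (γ (s + 2) : ℝ) →
      ∃ (col : V → Fin (q + 1)) (u v : Fin (q + 1) → V), FullEdges G col u v ∧
        ∀ j, 7 ≤ (full G col j).card := by
    intro s
    by_cases hs : s + 1 ≤ q
    · obtain ⟨η, hη, N0, h⟩ := near_structured.{u} q s hs
      exact ⟨η, hη, N0, fun _ => h⟩
    · exact ⟨1, one_pos, 0, fun h => absurd h hs⟩
  choose η hη N0 hN0 using hcase
  obtain ⟨η', hη', hη'le⟩ : ∃ η' : ℝ, 0 < η' ∧ ∀ s ∈ range q, η' ≤ η s := by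
    have hne : (range q).Nonempty := ⟨0, mem_range.2 (by omega)⟩
    obtain ⟨s0, hs0, hmin⟩ := exists_min_image (range q) η hne
    exact ⟨η s0, hη s0, hmin⟩
  refine ⟨η', hη', ∑ s ∈ range q, ⌈N0 s⌉₊ + (4 * (q + 1) + 2), ?_⟩
  intro V _ _ G _ γ i hE hcard hγ h2 hi hyp
  obtain ⟨s, rfl⟩ : ∃ s, i = s + 2 := ⟨i - 2, by omega⟩
  have hsq : s + 1 ≤ q := by omega
  have hNs : N0 s ≤ Fintype.card V := by
    have h1 : ⌈N0 s⌉₊ ≤ ∑ s ∈ range q, ⌈N0 s⌉₊ :=
      single_le_sum (f := fun s => ⌈N0 s⌉₊) (fun _ _ => Nat.zero_le _) (mem_range.2 (by omega))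
    have h2 : N0 s ≤ ((⌈N0 s⌉₊ : ℕ) : ℝ) := Nat.le_ceil _
    refine h2.trans ?_
    exact_mod_cast (by omega : ⌈N0 s⌉₊ ≤ Fintype.card V)
  obtain ⟨m, hm1, hm2, hm3⟩ := exists_balanced (q + 1) (by omega) (Fintype.card V - 2)
  have hm4 : ∀ j, 4 ≤ m j := by
    intro j
    refine le_trans ?_ (hm3 j)
    rw [Nat.le_div_iff_mul_le (by omega)]
    omega
  have hsum : ∑ j, m j + 2 = Fintype.card V := by rw [hm1]; omega
  -- the first gamma number
  have hd : (2 * (q + 1) + 1) / 2 = q + 1 := by omega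
  have hγ0 : γ 0 = 1 := by
    have h1 := coeff_gamma_le hγ (s := 0) (by omega)
    rw [range_zero, sum_empty, zero_add, cp_coeff, Kc_zero, card_singleton] at h1
    exact_mod_cast h1.symm
  have hγ1 : γ 1 + (4 * (q + 1) + 2) = Fintype.card V := by
    have h1 := coeff_gamma_le hγ (s := 1) (by omega)
    rw [sum_range_one, hγ0, cp_coeff, Kc_one_card, card_univ] at h1
    have h2 := gb_coeff_succ (2 * (q + 1) + 1) 0
    rw [zero_add] at h2
    rw [h2] at h1
    have h5 : (2 * (q + 1) + 1 - 2 * 0 : ℕ) = 2 * (q + 1) + 1 := by omega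
    rw [h5] at h1
    push_cast at h1
    omega
  have hsum4 : ((∑ j, (m j - 4) : ℕ) : ℤ) = γ 1 := by
    have h4 : ∑ j : Fin (q + 1), (m j - 4) + 4 * (q + 1) = ∑ j, m j := by
      have h3 : ∑ j : Fin (q + 1), (m j - 4) + ∑ _j : Fin (q + 1), 4 = ∑ j, m j := by
        rw [← sum_add_distrib]
        apply sum_congr rfl
        intro j _
        exact Nat.sub_add_cancel (hm4 j)
      rw [sum_const, card_univ, Fintype.card_fin, smul_eq_mul] at h3
      omega
    omega
  have hgJle : (gJ m (s + 2) : ℝ)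
      ≤ ((q + 1).choose (s + 2) : ℝ) * ((γ 1 : ℝ) / ((q + 1 : ℕ) : ℝ)) ^ (s + 2) := by
    have h1 := es_maclaurin (s + 2) (fun j : Fin (q + 1) => ((m j - 4 : ℕ) : ℝ))
      (fun j => by positivity)
    have h3 : ∑ j : Fin (q + 1), ((m j - 4 : ℕ) : ℝ) = (γ 1 : ℝ) := by
      have h4 : (((∑ j, (m j - 4) : ℕ) : ℤ) : ℝ) = (γ 1 : ℝ) := by rw [hsum4]
      push_cast at h4
      exact h4
    rw [h3] at h1
    refine le_trans (le_of_eq ?_) h1
    unfold gJ es
    push_cast
    rfl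
  have hγ1nn : (0 : ℝ) ≤ (γ 1 : ℝ) := by
    have : (0 : ℤ) ≤ γ 1 := by rw [← hsum4]; positivity
    exact_mod_cast this
  have hγ1le : (γ 1 : ℝ) ≤ (Fintype.card V : ℝ) := by
    have : γ 1 ≤ (Fintype.card V : ℤ) := by omega
    exact_mod_cast this
  have hfin : (gJ m (s + 2) : ℝ) - η s * (Fintype.card V : ℝ) ^ (s + 1) ≤ (γ (s + 2) : ℝ) := by
    have e : s + 2 - 1 = s + 1 := by omega
    rw [e] at hyp
    have h1 : (γ 1 : ℝ) ^ (s + 1) ≤ (Fintype.card V : ℝ) ^ (s + 1) :=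
      pow_le_pow_left₀ hγ1nn hγ1le _
    have h2 : η' * (γ 1 : ℝ) ^ (s + 1) ≤ η s * (Fintype.card V : ℝ) ^ (s + 1) :=
      mul_le_mul (hη'le s (mem_range.2 (by omega))) h1 (by positivity) (hη s).le
    linarith
  obtain ⟨col, u, v, huv, hfull⟩ := hN0 s hsq V G γ m hE hNs hm4 hm2 hsum hγ hfin
  obtain ⟨H, hH⟩ := structured_gamma hE huv hfull hγ
  obtain ⟨N, Γ, hcol, hface⟩ := exists_graph_rainbow G col H
  refine ⟨N, Γ, hcol, ?_⟩
  intro l
  split_ifs with hl
  · rw [hface l, hH l hl]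
  · rw [hface l]
    have : powersetCard l (univ : Finset (Fin (q + 1))) = ∅ := by
      apply powersetCard_eq_empty.2
      rw [card_univ, Fintype.card_fin]
      omega
    rw [this, sum_empty]
    rfl

end Pool.Agent.H44
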