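import Pool.Agent.H44.EsBounds

/-!
The real-variable core of the structural argument.
-/

namespace Pool.Agent.H44

open Finset

/-- the contribution of one exceptional vertex -/
lemma zbound {q s : ℕ} (hs : s + 1 ≤ q) {b δ : ℝ} (hb : b = 1 / ((q : ℝ) + 1)) (hδ0 : 0 ≤ δ)
    (hδ : δ ≤ b / 2) {α ζ : Fin (q + 1) → ℝ} (hα1 : ∀ j, b - δ ≤ α j) (hα2 : ∀ j, α j ≤ b + δ)
    (hζ0 : ∀ j, 0 ≤ ζ j) (hζ1 : ∀ j, ζ j ≤ α j) {j k : Fin (q + 1)} (hjk : j ≠ k) :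
    es (s + 1) ζ ≤ b ^ (s + 1) * q.choose (s + 1)
      + q.choose s * ((q : ℝ) + 1) ^ (q - s) * ∏ i, ζ i
      - b ^ (s + 1) * ((1 - ζ j / α j) * (1 - ζ k / α k))
      + (q.choose s * ((q : ℝ) + 1) ^ (q - s) * (q + 1) + (s + 1) * 2 ^ (q + 1)) * δ := by
  have hq1 : (0 : ℝ) < (q : ℝ) + 1 := by positivity
  have hq2 : (2 : ℝ) ≤ (q : ℝ) + 1 := by
    have : ((1 : ℕ) : ℝ) ≤ q := by exact_mod_cast (by omega : 1 ≤ q)
    push_cast at this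
    linarith
  have hb0 : 0 < b := by rw [hb]; positivity
  have hb1 : b ≤ 1 / 2 := by
    rw [hb, div_le_div_iff₀ hq1 (by norm_num)]
    linarith
  have hbd : 0 < b - δ := by linarith
  have hαpos : ∀ i, 0 < α i := fun i => lt_of_lt_of_le hbd (hα1 i)
  set p : Fin (q + 1) → ℝ := fun i => ζ i / α i with hp
  have hp0 : ∀ i, 0 ≤ p i := fun i => div_nonneg (hζ0 i) (hαpos i).le
  have hp1 : ∀ i, p i ≤ 1 := fun i => (div_le_one (hαpos i)).2 (hζ1 i)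
  have hζp : ζ = fun i => p i * α i := by
    funext i
    rw [hp]
    simp only
    rw [div_mul_cancel₀ _ (hαpos i).ne']
  have h1 : es (s + 1) ζ ≤ (b + δ) ^ (s + 1) * es (s + 1) p := by
    rw [hζp]
    exact es_mul_le (s + 1) p α hp0 (fun i => (hαpos i).le) hα2
  have h2 : (b + δ) ^ (s + 1) ≤ b ^ (s + 1) + (s + 1) * δ := by
    have := pow_sub_pow_le (x := b) (y := b + δ) hb0.le (by linarith) (by linarith) (s + 1)
    push_cast at this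
    linarith
  have h3 : es (s + 1) p ≤ 2 ^ (q + 1) := es_le_two_pow _ _ hp0 hp1
  have h4 : 0 ≤ es (s + 1) p := es_nonneg _ _ hp0
  have h5 : es (s + 1) ζ ≤ b ^ (s + 1) * es (s + 1) p + (s + 1) * 2 ^ (q + 1) * δ := by
    have h6 := mul_le_mul_of_nonneg_right h2 h4
    have h7 : ((s : ℝ) + 1) * δ * es (s + 1) p ≤ ((s : ℝ) + 1) * δ * 2 ^ (q + 1) :=
      mul_le_mul_of_nonneg_left h3 (by positivity)
    linarith
  have h8 := exchange_ineq hs p hp0 hp1 hjk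
  have hbs : 0 < b ^ (s + 1) := by positivity
  have h9 := mul_le_mul_of_nonneg_left h8 hbs.le
  -- product comparison
  have hprod : ∏ i, ζ i = (∏ i, p i) * ∏ i, α i := by
    rw [← prod_mul_distrib]
    apply prod_congr rfl
    intro i _
    rw [hζp]
  have hP0 : 0 ≤ ∏ i, p i := prod_nonneg (fun i _ => hp0 i)
  have hP1 : ∏ i, p i ≤ 1 := prod_le_one (fun i _ => hp0 i) (fun i _ => hp1 i)
  have hαprod : b ^ (q + 1) - (q + 1) * δ ≤ ∏ i, α i := by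
    have h10 : (b - δ) ^ (q + 1) ≤ ∏ i, α i := by
      have h11 : ∏ _i : Fin (q + 1), (b - δ) ≤ ∏ i, α i :=
        prod_le_prod (fun _ _ => hbd.le) (fun i _ => hα1 i)
      rwa [prod_const, card_univ, Fintype.card_fin] at h11
    have h12 := pow_sub_pow_le (x := b - δ) (y := b) hbd.le (by linarith) (by linarith) (q + 1)
    push_cast at h12
    linarith
  have h13 : b ^ (q + 1) * ∏ i, p i ≤ ∏ i, ζ i + (q + 1) * δ := by
    rw [hprod]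
    have h14 := mul_le_mul_of_nonneg_right hαprod hP0
    have h15 : ((q : ℝ) + 1) * δ * ∏ i, p i ≤ ((q : ℝ) + 1) * δ * 1 :=
      mul_le_mul_of_nonneg_left hP1 (by positivity)
    linarith
  have hB : ((q : ℝ) + 1) ^ (q - s) * b ^ (q + 1) = b ^ (s + 1) := by
    have e : q + 1 = (q - s) + (s + 1) := by omega
    rw [e, pow_add, ← mul_assoc, ← mul_pow, hb]
    rw [mul_one_div_cancel hq1.ne', one_pow, one_mul]
  have h16 : b ^ (s + 1) * ∏ i, p i ≤ ((q : ℝ) + 1) ^ (q - s) * (∏ i, ζ i + (q + 1) * δ) := by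
    rw [← hB, mul_assoc]
    exact mul_le_mul_of_nonneg_left h13 (by positivity)
  have h17 : (q.choose s : ℝ) * (b ^ (s + 1) * ∏ i, p i)
      ≤ q.choose s * (((q : ℝ) + 1) ^ (q - s) * (∏ i, ζ i + (q + 1) * δ)) :=
    mul_le_mul_of_nonneg_left h16 (by positivity)
  have e1 : b ^ (s + 1) * ((q.choose (s + 1) : ℝ) + q.choose s * ∏ i, p i
      - (1 - p j) * (1 - p k)) = b ^ (s + 1) * q.choose (s + 1)
      + (q.choose s : ℝ) * (b ^ (s + 1) * ∏ i, p i) - b ^ (s + 1) * ((1 - p j) * (1 - p k)) := by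
    ring
  rw [e1] at h9
  have e2 : (q.choose s : ℝ) * (((q : ℝ) + 1) ^ (q - s) * (∏ i, ζ i + (q + 1) * δ))
      = q.choose s * ((q : ℝ) + 1) ^ (q - s) * ∏ i, ζ i
        + q.choose s * ((q : ℝ) + 1) ^ (q - s) * (q + 1) * δ := by ring
  rw [e2] at h17
  have e3 : (1 - p j) * (1 - p k) = (1 - ζ j / α j) * (1 - ζ k / α k) := rfl
  rw [e3] at h9
  linarith

/-- the main part of the face number bound -/
lemma main_part {q s : ℕ} {b ρ w : ℝ} (hb : b = 1 / ((q : ℝ) + 1)) (hρ : 0 ≤ ρ) (hw : 0 ≤ w)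
    (hwρ : w * ρ ≤ 1) {α : Fin (q + 1) → ℝ} (hα : ∀ j, 0 ≤ α j) (hsum : ∑ j, α j = 1 - w * ρ) :
    es (s + 2) α ≤ (q + 1).choose (s + 2) * b ^ (s + 2) - q.choose (s + 1) * b ^ (s + 1) * (w * ρ)
      + (q + 1).choose (s + 2) * (s + 2) ^ 2 * (w * ρ) ^ 2 := by
  have hq1 : (0 : ℝ) < (q : ℝ) + 1 := by positivity
  have hb0 : 0 < b := by rw [hb]; positivity
  have hb1 : b ≤ 1 := by
    rw [hb, div_le_one hq1]
    have : (0 : ℝ) ≤ q := by positivity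
    linarith
  have h1 := es_maclaurin (s + 2) α hα
  rw [hsum] at h1
  have h2 : (1 - w * ρ) / ((q + 1 : ℕ) : ℝ) = b * (1 - w * ρ) := by
    rw [hb]; push_cast; ring
  rw [h2, mul_pow] at h1
  have h3 := one_sub_pow_le (t := w * ρ) (by positivity) hwρ (s + 2)
  have h4 : ((q + 1).choose (s + 2) : ℝ) * (b ^ (s + 2) * (1 - w * ρ) ^ (s + 2))
      ≤ ((q + 1).choose (s + 2) : ℝ) * (b ^ (s + 2)
        * (1 - ((s + 2 : ℕ) : ℝ) * (w * ρ) + ((s + 2 : ℕ) : ℝ) ^ 2 * (w * ρ) ^ 2)) := by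
    apply mul_le_mul_of_nonneg_left _ (by positivity)
    apply mul_le_mul_of_nonneg_left h3 (by positivity)
  have h5 : ((q + 1).choose (s + 2) : ℝ) * ((s : ℝ) + 2) * b = q.choose (s + 1) := by
    have h6 := Nat.add_one_mul_choose_eq q (s + 1)
    have h7 : (((q + 1) * q.choose (s + 1) : ℕ) : ℝ)
        = (((q + 1).choose (s + 1 + 1) * (s + 1 + 1) : ℕ) : ℝ) := by exact_mod_cast h6
    push_cast at h7
    rw [hb, mul_one_div, div_eq_iff hq1.ne']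
    have e : (s : ℝ) + 1 + 1 = s + 2 := by ring
    rw [e] at h7
    have e2 : (q + 1).choose (s + 1 + 1) = (q + 1).choose (s + 2) := rfl
    rw [e2] at h7
    linarith
  have h8 : ((q + 1).choose (s + 2) : ℝ) * (b ^ (s + 2) * ((s + 2) ^ 2 * (w * ρ) ^ 2))
      ≤ ((q + 1).choose (s + 2) : ℝ) * (1 * ((s + 2) ^ 2 * (w * ρ) ^ 2)) := by
    apply mul_le_mul_of_nonneg_left _ (by positivity)
    apply mul_le_mul_of_nonneg_right _ (by positivity)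
    exact pow_le_one₀ hb0.le hb1
  have e1 : ((q + 1).choose (s + 2) : ℝ) * (b ^ (s + 2)
        * (1 - ((s + 2 : ℕ) : ℝ) * (w * ρ) + ((s + 2 : ℕ) : ℝ) ^ 2 * (w * ρ) ^ 2))
      = ((q + 1).choose (s + 2) : ℝ) * b ^ (s + 2)
        - (((q + 1).choose (s + 2) : ℝ) * ((s : ℝ) + 2) * b) * b ^ (s + 1) * (w * ρ)
        + ((q + 1).choose (s + 2) : ℝ) * (b ^ (s + 2) * ((s + 2) ^ 2 * (w * ρ) ^ 2)) := by
    push_cast
    rw [pow_succ b (s + 1)]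
    ring
  rw [e1, h5] at h4
  linarith

universe u

/-- hypotheses of the real-variable core -/
structure CoreHyp (q s : ℕ) (C : ℝ) {W : Type u} (Z : Finset W) (ρ δ θ ι μ x y w : ℝ)
    (α : Fin (q + 1) → ℝ) (ζ : W → Fin (q + 1) → ℝ) : Prop where
  hw : w = Z.card
  hρ0 : 0 < ρ
  hρ1 : ρ ≤ 1
  hδ0 : 0 ≤ δ
  hδ1 : δ ≤ (1 / ((q : ℝ) + 1)) / 2
  hθ0 : 0 ≤ θ
  hι0 : 0 ≤ ι
  hι1 : ι ≤ C
  hμ0 : 0 ≤ μ
  hμ1 : μ ≤ C
  hwρ : w * ρ ≤ 1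
  hα1 : ∀ j, 1 / ((q : ℝ) + 1) - δ ≤ α j
  hα2 : ∀ j, α j ≤ 1 / ((q : ℝ) + 1) + δ
  hsum : ∑ j, α j = 1 - w * ρ
  hζ0 : ∀ z ∈ Z, ∀ j, 0 ≤ ζ z j
  hζ1 : ∀ z ∈ Z, ∀ j, ζ z j ≤ α j
  U : x ≤ es (s + 2) α
    + ρ * (ι / 2 * (q.choose s * (1 / ((q : ℝ) + 1) + δ) ^ s + 2 ^ (q + 1) * θ + ρ * ι))
    - ρ * (μ * (1 / ((q : ℝ) + 1) - δ) ^ s / (s + 2) ^ 2)
    + ρ * (∑ z ∈ Z, es (s + 1) (ζ z) + w * (ρ * ι)) + ρ ^ 2 * w ^ 2
  L : ρ * (ι / 2 * (1 / ((q : ℝ) + 1) - δ) ^ q + ∑ z ∈ Z, ∏ j, ζ z j)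
    ≤ y + ρ ^ 2 * ι * μ / 2 + θ * ρ * μ + ρ ^ 2 * w * μ
  R : y ≤ ((q : ℝ) + 3) * (1 / ((q : ℝ) + 1)) ^ (q + 1) * ρ + C * ρ ^ 2
  T : (q + 1).choose (s + 2) * (1 / ((q : ℝ) + 1)) ^ (s + 2)
    + ((q : ℝ) + 3) * q.choose s * (1 / ((q : ℝ) + 1)) ^ (s + 1) * ρ - C * ρ ^ 2 - ρ * θ ≤ x

/-- consequence of (L) and (R) -/
lemma CoreHyp.LR {q s : ℕ} {C : ℝ} {W : Type u} {Z : Finset W} {ρ δ θ ι μ x y w : ℝ}
    {α : Fin (q + 1) → ℝ} {ζ : W → Fin (q + 1) → ℝ} (h : CoreHyp q s C Z ρ δ θ ι μ x y w α ζ) :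
    ι / 2 * (1 / ((q : ℝ) + 1)) ^ q + ∑ z ∈ Z, ∏ j, ζ z j
      ≤ ((q : ℝ) + 3) * (1 / ((q : ℝ) + 1)) ^ (q + 1)
        + (C * ρ + ρ * ι * μ / 2 + θ * μ + ρ * w * μ + ι / 2 * (q * δ)) := by
  obtain ⟨b, hb⟩ : ∃ b : ℝ, b = 1 / ((q : ℝ) + 1) := ⟨_, rfl⟩
  have hL := h.L
  have hR := h.R
  have hδ1 := h.hδ1
  rw [← hb] at hL hR hδ1 ⊢
  have hρ := h.hρ0
  have hq1 : (0 : ℝ) < (q : ℝ) + 1 := by positivity
  have hb0 : 0 < b := by rw [hb]; positivity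
  have hb1 : b ≤ 1 := by
    rw [hb, div_le_one hq1]
    have : (0 : ℝ) ≤ q := by positivity
    linarith
  have h1 : ρ * (ι / 2 * (b - δ) ^ q + ∑ z ∈ Z, ∏ j, ζ z j)
      ≤ ρ * (((q : ℝ) + 3) * b ^ (q + 1) + C * ρ + ρ * ι * μ / 2 + θ * μ + ρ * w * μ) := by
    have e : ρ * (((q : ℝ) + 3) * b ^ (q + 1) + C * ρ + ρ * ι * μ / 2 + θ * μ + ρ * w * μ)
        = ((q : ℝ) + 3) * b ^ (q + 1) * ρ + C * ρ ^ 2 + ρ ^ 2 * ι * μ / 2 + θ * ρ * μ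
          + ρ ^ 2 * w * μ := by ring
    rw [e]
    linarith
  have h2 := le_of_mul_le_mul_left h1 hρ
  have h3 := pow_sub_pow_le (x := b - δ) (y := b) (by linarith [h.hδ0]) (by linarith [h.hδ0])
    hb1 q
  have h4 : ι / 2 * (b ^ q - q * δ) ≤ ι / 2 * (b - δ) ^ q := by
    apply mul_le_mul_of_nonneg_left _ (by linarith [h.hι0])
    linarith
  linarith

theorem real_core (q s : ℕ) (hs : s + 1 ≤ q) (C : ℝ) (hC : 0 ≤ C) :
    ∃ K : ℝ, 0 ≤ K ∧ ∀ (W : Type u) (Z : Finset W) (ρ δ θ ι μ x y w : ℝ)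
      (α : Fin (q + 1) → ℝ) (ζ : W → Fin (q + 1) → ℝ) (jj kk : W → Fin (q + 1)),
      CoreHyp q s C Z ρ δ θ ι μ x y w α ζ → (∀ z, jj z ≠ kk z) →
      ((1 / ((q : ℝ) + 1)) / 2) ^ s / (s + 2) ^ 2 * μ + (1 / ((q : ℝ) + 1)) ^ (s + 1)
        * ∑ z ∈ Z, (1 - ζ z (jj z) / α (jj z)) * (1 - ζ z (kk z) / α (kk z))
        ≤ K * (θ + (δ + ρ) * (1 + w) ^ 2) := by
  obtain ⟨K1, hK1⟩ : ∃ K1 : ℝ, K1 = (q + 1).choose (s + 2) * (s + 2) ^ 2 := ⟨_, rfl⟩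
  obtain ⟨B, hB⟩ : ∃ B : ℝ, B = ((q : ℝ) + 1) ^ (q - s) := ⟨_, rfl⟩
  obtain ⟨c0, hc0⟩ : ∃ c0 : ℝ, c0 = q.choose s := ⟨_, rfl⟩
  obtain ⟨K2, hK2⟩ : ∃ K2 : ℝ, K2 = c0 * B * (q + 1) + (s + 1) * 2 ^ (q + 1) := ⟨_, rfl⟩
  have hq1 : (0 : ℝ) < (q : ℝ) + 1 := by positivity
  have hK10 : 0 ≤ K1 := by rw [hK1]; positivity
  have hB0 : 0 ≤ B := by rw [hB]; positivity
  have hc00 : 0 ≤ c0 := by rw [hc0]; positivity
  have hK20 : 0 ≤ K2 := by rw [hK2]; positivity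
  refine ⟨(K1 + 1) + (C / 2) * (c0 * s + 2 ^ (q + 1) + C) + (K2 + C)
    + c0 * B * (C + C * C / 2 + C + C + C / 2 * q) + (C + 1), by positivity, ?_⟩
  intro W Z ρ δ θ ι μ x y w α ζ jj kk h hjk
  obtain ⟨b, hb⟩ : ∃ b : ℝ, b = 1 / ((q : ℝ) + 1) := ⟨_, rfl⟩
  have hLR := h.LR
  have hU := h.U
  have hT := h.T
  have hδ1 := h.hδ1
  have hα1 := h.hα1
  have hα2 := h.hα2
  rw [← hb] at hLR hU hT hδ1 hα1 hα2 ⊢
  have hρ := h.hρ0
  have hδ0 := h.hδ0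
  have hι0 := h.hι0
  have hμ0 := h.hμ0
  have hθ0 := h.hθ0
  have hb0 : 0 < b := by rw [hb]; positivity
  have hb1 : b ≤ 1 := by
    rw [hb, div_le_one hq1]
    have : (0 : ℝ) ≤ q := by positivity
    linarith
  have hw0 : 0 ≤ w := by rw [h.hw]; positivity
  have hbd : 0 < b - δ := by linarith
  have hb2 : b ≤ 1 / 2 := by
    rw [hb, div_le_div_iff₀ hq1 (by norm_num)]
    have : ((1 : ℕ) : ℝ) ≤ q := by exact_mod_cast (by omega : 1 ≤ q)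
    push_cast at this
    linarith
  -- the main part
  have hmain := main_part (q := q) (s := s) hb hρ.le hw0 h.hwρ
    (fun j => hbd.le.trans (hα1 j)) h.hsum
  -- the exceptional vertices
  obtain ⟨SP, hSP⟩ : ∃ SP : ℝ, SP = ∑ z ∈ Z, (1 - ζ z (jj z) / α (jj z))
    * (1 - ζ z (kk z) / α (kk z)) := ⟨_, rfl⟩
  obtain ⟨S0, hS0⟩ : ∃ S0 : ℝ, S0 = ∑ z ∈ Z, ∏ j, ζ z j := ⟨_, rfl⟩
  obtain ⟨SE, hSE⟩ : ∃ SE : ℝ, SE = ∑ z ∈ Z, es (s + 1) (ζ z) := ⟨_, rfl⟩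
  have hZ : SE ≤ w * (b ^ (s + 1) * q.choose (s + 1)) + c0 * B * S0 - b ^ (s + 1) * SP
      + w * (K2 * δ) := by
    have h1 : SE ≤ ∑ z ∈ Z, (b ^ (s + 1) * q.choose (s + 1) + c0 * B * ∏ i, ζ z i
        - b ^ (s + 1) * ((1 - ζ z (jj z) / α (jj z)) * (1 - ζ z (kk z) / α (kk z)))
        + K2 * δ) := by
      rw [hSE]
      apply sum_le_sum
      intro z hz
      have := zbound hs hb hδ0 hδ1 hα1 hα2 (h.hζ0 z hz) (h.hζ1 z hz) (hjk z)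
      rw [← hc0, ← hB, ← hK2] at this
      exact this
    refine h1.trans (le_of_eq ?_)
    rw [sum_add_distrib, sum_sub_distrib, sum_add_distrib, sum_const, sum_const, ← mul_sum,
      ← mul_sum, ← hSP, ← hS0, nsmul_eq_mul, nsmul_eq_mul, ← h.hw]
  rw [← hSP]
  rw [← hS0] at hLR
  rw [← hSE, ← hc0] at hU
  rw [← hc0] at hT
  rw [← hK1] at hmain
  -- combine (U) and (T)
  have hUT : ρ * (((q : ℝ) + 3) * c0 * b ^ (s + 1) - C * ρ - θ)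
      ≤ ρ * (- (q.choose (s + 1) * b ^ (s + 1) * w) + K1 * (ρ * w ^ 2)
        + (ι / 2 * (c0 * (b + δ) ^ s + 2 ^ (q + 1) * θ + ρ * ι))
        - (μ * (b - δ) ^ s / (s + 2) ^ 2) + (SE + w * (ρ * ι)) + ρ * w ^ 2) := by
    have e1 : ρ * (((q : ℝ) + 3) * c0 * b ^ (s + 1) - C * ρ - θ)
        = ((q : ℝ) + 3) * c0 * b ^ (s + 1) * ρ - C * ρ ^ 2 - ρ * θ := by ring
    have e2 : ρ * (- (q.choose (s + 1) * b ^ (s + 1) * w) + K1 * (ρ * w ^ 2)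
        + (ι / 2 * (c0 * (b + δ) ^ s + 2 ^ (q + 1) * θ + ρ * ι))
        - (μ * (b - δ) ^ s / (s + 2) ^ 2) + (SE + w * (ρ * ι)) + ρ * w ^ 2)
        = - (q.choose (s + 1) * b ^ (s + 1) * (w * ρ)) + K1 * (w * ρ) ^ 2
        + ρ * (ι / 2 * (c0 * (b + δ) ^ s + 2 ^ (q + 1) * θ + ρ * ι))
        - ρ * (μ * (b - δ) ^ s / (s + 2) ^ 2) + ρ * (SE + w * (ρ * ι)) + ρ ^ 2 * w ^ 2 := by ring
    rw [e1, e2]
    linarith
  have hUT2 := le_of_mul_le_mul_left hUT hρ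
  -- power estimates
  have hp1 : (b + δ) ^ s ≤ b ^ s + s * δ := by
    have := pow_sub_pow_le (x := b) (y := b + δ) hb0.le (by linarith) (by linarith) s
    linarith
  have hp2 : (b / 2) ^ s ≤ (b - δ) ^ s := pow_le_pow_left₀ (by linarith) (by linarith) s
  have hp3 : (b / 2) ^ s / (s + 2) ^ 2 * μ ≤ μ * (b - δ) ^ s / (s + 2) ^ 2 := by
    rw [div_mul_eq_mul_div]
    apply div_le_div_of_nonneg_right _ (by positivity)
    rw [mul_comm]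
    exact mul_le_mul_of_nonneg_left hp2 hμ0
  have hp4 : ι / 2 * (c0 * (b + δ) ^ s + 2 ^ (q + 1) * θ + ρ * ι)
      ≤ c0 * (ι / 2 * b ^ s) + ι / 2 * (c0 * s * δ + 2 ^ (q + 1) * θ + ρ * ι) := by
    have h1 : ι / 2 * c0 * (b + δ) ^ s ≤ ι / 2 * c0 * (b ^ s + s * δ) :=
      mul_le_mul_of_nonneg_left hp1 (by positivity)
    linarith
  -- (L), (R) times `c0 * B`
  have hBq : B * b ^ q = b ^ s := by
    have e : q = (q - s) + s := by omega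
    rw [hB]
    conv_lhs => rw [show b ^ q = b ^ ((q - s) + s) by rw [← e]]
    rw [pow_add, ← mul_assoc, ← mul_pow, hb, mul_one_div_cancel hq1.ne', one_pow, one_mul]
  have hBq1 : B * b ^ (q + 1) = b ^ (s + 1) := by
    rw [pow_succ, ← mul_assoc, hBq, pow_succ]
  have hLR2 : c0 * (ι / 2 * b ^ s) + c0 * B * S0 ≤ ((q : ℝ) + 3) * c0 * b ^ (s + 1)
      + c0 * B * (C * ρ + ρ * ι * μ / 2 + θ * μ + ρ * w * μ + ι / 2 * (q * δ)) := by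
    have h1 := mul_le_mul_of_nonneg_left hLR (mul_nonneg hc00 hB0)
    have e1 : c0 * B * (ι / 2 * b ^ q + S0) = c0 * (ι / 2 * (B * b ^ q)) + c0 * B * S0 := by ring
    have e2 : c0 * B * (((q : ℝ) + 3) * b ^ (q + 1)
        + (C * ρ + ρ * ι * μ / 2 + θ * μ + ρ * w * μ + ι / 2 * (q * δ)))
        = ((q : ℝ) + 3) * c0 * (B * b ^ (q + 1))
          + c0 * B * (C * ρ + ρ * ι * μ / 2 + θ * μ + ρ * w * μ + ι / 2 * (q * δ)) := by ring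
    rw [e1, e2, hBq, hBq1] at h1
    exact h1
  -- error terms
  obtain ⟨X, hX⟩ : ∃ X : ℝ, X = θ + (δ + ρ) * (1 + w) ^ 2 := ⟨_, rfl⟩
  rw [← hX]
  have hexp : (1 + w) ^ 2 = 1 + 2 * w + w ^ 2 := by ring
  have hwsq : 0 ≤ w ^ 2 := sq_nonneg w
  have hw1 : 1 ≤ (1 + w) ^ 2 := by linarith
  have hww : w ≤ (1 + w) ^ 2 := by linarith
  have hww2 : w ^ 2 ≤ (1 + w) ^ 2 := by linarith
  have hX0 : 0 ≤ X := by rw [hX]; positivity
  have hmul : ∀ t : ℝ, 0 ≤ t → t ≤ (1 + w) ^ 2 → ρ * t ≤ X ∧ δ * t ≤ X := by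
    intro t ht0 ht
    have h1 : ρ * t ≤ ρ * (1 + w) ^ 2 := mul_le_mul_of_nonneg_left ht hρ.le
    have h2 : δ * t ≤ δ * (1 + w) ^ 2 := mul_le_mul_of_nonneg_left ht hδ0
    have h3 : 0 ≤ ρ * (1 + w) ^ 2 := by positivity
    have h4 : 0 ≤ δ * (1 + w) ^ 2 := by positivity
    rw [hX]
    constructor <;> linarith
  have x1 : ρ ≤ X := by have := (hmul 1 zero_le_one hw1).1; linarith
  have x2 : δ ≤ X := by have := (hmul 1 zero_le_one hw1).2; linarith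
  have x3 : θ ≤ X := by
    rw [hX]
    have : 0 ≤ (δ + ρ) * (1 + w) ^ 2 := by positivity
    linarith
  have x4 : ρ * w ^ 2 ≤ X := (hmul _ (by positivity) hww2).1
  have x5 : δ * w ≤ X := (hmul _ hw0 hww).2
  have x6 : ρ * w ≤ X := (hmul _ hw0 hww).1
  have t1 : (K1 + 1) * (ρ * w ^ 2) ≤ (K1 + 1) * X := mul_le_mul_of_nonneg_left x4 (by positivity)
  have t2 : ι / 2 * (c0 * s * δ + 2 ^ (q + 1) * θ + ρ * ι)
      ≤ (C / 2) * (c0 * s + 2 ^ (q + 1) + C) * X := by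
    have h1 : c0 * s * δ + 2 ^ (q + 1) * θ + ρ * ι ≤ (c0 * s + 2 ^ (q + 1) + C) * X := by
      have a1 : c0 * s * δ ≤ c0 * s * X := mul_le_mul_of_nonneg_left x2 (by positivity)
      have a2 : (2 : ℝ) ^ (q + 1) * θ ≤ 2 ^ (q + 1) * X :=
        mul_le_mul_of_nonneg_left x3 (by positivity)
      have a3 : ρ * ι ≤ X * C := mul_le_mul x1 h.hι1 hι0 hX0
      linarith
    have h2 : 0 ≤ c0 * s * δ + 2 ^ (q + 1) * θ + ρ * ι := by positivity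
    calc ι / 2 * (c0 * s * δ + 2 ^ (q + 1) * θ + ρ * ι)
        ≤ C / 2 * (c0 * s * δ + 2 ^ (q + 1) * θ + ρ * ι) :=
          mul_le_mul_of_nonneg_right (by linarith [h.hι1]) h2
      _ ≤ C / 2 * ((c0 * s + 2 ^ (q + 1) + C) * X) :=
          mul_le_mul_of_nonneg_left h1 (by positivity)
      _ = _ := by ring
  have t3 : w * (K2 * δ) + w * (ρ * ι) ≤ (K2 + C) * X := by
    have a1 : K2 * (δ * w) ≤ K2 * X := mul_le_mul_of_nonneg_left x5 hK20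
    have a2 : ρ * w * ι ≤ X * C := mul_le_mul x6 h.hι1 hι0 hX0
    linarith
  have t4 : c0 * B * (C * ρ + ρ * ι * μ / 2 + θ * μ + ρ * w * μ + ι / 2 * (q * δ))
      ≤ c0 * B * (C + C * C / 2 + C + C + C / 2 * q) * X := by
    rw [mul_assoc (c0 * B)]
    apply mul_le_mul_of_nonneg_left _ (mul_nonneg hc00 hB0)
    have a1 : C * ρ ≤ C * X := mul_le_mul_of_nonneg_left x1 hC
    have a2 : ρ * ι * μ ≤ X * C * C :=
      mul_le_mul (mul_le_mul x1 h.hι1 hι0 hX0) h.hμ1 hμ0 (by positivity)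
    have a3 : θ * μ ≤ X * C := mul_le_mul x3 h.hμ1 hμ0 hX0
    have a4 : ρ * w * μ ≤ X * C := mul_le_mul x6 h.hμ1 hμ0 hX0
    have a5 : ι / 2 * (q * δ) ≤ C / 2 * (q * X) := by
      apply mul_le_mul (by linarith [h.hι1]) _ (by positivity) (by positivity)
      exact mul_le_mul_of_nonneg_left x2 (by positivity)
    have e : (C + C * C / 2 + C + C + C / 2 * q) * X
        = C * X + X * C * C / 2 + X * C + X * C + C / 2 * (q * X) := by ring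
    rw [e]
    linarith
  have t5 : C * ρ ≤ C * X := mul_le_mul_of_nonneg_left x1 hC
  have e : ((K1 + 1) + (C / 2) * (c0 * s + 2 ^ (q + 1) + C) + (K2 + C)
    + c0 * B * (C + C * C / 2 + C + C + C / 2 * q) + (C + 1)) * X
      = (K1 + 1) * X + (C / 2) * (c0 * s + 2 ^ (q + 1) + C) * X + (K2 + C) * X
        + c0 * B * (C + C * C / 2 + C + C + C / 2 * q) * X + C * X + X := by ring
  rw [e]
  linarith

end Pool.Agent.H44
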