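import Pool.Agent.H44.Types3
import Pool.Agent.H44.RealCore

/-!
Normalised counting inequalities.
-/

namespace Pool.Agent.H44

open Finset

set_option linter.unusedSectionVars false

variable {V : Type*} [Fintype V] [DecidableEq V] {q : ℕ}
variable {G : SimpleGraph V} [DecidableRel G.Adj] {c : V → Fin (q + 1)}

lemma es_smul {r : ℕ} (i : ℕ) (N : ℝ) (α : Fin r → ℝ) :
    es i (fun j => N * α j) = N ^ i * es i α := by
  unfold es
  rw [mul_sum]
  apply sum_congr rfl
  intro J hJ
  rw [mem_powersetCard] at hJ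
  rw [prod_mul_distrib, prod_const, hJ.2]

/-- bound for the symmetric sums when one entry is small -/
lemma es_small {s : ℕ} {u : Fin (q + 1) → ℝ} {M N θ : ℝ} {j0 : Fin (q + 1)} (h0 : ∀ j, 0 ≤ u j)
    (hM : ∀ j, u j ≤ M) (hMN : M ≤ N) (hN : 0 < N) (hθ : 0 ≤ θ) (hj0 : u j0 ≤ θ * N) :
    es s u ≤ q.choose s * M ^ s + 2 ^ (q + 1) * θ * N ^ s := by
  have hM0 : 0 ≤ M := (h0 j0).trans (hM j0)
  unfold es
  rw [← sum_filter_add_sum_filter_not (powersetCard s (univ : Finset (Fin (q + 1))))
    (fun J => j0 ∉ J)]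
  apply add_le_add
  · have h1 : ∑ J ∈ (powersetCard s (univ : Finset (Fin (q + 1)))).filter (fun J => j0 ∉ J),
        ∏ j ∈ J, u j ≤ ∑ J ∈ (powersetCard s (univ : Finset (Fin (q + 1)))).filter
          (fun J => j0 ∉ J), M ^ s := by
      apply sum_le_sum
      intro J hJ
      rw [mem_filter, mem_powersetCard] at hJ
      rw [← hJ.1.2, ← prod_const]
      exact prod_le_prod (fun j _ => h0 j) (fun j _ => hM j)
    refine h1.trans (le_of_eq ?_)
    rw [sum_const, nsmul_eq_mul]
    congr 2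
    have h2 : (powersetCard s (univ : Finset (Fin (q + 1)))).filter (fun J => j0 ∉ J)
        = powersetCard s (univ.erase j0) := by
      ext J
      rw [mem_filter, mem_powersetCard, mem_powersetCard]
      constructor
      · rintro ⟨⟨_, h3⟩, h4⟩
        refine ⟨?_, h3⟩
        intro x hx
        rw [mem_erase]
        exact ⟨by rintro rfl; exact h4 hx, mem_univ _⟩
      · rintro ⟨h3, h4⟩
        refine ⟨⟨subset_univ _, h4⟩, ?_⟩
        intro h5
        have := h3 h5
        simp at this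
    rw [h2, card_powersetCard, card_erase_of_mem (mem_univ _), card_univ, Fintype.card_fin]
    rfl
  · have h1 : ∑ J ∈ (powersetCard s (univ : Finset (Fin (q + 1)))).filter (fun J => ¬ j0 ∉ J),
        ∏ j ∈ J, u j ≤ ∑ J ∈ (powersetCard s (univ : Finset (Fin (q + 1)))).filter
          (fun J => ¬ j0 ∉ J), θ * N ^ s := by
      apply sum_le_sum
      intro J hJ
      rw [mem_filter, mem_powersetCard, not_not] at hJ
      rw [← mul_prod_erase J u hJ.2]
      have h3 : ∏ j ∈ J.erase j0, u j ≤ N ^ (s - 1) := by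
        have h4 : (J.erase j0).card = s - 1 := by rw [card_erase_of_mem hJ.2, hJ.1.2]
        rw [← h4, ← prod_const]
        exact prod_le_prod (fun j _ => h0 j) (fun j _ => (hM j).trans hMN)
      have h5 : 1 ≤ s := by
        rw [← hJ.1.2]
        exact card_pos.2 ⟨j0, hJ.2⟩
      have h6 : N ^ s = N * N ^ (s - 1) := by
        rw [← pow_succ']
        congr 1
        omega
      rw [h6, ← mul_assoc]
      exact mul_le_mul hj0 h3 (prod_nonneg (fun j _ => h0 j)) (by positivity)
    refine h1.trans ?_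
    rw [sum_const, nsmul_eq_mul, mul_assoc]
    apply mul_le_mul_of_nonneg_right _ (by positivity)
    have h2 : ((powersetCard s (univ : Finset (Fin (q + 1)))).filter (fun J => ¬ j0 ∉ J)).card
        ≤ 2 ^ (q + 1) := by
      refine (card_filter_le _ _).trans ?_
      rw [card_powersetCard, card_univ, Fintype.card_fin]
      exact Nat.choose_le_two_pow _ _
    exact_mod_cast h2

/-- normalised (U) for the number of non-rainbow cliques -/
lemma nrc_real {A : Finset V} {s : ℕ} {N β θ : ℝ} (hN : N = Fintype.card V) (hN0 : 0 < N)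
    (hβ1 : β ≤ 1) (hθ : 0 ≤ θ) (hcls : ∀ j, ((cls c A j).card : ℝ) ≤ β * N)
    (hin : ∀ x ∈ A, ((innA G c A x).card : ℝ) ≤ θ * N) :
    2 * ((nrc G c A (s + 2)).card : ℝ) * N ^ 2
      ≤ Isum G c A * (N ^ s * (N ^ 2 * (q.choose s * β ^ s + 2 ^ (q + 1) * θ) + Isum G c A)) := by
  have h1 := two_nrc_le (G := G) (c := c) A s
  have h2 : ∀ x ∈ A, ∀ y ∈ innA G c A x, ((Kc G (A ∩ cn G {x, y}) s).card : ℝ) * N ^ 2
      ≤ N ^ s * (N ^ 2 * (q.choose s * β ^ s + 2 ^ (q + 1) * θ) + Isum G c A) := by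
    intro x hx y hy
    have h3 := card_Kc_le_rbs_add (G := G) (c := c) (A ∩ cn G {x, y}) s
    have h4 := nrc_card_mul (G := G) (c := c) (A := A) (B := A ∩ cn G {x, y}) inter_subset_left s
    have h3' : ((Kc G (A ∩ cn G {x, y}) s).card : ℝ) ≤ (rbs c (A ∩ cn G {x, y}) s).card
        + (nrc G c (A ∩ cn G {x, y}) s).card := by exact_mod_cast h3
    have h4' : ((nrc G c (A ∩ cn G {x, y}) s).card : ℝ) * N ^ 2 ≤ Isum G c A * N ^ s := by
      rw [hN]; exact_mod_cast h4
    have h5 : ((rbs c (A ∩ cn G {x, y}) s).card : ℝ)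
        ≤ q.choose s * (β * N) ^ s + 2 ^ (q + 1) * θ * N ^ s := by
      rw [rbs_card]
      apply es_small (j0 := c x) (fun j => Nat.cast_nonneg _) _ (by nlinarith) hN0 hθ
      · have h6 : cls c (A ∩ cn G {x, y}) (c x) ⊆ innA G c A x := by
          intro w hw
          rw [mem_cls, mem_inter, mem_cn] at hw
          rw [mem_innA]
          exact ⟨hw.1.1, hw.2, (hw.1.2 x (by simp)).symm⟩
        have h7 : ((cls c (A ∩ cn G {x, y}) (c x)).card : ℝ) ≤ (innA G c A x).card := by
          exact_mod_cast card_le_card h6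
        exact h7.trans (hin x hx)
      · intro j
        have h6 : cls c (A ∩ cn G {x, y}) j ⊆ cls c A j := by
          intro w hw
          rw [mem_cls, mem_inter] at hw
          rw [mem_cls]
          exact ⟨hw.1.1, hw.2⟩
        have h7 : ((cls c (A ∩ cn G {x, y}) j).card : ℝ) ≤ (cls c A j).card := by
          exact_mod_cast card_le_card h6
        exact h7.trans (hcls j)
    have h8 : ((Kc G (A ∩ cn G {x, y}) s).card : ℝ) * N ^ 2
        ≤ (rbs c (A ∩ cn G {x, y}) s).card * N ^ 2
          + (nrc G c (A ∩ cn G {x, y}) s).card * N ^ 2 := by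
      rw [← add_mul]
      exact mul_le_mul_of_nonneg_right h3' (by positivity)
    have h9 : ((rbs c (A ∩ cn G {x, y}) s).card : ℝ) * N ^ 2
        ≤ (q.choose s * (β * N) ^ s + 2 ^ (q + 1) * θ * N ^ s) * N ^ 2 :=
      mul_le_mul_of_nonneg_right h5 (by positivity)
    have e : N ^ s * (N ^ 2 * (q.choose s * β ^ s + 2 ^ (q + 1) * θ) + Isum G c A)
        = (q.choose s * (β * N) ^ s + 2 ^ (q + 1) * θ * N ^ s) * N ^ 2
          + Isum G c A * N ^ s := by
      rw [mul_pow]; ring
    rw [e]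
    linarith
  have h1' : 2 * ((nrc G c A (s + 2)).card : ℝ)
      ≤ ∑ x ∈ A, ∑ y ∈ innA G c A x, ((Kc G (A ∩ cn G {x, y}) s).card : ℝ) := by
    exact_mod_cast h1
  calc 2 * ((nrc G c A (s + 2)).card : ℝ) * N ^ 2
      ≤ (∑ x ∈ A, ∑ y ∈ innA G c A x, ((Kc G (A ∩ cn G {x, y}) s).card : ℝ)) * N ^ 2 :=
        mul_le_mul_of_nonneg_right h1' (by positivity)
    _ = ∑ x ∈ A, ∑ y ∈ innA G c A x, ((Kc G (A ∩ cn G {x, y}) s).card : ℝ) * N ^ 2 := by
        rw [sum_mul]
        apply sum_congr rfl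
        intro x _
        rw [sum_mul]
    _ ≤ ∑ x ∈ A, ∑ y ∈ innA G c A x,
        N ^ s * (N ^ 2 * (q.choose s * β ^ s + 2 ^ (q + 1) * θ) + Isum G c A) := by
        apply sum_le_sum
        intro x hx
        apply sum_le_sum
        intro y hy
        exact h2 x hx y hy
    _ = _ := by
        unfold Isum
        push_cast
        rw [sum_mul]
        apply sum_congr rfl
        intro x _
        rw [sum_const, nsmul_eq_mul]

end Pool.Agent.H44
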