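import Pool.Agent.H44.Norm

/-!
Normalised counting inequalities: the hypotheses (U) and (L) of the real-variable core.
-/

namespace Pool.Agent.H44

open Finset

set_option linter.unusedSectionVars false

variable {V : Type*} [Fintype V] [DecidableEq V] {q : ℕ}
variable {G : SimpleGraph V} [DecidableRel G.Adj] {c : V → Fin (q + 1)}

/-- normalised class sizes -/
noncomputable def al (c : V → Fin (q + 1)) (A : Finset V) (N : ℝ) (j : Fin (q + 1)) : ℝ :=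
  ((cls c A j).card : ℝ) / N

/-- normalised degrees of `z` -/
noncomputable def ze (G : SimpleGraph V) [DecidableRel G.Adj] (c : V → Fin (q + 1))
    (A : Finset V) (N : ℝ) (z : V) (j : Fin (q + 1)) : ℝ :=
  ((cls c (A ∩ cn G {z}) j).card : ℝ) / N

lemma card_eq_al {A : Finset V} {N : ℝ} (hN : 0 < N) :
    (fun j => ((cls c A j).card : ℝ)) = fun j => N * al c A N j := by
  funext j
  unfold al
  field_simp

lemma card_eq_ze {A : Finset V} {N : ℝ} (hN : 0 < N) (z : V) :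
    (fun j => ((cls c (A ∩ cn G {z}) j).card : ℝ)) = fun j => N * ze G c A N z j := by
  funext j
  unfold ze
  field_simp

lemma U_norm {Z : Finset V} {s : ℕ} {N ρ β m θ ι μ w : ℝ} (hN : N = Fintype.card V)
    (hN0 : 0 < N) (hρ : ρ = 1 / N) (hβ1 : β ≤ 1) (hm0 : 0 ≤ m) (hθ : 0 ≤ θ)
    (hι : ι = Isum G c (univ \ Z) / N) (hμ : μ = Msum G c (univ \ Z) / N) (hw : w = Z.card)
    (hs : s + 2 ≤ q + 1)
    (hcls : ∀ j, ((cls c (univ \ Z) j).card : ℝ) ≤ β * N)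
    (hcls2 : ∀ j, m * N ≤ ((cls c (univ \ Z) j).card : ℝ))
    (hin : ∀ x ∈ univ \ Z, ((innA G c (univ \ Z) x).card : ℝ) ≤ θ * N) :
    ((Kc G univ (s + 2)).card : ℝ) / N ^ (s + 2) ≤ es (s + 2) (al c (univ \ Z) N)
    + ρ * (ι / 2 * (q.choose s * β ^ s + 2 ^ (q + 1) * θ + ρ * ι))
    - ρ * (μ * m ^ s / (s + 2) ^ 2)
    + ρ * (∑ z ∈ Z, es (s + 1) (ze G c (univ \ Z) N z) + w * (ρ * ι)) + ρ ^ 2 * w ^ 2 := by
  obtain ⟨A, hA⟩ : ∃ A : Finset V, A = univ \ Z := ⟨_, rfl⟩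
  rw [← hA] at hι hμ hcls hcls2 hin ⊢
  obtain ⟨Is, hIs⟩ : ∃ Is : ℝ, Is = Isum G c A := ⟨_, rfl⟩
  obtain ⟨Ms, hMs⟩ : ∃ Ms : ℝ, Ms = Msum G c A := ⟨_, rfl⟩
  rw [← hIs] at hι
  rw [← hMs] at hμ
  obtain ⟨X1, hX1⟩ : ∃ X1 : ℝ, X1 = (Kc G univ (s + 2)).card := ⟨_, rfl⟩
  obtain ⟨XA, hXA⟩ : ∃ XA : ℝ, XA = (Kc G A (s + 2)).card := ⟨_, rfl⟩
  obtain ⟨nr, hnr⟩ : ∃ nr : ℝ, nr = (nrc G c A (s + 2)).card := ⟨_, rfl⟩
  obtain ⟨br, hbr⟩ : ∃ br : ℝ, br = (brs G c A (s + 2)).card := ⟨_, rfl⟩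
  rw [← hX1]
  -- (Z1)
  have z1 := card_Kc_le_Z (G := G) Z (s + 1)
  rw [← hA] at z1
  have z1' : X1 * N ^ 2 ≤ (XA + ∑ z ∈ Z, ((Kc G (A ∩ cn G {z}) (s + 1)).card : ℝ)) * N ^ 2
      + w ^ 2 * N ^ (s + 2) := by
    rw [hX1, hXA, hN, hw]
    exact_mod_cast z1
  -- decomposition in A
  have z2 := card_Kc_add_brs_le (G := G) (c := c) A (s + 2)
  have z2' : XA + br ≤ N ^ (s + 2) * es (s + 2) (al c A N) + nr := by
    rw [← es_smul, ← card_eq_al hN0, ← rbs_card, hXA, hbr, hnr]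
    exact_mod_cast z2
  have z3 : 2 * nr * N ^ 2
      ≤ Is * (N ^ s * (N ^ 2 * (q.choose s * β ^ s + 2 ^ (q + 1) * θ) + Is)) := by
    rw [hnr, hIs]
    exact nrc_real hN hN0 hβ1 hθ hcls hin
  -- lower bound for br
  have z4 : Ms * (m * N) ^ s ≤ br * (s + 2) ^ 2 := by
    have h1 : ∀ j, ⌈m * N⌉₊ ≤ (cls c A j).card := fun j => Nat.ceil_le.2 (hcls2 j)
    have h2 := Msum_le_brs (G := G) (c := c) (A := A) h1 hs
    have h3 : Ms * ((⌈m * N⌉₊ : ℕ) : ℝ) ^ s ≤ br * (s + 2) ^ 2 := by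
      rw [hMs, hbr]
      exact_mod_cast h2
    refine le_trans ?_ h3
    apply mul_le_mul_of_nonneg_left _ (by rw [hMs]; positivity)
    exact pow_le_pow_left₀ (by positivity) (Nat.le_ceil _) s
  -- exceptional vertices
  have z5 : ∀ z, ((Kc G (A ∩ cn G {z}) (s + 1)).card : ℝ) * N ^ 2
      ≤ N ^ 2 * (N ^ (s + 1) * es (s + 1) (ze G c A N z)) + Is * N ^ (s + 1) := by
    intro z
    have h1 := card_Kc_le_rbs_add (G := G) (c := c) (A ∩ cn G {z}) (s + 1)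
    have h2 := nrc_card_mul (G := G) (c := c) (A := A) (B := A ∩ cn G {z}) inter_subset_left
      (s + 1)
    have h1' : ((Kc G (A ∩ cn G {z}) (s + 1)).card : ℝ) ≤ (rbs c (A ∩ cn G {z}) (s + 1)).card
        + (nrc G c (A ∩ cn G {z}) (s + 1)).card := by exact_mod_cast h1
    have h2' : ((nrc G c (A ∩ cn G {z}) (s + 1)).card : ℝ) * N ^ 2 ≤ Is * N ^ (s + 1) := by
      rw [hN, hIs]; exact_mod_cast h2
    have h3 : ((rbs c (A ∩ cn G {z}) (s + 1)).card : ℝ)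
        = N ^ (s + 1) * es (s + 1) (ze G c A N z) := by
      rw [rbs_card, card_eq_ze hN0, es_smul]
    rw [h3] at h1'
    have h4 := mul_le_mul_of_nonneg_right h1' (by positivity : 0 ≤ N ^ 2)
    linarith
  have z6 : (∑ z ∈ Z, ((Kc G (A ∩ cn G {z}) (s + 1)).card : ℝ)) * N ^ 2
      ≤ N ^ (s + 3) * (∑ z ∈ Z, es (s + 1) (ze G c A N z)) + w * (Is * N ^ (s + 1)) := by
    rw [sum_mul]
    refine (sum_le_sum (fun z _ => z5 z)).trans (le_of_eq ?_)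
    rw [sum_add_distrib, ← mul_sum, ← mul_sum, sum_const, nsmul_eq_mul, ← hw, ← mul_assoc,
      ← pow_add, show 2 + (s + 1) = s + 3 by omega]
  obtain ⟨E1, hE1⟩ : ∃ E1 : ℝ, E1 = es (s + 2) (al c A N) := ⟨_, rfl⟩
  obtain ⟨E2, hE2⟩ : ∃ E2 : ℝ, E2 = ∑ z ∈ Z, es (s + 1) (ze G c A N z) := ⟨_, rfl⟩
  rw [← hE1] at z2' ⊢
  rw [← hE2] at z6 ⊢
  rw [div_le_iff₀ (by positivity)]
  apply le_of_mul_le_mul_right _ (by positivity : 0 < N ^ 2)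
  have hs2 : (0 : ℝ) < ((s : ℝ) + 2) ^ 2 := by positivity
  have e : (E1 + ρ * (ι / 2 * (q.choose s * β ^ s + 2 ^ (q + 1) * θ + ρ * ι))
    - ρ * (μ * m ^ s / (s + 2) ^ 2) + ρ * (E2 + w * (ρ * ι)) + ρ ^ 2 * w ^ 2) * N ^ (s + 2)
      * N ^ 2 = N ^ (s + 2) * E1 * N ^ 2
        + Is * (N ^ s * (N ^ 2 * (q.choose s * β ^ s + 2 ^ (q + 1) * θ) + Is)) / 2
        - Ms * (m * N) ^ s / (s + 2) ^ 2 * N ^ 2
        + (N ^ (s + 3) * E2 + w * (Is * N ^ (s + 1))) + w ^ 2 * N ^ (s + 2) := by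
    rw [hρ, hι, hμ]
    have p2 : N ^ (s + 2) = N ^ s * N ^ 2 := pow_add _ _ _
    have p3 : N ^ (s + 3) = N ^ s * N ^ 3 := pow_add _ _ _
    have p1 : N ^ (s + 1) = N ^ s * N := pow_succ _ _
    rw [p1, p2, p3, mul_pow]
    field_simp
  rw [e]
  have z7 : Ms * (m * N) ^ s / (s + 2) ^ 2 ≤ br := by
    rw [div_le_iff₀ hs2]; exact z4
  have z8 := mul_le_mul_of_nonneg_right z7 (by positivity : 0 ≤ N ^ 2)
  have z9 := mul_le_mul_of_nonneg_right z2' (by positivity : 0 ≤ N ^ 2)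
  have e2 : (XA + ∑ z ∈ Z, ((Kc G (A ∩ cn G {z}) (s + 1)).card : ℝ)) * N ^ 2
      = XA * N ^ 2 + (∑ z ∈ Z, ((Kc G (A ∩ cn G {z}) (s + 1)).card : ℝ)) * N ^ 2 := by ring
  rw [e2] at z1'
  linarith

lemma L_norm {Z : Finset V} {N ρ m θ ι μ w : ℝ} (hN : N = Fintype.card V)
    (hN0 : 0 < N) (hρ : ρ = 1 / N) (hm0 : 0 ≤ m) (hθ : 0 ≤ θ)
    (hι : ι = Isum G c (univ \ Z) / N) (hμ : μ = Msum G c (univ \ Z) / N) (hw : w = Z.card)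
    (hcls2 : ∀ j, m * N ≤ ((cls c (univ \ Z) j).card : ℝ))
    (hin : ∀ x ∈ univ \ Z, ((innA G c (univ \ Z) x).card : ℝ) ≤ θ * N) :
    ρ * (ι / 2 * m ^ q + ∑ z ∈ Z, ∏ j, ze G c (univ \ Z) N z j)
    ≤ ((Kc G univ (q + 2)).card : ℝ) / N ^ (q + 2) + ρ ^ 2 * ι * μ / 2 + θ * ρ * μ
      + ρ ^ 2 * w * μ := by
  obtain ⟨A, hA⟩ : ∃ A : Finset V, A = univ \ Z := ⟨_, rfl⟩
  rw [← hA] at hι hμ hcls2 hin ⊢
  obtain ⟨Is, hIs⟩ : ∃ Is : ℝ, Is = Isum G c A := ⟨_, rfl⟩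
  obtain ⟨Ms, hMs⟩ : ∃ Ms : ℝ, Ms = Msum G c A := ⟨_, rfl⟩
  have hIs0 : 0 ≤ Is := by rw [hIs]; positivity
  have hMs0 : 0 ≤ Ms := by rw [hMs]; positivity
  rw [← hIs] at hι
  rw [← hMs] at hμ
  obtain ⟨X1, hX1⟩ : ∃ X1 : ℝ, X1 = (Kc G univ (q + 2)).card := ⟨_, rfl⟩
  obtain ⟨XA, hXA⟩ : ∃ XA : ℝ, XA = (Kc G A (q + 2)).card := ⟨_, rfl⟩
  rw [← hX1]
  have z1 := Z_le_card_Kc (G := G) Z (q + 1)
  rw [← hA] at z1
  have z1' : XA + ∑ z ∈ Z, ((Kc G (A ∩ cn G {z}) (q + 1)).card : ℝ) ≤ X1 := by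
    rw [hX1, hXA]
    exact_mod_cast z1
  have z2 : Is * (m * N) ^ q * N ^ 2 ≤ 2 * XA * N ^ 2 + Is * Ms * N ^ q
      + 2 * (θ * N) * Ms * N ^ (q + 1) := by
    have h1 : ∀ j, ⌈m * N⌉₊ ≤ (cls c A j).card := fun j => Nat.ceil_le.2 (hcls2 j)
    have h2 : ∀ x ∈ A, (innA G c A x).card ≤ ⌊θ * N⌋₊ := fun x hx => Nat.le_floor (hin x hx)
    have h3 := lower_A (G := G) (c := c) h2 h1
    have h4 : Is * ((⌈m * N⌉₊ : ℕ) : ℝ) ^ q * N ^ 2 ≤ 2 * XA * N ^ 2 + Is * Ms * N ^ q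
      + 2 * ((⌊θ * N⌋₊ : ℕ) : ℝ) * Ms * N ^ (q + 1) := by
      rw [hIs, hXA, hMs, hN] at *
      exact_mod_cast h3
    have h5 : (m * N) ^ q ≤ ((⌈m * N⌉₊ : ℕ) : ℝ) ^ q :=
      pow_le_pow_left₀ (by positivity) (Nat.le_ceil _) q
    have h6 : ((⌊θ * N⌋₊ : ℕ) : ℝ) ≤ θ * N := Nat.floor_le (by positivity)
    have h7 : Is * (m * N) ^ q * N ^ 2 ≤ Is * ((⌈m * N⌉₊ : ℕ) : ℝ) ^ q * N ^ 2 :=
      mul_le_mul_of_nonneg_right (mul_le_mul_of_nonneg_left h5 hIs0) (by positivity)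
    have h8 : 2 * ((⌊θ * N⌋₊ : ℕ) : ℝ) * Ms * N ^ (q + 1) ≤ 2 * (θ * N) * Ms * N ^ (q + 1) := by
      apply mul_le_mul_of_nonneg_right _ (by positivity)
      apply mul_le_mul_of_nonneg_right _ hMs0
      linarith
    linarith
  have z3 : ∀ z, N ^ (q + 1) * (∏ j, ze G c A N z j) * N ^ 2
      ≤ ((Kc G (A ∩ cn G {z}) (q + 1)).card : ℝ) * N ^ 2 + Ms * N ^ (q + 1) := by
    intro z
    have h1 := prod_cls_le (G := G) (c := c) (A := A) z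
    have h2 : N ^ (q + 1) * (∏ j, ze G c A N z j)
        = ∏ j, ((cls c (A ∩ cn G {z}) j).card : ℝ) := by
      have h3 := card_eq_ze (G := G) (c := c) (A := A) hN0 z
      have h4 : ∏ j, ((cls c (A ∩ cn G {z}) j).card : ℝ) = ∏ j, (N * ze G c A N z j) := by
        apply prod_congr rfl
        intro j _
        exact congrFun h3 j
      rw [h4, prod_mul_distrib, prod_const, card_univ, Fintype.card_fin]
    rw [h2, hMs, hN]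
    exact_mod_cast h1
  have z4 : N ^ (q + 1) * (∑ z ∈ Z, ∏ j, ze G c A N z j) * N ^ 2
      ≤ (∑ z ∈ Z, ((Kc G (A ∩ cn G {z}) (q + 1)).card : ℝ)) * N ^ 2 + w * (Ms * N ^ (q + 1)) := by
    rw [mul_sum, sum_mul, sum_mul]
    refine (sum_le_sum (fun z _ => z3 z)).trans (le_of_eq ?_)
    rw [sum_add_distrib, sum_const, nsmul_eq_mul, ← hw]
  obtain ⟨E2, hE2⟩ : ∃ E2 : ℝ, E2 = ∑ z ∈ Z, ∏ j, ze G c A N z j := ⟨_, rfl⟩
  rw [← hE2] at z4 ⊢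
  obtain ⟨XZ, hXZ⟩ : ∃ XZ : ℝ, XZ = ∑ z ∈ Z, ((Kc G (A ∩ cn G {z}) (q + 1)).card : ℝ) :=
    ⟨_, rfl⟩
  rw [← hXZ] at z1' z4
  have z5 := mul_le_mul_of_nonneg_right z1' (by positivity : 0 ≤ N ^ 2)
  have p2 : N ^ (q + 2) = N ^ q * N ^ 2 := pow_add _ _ _
  have p1 : N ^ (q + 1) = N ^ q * N := pow_succ _ _
  apply le_of_mul_le_mul_right _ (by positivity : 0 < N ^ (q + 2) * N ^ 2)
  have e1 : ρ * (ι / 2 * m ^ q + E2) * (N ^ (q + 2) * N ^ 2)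
      = Is * (m * N) ^ q * N ^ 2 / 2 + N ^ (q + 1) * E2 * N ^ 2 := by
    rw [hρ, hι, p1, p2, mul_pow]
    field_simp
  have e2 : (X1 / N ^ (q + 2) + ρ ^ 2 * ι * μ / 2 + θ * ρ * μ + ρ ^ 2 * w * μ)
      * (N ^ (q + 2) * N ^ 2) = X1 * N ^ 2 + Is * Ms * N ^ q / 2
        + (θ * N) * Ms * N ^ (q + 1) + w * (Ms * N ^ (q + 1)) := by
    rw [hρ, hι, hμ, p1, p2]
    field_simp
  rw [e1, e2]
  linarith

end Pool.Agent.H44
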