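import Pool.Agent.H44.Compare
import Pool.Agent.H44.FullFinal

/-!
Second order estimate for the gamma numbers of `J_r^*(n)`.
-/

namespace Pool.Agent.H44

open Finset

set_option linter.unusedSectionVars false

lemma prod_expand {ι : Type*} [DecidableEq ι] (S : Finset ι) (y N : ℝ) (δ : ι → ℝ)
    (hy0 : 0 ≤ y) (hyN : y ≤ N) (hN : 1 ≤ N) (hδ : ∀ j, |δ j| ≤ 1) :
    |∏ j ∈ S, (y + δ j) - y ^ S.card - y ^ (S.card - 1) * ∑ j ∈ S, δ j| * N ^ 2
      ≤ 4 ^ S.card * N ^ S.card := by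
  induction S using Finset.induction_on with
  | empty => simp
  | insert j S hj ih =>
    rw [prod_insert hj, sum_insert hj, card_insert_of_notMem hj, Nat.add_sub_cancel]
    obtain ⟨t, ht⟩ : ∃ t, t = S.card := ⟨_, rfl⟩
    rw [← ht] at ih ⊢
    obtain ⟨E, hE⟩ : ∃ E : ℝ, E = ∏ j ∈ S, (y + δ j) - y ^ t - y ^ (t - 1) * ∑ j ∈ S, δ j :=
      ⟨_, rfl⟩
    rw [← hE] at ih
    have hprod : ∏ j ∈ S, (y + δ j) = E + y ^ t + y ^ (t - 1) * ∑ j ∈ S, δ j := by
      rw [hE]; ring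
    have hsum : |∑ j ∈ S, δ j| ≤ t := by
      refine (abs_sum_le_sum_abs _ _).trans ?_
      refine (sum_le_sum (fun j _ => hδ j)).trans ?_
      rw [sum_const, nsmul_eq_mul, mul_one, ht]
    have hpow : y ^ (t - 1) * y * (∑ j ∈ S, δ j) = y ^ t * ∑ j ∈ S, δ j := by
      by_cases h0 : t = 0
      · have : S = ∅ := by rw [← card_eq_zero, ← ht, h0]
        rw [this]; simp
      · have : t = (t - 1) + 1 := by omega
        conv_rhs => rw [this, pow_succ]
    have e1 : (y + δ j) * ∏ j ∈ S, (y + δ j) - y ^ (t + 1) - y ^ t * (δ j + ∑ j ∈ S, δ j)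
        = (y + δ j) * E + δ j * (y ^ (t - 1) * ∑ j ∈ S, δ j) := by
      rw [hprod]
      have e : (y + δ j) * (E + y ^ t + y ^ (t - 1) * ∑ j ∈ S, δ j) - y ^ (t + 1)
          - y ^ t * (δ j + ∑ j ∈ S, δ j)
          = (y + δ j) * E + δ j * (y ^ (t - 1) * ∑ j ∈ S, δ j)
            + (y ^ (t - 1) * y * (∑ j ∈ S, δ j) - y ^ t * ∑ j ∈ S, δ j) := by
        rw [pow_succ]; ring
      rw [e, hpow]; ring
    rw [e1]
    have hyδ : |y + δ j| ≤ 2 * N := by
      refine (abs_add_le _ _).trans ?_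
      rw [abs_of_nonneg hy0]
      have := hδ j
      linarith
    have hN2 : 0 ≤ N ^ 2 := by positivity
    have h1 : |(y + δ j) * E| * N ^ 2 ≤ 2 * N * (4 ^ t * N ^ t) := by
      rw [abs_mul, mul_assoc]
      exact mul_le_mul hyδ ih (by positivity) (by positivity)
    have h2 : |δ j * (y ^ (t - 1) * ∑ j ∈ S, δ j)| * N ^ 2 ≤ t * N ^ (t + 1) := by
      by_cases h0 : t = 0
      · have : S = ∅ := by rw [← card_eq_zero, ← ht, h0]
        rw [this, h0]; simp
      · rw [abs_mul, abs_mul, abs_of_nonneg (by positivity : 0 ≤ y ^ (t - 1))]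
        have h3 : y ^ (t - 1) ≤ N ^ (t - 1) := pow_le_pow_left₀ hy0 hyN _
        have h4 : |δ j| * (y ^ (t - 1) * |∑ j ∈ S, δ j|) ≤ 1 * (N ^ (t - 1) * t) := by
          apply mul_le_mul (hδ j) _ (by positivity) zero_le_one
          exact mul_le_mul h3 hsum (abs_nonneg _) (by positivity)
        have h5 : N ^ (t + 1) = N ^ (t - 1) * N ^ 2 := by
          rw [← pow_add]; congr 1; omega
        rw [h5]
        calc |δ j| * (y ^ (t - 1) * |∑ j ∈ S, δ j|) * N ^ 2 ≤ 1 * (N ^ (t - 1) * t) * N ^ 2 :=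
              mul_le_mul_of_nonneg_right h4 hN2
          _ = t * (N ^ (t - 1) * N ^ 2) := by ring
    have h6 : |(y + δ j) * E + δ j * (y ^ (t - 1) * ∑ j ∈ S, δ j)| * N ^ 2
        ≤ |(y + δ j) * E| * N ^ 2 + |δ j * (y ^ (t - 1) * ∑ j ∈ S, δ j)| * N ^ 2 := by
      rw [← add_mul]
      exact mul_le_mul_of_nonneg_right (abs_add_le _ _) hN2
    have h7 : (t : ℝ) ≤ 2 * 4 ^ t := by
      have h8 : t ≤ 4 ^ t := (Nat.lt_pow_self (by norm_num)).le
      have h9 : (t : ℝ) ≤ 4 ^ t := by exact_mod_cast h8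
      have h10 : (0 : ℝ) ≤ 4 ^ t := by positivity
      linarith
    have h8 : (t : ℝ) * N ^ (t + 1) ≤ 2 * 4 ^ t * N ^ (t + 1) :=
      mul_le_mul_of_nonneg_right h7 (by positivity)
    have e2 : (4 : ℝ) ^ (t + 1) * N ^ (t + 1) = 2 * N * (4 ^ t * N ^ t) + 2 * 4 ^ t * N ^ (t + 1) := by
      rw [pow_succ, pow_succ]; ring
    rw [e2]
    linarith

lemma sum_powersetCard_sum {r : ℕ} (i : ℕ) (δ : Fin r → ℝ) (h : ∑ j, δ j = 0) :
    ∑ S ∈ powersetCard i (univ : Finset (Fin r)), ∑ j ∈ S, δ j = 0 := by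
  have h1 : ∑ S ∈ powersetCard i (univ : Finset (Fin r)), ∑ j ∈ S, δ j
      = ∑ j : Fin r, ((((powersetCard i (univ : Finset (Fin r))).filter
        (fun S => j ∈ S)).card : ℕ) : ℝ) * δ j := by
    have h2 : ∀ S ∈ powersetCard i (univ : Finset (Fin r)), ∑ j ∈ S, δ j
        = ∑ j : Fin r, if j ∈ S then δ j else 0 := by
      intro S _
      rw [sum_ite_mem, univ_inter]
    rw [sum_congr rfl h2, sum_comm]
    apply sum_congr rfl
    intro j _
    rw [← sum_filter, sum_const, nsmul_eq_mul]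
  have h2 : ∀ j : Fin r, ((powersetCard i (univ : Finset (Fin r))).filter
        (fun S => j ∈ S)).card = r.choose i - (r - 1).choose i := by
    intro j
    have h3 := Finset.card_filter_add_card_filter_not
      (s := powersetCard i (univ : Finset (Fin r))) (fun S => j ∈ S)
    have h4 : (powersetCard i (univ : Finset (Fin r))).filter (fun S => j ∉ S)
        = powersetCard i (univ.erase j) := by
      ext J
      rw [mem_filter, mem_powersetCard, mem_powersetCard]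
      constructor
      · rintro ⟨⟨_, h3⟩, h4⟩
        refine ⟨?_, h3⟩
        intro x hx
        rw [mem_erase]
        exact ⟨by rintro rfl; exact h4 hx, mem_univ _⟩
      · rintro ⟨h3, h4⟩
        refine ⟨⟨subset_univ _, h4⟩, ?_⟩
        intro h5
        have := h3 h5
        simp at this
    rw [h4, card_powersetCard, card_powersetCard, card_erase_of_mem (mem_univ _), card_univ,
      Fintype.card_fin] at h3
    omega
  rw [h1, sum_congr rfl (fun j _ => by rw [h2 j]), ← mul_sum, h, mul_zero]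

lemma gJ_lower (q s : ℕ) {m : Fin (q + 1) → ℕ} (hm : ∀ j, 4 ≤ m j)
    (hbal : ∀ j k, m j ≤ m k + 1) {N b : ℝ} (hsum : ((∑ j, m j : ℕ) : ℝ) + 2 = N)
    (hb : b = 1 / ((q : ℝ) + 1)) :
    (q + 1).choose (s + 2) * (b * N) ^ (s + 2)
      - (4 * (q + 1) + 2) * q.choose (s + 1) * (b * N) ^ (s + 1)
      - (q + 1).choose (s + 2) * 4 ^ (s + 2) * N ^ s ≤ (gJ m (s + 2) : ℝ) := by
  have hq1 : (0 : ℝ) < (q : ℝ) + 1 := by positivity
  have hb0 : 0 < b := by rw [hb]; positivity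
  have hqb : ((q : ℝ) + 1) * b = 1 := by rw [hb]; field_simp
  obtain ⟨x, hx⟩ : ∃ x : Fin (q + 1) → ℝ, x = fun j => ((m j - 4 : ℕ) : ℝ) := ⟨_, rfl⟩
  have hx0 : ∀ j, 0 ≤ x j := by intro j; rw [hx]; positivity
  have hsumx : ∑ j, x j = N - 2 - 4 * (q + 1) := by
    have h1 : ∑ j : Fin (q + 1), (m j - 4) + 4 * (q + 1) = ∑ j, m j := by
      have h3 : ∑ j : Fin (q + 1), (m j - 4) + ∑ _j : Fin (q + 1), 4 = ∑ j, m j := by
        rw [← sum_add_distrib]
        apply sum_congr rfl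
        intro j _
        exact Nat.sub_add_cancel (hm j)
      rw [sum_const, card_univ, Fintype.card_fin, smul_eq_mul] at h3
      omega
    have h2 : (((∑ j : Fin (q + 1), (m j - 4) + 4 * (q + 1) : ℕ)) : ℝ)
        = ((∑ j, m j : ℕ) : ℝ) := by rw [h1]
    rw [hx]
    push_cast at h2 hsum ⊢
    linarith
  obtain ⟨y, hy⟩ : ∃ y : ℝ, y = b * (N - 2 - 4 * (q + 1)) := ⟨_, rfl⟩
  have hxy : ∀ j k, x j ≤ x k + 1 := by
    intro j k
    rw [hx]
    simp only
    have h1 : m j - 4 ≤ m k - 4 + 1 := by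
      have := hbal j k
      have := hm j
      have := hm k
      omega
    exact_mod_cast h1
  have hysum : ((q : ℝ) + 1) * y = ∑ j, x j := by
    rw [hsumx, hy, ← mul_assoc, hqb, one_mul]
  have hδ1 : ∀ j, x j - y ≤ 1 := by
    intro j
    have h1 : ∑ _k : Fin (q + 1), (x j - 1) ≤ ∑ k, x k := by
      apply sum_le_sum
      intro k _
      linarith [hxy j k]
    rw [sum_const, card_univ, Fintype.card_fin, nsmul_eq_mul, ← hysum] at h1
    push_cast at h1
    have h2 : x j - 1 ≤ y := le_of_mul_le_mul_left h1 hq1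
    linarith
  have hδ2 : ∀ j, -1 ≤ x j - y := by
    intro j
    have h1 : ∑ k, x k ≤ ∑ _k : Fin (q + 1), (x j + 1) := by
      apply sum_le_sum
      intro k _
      linarith [hxy k j]
    rw [sum_const, card_univ, Fintype.card_fin, nsmul_eq_mul, ← hysum] at h1
    push_cast at h1
    have h2 : y ≤ x j + 1 := le_of_mul_le_mul_left h1 hq1
    linarith
  have hδ : ∀ j, |x j - y| ≤ 1 := fun j => abs_le.2 ⟨hδ2 j, hδ1 j⟩
  have hy0 : 0 ≤ y := by
    have h1 : 0 ≤ ∑ j, x j := sum_nonneg (fun j _ => hx0 j)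
    rw [← hysum] at h1
    exact nonneg_of_mul_nonneg_right h1 hq1
  have hN6 : 6 ≤ N := by
    have h1 : 0 ≤ ∑ j, x j := sum_nonneg (fun j _ => hx0 j)
    rw [hsumx] at h1
    have : (0 : ℝ) ≤ q := by positivity
    linarith
  have hb1 : b ≤ 1 := by
    rw [hb, div_le_one hq1]
    have : (0 : ℝ) ≤ q := by positivity
    linarith
  have hyN : y ≤ N := by
    rw [hy]
    have h1 : (0 : ℝ) ≤ q := by positivity
    have h2 : 0 ≤ N - 2 - 4 * (q + 1) := by
      have h1 : 0 ≤ ∑ j, x j := sum_nonneg (fun j _ => hx0 j)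
      rwa [hsumx] at h1
    calc b * (N - 2 - 4 * (q + 1)) ≤ 1 * (N - 2 - 4 * (q + 1)) :=
          mul_le_mul_of_nonneg_right hb1 h2
      _ ≤ N := by linarith
  have hδsum : ∑ j, (x j - y) = 0 := by
    rw [sum_sub_distrib, sum_const, card_univ, Fintype.card_fin, nsmul_eq_mul]
    push_cast
    rw [hysum]; ring
  -- each product
  have hN2 : 0 < N ^ 2 := by positivity
  have hprod : ∀ S ∈ powersetCard (s + 2) (univ : Finset (Fin (q + 1))),
      y ^ (s + 2) + y ^ (s + 1) * ∑ j ∈ S, (x j - y) - 4 ^ (s + 2) * N ^ s ≤ ∏ j ∈ S, x j := by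
    intro S hS
    have h1 := prod_expand S y N (fun j => x j - y) hy0 hyN (by linarith) hδ
    rw [(mem_powersetCard.1 hS).2] at h1
    have h2 : ∏ j ∈ S, (y + (x j - y)) = ∏ j ∈ S, x j := by
      apply prod_congr rfl
      intro j _
      ring
    rw [h2] at h1
    have h3 : s + 2 - 1 = s + 1 := rfl
    rw [h3, pow_add N s 2, ← mul_assoc] at h1
    have h4 := le_of_mul_le_mul_right h1 hN2
    have h5 := (abs_le.1 h4).1
    linarith
  have hg : (gJ m (s + 2) : ℝ) = ∑ S ∈ powersetCard (s + 2) (univ : Finset (Fin (q + 1))),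
      ∏ j ∈ S, x j := by
    unfold gJ
    push_cast
    rw [hx]
  rw [hg]
  have hsum2 := sum_le_sum hprod
  rw [sum_sub_distrib, sum_add_distrib, sum_const, sum_const, ← mul_sum,
    sum_powersetCard_sum (s + 2) _ hδsum, card_powersetCard, card_univ, Fintype.card_fin,
    nsmul_eq_mul, nsmul_eq_mul, mul_zero, add_zero] at hsum2
  refine le_trans ?_ hsum2
  -- Bernoulli
  obtain ⟨κ, hκ⟩ : ∃ κ : ℝ, κ = b * (2 + 4 * (q + 1)) := ⟨_, rfl⟩
  have hyA : y = b * N - κ := by rw [hy, hκ]; ring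
  have hA0 : 0 < b * N := by positivity
  have hbern : (b * N) ^ (s + 2) - ((s : ℝ) + 2) * κ * (b * N) ^ (s + 1) ≤ y ^ (s + 2) := by
    have h1 : (-2 : ℝ) ≤ - (κ / (b * N)) := by
      have : κ / (b * N) ≤ 1 := by
        rw [div_le_one hA0]
        linarith
      linarith
    have h2 := one_add_mul_le_pow h1 (s + 2)
    have h3 : y = (b * N) * (1 + - (κ / (b * N))) := by
      rw [hyA]; field_simp; ring
    rw [h3, mul_pow (b * N)]
    have h4 : (b * N) ^ (s + 2) * (1 + ((s + 2 : ℕ) : ℝ) * - (κ / (b * N)))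
        ≤ (b * N) ^ (s + 2) * (1 + - (κ / (b * N))) ^ (s + 2) :=
      mul_le_mul_of_nonneg_left h2 (by positivity)
    refine le_trans (le_of_eq ?_) h4
    push_cast
    rw [pow_succ (b * N) (s + 1)]
    field_simp
    ring
  have hch : ((q + 1).choose (s + 2) : ℝ) * ((s : ℝ) + 2) * b = q.choose (s + 1) := by
    have h6 := Nat.add_one_mul_choose_eq q (s + 1)
    have h7 : (((q + 1) * q.choose (s + 1) : ℕ) : ℝ)
        = (((q + 1).choose (s + 1 + 1) * (s + 1 + 1) : ℕ) : ℝ) := by exact_mod_cast h6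
    push_cast at h7
    rw [hb, mul_one_div, div_eq_iff hq1.ne']
    have e : (s : ℝ) + 1 + 1 = s + 2 := by ring
    rw [e] at h7
    have e2 : (q + 1).choose (s + 1 + 1) = (q + 1).choose (s + 2) := rfl
    rw [e2] at h7
    linarith
  have h8 := mul_le_mul_of_nonneg_left hbern
    (by positivity : (0 : ℝ) ≤ ((q + 1).choose (s + 2) : ℝ))
  have e1 : ((q + 1).choose (s + 2) : ℝ) * ((b * N) ^ (s + 2)
      - ((s : ℝ) + 2) * κ * (b * N) ^ (s + 1))
      = ((q + 1).choose (s + 2) : ℝ) * (b * N) ^ (s + 2)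
        - (((q + 1).choose (s + 2) : ℝ) * ((s : ℝ) + 2) * b) * (2 + 4 * (q + 1))
          * (b * N) ^ (s + 1) := by
    rw [hκ]; ring
  rw [e1, hch] at h8
  linarith

end Pool.Agent.H44
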