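import Pool.Agent.H44.Rainbow

/-!
Counting cliques by type with respect to a colouring.
-/

namespace Pool.Agent.H44

open Finset

set_option linter.unusedSectionVars false

variable {V : Type*} [Fintype V] [DecidableEq V] {r : ℕ}

/-- neighbours of `v` in `A` of the same colour -/
def innA (G : SimpleGraph V) [DecidableRel G.Adj] (c : V → Fin r) (A : Finset V) (v : V) :
    Finset V := A.filter (fun w => c w = c v ∧ G.Adj v w)

/-- non-neighbours of `v` in `A` of other colours -/
def misA (G : SimpleGraph V) [DecidableRel G.Adj] (c : V → Fin r) (A : Finset V) (v : V) :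
    Finset V := A.filter (fun w => c w ≠ c v ∧ ¬ G.Adj v w)

/-- twice the number of inside edges -/
def Isum (G : SimpleGraph V) [DecidableRel G.Adj] (c : V → Fin r) (A : Finset V) : ℕ :=
  ∑ v ∈ A, (innA G c A v).card

/-- twice the number of missing cross pairs -/
def Msum (G : SimpleGraph V) [DecidableRel G.Adj] (c : V → Fin r) (A : Finset V) : ℕ :=
  ∑ v ∈ A, (misA G c A v).card

/-- non-rainbow cliques -/
def nrc (G : SimpleGraph V) [DecidableRel G.Adj] (c : V → Fin r) (B : Finset V) (m : ℕ) :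
    Finset (Finset V) := (Kc G B m).filter (fun T => ¬ Set.InjOn c (T : Set V))

/-- rainbow non-cliques -/
def brs (G : SimpleGraph V) [DecidableRel G.Adj] (c : V → Fin r) (B : Finset V) (m : ℕ) :
    Finset (Finset V) := (rbs c B m).filter (fun T => ¬ G.IsClique (T : Set V))

variable {G : SimpleGraph V} [DecidableRel G.Adj] {c : V → Fin r}

lemma mem_innA {A : Finset V} {v w : V} :
    w ∈ innA G c A v ↔ w ∈ A ∧ c w = c v ∧ G.Adj v w := by simp [innA]

lemma mem_misA {A : Finset V} {v w : V} :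
    w ∈ misA G c A v ↔ w ∈ A ∧ c w ≠ c v ∧ ¬ G.Adj v w := by simp [misA]

lemma mem_nrc {B : Finset V} {m : ℕ} {T : Finset V} :
    T ∈ nrc G c B m ↔ T ∈ Kc G B m ∧ ¬ Set.InjOn c (T : Set V) := by simp [nrc]

lemma mem_brs {B : Finset V} {m : ℕ} {T : Finset V} :
    T ∈ brs G c B m ↔ T ∈ rbs c B m ∧ ¬ G.IsClique (T : Set V) := by simp [brs]

lemma exists_pair_of_not_injOn {T : Finset V} (h : ¬ Set.InjOn c (T : Set V)) :
    ∃ x ∈ T, ∃ y ∈ T, x ≠ y ∧ c x = c y := by
  unfold Set.InjOn at h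
  push Not at h
  obtain ⟨x, hx, y, hy, hc, hne⟩ := h
  exact ⟨x, by exact_mod_cast hx, y, by exact_mod_cast hy, hne, hc⟩

lemma exists_pair_of_not_clique {T : Finset V} (h : ¬ G.IsClique (T : Set V)) :
    ∃ x ∈ T, ∃ y ∈ T, x ≠ y ∧ ¬ G.Adj x y := by
  rw [SimpleGraph.isClique_iff, Set.Pairwise] at h
  push Not at h
  obtain ⟨x, hx, y, hy, hne, hadj⟩ := h
  exact ⟨x, by exact_mod_cast hx, y, by exact_mod_cast hy, hne, hadj⟩

/-- cover bound for pairs -/
lemma card_mul_le_of_pairs {F : Finset (Finset V)} {m : ℕ} {A : Finset V}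
    {N : V → Finset V} (hF : ∀ T ∈ F, T.card = m)
    (h : ∀ T ∈ F, ∃ x ∈ A, ∃ y ∈ N x, x ≠ y ∧ x ∈ T ∧ y ∈ T) :
    F.card * Fintype.card V ^ 2 ≤ (∑ x ∈ A, (N x).card) * Fintype.card V ^ m := by
  have h1 : F ⊆ A.biUnion (fun x => (N x).biUnion (fun y =>
      if x ≠ y then (powersetCard m (univ : Finset V)).filter (fun T => {x, y} ⊆ T) else ∅)) := by
    intro T hT
    obtain ⟨x, hx, y, hy, hne, hxT, hyT⟩ := h T hT
    rw [mem_biUnion]
    refine ⟨x, hx, ?_⟩
    rw [mem_biUnion]
    refine ⟨y, hy, ?_⟩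
    rw [if_pos hne, mem_filter, mem_powersetCard]
    refine ⟨⟨subset_univ _, hF T hT⟩, ?_⟩
    intro z hz
    rw [mem_insert, mem_singleton] at hz
    rcases hz with rfl | rfl
    · exact hxT
    · exact hyT
  have h2 : F.card ≤ ∑ x ∈ A, ∑ y ∈ N x,
      (if x ≠ y then (powersetCard m (univ : Finset V)).filter (fun T => {x, y} ⊆ T)
        else ∅).card := by
    refine (card_le_card h1).trans ?_
    refine card_biUnion_le.trans ?_
    apply sum_le_sum
    intro x _
    exact card_biUnion_le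
  calc F.card * Fintype.card V ^ 2
      ≤ (∑ x ∈ A, ∑ y ∈ N x,
      (if x ≠ y then (powersetCard m (univ : Finset V)).filter (fun T => {x, y} ⊆ T)
        else ∅).card) * Fintype.card V ^ 2 := Nat.mul_le_mul_right _ h2
    _ = ∑ x ∈ A, ∑ y ∈ N x,
      (if x ≠ y then (powersetCard m (univ : Finset V)).filter (fun T => {x, y} ⊆ T)
        else ∅).card * Fintype.card V ^ 2 := by
        rw [sum_mul]
        apply sum_congr rfl
        intro x _
        rw [sum_mul]
    _ ≤ ∑ x ∈ A, ∑ y ∈ N x, Fintype.card V ^ m := by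
        apply sum_le_sum
        intro x _
        apply sum_le_sum
        intro y _
        split_ifs with hne
        · have := card_containing ({x, y} : Finset V) m
          rwa [card_pair hne] at this
        · simp
    _ = (∑ x ∈ A, (N x).card) * Fintype.card V ^ m := by
        rw [sum_mul]
        apply sum_congr rfl
        intro x _
        rw [sum_const, smul_eq_mul]

/-- (S1) -/
lemma nrc_card_mul {A B : Finset V} (hB : B ⊆ A) (m : ℕ) :
    (nrc G c B m).card * Fintype.card V ^ 2 ≤ Isum G c A * Fintype.card V ^ m := by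
  unfold Isum
  apply card_mul_le_of_pairs (N := innA G c A)
  · intro T hT
    exact (mem_Kc.1 (mem_nrc.1 hT).1).2.2
  · intro T hT
    rw [mem_nrc, mem_Kc] at hT
    obtain ⟨x, hx, y, hy, hne, hc⟩ := exists_pair_of_not_injOn hT.2
    refine ⟨x, hB (hT.1.1 hx), y, ?_, hne, hx, hy⟩
    rw [mem_innA]
    exact ⟨hB (hT.1.1 hy), hc.symm, hT.1.2.1 (by exact_mod_cast hx) (by exact_mod_cast hy) hne⟩

/-- (S2) -/
lemma card_Kc_le_rbs_add (B : Finset V) (m : ℕ) :
    (Kc G B m).card ≤ (rbs c B m).card + (nrc G c B m).card := by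
  rw [← Finset.card_filter_add_card_filter_not (s := Kc G B m)
    (fun T : Finset V => Set.InjOn c (T : Set V))]
  apply Nat.add_le_add
  · apply card_le_card
    intro T hT
    rw [mem_filter, mem_Kc] at hT
    rw [mem_rbs]
    exact ⟨hT.1.1, hT.1.2.2, hT.2⟩
  · exact le_rfl

/-- (S6) -/
lemma card_Kc_add_brs_le (B : Finset V) (m : ℕ) :
    (Kc G B m).card + (brs G c B m).card ≤ (rbs c B m).card + (nrc G c B m).card := by
  have h1 := Finset.card_filter_add_card_filter_not (s := Kc G B m)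
    (fun T : Finset V => Set.InjOn c (T : Set V))
  have h2 := Finset.card_filter_add_card_filter_not (s := rbs c B m)
    (fun T : Finset V => G.IsClique (T : Set V))
  have h3 : ((Kc G B m).filter (fun T : Finset V => Set.InjOn c (T : Set V))).card
      ≤ ((rbs c B m).filter (fun T : Finset V => G.IsClique (T : Set V))).card := by
    apply card_le_card
    intro T hT
    rw [mem_filter, mem_Kc] at hT
    rw [mem_filter, mem_rbs]
    exact ⟨⟨hT.1.1, hT.1.2.2, hT.2⟩, hT.1.2.1⟩
  unfold brs nrc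
  omega

/-- rainbow cliques are cliques -/
lemma rbs_le_card_Kc_add (B : Finset V) (m : ℕ) :
    (rbs c B m).card ≤ (Kc G B m).card + (brs G c B m).card := by
  have h2 := Finset.card_filter_add_card_filter_not (s := rbs c B m)
    (fun T : Finset V => G.IsClique (T : Set V))
  have h3 : ((rbs c B m).filter (fun T : Finset V => G.IsClique (T : Set V))).card ≤ (Kc G B m).card := by
    apply card_le_card
    intro T hT
    rw [mem_filter, mem_rbs] at hT
    rw [mem_Kc]
    exact ⟨hT.1.1, hT.2, hT.1.2.1⟩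
  unfold brs
  omega

/-- upper bound for rainbow non-cliques -/
lemma brs_card_mul {A B : Finset V} (hB : B ⊆ A) (m : ℕ) :
    (brs G c B m).card * Fintype.card V ^ 2 ≤ Msum G c A * Fintype.card V ^ m := by
  unfold Msum
  apply card_mul_le_of_pairs (N := misA G c A)
  · intro T hT
    exact (mem_rbs.1 (mem_brs.1 hT).1).2.1
  · intro T hT
    rw [mem_brs, mem_rbs] at hT
    obtain ⟨x, hx, y, hy, hne, hadj⟩ := exists_pair_of_not_clique hT.2
    refine ⟨x, hB (hT.1.1 hx), y, ?_, hne, hx, hy⟩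
    rw [mem_misA]
    refine ⟨hB (hT.1.1 hy), ?_, hadj⟩
    intro hc
    exact hne (hT.1.2.2 (by exact_mod_cast hx) (by exact_mod_cast hy) hc.symm)

/-- ordered pairs of distinct elements of `T` with the same colour -/
def prs (c : V → Fin r) (T : Finset V) : Finset (V × V) :=
  (T ×ˢ T).filter (fun p => p.1 ≠ p.2 ∧ c p.1 = c p.2)

lemma mem_prs {T : Finset V} {p : V × V} :
    p ∈ prs c T ↔ (p.1 ∈ T ∧ p.2 ∈ T) ∧ p.1 ≠ p.2 ∧ c p.1 = c p.2 := by
  simp [prs]

lemma two_le_prs {T : Finset V} (h : ¬ Set.InjOn c (T : Set V)) : 2 ≤ (prs c T).card := by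
  obtain ⟨x, hx, y, hy, hne, hc⟩ := exists_pair_of_not_injOn h
  have h1 : ({(x, y), (y, x)} : Finset (V × V)) ⊆ prs c T := by
    intro p hp
    rw [mem_insert, mem_singleton] at hp
    rcases hp with rfl | rfl
    · rw [mem_prs]; exact ⟨⟨hx, hy⟩, hne, hc⟩
    · rw [mem_prs]; exact ⟨⟨hy, hx⟩, hne.symm, hc.symm⟩
  have h2 : ({(x, y), (y, x)} : Finset (V × V)).card = 2 := by
    rw [card_pair]
    intro h
    rw [Prod.mk.injEq] at h
    exact hne h.1
  rw [← h2]
  exact card_le_card h1

/-- (S3) -/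
lemma two_nrc_le (A : Finset V) (s : ℕ) :
    2 * (nrc G c A (s + 2)).card
      ≤ ∑ x ∈ A, ∑ y ∈ innA G c A x, (Kc G (A ∩ cn G {x, y}) s).card := by
  have h1 : 2 * (nrc G c A (s + 2)).card ≤ ∑ T ∈ nrc G c A (s + 2), (prs c T).card := by
    rw [mul_comm, ← smul_eq_mul, ← sum_const]
    apply sum_le_sum
    intro T hT
    exact two_le_prs (mem_nrc.1 hT).2
  refine h1.trans ?_
  rw [← card_sigma]
  have h2 : ∑ x ∈ A, ∑ y ∈ innA G c A x, (Kc G (A ∩ cn G {x, y}) s).card
      = (A.sigma (fun x => (innA G c A x).sigma (fun y => Kc G (A ∩ cn G {x, y}) s))).card := by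
    rw [card_sigma]
    apply sum_congr rfl
    intro x _
    rw [card_sigma]
  rw [h2]
  apply Finset.card_le_card_of_injOn
    (fun p => (⟨p.2.1, ⟨p.2.2, p.1 \ {p.2.1, p.2.2}⟩⟩ : Σ _ : V, Σ _ : V, Finset V))
  · rintro ⟨T, x, y⟩ hp
    rw [mem_coe, mem_sigma, mem_nrc, mem_Kc, mem_prs] at hp
    simp only at hp
    obtain ⟨⟨⟨hTA, hT, hTc⟩, _⟩, ⟨hx, hy⟩, hne, hc⟩ := hp
    rw [mem_coe, mem_sigma, mem_sigma]
    simp only
    have hxy : ({x, y} : Finset V) ⊆ T := by
      intro z hz
      rw [mem_insert, mem_singleton] at hz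
      rcases hz with rfl | rfl
      · exact hx
      · exact hy
    refine ⟨hTA hx, ?_, ?_⟩
    · rw [mem_innA]
      exact ⟨hTA hy, hc.symm, hT (by exact_mod_cast hx) (by exact_mod_cast hy) hne⟩
    · rw [mem_Kc]
      refine ⟨?_, isClique_mono sdiff_subset hT, ?_⟩
      · intro w hw
        rw [mem_sdiff] at hw
        rw [mem_inter]
        refine ⟨hTA hw.1, ?_⟩
        rw [mem_cn]
        intro z hz
        refine hT (by exact_mod_cast hw.1) (by exact_mod_cast hxy hz) ?_
        rintro rfl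
        exact hw.2 hz
      · rw [card_sdiff_of_subset hxy, card_pair hne, hTc]
        rfl
  · rintro ⟨T, x, y⟩ hp ⟨T', x', y'⟩ hp' heq
    rw [mem_coe, mem_sigma, mem_prs] at hp hp'
    simp only at hp hp'
    simp only [Sigma.mk.injEq, heq_eq_eq] at heq
    obtain ⟨rfl, rfl, h3⟩ := heq
    have hxy : ({x, y} : Finset V) ⊆ T := by
      intro z hz
      rw [mem_insert, mem_singleton] at hz
      rcases hz with rfl | rfl
      · exact hp.2.1.1
      · exact hp.2.1.2
    have hxy' : ({x, y} : Finset V) ⊆ T' := by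
      intro z hz
      rw [mem_insert, mem_singleton] at hz
      rcases hz with rfl | rfl
      · exact hp'.2.1.1
      · exact hp'.2.1.2
    have : T = T' := by
      rw [← union_sdiff_of_subset hxy, h3, union_sdiff_of_subset hxy']
    subst this
    rfl

end Pool.Agent.H44
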