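import Pool.Agent.H44.Avg
import Pool.Agent.H44.Types

/-!
The rough partition defined by a good clique.
-/

namespace Pool.Agent.H44

open Finset

set_option linter.unusedSectionVars false

variable {V : Type*} [Fintype V] [DecidableEq V]
variable {G : SimpleGraph V} [DecidableRel G.Adj]

theorem rough_partition {q : ℕ} {M a : ℝ} {t : Finset V} (ht : t ∈ Kc G univ (q + 1))
    (hn : 1 ≤ (Fintype.card V : ℝ)) (hPh : Ph G a t ≤ M * Fintype.card V) :
    ∃ (c : V → Fin (q + 1)) (W : Finset V), (W.card : ℝ) ≤ 2 * M ∧
      (∀ j, |((cls c (univ \ W) j).card : ℝ) - a| ≤ √(M * Fintype.card V) + M) ∧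
      (Isum G c (univ \ W) : ℝ) ≤ M * Fintype.card V ∧
      (Msum G c (univ \ W) : ℝ) ≤ M * Fintype.card V := by
  classical
  obtain ⟨n, hndef⟩ : ∃ n : ℝ, n = Fintype.card V := ⟨_, rfl⟩
  rw [← hndef] at hn hPh ⊢
  rw [mem_Kc] at ht
  obtain ⟨_, htc, htcard⟩ := ht
  -- the parts of the statistic
  have hpsi0 : ∀ x ∈ t, 0 ≤ psi G a (t.erase x) := fun x _ => psi_nonneg _ _
  have hsum0 : 0 ≤ ∑ x ∈ t, psi G a (t.erase x) := sum_nonneg hpsi0
  unfold Ph at hPh
  rw [← hndef] at hPh
  have hb0 : (0 : ℝ) ≤ (bad G t).card := by positivity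
  have hc0 : (0 : ℝ) ≤ (cn G t).card := by positivity
  have hbad : ((bad G t).card : ℝ) ≤ M := by
    have : n * (bad G t).card ≤ M * n := by
      have := mul_nonneg (by linarith : (0 : ℝ) ≤ n) hc0
      linarith
    nlinarith
  have hcn : ((cn G t).card : ℝ) ≤ M := by
    have : n * (cn G t).card ≤ M * n := by
      have := mul_nonneg (by linarith : (0 : ℝ) ≤ n) hb0
      linarith
    nlinarith
  have hpsi : ∑ x ∈ t, psi G a (t.erase x) ≤ M * n := by
    have h1 := mul_nonneg (by linarith : (0 : ℝ) ≤ n) hb0
    have h2 := mul_nonneg (by linarith : (0 : ℝ) ≤ n) hc0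
    linarith
  -- the colouring
  let e : t ≃ Fin (q + 1) := t.equivFinOfCardEq htcard
  let xj : Fin (q + 1) → V := fun j => (e.symm j).1
  have hxj : ∀ j, xj j ∈ t := fun j => (e.symm j).2
  have hxinj : ∀ i j, xj i = xj j → i = j := by
    intro i j h
    have : e.symm i = e.symm j := Subtype.ext h
    exact e.symm.injective this
  let c : V → Fin (q + 1) := fun w =>
    if h : ∃ j, miss G w t = {xj j} then h.choose else 0
  let W : Finset V := univ.filter (fun w => (miss G w t).card ≠ 1)
  have hxsurj : ∀ x ∈ t, ∃ j, xj j = x := by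
    intro x hx
    refine ⟨e ⟨x, hx⟩, ?_⟩
    show (e.symm (e ⟨x, hx⟩)).1 = x
    rw [Equiv.symm_apply_apply]
  have hcW : ∀ w, w ∉ W → miss G w t = {xj (c w)} := by
    intro w hw
    have h1 : (miss G w t).card = 1 := by
      by_contra h
      exact hw (mem_filter.2 ⟨mem_univ _, h⟩)
    obtain ⟨x, hx⟩ := card_eq_one.1 h1
    have hxt : x ∈ t := by
      have : x ∈ miss G w t := by rw [hx]; simp
      exact (mem_miss.1 this).1
    obtain ⟨j, rfl⟩ := hxsurj x hxt
    have h2 : ∃ j, miss G w t = {xj j} := ⟨j, hx⟩
    have h3 : c w = h2.choose := dif_pos h2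
    rw [h3]
    exact h2.choose_spec
  have hcol : ∀ w j, miss G w t = {xj j} → w ∉ W ∧ c w = j := by
    intro w j h
    have h1 : w ∉ W := by
      intro hw
      have := (mem_filter.1 hw).2
      rw [h, card_singleton] at this
      exact this rfl
    refine ⟨h1, ?_⟩
    have h2 := hcW w h1
    rw [h] at h2
    have h3 : xj j = xj (c w) := by
      have : xj j ∈ ({xj (c w)} : Finset V) := by rw [← h2]; simp
      exact mem_singleton.1 this
    exact (hxinj _ _ h3).symm
  have hmemcls : ∀ j w, w ∈ cls c (univ \ W) j ↔ w ∈ cn G (t.erase (xj j)) \ cn G t := by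
    intro j w
    rw [mem_cls, mem_sdiff, mem_sdiff, mem_cn_erase_iff_miss, mem_cn_iff_miss]
    constructor
    · rintro ⟨⟨_, h1⟩, rfl⟩
      have := hcW w h1
      rw [this]
      exact ⟨Subset.refl _, by simp⟩
    · rintro ⟨h1, h2⟩
      have h3 : miss G w t = {xj j} := by
        rcases subset_singleton_iff.1 h1 with h | h
        · exact absurd h h2
        · exact h
      have := hcol w j h3
      exact ⟨⟨mem_univ _, this.1⟩, this.2⟩
  have hclseq : ∀ j, cls c (univ \ W) j = cn G (t.erase (xj j)) \ cn G t := by
    intro j; ext w; exact hmemcls j w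
  have hcnsub : ∀ j, cn G t ⊆ cn G (t.erase (xj j)) := fun j => cn_anti (erase_subset _ _)
  have hsumconv : ∀ g : V → ℝ, ∑ j, g (xj j) = ∑ x ∈ t, g x := by
    intro g
    rw [← Finset.sum_coe_sort t]
    exact Fintype.sum_equiv e.symm _ _ (fun j => rfl)
  refine ⟨c, W, ?_, ?_, ?_, ?_⟩
  · have h1 : W ⊆ cn G t ∪ bad G t := by
      intro w hw
      have h2 := (mem_filter.1 hw).2
      rw [mem_union, mem_cn_iff_miss, mem_bad]
      by_cases h3 : (miss G w t).card = 0
      · left; exact card_eq_zero.1 h3
      · right; omega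
    have h2 : (W.card : ℝ) ≤ (cn G t).card + (bad G t).card := by
      exact_mod_cast (card_le_card h1).trans (card_union_le _ _)
    linarith
  · intro j
    rw [hclseq, card_sdiff_of_subset (hcnsub j), Nat.cast_sub (card_le_card (hcnsub j))]
    have h1 : (((cn G (t.erase (xj j))).card : ℝ) - a) ^ 2 ≤ M * n := by
      have h2 : psi G a (t.erase (xj j)) ≤ M * n :=
        (single_le_sum (f := fun x => psi G a (t.erase x)) hpsi0 (hxj j)).trans hpsi
      unfold psi at h2
      have h3 : (0 : ℝ) ≤ inS G (t.erase (xj j)) := by positivity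
      have h4 : (0 : ℝ) ≤ bdS G (t.erase (xj j)) := by positivity
      linarith
    have h2 : |((cn G (t.erase (xj j))).card : ℝ) - a| ≤ √(M * n) := Real.abs_le_sqrt h1
    have h3 : ((cn G (t.erase (xj j))).card : ℝ) - (cn G t).card - a
        = (((cn G (t.erase (xj j))).card : ℝ) - a) - (cn G t).card := by ring
    rw [h3]
    refine (abs_sub _ _).trans ?_
    rw [abs_of_nonneg hc0]
    linarith
  · have h1 : (Isum G c (univ \ W) : ℝ) ≤ ∑ j, (inS G (t.erase (xj j)) : ℝ) := by
      have h2 : Isum G c (univ \ W) ≤ ∑ j, inS G (t.erase (xj j)) := by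
        unfold Isum
        rw [← Finset.sum_fiberwise (univ \ W) c]
        apply sum_le_sum
        intro j _
        have h3 : ((univ \ W).filter (fun i => c i = j)) = cls c (univ \ W) j := rfl
        rw [h3, hclseq]
        unfold inS
        refine le_trans ?_ (sum_le_sum_of_subset (sdiff_subset (t := cn G t)))
        apply sum_le_sum
        intro v hv
        apply card_le_card
        intro w hw
        rw [mem_innA] at hw
        have hvj := (hmemcls j v).2 hv
        rw [mem_cls] at hvj
        have hwj : w ∈ cls c (univ \ W) j := mem_cls.2 ⟨hw.1, by rw [hw.2.1, hvj.2]⟩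
        have hwj' := (hmemcls j w).1 hwj
        rw [mem_sdiff] at hwj'
        rw [mem_cn]
        intro x hx
        rw [mem_insert] at hx
        rcases hx with rfl | hx
        · exact hw.2.2.symm
        · exact mem_cn.1 hwj'.1 x hx
      exact_mod_cast h2
    refine h1.trans ?_
    rw [hsumconv (fun x => (inS G (t.erase x) : ℝ))]
    refine le_trans ?_ hpsi
    apply sum_le_sum
    intro x _
    unfold psi
    have h3 : 0 ≤ (((cn G (t.erase x)).card : ℝ) - a) ^ 2 := sq_nonneg _
    have h4 : (0 : ℝ) ≤ bdS G (t.erase x) := by positivity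
    linarith
  · have h1 : (Msum G c (univ \ W) : ℝ) ≤ ∑ j, (bdS G (t.erase (xj j)) : ℝ) := by
      have h2 : Msum G c (univ \ W) ≤ ∑ j, bdS G (t.erase (xj j)) := by
        unfold Msum
        rw [← Finset.sum_fiberwise (univ \ W) c]
        apply sum_le_sum
        intro j _
        have h3 : ((univ \ W).filter (fun i => c i = j)) = cls c (univ \ W) j := rfl
        rw [h3, hclseq]
        unfold bdS
        refine le_trans ?_ (sum_le_sum_of_subset (sdiff_subset (t := cn G t)))
        apply sum_le_sum
        intro v hv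
        apply card_le_card
        intro w hw
        rw [mem_misA] at hw
        have hvj := (hmemcls j v).2 hv
        rw [mem_cls, mem_sdiff] at hvj
        have hwW : w ∉ W := (mem_sdiff.1 hw.1).2
        have hmw := hcW w hwW
        have hmv := hcW v hvj.1.2
        rw [mem_bad]
        have hne : v ≠ xj (c w) := by
          intro h
          -- the elements of `t` have themselves as missed set
          have h4 : v ∈ t := by rw [h]; exact hxj _
          have h5 : v ∈ miss G v t := mem_miss.2 ⟨h4, G.irrefl⟩
          rw [hmv, mem_singleton] at h5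
          rw [h5] at h
          have := hxinj _ _ h
          exact hw.2.1 this.symm
        have hsub : ({v, xj (c w)} : Finset V) ⊆ miss G w (insert v (t.erase (xj j))) := by
          intro z hz
          rw [mem_insert, mem_singleton] at hz
          rw [mem_miss, mem_insert]
          rcases hz with rfl | rfl
          · exact ⟨Or.inl rfl, fun h => hw.2.2 h.symm⟩
          · refine ⟨Or.inr ?_, ?_⟩
            · rw [mem_erase]
              refine ⟨?_, hxj _⟩
              intro h
              have := hxinj _ _ h
              exact hw.2.1 (by rw [this, hvj.2])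
            · have : xj (c w) ∈ miss G w t := by rw [hmw]; simp
              exact (mem_miss.1 this).2
        have := card_le_card hsub
        rwa [card_pair hne] at this
      exact_mod_cast h2
    refine h1.trans ?_
    rw [hsumconv (fun x => (bdS G (t.erase x) : ℝ))]
    refine le_trans ?_ hpsi
    apply sum_le_sum
    intro x _
    unfold psi
    have h3 : 0 ≤ (((cn G (t.erase x)).card : ℝ) - a) ^ 2 := sq_nonneg _
    have h4 : (0 : ℝ) ≤ inS G (t.erase x) := by positivity
    linarith

end Pool.Agent.H44
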