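import Pool.Agent.H44.Counting

/-!
Counting rainbow sets.
-/

namespace Pool.Agent.H44

open Finset

set_option linter.unusedSectionVars false

variable {V : Type*} [Fintype V] [DecidableEq V] {r : ℕ}

/-- the part of `B` of colour `j` -/
def cls (c : V → Fin r) (B : Finset V) (j : Fin r) : Finset V := B.filter (fun v => c v = j)

/-- rainbow subsets of `B` with colour set `J` -/
def rb (c : V → Fin r) (B : Finset V) (J : Finset (Fin r)) : Finset (Finset V) :=
  B.powerset.filter (fun T => T.image c = J ∧ T.card = J.card)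

variable {c : V → Fin r}

lemma mem_cls {B : Finset V} {j : Fin r} {v : V} : v ∈ cls c B j ↔ v ∈ B ∧ c v = j := by
  simp [cls]

lemma mem_rb {B : Finset V} {J : Finset (Fin r)} {T : Finset V} :
    T ∈ rb c B J ↔ T ⊆ B ∧ T.image c = J ∧ T.card = J.card := by
  simp [rb]

lemma rb_injOn {B : Finset V} {J : Finset (Fin r)} {T : Finset V} (h : T ∈ rb c B J) :
    Set.InjOn c (T : Set V) := by
  rw [mem_rb] at h
  apply Finset.card_image_iff.1
  rw [h.2.1, h.2.2]

lemma rb_color {B : Finset V} {J : Finset (Fin r)} {T : Finset V} (h : T ∈ rb c B J) {x : V}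
    (hx : x ∈ T) : c x ∈ J := by
  rw [mem_rb] at h
  rw [← h.2.1]
  exact mem_image_of_mem c hx

lemma rb_of_injOn {B : Finset V} {T : Finset V} (hT : T ⊆ B) (h : Set.InjOn c (T : Set V)) :
    T ∈ rb c B (T.image c) := by
  rw [mem_rb]
  exact ⟨hT, rfl, (Finset.card_image_of_injOn h).symm⟩

lemma rb_empty (B : Finset V) : rb c B ∅ = {∅} := by
  ext T
  rw [mem_rb, mem_singleton, card_empty, card_eq_zero]
  constructor
  · rintro ⟨_, _, h⟩; exact h
  · rintro rfl; simp

lemma insert_mem_rb {B : Finset V} {J : Finset (Fin r)} {T : Finset V} (h : T ∈ rb c B J) {x : V}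
    (hx : x ∈ B) (hc : c x ∉ J) : insert x T ∈ rb c B (insert (c x) J) := by
  have h' := h
  rw [mem_rb] at h ⊢
  refine ⟨insert_subset hx h.1, ?_, ?_⟩
  · rw [image_insert, h.2.1]
  · rw [card_insert_of_notMem, card_insert_of_notMem hc, h.2.2]
    intro hxT
    exact hc (rb_color h' hxT)

lemma erase_mem_rb {B : Finset V} {J : Finset (Fin r)} {T : Finset V} {j : Fin r} (hj : j ∉ J)
    (h : T ∈ rb c B (insert j J)) {x : V} (hx : x ∈ T) (hc : c x = j) : T.erase x ∈ rb c B J := by
  have hinj := rb_injOn h
  rw [mem_rb] at h ⊢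
  refine ⟨(erase_subset _ _).trans h.1, ?_, ?_⟩
  · ext k
    rw [mem_image]
    constructor
    · rintro ⟨y, hy, rfl⟩
      rw [mem_erase] at hy
      have h1 : c y ∈ insert j J := by rw [← h.2.1]; exact mem_image_of_mem c hy.2
      rw [mem_insert] at h1
      rcases h1 with h1 | h1
      · exfalso
        exact hy.1 (hinj (by exact_mod_cast hy.2) (by exact_mod_cast hx) (by rw [h1, hc]))
      · exact h1
    · intro hk
      have h1 : k ∈ T.image c := by rw [h.2.1]; exact mem_insert_of_mem hk
      rw [mem_image] at h1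
      obtain ⟨y, hy, rfl⟩ := h1
      refine ⟨y, ?_, rfl⟩
      rw [mem_erase]
      refine ⟨?_, hy⟩
      rintro rfl
      rw [hc] at hk
      exact hj hk
  · rw [card_erase_of_mem hx, h.2.2, card_insert_of_notMem hj]
    rfl

theorem rb_card (B : Finset V) (J : Finset (Fin r)) :
    (rb c B J).card = ∏ j ∈ J, (cls c B j).card := by
  induction J using Finset.induction_on with
  | empty => rw [rb_empty]; simp
  | insert j J hj ih =>
    rw [prod_insert hj, ← ih, ← card_product]
    symm
    refine Finset.card_bij (fun p _ => insert p.1 p.2) ?_ ?_ ?_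
    · rintro ⟨x, T⟩ hp
      simp only [mem_product, mem_cls] at hp
      obtain ⟨⟨hxB, hxj⟩, hT⟩ := hp
      subst hxj
      exact insert_mem_rb hT hxB hj
    · rintro ⟨x, T⟩ hp ⟨y, T'⟩ hp' heq
      simp only [mem_product, mem_cls] at hp hp'
      simp only at heq
      obtain ⟨⟨hxB, hxj⟩, hT⟩ := hp
      obtain ⟨⟨hyB, hyj⟩, hT'⟩ := hp'
      have hxT : x ∉ T := fun h => hj (hxj ▸ rb_color hT h)
      have hyT' : y ∉ T' := fun h => hj (hyj ▸ rb_color hT' h)
      have hxy : x = y := by
        have h1 : x ∈ insert y T' := by rw [← heq]; exact mem_insert_self _ _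
        rw [mem_insert] at h1
        rcases h1 with h1 | h1
        · exact h1
        · exact absurd (hxj ▸ rb_color hT' h1) hj
      subst hxy
      have : T = T' := by
        rw [← erase_insert hxT, heq, erase_insert hyT']
      rw [this]
    · intro T hT
      have h1 : j ∈ T.image c := by rw [(mem_rb.1 hT).2.1]; exact mem_insert_self _ _
      rw [mem_image] at h1
      obtain ⟨x, hx, hxj⟩ := h1
      refine ⟨⟨x, T.erase x⟩, ?_, ?_⟩
      · simp only [mem_product, mem_cls]
        exact ⟨⟨(mem_rb.1 hT).1 hx, hxj⟩, erase_mem_rb hj hT hx hxj⟩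
      · simp only
        exact insert_erase hx

/-- elementary symmetric sums -/
noncomputable def es {r : ℕ} (i : ℕ) (x : Fin r → ℝ) : ℝ :=
  ∑ J ∈ powersetCard i (univ : Finset (Fin r)), ∏ j ∈ J, x j

/-- all rainbow `i`-subsets of `B` -/
def rbs (c : V → Fin r) (B : Finset V) (i : ℕ) : Finset (Finset V) :=
  (powersetCard i B).filter (fun T => Set.InjOn c (T : Set V))

lemma mem_rbs {B : Finset V} {i : ℕ} {T : Finset V} :
    T ∈ rbs c B i ↔ T ⊆ B ∧ T.card = i ∧ Set.InjOn c (T : Set V) := by
  unfold rbs
  rw [mem_filter, mem_powersetCard, and_assoc]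

lemma rbs_eq_biUnion (B : Finset V) (i : ℕ) :
    rbs c B i = (powersetCard i (univ : Finset (Fin r))).biUnion (fun J => rb c B J) := by
  ext T
  rw [mem_rbs, mem_biUnion]
  constructor
  · rintro ⟨h1, h2, h3⟩
    refine ⟨T.image c, ?_, rb_of_injOn h1 h3⟩
    rw [mem_powersetCard]
    exact ⟨subset_univ _, by rw [card_image_of_injOn h3, h2]⟩
  · rintro ⟨J, hJ, hT⟩
    rw [mem_powersetCard] at hJ
    have := rb_injOn hT
    rw [mem_rb] at hT
    exact ⟨hT.1, by rw [hT.2.2, hJ.2], this⟩

lemma rbs_card (B : Finset V) (i : ℕ) :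
    ((rbs c B i).card : ℝ) = es i (fun j => ((cls c B j).card : ℝ)) := by
  rw [rbs_eq_biUnion, card_biUnion]
  · unfold es
    push_cast
    apply sum_congr rfl
    intro J _
    rw [rb_card]
    push_cast
    rfl
  · intro J _ J' _ hne
    simp only [Function.onFun]
    rw [Finset.disjoint_left]
    intro T h1 h2
    exact hne ((mem_rb.1 h1).2.1.symm.trans (mem_rb.1 h2).2.1)

lemma card_containing (F : Finset V) (m : ℕ) :
    ((powersetCard m (univ : Finset V)).filter (fun T => F ⊆ T)).card * Fintype.card V ^ F.card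
      ≤ Fintype.card V ^ m := by
  by_cases h : F.card ≤ m
  · have h1 : ((powersetCard m (univ : Finset V)).filter (fun T => F ⊆ T)).card
        ≤ (powersetCard (m - F.card) (univ : Finset V)).card := by
      apply Finset.card_le_card_of_injOn (fun T => T \ F)
      · intro T hT
        rw [mem_coe, mem_filter, mem_powersetCard] at hT
        rw [mem_coe, mem_powersetCard]
        refine ⟨subset_univ _, ?_⟩
        rw [card_sdiff_of_subset hT.2, hT.1.2]
      · intro T hT T' hT' heq
        rw [mem_coe, mem_filter] at hT hT'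
        simp only at heq
        rw [← union_sdiff_of_subset hT.2, heq, union_sdiff_of_subset hT'.2]
    have h2 : (powersetCard (m - F.card) (univ : Finset V)).card
        ≤ Fintype.card V ^ (m - F.card) := by
      rw [card_powersetCard, card_univ]
      exact Nat.choose_le_pow _ _
    calc _ ≤ Fintype.card V ^ (m - F.card) * Fintype.card V ^ F.card :=
          Nat.mul_le_mul_right _ (h1.trans h2)
      _ = Fintype.card V ^ m := by
          rw [← pow_add]; congr 1; omega
  · have h1 : (powersetCard m (univ : Finset V)).filter (fun T => F ⊆ T) = ∅ := by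
      rw [filter_eq_empty_iff]
      intro T hT hF
      rw [mem_powersetCard] at hT
      have := card_le_card hF
      omega
    rw [h1, card_empty, zero_mul]
    exact Nat.zero_le _

end Pool.Agent.H44
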