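import Pool.Agent.H44.RealCore

/-!
Consequences of the real-variable core.
-/

namespace Pool.Agent.H44

open Finset

universe u

/-- the product of the other coordinates -/
lemma prod_lower {q : ℕ} {b δ t : ℝ} {α ζ : Fin (q + 1) → ℝ} {j : Fin (q + 1)}
    (hδ0 : 0 ≤ δ) (hδ : δ ≤ b / 2) (hb0 : 0 < b) (hb1 : b ≤ 1)
    (hα1 : ∀ k, b - δ ≤ α k) (ht0 : 0 ≤ t) (ht1 : t ≤ 1)
    (h : ∀ k, k ≠ j → (1 - t) * α k ≤ ζ k) (hζj0 : 0 ≤ ζ j) (hζj1 : ζ j ≤ 1) :
    ζ j * b ^ q ≤ ∏ k, ζ k + q * (δ + t) := by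
  have hbd : 0 < b - δ := by linarith
  have h1 : (1 - t) ^ q * (b - δ) ^ q ≤ ∏ k ∈ univ.erase j, ζ k := by
    have h2 : ∏ _k ∈ univ.erase j, ((1 - t) * (b - δ)) ≤ ∏ k ∈ univ.erase j, ζ k := by
      apply prod_le_prod
      · intro _ _
        exact mul_nonneg (by linarith) hbd.le
      · intro k hk
        rw [mem_erase] at hk
        refine le_trans ?_ (h k hk.1)
        exact mul_le_mul_of_nonneg_left (hα1 k) (by linarith)
    rw [prod_const, card_erase_of_mem (mem_univ _), card_univ, Fintype.card_fin] at h2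
    rw [← mul_pow]
    exact h2
  have h3 : (1 : ℝ) ^ q - (1 - t) ^ q ≤ q * (1 - (1 - t)) :=
    pow_sub_pow_le (by linarith) (by linarith) le_rfl q
  have h4 : b ^ q - (b - δ) ^ q ≤ q * (b - (b - δ)) :=
    pow_sub_pow_le hbd.le (by linarith) hb1 q
  rw [one_pow] at h3
  have h5 : 0 ≤ (b - δ) ^ q := by positivity
  have h6 : (b - δ) ^ q ≤ 1 := pow_le_one₀ hbd.le (by linarith)
  have h7 : b ^ q - q * δ - q * t ≤ (1 - t) ^ q * (b - δ) ^ q := by
    have h8 : (1 - q * t) * (b - δ) ^ q ≤ (1 - t) ^ q * (b - δ) ^ q :=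
      mul_le_mul_of_nonneg_right (by linarith) h5
    have h9 : q * t * (b - δ) ^ q ≤ q * t * 1 := mul_le_mul_of_nonneg_left h6 (by positivity)
    have h10 : (1 - q * t) * (b - δ) ^ q = (b - δ) ^ q - q * t * (b - δ) ^ q := by ring
    linarith
  have h11 : ∏ k, ζ k = ζ j * ∏ k ∈ univ.erase j, ζ k := (mul_prod_erase univ ζ (mem_univ j)).symm
  rw [h11]
  have h12 : ζ j * (b ^ q - q * δ - q * t) ≤ ζ j * ∏ k ∈ univ.erase j, ζ k :=
    mul_le_mul_of_nonneg_left (h7.trans h1) hζj0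
  have h13 : ζ j * (q * δ + q * t) ≤ 1 * (q * δ + q * t) :=
    mul_le_mul_of_nonneg_right hζj1 (by positivity)
  have h14 : ζ j * (b ^ q - q * δ - q * t) = ζ j * b ^ q - ζ j * (q * δ + q * t) := by ring
  linarith

theorem real_final (q s : ℕ) (hs : s + 1 ≤ q) (C : ℝ) (hC : 0 ≤ C) :
    ∃ K : ℝ, 0 ≤ K ∧ ∀ (W : Type u) (Z : Finset W) (ρ δ θ ι μ x y w X : ℝ)
      (α : Fin (q + 1) → ℝ) (ζ : W → Fin (q + 1) → ℝ) (jj kk : W → Fin (q + 1)),
      CoreHyp q s C Z ρ δ θ ι μ x y w α ζ → (∀ z, kk z ≠ jj z) →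
      (∀ z ∈ Z, ∀ k, ζ z (jj z) / α (jj z) ≤ ζ z k / α k) →
      (∀ z ∈ Z, ∀ k, k ≠ jj z → ζ z (kk z) / α (kk z) ≤ ζ z k / α k) →
      X = θ + (δ + ρ) * (1 + w) ^ 2 → X ≤ 1 →
      (μ ≤ K * √X ∧ (∑ z ∈ Z, ∑ k ∈ univ.erase (jj z), (α k - ζ z k) ≤ K * √X) ∧
        ι + 2 * ∑ z ∈ Z, ζ z (jj z) ≤ 2 * ((q : ℝ) + 3) * (1 / ((q : ℝ) + 1)) + K * √X ∧
        ρ * w ^ 2 ≤ √X ∧ δ ≤ √X) := by
  obtain ⟨K, hK0, hcore⟩ := real_core.{u} q s hs C hC
  have hq1 : (0 : ℝ) < (q : ℝ) + 1 := by positivity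
  obtain ⟨b, hb⟩ : ∃ b : ℝ, b = 1 / ((q : ℝ) + 1) := ⟨_, rfl⟩
  have hb0 : 0 < b := by rw [hb]; positivity
  have hb1 : b ≤ 1 := by
    rw [hb, div_le_one hq1]
    have : (0 : ℝ) ≤ q := by positivity
    linarith
  obtain ⟨c1, hc1⟩ : ∃ c1 : ℝ, c1 = (b / 2) ^ s / (s + 2) ^ 2 := ⟨_, rfl⟩
  obtain ⟨c2, hc2⟩ : ∃ c2 : ℝ, c2 = b ^ (s + 1) := ⟨_, rfl⟩
  have hc10 : 0 < c1 := by rw [hc1]; positivity
  have hc20 : 0 < c2 := by rw [hc2]; positivity
  obtain ⟨K3, hK3⟩ : ∃ K3 : ℝ, K3 = K / c1 + K / c2 := ⟨_, rfl⟩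
  have hK30 : 0 ≤ K3 := by rw [hK3]; positivity
  -- error constant of LR
  obtain ⟨K6, hK6⟩ : ∃ K6 : ℝ, K6 = C + C * C / 2 + C + C + C / 2 * q := ⟨_, rfl⟩
  have hK60 : 0 ≤ K6 := by rw [hK6]; positivity
  obtain ⟨K4, hK4⟩ : ∃ K4 : ℝ, K4 = ((q : ℝ) + 3) + K6 := ⟨_, rfl⟩
  have hK40 : 0 ≤ K4 := by rw [hK4]; positivity
  obtain ⟨K5, hK5⟩ : ∃ K5 : ℝ, K5 = K4 / ((b / 4) ^ (q + 1)) := ⟨_, rfl⟩
  have hK50 : 0 ≤ K5 := by rw [hK5]; positivity
  obtain ⟨KY, hKY⟩ : ∃ KY : ℝ, KY = 2 * K3 + K5 * √K3 := ⟨_, rfl⟩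
  have hKY0 : 0 ≤ KY := by rw [hKY]; positivity
  refine ⟨K3 + q * KY + 2 * ((1 / b) ^ q * (K6 + q * (1 + KY))), by positivity, ?_⟩
  intro W Z ρ δ θ ι μ x y w X α ζ jj kk h hjk hmin1 hmin2 hX hX1
  have hcore' := hcore W Z ρ δ θ ι μ x y w α ζ jj kk h (fun z => (hjk z).symm)
  have hLR := h.LR
  have hδ1 := h.hδ1
  have hα1 := h.hα1
  have hα2 := h.hα2
  rw [← hX] at hcore'
  rw [← hb] at hcore' hLR hδ1 hα1 hα2 ⊢
  rw [← hc1, ← hc2] at hcore'
  have hρ := h.hρ0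
  have hδ0 := h.hδ0
  have hι0 := h.hι0
  have hμ0 := h.hμ0
  have hθ0 := h.hθ0
  have hbd : 0 < b - δ := by linarith
  have hw0 : 0 ≤ w := by rw [h.hw]; positivity
  have hαpos : ∀ k, 0 < α k := fun k => lt_of_lt_of_le hbd (hα1 k)
  have hαle : ∀ k, α k ≤ 1 := by
    intro k
    have h1 := hα2 k
    have hb2 : b ≤ 1 / 2 := by
      rw [hb, div_le_div_iff₀ hq1 (by norm_num)]
      have : ((1 : ℕ) : ℝ) ≤ q := by exact_mod_cast (by omega : 1 ≤ q)
      push_cast at this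
      linarith
    linarith
  -- X bounds
  have hexp : (1 + w) ^ 2 = 1 + 2 * w + w ^ 2 := by ring
  have hwsq : 0 ≤ w ^ 2 := sq_nonneg w
  have hw1 : 1 ≤ (1 + w) ^ 2 := by linarith
  have hww : w ≤ (1 + w) ^ 2 := by linarith
  have hww2 : w ^ 2 ≤ (1 + w) ^ 2 := by linarith
  have hX0 : 0 ≤ X := by rw [hX]; positivity
  have hmul : ∀ t : ℝ, 0 ≤ t → t ≤ (1 + w) ^ 2 → ρ * t ≤ X ∧ δ * t ≤ X := by
    intro t ht0 ht
    have h1 : ρ * t ≤ ρ * (1 + w) ^ 2 := mul_le_mul_of_nonneg_left ht hρ.le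
    have h2 : δ * t ≤ δ * (1 + w) ^ 2 := mul_le_mul_of_nonneg_left ht hδ0
    have h3 : 0 ≤ ρ * (1 + w) ^ 2 := by positivity
    have h4 : 0 ≤ δ * (1 + w) ^ 2 := by positivity
    rw [hX]
    constructor <;> linarith
  have x1 : ρ ≤ X := by have := (hmul 1 zero_le_one hw1).1; linarith
  have x2 : δ ≤ X := by have := (hmul 1 zero_le_one hw1).2; linarith
  have x3 : θ ≤ X := by
    rw [hX]
    have : 0 ≤ (δ + ρ) * (1 + w) ^ 2 := by positivity
    linarith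
  have x4 : ρ * w ^ 2 ≤ X := (hmul _ (by positivity) hww2).1
  have x5 : δ * w ≤ X := (hmul _ hw0 hww).2
  have x6 : ρ * w ≤ X := (hmul _ hw0 hww).1
  obtain ⟨R, hR⟩ : ∃ R : ℝ, R = √X := ⟨_, rfl⟩
  rw [← hR]
  have hR0 : 0 ≤ R := by rw [hR]; exact Real.sqrt_nonneg _
  have hRsq : R * R = X := by rw [hR]; exact Real.mul_self_sqrt hX0
  have hR1 : R ≤ 1 := by rw [hR]; exact Real.sqrt_le_one.2 hX1
  have hXR : X ≤ R := by
    rw [← hRsq]
    calc R * R ≤ 1 * R := mul_le_mul_of_nonneg_right hR1 hR0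
      _ = R := one_mul R
  -- the numbers t, u, P
  have hp0 : ∀ z ∈ Z, ∀ k, 0 ≤ ζ z k / α k := fun z hz k =>
    div_nonneg (h.hζ0 z hz k) (hαpos k).le
  have hp1 : ∀ z ∈ Z, ∀ k, ζ z k / α k ≤ 1 := fun z hz k =>
    (div_le_one (hαpos k)).2 (h.hζ1 z hz k)
  obtain ⟨U, hU⟩ : ∃ U : W → ℝ, U = fun z => 1 - ζ z (kk z) / α (kk z) := ⟨_, rfl⟩
  obtain ⟨T, hT⟩ : ∃ T : W → ℝ, T = fun z => 1 - ζ z (jj z) / α (jj z) := ⟨_, rfl⟩
  have hU0 : ∀ z ∈ Z, 0 ≤ U z := by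
    intro z hz
    rw [hU]
    have := hp1 z hz (kk z)
    simp only
    linarith
  have hU1 : ∀ z ∈ Z, U z ≤ 1 := by
    intro z hz
    rw [hU]
    have := hp0 z hz (kk z)
    simp only
    linarith
  have hUT : ∀ z ∈ Z, U z ≤ T z := by
    intro z hz
    rw [hU, hT]
    have := hmin1 z hz (kk z)
    simp only
    linarith
  have hPsum : ∑ z ∈ Z, T z * U z ≤ K3 * X := by
    have h1 : c2 * ∑ z ∈ Z, T z * U z ≤ K * X := by
      have h2 : ∑ z ∈ Z, T z * U z = ∑ z ∈ Z, (1 - ζ z (jj z) / α (jj z))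
          * (1 - ζ z (kk z) / α (kk z)) := by
        rw [hT, hU]
      rw [h2]
      have := mul_nonneg hc10.le hμ0
      linarith
    have h3 : ∑ z ∈ Z, T z * U z ≤ K / c2 * X := by
      rw [div_mul_eq_mul_div, le_div_iff₀ hc20]
      linarith
    refine h3.trans ?_
    apply mul_le_mul_of_nonneg_right _ hX0
    rw [hK3]
    have : 0 ≤ K / c1 := by positivity
    linarith
  have hPz0 : ∀ z ∈ Z, 0 ≤ T z * U z := fun z hz =>
    mul_nonneg ((hU0 z hz).trans (hUT z hz)) (hU0 z hz)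
  have hμK : μ ≤ K3 * X := by
    have h1 : c1 * μ ≤ K * X := by
      have h2 : 0 ≤ c2 * ∑ z ∈ Z, (1 - ζ z (jj z) / α (jj z))
          * (1 - ζ z (kk z) / α (kk z)) := by
        apply mul_nonneg hc20.le
        apply sum_nonneg
        intro z hz
        have := hPz0 z hz
        rw [hT, hU] at this
        exact this
      linarith
    have h3 : μ ≤ K / c1 * X := by
      rw [div_mul_eq_mul_div, le_div_iff₀ hc10]
      linarith
    refine h3.trans ?_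
    apply mul_le_mul_of_nonneg_right _ hX0
    rw [hK3]
    have : 0 ≤ K / c2 := by positivity
    linarith
  -- LR error
  have hE : C * ρ + ρ * ι * μ / 2 + θ * μ + ρ * w * μ + ι / 2 * (q * δ) ≤ K6 * X := by
    have a1 : C * ρ ≤ C * X := mul_le_mul_of_nonneg_left x1 hC
    have a2 : ρ * ι * μ ≤ X * C * C :=
      mul_le_mul (mul_le_mul x1 h.hι1 hι0 hX0) h.hμ1 hμ0 (by positivity)
    have a3 : θ * μ ≤ X * C := mul_le_mul x3 h.hμ1 hμ0 hX0
    have a4 : ρ * w * μ ≤ X * C := mul_le_mul x6 h.hμ1 hμ0 hX0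
    have a5 : ι / 2 * (q * δ) ≤ C / 2 * (q * X) := by
      apply mul_le_mul (by linarith [h.hι1]) _ (by positivity) (by positivity)
      exact mul_le_mul_of_nonneg_left x2 (by positivity)
    have e : K6 * X = C * X + X * C * C / 2 + X * C + X * C + C / 2 * (q * X) := by
      rw [hK6]; ring
    rw [e]
    linarith
  have hprod0 : ∀ z ∈ Z, 0 ≤ ∏ k, ζ z k := fun z hz => prod_nonneg (fun k _ => h.hζ0 z hz k)
  have hLR2 : ι / 2 * b ^ q + ∑ z ∈ Z, ∏ j, ζ z j ≤ ((q : ℝ) + 3) * b ^ (q + 1) + K6 * X := by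
    linarith
  have hprodsum : ∑ z ∈ Z, ∏ j, ζ z j ≤ K4 := by
    have h1 : b ^ (q + 1) ≤ 1 := pow_le_one₀ hb0.le hb1
    have h2 : ((q : ℝ) + 3) * b ^ (q + 1) ≤ ((q : ℝ) + 3) * 1 :=
      mul_le_mul_of_nonneg_left h1 (by positivity)
    have h3 : K6 * X ≤ K6 * 1 := mul_le_mul_of_nonneg_left hX1 hK60
    have h4 : 0 ≤ ι / 2 * b ^ q := by positivity
    rw [hK4]
    linarith
  -- vertices of type H
  classical
  obtain ⟨H, hH⟩ : ∃ H : Finset W, H = Z.filter (fun z => T z < 1 / 2) := ⟨_, rfl⟩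
  have hHcard : (H.card : ℝ) ≤ K5 := by
    have h1 : ∀ z ∈ H, (b / 4) ^ (q + 1) ≤ ∏ j, ζ z j := by
      intro z hz
      rw [hH, mem_filter] at hz
      have h2 : ∏ _j : Fin (q + 1), (b / 4) ≤ ∏ j, ζ z j := by
        apply prod_le_prod
        · intro _ _; positivity
        · intro j _
          have h3 := hmin1 z hz.1 j
          have h4 := hz.2
          rw [hT] at h4
          simp only at h4
          have h5 : 1 / 2 < ζ z j / α j := by linarith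
          rw [lt_div_iff₀ (hαpos j)] at h5
          have h6 := hα1 j
          linarith
      rwa [prod_const, card_univ, Fintype.card_fin] at h2
    have h7 : (H.card : ℝ) * (b / 4) ^ (q + 1) ≤ K4 := by
      calc (H.card : ℝ) * (b / 4) ^ (q + 1) = ∑ _z ∈ H, (b / 4) ^ (q + 1) := by
            rw [sum_const, nsmul_eq_mul]
        _ ≤ ∑ z ∈ H, ∏ j, ζ z j := sum_le_sum h1
        _ ≤ ∑ z ∈ Z, ∏ j, ζ z j := by
            apply sum_le_sum_of_subset_of_nonneg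
            · rw [hH]; exact filter_subset _ _
            · intro z hz _; exact hprod0 z hz
        _ ≤ K4 := hprodsum
    rw [hK5, le_div_iff₀ (by positivity)]
    exact h7
  -- sum of U
  have hUH : ∀ z ∈ H, U z ≤ √K3 * R := by
    intro z hz
    rw [hH, mem_filter] at hz
    have h1 : U z * U z ≤ T z * U z := mul_le_mul_of_nonneg_right (hUT z hz.1) (hU0 z hz.1)
    have h2 : T z * U z ≤ K3 * X :=
      (single_le_sum (f := fun z => T z * U z) hPz0 hz.1).trans hPsum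
    have h3 : U z ^ 2 ≤ K3 * X := by rw [sq]; exact h1.trans h2
    have h4 := Real.le_sqrt_of_sq_le h3
    rw [Real.sqrt_mul hK30, ← hR] at h4
    exact h4
  have hUsum : ∑ z ∈ Z, U z ≤ KY * R := by
    have h1 : ∑ z ∈ Z, U z = ∑ z ∈ H, U z + ∑ z ∈ Z.filter (fun z => ¬ T z < 1 / 2), U z := by
      rw [hH, sum_filter_add_sum_filter_not]
    have h2 : ∑ z ∈ H, U z ≤ K5 * (√K3 * R) := by
      calc ∑ z ∈ H, U z ≤ ∑ _z ∈ H, √K3 * R := sum_le_sum hUH
        _ = H.card * (√K3 * R) := by rw [sum_const, nsmul_eq_mul]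
        _ ≤ K5 * (√K3 * R) := mul_le_mul_of_nonneg_right hHcard (by positivity)
    have h3 : ∑ z ∈ Z.filter (fun z => ¬ T z < 1 / 2), U z ≤ 2 * (K3 * X) := by
      have h4 : ∑ z ∈ Z.filter (fun z => ¬ T z < 1 / 2), U z
          ≤ ∑ z ∈ Z.filter (fun z => ¬ T z < 1 / 2), 2 * (T z * U z) := by
        apply sum_le_sum
        intro z hz
        rw [mem_filter, not_lt] at hz
        have h5 : 1 / 2 * U z ≤ T z * U z := mul_le_mul_of_nonneg_right hz.2 (hU0 z hz.1)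
        linarith
      refine h4.trans ?_
      rw [← mul_sum]
      apply mul_le_mul_of_nonneg_left _ (by norm_num)
      refine le_trans ?_ hPsum
      apply sum_le_sum_of_subset_of_nonneg (filter_subset _ _)
      intro z hz _
      exact hPz0 z hz
    have h6 : K3 * X ≤ K3 * R := mul_le_mul_of_nonneg_left hXR hK30
    rw [h1, hKY]
    have e : (2 * K3 + K5 * √K3) * R = K5 * (√K3 * R) + 2 * (K3 * R) := by ring
    rw [e]
    linarith
  have hUsum0 : 0 ≤ ∑ z ∈ Z, U z := sum_nonneg hU0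
  -- missing pairs at exceptional vertices
  have hUk : ∀ z ∈ Z, ∀ k, k ≠ jj z → (1 - U z) * α k ≤ ζ z k := by
    intro z hz k hk
    have h1 := hmin2 z hz k hk
    rw [hU]
    simp only
    rw [sub_sub_cancel]
    rw [le_div_iff₀ (hαpos k)] at h1
    exact h1
  have hmis : ∑ z ∈ Z, ∑ k ∈ univ.erase (jj z), (α k - ζ z k) ≤ q * (KY * R) := by
    have h1 : ∀ z ∈ Z, ∑ k ∈ univ.erase (jj z), (α k - ζ z k) ≤ q * U z := by
      intro z hz
      have h2 : ∑ k ∈ univ.erase (jj z), (α k - ζ z k) ≤ ∑ _k ∈ univ.erase (jj z), U z := by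
        apply sum_le_sum
        intro k hk
        rw [mem_erase] at hk
        have h3 := hUk z hz k hk.1
        have h4 : U z * α k ≤ U z * 1 := mul_le_mul_of_nonneg_left (hαle k) (hU0 z hz)
        linarith
      rw [sum_const, card_erase_of_mem (mem_univ _), card_univ, Fintype.card_fin,
        nsmul_eq_mul] at h2
      exact h2
    refine (sum_le_sum h1).trans ?_
    rw [← mul_sum]
    exact mul_le_mul_of_nonneg_left hUsum (by positivity)
  -- inside degrees of the exceptional vertices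
  have hins : b ^ q * ∑ z ∈ Z, ζ z (jj z) ≤ ∑ z ∈ Z, ∏ j, ζ z j + q * (X + KY * R) := by
    have h1 : ∀ z ∈ Z, ζ z (jj z) * b ^ q ≤ ∏ k, ζ z k + q * (δ + U z) := by
      intro z hz
      apply prod_lower hδ0 hδ1 hb0 hb1 hα1 (hU0 z hz) (hU1 z hz) (hUk z hz)
      · exact h.hζ0 z hz _
      · exact (h.hζ1 z hz _).trans (hαle _)
    have h2 := sum_le_sum h1
    rw [← sum_mul, sum_add_distrib, ← mul_sum, sum_add_distrib, sum_const, nsmul_eq_mul,
      ← h.hw] at h2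
    have h3 : (q : ℝ) * (w * δ + ∑ z ∈ Z, U z) ≤ q * (X + KY * R) := by
      apply mul_le_mul_of_nonneg_left _ (by positivity)
      linarith
    linarith
  have hfin : b ^ q * (ι + 2 * ∑ z ∈ Z, ζ z (jj z))
      ≤ 2 * (((q : ℝ) + 3) * b ^ (q + 1)) + 2 * ((K6 + q * (1 + KY)) * R) := by
    have h1 : K6 * X ≤ K6 * R := mul_le_mul_of_nonneg_left hXR hK60
    have h2 : (q : ℝ) * (X + KY * R) ≤ q * (R + KY * R) := by
      apply mul_le_mul_of_nonneg_left _ (by positivity)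
      linarith
    have e : (K6 + q * (1 + KY)) * R = K6 * R + q * (R + KY * R) := by ring
    rw [e]
    linarith
  have hfin2 : ι + 2 * ∑ z ∈ Z, ζ z (jj z) ≤ 2 * ((q : ℝ) + 3) * b
      + 2 * ((1 / b) ^ q * (K6 + q * (1 + KY))) * R := by
    have hbq : 0 < b ^ q := by positivity
    apply le_of_mul_le_mul_left _ hbq
    refine hfin.trans (le_of_eq ?_)
    have e1 : b ^ q * (1 / b) ^ q = 1 := by
      rw [← mul_pow, mul_one_div_cancel hb0.ne', one_pow]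
    have e2 : b ^ q * (2 * ((q : ℝ) + 3) * b + 2 * ((1 / b) ^ q * (K6 + q * (1 + KY))) * R)
        = 2 * (((q : ℝ) + 3) * (b ^ q * b)) + 2 * ((b ^ q * (1 / b) ^ q)
          * (K6 + q * (1 + KY)) * R) := by ring
    rw [e2, e1, pow_succ]
    ring
  have hq0 : (0 : ℝ) ≤ q * KY := by positivity
  have hlast : 0 ≤ 2 * ((1 / b) ^ q * (K6 + q * (1 + KY))) := by positivity
  obtain ⟨KL, hKL⟩ : ∃ KL : ℝ, KL = 2 * ((1 / b) ^ q * (K6 + q * (1 + KY))) := ⟨_, rfl⟩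
  rw [← hKL] at hlast hfin2 ⊢
  have r1 : 0 ≤ K3 * R := by positivity
  have r2 : 0 ≤ q * KY * R := by positivity
  have r3 : 0 ≤ KL * R := by positivity
  have eK : (K3 + q * KY + KL) * R = K3 * R + q * KY * R + KL * R := by ring
  refine ⟨?_, ?_, ?_, x4.trans hXR, x2.trans hXR⟩
  · rw [eK]
    have := mul_le_mul_of_nonneg_left hXR hK30
    linarith
  · rw [eK]
    linarith
  · rw [eK]
    linarith

end Pool.Agent.H44
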