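import Pool.Agent.H44.Split
import Pool.Agent.H44.RealFinal

/-!
Refinement of the rough partition.
-/

namespace Pool.Agent.H44

open Finset

set_option linter.unusedSectionVars false

universe u

lemma cls_mono {V : Type*} [Fintype V] [DecidableEq V] {q : ℕ} {c : V → Fin (q + 1)}
    {A B : Finset V} (h : A ⊆ B) (j : Fin (q + 1)) : cls c A j ⊆ cls c B j := by
  intro w hw
  rw [mem_cls] at *
  exact ⟨h hw.1, hw.2⟩

lemma innA_mono {V : Type*} [Fintype V] [DecidableEq V] {G : SimpleGraph V} [DecidableRel G.Adj]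
    {q : ℕ} {c : V → Fin (q + 1)}
    {A B : Finset V} (h : A ⊆ B) (v : V) : innA G c A v ⊆ innA G c B v := by
  intro w hw
  rw [mem_innA] at *
  exact ⟨h hw.1, hw.2⟩

lemma misA_mono {V : Type*} [Fintype V] [DecidableEq V] {G : SimpleGraph V} [DecidableRel G.Adj]
    {q : ℕ} {c : V → Fin (q + 1)}
    {A B : Finset V} (h : A ⊆ B) (v : V) : misA G c A v ⊆ misA G c B v := by
  intro w hw
  rw [mem_misA] at *
  exact ⟨h hw.1, hw.2⟩

lemma Isum_mono {V : Type*} [Fintype V] [DecidableEq V] {G : SimpleGraph V} [DecidableRel G.Adj]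
    {q : ℕ} {c : V → Fin (q + 1)}
    {A B : Finset V} (h : A ⊆ B) : Isum G c A ≤ Isum G c B := by
  unfold Isum
  refine (sum_le_sum (fun v _ => card_le_card (innA_mono h v))).trans ?_
  exact sum_le_sum_of_subset h

lemma Msum_mono {V : Type*} [Fintype V] [DecidableEq V] {G : SimpleGraph V} [DecidableRel G.Adj]
    {q : ℕ} {c : V → Fin (q + 1)}
    {A B : Finset V} (h : A ⊆ B) : Msum G c A ≤ Msum G c B := by
  unfold Msum
  refine (sum_le_sum (fun v _ => card_le_card (misA_mono h v))).trans ?_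
  exact sum_le_sum_of_subset h

lemma sum_cls {V : Type*} [Fintype V] [DecidableEq V] {q : ℕ} (c : V → Fin (q + 1))
    (A : Finset V) : ∑ j, (cls c A j).card = A.card := by
  unfold cls
  exact (Finset.card_eq_sum_card_fiberwise (f := c) (s := A) (t := univ)
    (fun _ _ => mem_coe.2 (mem_univ _))).symm

theorem refine_partition (q s : ℕ) (hs : s + 1 ≤ q) (M C ε : ℝ) (hM : 0 ≤ M) (hC : 0 ≤ C)
    (hε : 0 < ε) :
    ∃ η : ℝ, 0 < η ∧ η ≤ 1 ∧
      ∃ N0 : ℝ, ∀ (V : Type u) [Fintype V] [DecidableEq V] (G : SimpleGraph V) [DecidableRel G.Adj]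
      (N b : ℝ) (c0 : V → Fin (q + 1)) (W : Finset V),
      N = Fintype.card V → b = 1 / ((q : ℝ) + 1) → N0 ≤ N →
      (W.card : ℝ) ≤ 2 * M →
      (∀ j, |((cls c0 (univ \ W) j).card : ℝ) - N / ((q : ℝ) + 1)| ≤ √(M * N) + M) →
      (Isum G c0 (univ \ W) : ℝ) ≤ M * N → (Msum G c0 (univ \ W) : ℝ) ≤ M * N →
      ((Kc G univ (q + 2)).card : ℝ) ≤ ((q : ℝ) + 3) * (b * N) ^ (q + 1) + C * N ^ q →
      (q + 1).choose (s + 2) * (b * N) ^ (s + 2) + ((q : ℝ) + 3) * q.choose s * (b * N) ^ (s + 1)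
        - C * N ^ s - η * N ^ (s + 1) ≤ ((Kc G univ (s + 2)).card : ℝ) →
      ∃ c : V → Fin (q + 1), (Msum G c univ : ℝ) ≤ ε * N ∧
        (Isum G c univ : ℝ) ≤ (2 * ((q : ℝ) + 3) * b + ε) * N ∧
        ∀ j, (b - ε) * N ≤ ((cls c univ j).card : ℝ) := by
  obtain ⟨K, hK0, hfin⟩ := real_final.{u} q s hs (M + C) (by positivity)
  have hq1 : (0 : ℝ) < (q : ℝ) + 1 := by positivity
  obtain ⟨b, hb⟩ : ∃ b : ℝ, b = 1 / ((q : ℝ) + 1) := ⟨_, rfl⟩
  have hb0 : 0 < b := by rw [hb]; positivity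
  have hb2 : b ≤ 1 / 2 := by
    rw [hb, div_le_div_iff₀ hq1 (by norm_num)]
    have : ((1 : ℕ) : ℝ) ≤ q := by exact_mod_cast (by omega : 1 ≤ q)
    push_cast at this
    linarith
  obtain ⟨θ, hθ⟩ : ∃ θ : ℝ, θ = min (1 / 2) (ε ^ 2 / (2 * (3 * K + 1) ^ 2)) := ⟨_, rfl⟩
  have hθ0 : 0 < θ := by
    rw [hθ]
    apply lt_min (by norm_num) (by positivity)
  have hθ1 : θ ≤ 1 / 2 := by rw [hθ]; exact min_le_left _ _
  have hθ2 : (3 * K + 1) * √(2 * θ) ≤ ε := by
    have h1 : 2 * θ ≤ (ε / (3 * K + 1)) ^ 2 := by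
      have h2 : θ ≤ ε ^ 2 / (2 * (3 * K + 1) ^ 2) := by rw [hθ]; exact min_le_right _ _
      have h3 : (ε / (3 * K + 1)) ^ 2 = 2 * (ε ^ 2 / (2 * (3 * K + 1) ^ 2)) := by
        field_simp
      rw [h3]
      linarith
    have h4 : √(2 * θ) ≤ ε / (3 * K + 1) := by
      rw [← Real.sqrt_sq (by positivity : 0 ≤ ε / (3 * K + 1))]
      exact Real.sqrt_le_sqrt h1
    rw [le_div_iff₀ (by positivity)] at h4
    linarith
  obtain ⟨Kz, hKz⟩ : ∃ Kz : ℝ, Kz = 2 * M + M / θ := ⟨_, rfl⟩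
  have hKz0 : 0 ≤ Kz := by rw [hKz]; positivity
  obtain ⟨E, hE⟩ : ∃ E : ℝ, E = √M + M + Kz + 1 := ⟨_, rfl⟩
  have hE0 : 0 < E := by rw [hE]; positivity
  obtain ⟨D, hD⟩ : ∃ D : ℝ, D = E * (1 + Kz) ^ 2 := ⟨_, rfl⟩
  have hD0 : 0 < D := by rw [hD]; positivity
  have hED : E ≤ D := by
    rw [hD]
    have : 1 ≤ (1 + Kz) ^ 2 := by
      have h1 : (1 + Kz) ^ 2 = 1 + 2 * Kz + Kz ^ 2 := by ring
      have h2 := sq_nonneg Kz
      linarith
    calc E = E * 1 := (mul_one E).symm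
      _ ≤ E * (1 + Kz) ^ 2 := mul_le_mul_of_nonneg_left this hE0.le
  obtain ⟨τ, hτ⟩ : ∃ τ : ℝ, τ = min θ (b / 2) := ⟨_, rfl⟩
  have hτ0 : 0 < τ := by rw [hτ]; exact lt_min hθ0 (by linarith)
  have hτθ : τ ≤ θ := by rw [hτ]; exact min_le_left _ _
  have hτb : τ ≤ b / 2 := by rw [hτ]; exact min_le_right _ _
  refine ⟨θ, hθ0, by linarith, 1 + (D / τ) ^ 2, ?_⟩
  intro V _ _ G _ N b' c0 W hN hb' hN0 hW hcls hI hMs hR hT
  rw [← hb] at hb'
  have hbb : b = b' := hb'.symm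
  subst hbb
  have hN1 : 1 ≤ N := by
    have : 0 ≤ (D / τ) ^ 2 := by positivity
    linarith
  have hNpos : 0 < N := by linarith
  obtain ⟨S, hS⟩ : ∃ S : ℝ, S = √N := ⟨_, rfl⟩
  have hSS : S * S = N := by rw [hS]; exact Real.mul_self_sqrt hNpos.le
  have hS1 : 1 ≤ S := by rw [hS]; exact Real.one_le_sqrt.2 hN1
  have hSpos : 0 < S := by linarith
  have hSD : D / S ≤ τ := by
    have h1 : D / τ ≤ S := by
      rw [hS]
      apply Real.le_sqrt_of_sq_le
      linarith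
    rw [div_le_iff₀ hτ0] at h1
    rw [div_le_iff₀ hSpos]
    linarith
  -- exceptional set
  obtain ⟨H, hH⟩ : ∃ H : Finset V, H = (univ \ W).filter
      (fun v => θ * N < ((innA G c0 (univ \ W) v).card : ℝ)) := ⟨_, rfl⟩
  have hHcard : (H.card : ℝ) ≤ M / θ := by
    have h1 : (H.card : ℝ) * (θ * N) ≤ M * N := by
      calc (H.card : ℝ) * (θ * N) = ∑ _v ∈ H, θ * N := by rw [sum_const, nsmul_eq_mul]
        _ ≤ ∑ v ∈ H, ((innA G c0 (univ \ W) v).card : ℝ) := by
            apply sum_le_sum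
            intro v hv
            rw [hH, mem_filter] at hv
            exact hv.2.le
        _ ≤ ∑ v ∈ univ \ W, ((innA G c0 (univ \ W) v).card : ℝ) := by
            apply sum_le_sum_of_subset_of_nonneg
            · rw [hH]; exact filter_subset _ _
            · intro _ _ _; positivity
        _ ≤ M * N := by
            refine le_trans (le_of_eq ?_) hI
            unfold Isum
            push_cast
            rfl
    rw [le_div_iff₀ hθ0]
    have h2 : ((H.card : ℝ) * θ) * N ≤ M * N := by linarith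
    exact le_of_mul_le_mul_right h2 hNpos
  obtain ⟨Z, hZ⟩ : ∃ Z : Finset V, Z = W ∪ H := ⟨_, rfl⟩
  obtain ⟨w, hw⟩ : ∃ w : ℝ, w = Z.card := ⟨_, rfl⟩
  have hw0 : 0 ≤ w := by rw [hw]; positivity
  have hwKz : w ≤ Kz := by
    have h1 : (Z.card : ℝ) ≤ W.card + H.card := by
      rw [hZ]; exact_mod_cast card_union_le _ _
    rw [hw, hKz]
    linarith
  obtain ⟨A, hA⟩ : ∃ A : Finset V, A = univ \ Z := ⟨_, rfl⟩
  have hAW : A ⊆ univ \ W := by
    rw [hA, hZ]
    exact sdiff_subset_sdiff (Subset.refl _) subset_union_left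
  have hin : ∀ x ∈ A, ((innA G c0 A x).card : ℝ) ≤ θ * N := by
    intro x hx
    have h1 : x ∉ H := by
      intro hxH
      rw [hA, mem_sdiff] at hx
      exact hx.2 (by rw [hZ]; exact mem_union_right _ hxH)
    have h2 : ((innA G c0 (univ \ W) x).card : ℝ) ≤ θ * N := by
      by_contra hcon
      push Not at hcon
      apply h1
      rw [hH, mem_filter]
      exact ⟨hAW hx, hcon⟩
    refine le_trans ?_ h2
    exact_mod_cast card_le_card (innA_mono hAW x)
  -- parameters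
  obtain ⟨ρ, hρ⟩ : ∃ ρ : ℝ, ρ = 1 / N := ⟨_, rfl⟩
  have hρ0 : 0 < ρ := by rw [hρ]; positivity
  have hρ1 : ρ ≤ 1 := by rw [hρ]; exact (div_le_one hNpos).2 hN1
  have hρN : ρ * N = 1 := by rw [hρ]; field_simp
  obtain ⟨δ, hδ⟩ : ∃ δ : ℝ, δ = (√M * S + M + Kz) / N := ⟨_, rfl⟩
  have hδ0 : 0 ≤ δ := by rw [hδ]; positivity
  have hδρ : δ + ρ ≤ E / S := by
    rw [hδ, hρ, ← add_div, ← hSS, div_le_div_iff₀ (by positivity) hSpos, hE]
    have h1 : M + Kz + 1 ≤ (M + Kz + 1) * S := le_mul_of_one_le_right (by positivity) hS1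
    have h2 : (√M * S + M + Kz + 1) ≤ (√M + M + Kz + 1) * S := by linarith
    calc (√M * S + M + Kz + 1) * S ≤ ((√M + M + Kz + 1) * S) * S :=
          mul_le_mul_of_nonneg_right h2 hSpos.le
      _ = _ := by ring
  have hδb : δ ≤ b / 2 := by
    have h1 : E / S ≤ D / S := div_le_div_of_nonneg_right hED hSpos.le
    linarith
  obtain ⟨X, hX⟩ : ∃ X : ℝ, X = θ + (δ + ρ) * (1 + w) ^ 2 := ⟨_, rfl⟩
  have hX2 : X ≤ 2 * θ := by
    have h1 : (1 + w) ^ 2 ≤ (1 + Kz) ^ 2 := pow_le_pow_left₀ (by linarith) (by linarith) 2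
    have h2 : (δ + ρ) * (1 + w) ^ 2 ≤ (E / S) * (1 + Kz) ^ 2 :=
      mul_le_mul hδρ h1 (by positivity) (by positivity)
    have h3 : (E / S) * (1 + Kz) ^ 2 = D / S := by rw [hD]; ring
    rw [hX]
    linarith
  have hX1 : X ≤ 1 := by linarith
  -- class sizes
  have hsqrt : √(M * N) = √M * S := by rw [Real.sqrt_mul hM, hS]
  have hbN : N / ((q : ℝ) + 1) = b * N := by rw [hb]; ring
  have hδN : δ * N = √M * S + M + Kz := by rw [hδ]; field_simp
  have hup : ∀ j, ((cls c0 A j).card : ℝ) ≤ (b + δ) * N := by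
    intro j
    have h1 := (abs_le.1 (hcls j)).2
    rw [hsqrt, hbN] at h1
    have h2 : ((cls c0 A j).card : ℝ) ≤ (cls c0 (univ \ W) j).card := by
      exact_mod_cast card_le_card (cls_mono hAW j)
    rw [add_mul, hδN]
    linarith
  have hlow : ∀ j, (b - δ) * N ≤ ((cls c0 A j).card : ℝ) := by
    intro j
    have h1 := (abs_le.1 (hcls j)).1
    rw [hsqrt, hbN] at h1
    have h2 : (cls c0 (univ \ W) j).card ≤ (cls c0 A j).card + Z.card := by
      have h3 : cls c0 (univ \ W) j ⊆ cls c0 A j ∪ Z := by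
        intro v hv
        rw [mem_cls] at hv
        rw [mem_union, mem_cls, hA, mem_sdiff]
        by_cases hvZ : v ∈ Z
        · exact Or.inr hvZ
        · exact Or.inl ⟨⟨mem_univ _, hvZ⟩, hv.2⟩
      exact (card_le_card h3).trans (card_union_le _ _)
    have h2' : ((cls c0 (univ \ W) j).card : ℝ) ≤ (cls c0 A j).card + w := by
      rw [hw]; exact_mod_cast h2
    rw [sub_mul, hδN]
    linarith
  obtain ⟨ι, hι⟩ : ∃ ι : ℝ, ι = Isum G c0 A / N := ⟨_, rfl⟩
  obtain ⟨μ, hμ⟩ : ∃ μ : ℝ, μ = Msum G c0 A / N := ⟨_, rfl⟩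
  have hιM : ι ≤ M := by
    rw [hι, div_le_iff₀ hNpos]
    refine le_trans ?_ hI
    exact_mod_cast Isum_mono hAW
  have hμM : μ ≤ M := by
    rw [hμ, div_le_iff₀ hNpos]
    refine le_trans ?_ hMs
    exact_mod_cast Msum_mono hAW
  have hU := U_norm (G := G) (c := c0) (Z := Z) (s := s) (ρ := ρ) (β := b + δ) (m := b - δ)
    (θ := θ) (ι := ι) (μ := μ) (w := w) hN hNpos hρ (by linarith) (by linarith) hθ0.le
    (by rw [← hA]; exact hι) (by rw [← hA]; exact hμ) hw (by omega)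
    (by rw [← hA]; exact hup) (by rw [← hA]; exact hlow) (by rw [← hA]; exact hin)
  have hL := L_norm (G := G) (c := c0) (Z := Z) (ρ := ρ) (m := b - δ)
    (θ := θ) (ι := ι) (μ := μ) (w := w) hN hNpos hρ (by linarith) hθ0.le
    (by rw [← hA]; exact hι) (by rw [← hA]; exact hμ) hw
    (by rw [← hA]; exact hlow) (by rw [← hA]; exact hin)
  rw [← hA] at hU hL
  have hNp : ∀ m : ℕ, N ^ m ≠ 0 := fun m => (pow_pos hNpos m).ne'
  have hcore : CoreHyp q s (M + C) Z ρ δ θ ι μ (((Kc G univ (s + 2)).card : ℝ) / N ^ (s + 2))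
      (((Kc G univ (q + 2)).card : ℝ) / N ^ (q + 2)) w (al c0 A N) (ze G c0 A N) := by
    refine ⟨hw, hρ0, hρ1, hδ0, by rw [← hb]; exact hδb, hθ0.le, ?_, by linarith, ?_, by linarith,
      ?_, ?_, ?_, ?_, ?_, ?_, ?_, ?_, ?_, ?_⟩
    · rw [hι]; positivity
    · rw [hμ]; positivity
    · rw [hρ, mul_one_div, div_le_one hNpos, hw, hN]
      exact_mod_cast card_le_univ Z
    · intro j
      rw [← hb]
      unfold al
      rw [le_div_iff₀ hNpos]
      exact hlow j
    · intro j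
      rw [← hb]
      unfold al
      rw [div_le_iff₀ hNpos]
      exact hup j
    · unfold al
      rw [← sum_div]
      have h1 : ∑ j, ((cls c0 A j).card : ℝ) = N - w := by
        have h2 := sum_cls c0 A
        have h3 : ((∑ j, (cls c0 A j).card : ℕ) : ℝ) = (A.card : ℝ) := by rw [h2]
        push_cast at h3
        rw [h3, hA, card_sdiff_of_subset (subset_univ _),
          Nat.cast_sub (card_le_card (subset_univ _)), card_univ, ← hN, hw]
      rw [h1, hρ]
      field_simp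
    · intro z _ j
      unfold ze; positivity
    · intro z _ j
      unfold ze al
      apply div_le_div_of_nonneg_right _ hNpos.le
      exact_mod_cast card_le_card (cls_mono inter_subset_left j)
    · rw [← hb]; exact hU
    · rw [← hb]; exact hL
    · rw [← hb, div_le_iff₀ (by positivity)]
      have h1 : (((q : ℝ) + 3) * b ^ (q + 1) * ρ + (M + C) * ρ ^ 2) * N ^ (q + 2)
          = ((q : ℝ) + 3) * (b * N) ^ (q + 1) + (M + C) * N ^ q := by
        have e1 : N ^ (q + 2) = N ^ (q + 1) * N := pow_succ _ _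
        have e2 : N ^ (q + 2) = N ^ q * N ^ 2 := pow_add _ _ _
        calc (((q : ℝ) + 3) * b ^ (q + 1) * ρ + (M + C) * ρ ^ 2) * N ^ (q + 2)
            = ((q : ℝ) + 3) * b ^ (q + 1) * ρ * N ^ (q + 2) + (M + C) * ρ ^ 2 * N ^ (q + 2) := by
              ring
          _ = ((q : ℝ) + 3) * b ^ (q + 1) * ρ * (N ^ (q + 1) * N)
              + (M + C) * ρ ^ 2 * (N ^ q * N ^ 2) := by rw [← e1, ← e2]
          _ = ((q : ℝ) + 3) * (b ^ (q + 1) * N ^ (q + 1)) * (ρ * N)
              + (M + C) * N ^ q * (ρ * N) ^ 2 := by ring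
          _ = _ := by rw [hρN, mul_pow]; ring
      rw [h1]
      refine hR.trans ?_
      have : 0 ≤ M * N ^ q := by positivity
      linarith
    · rw [← hb, le_div_iff₀ (by positivity)]
      have h1 : ((q + 1).choose (s + 2) * b ^ (s + 2) + ((q : ℝ) + 3) * q.choose s
          * b ^ (s + 1) * ρ - (M + C) * ρ ^ 2 - ρ * θ) * N ^ (s + 2)
          = (q + 1).choose (s + 2) * (b * N) ^ (s + 2)
            + ((q : ℝ) + 3) * q.choose s * (b * N) ^ (s + 1) - (M + C) * N ^ s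
            - θ * N ^ (s + 1) := by
        have e1 : N ^ (s + 2) = N ^ (s + 1) * N := pow_succ _ _
        have e2 : N ^ (s + 2) = N ^ s * N ^ 2 := pow_add _ _ _
        calc ((q + 1).choose (s + 2) * b ^ (s + 2) + ((q : ℝ) + 3) * q.choose s
          * b ^ (s + 1) * ρ - (M + C) * ρ ^ 2 - ρ * θ) * N ^ (s + 2)
            = (q + 1).choose (s + 2) * (b ^ (s + 2) * N ^ (s + 2))
              + ((q : ℝ) + 3) * q.choose s * b ^ (s + 1) * ρ * N ^ (s + 2)
              - (M + C) * ρ ^ 2 * N ^ (s + 2) - ρ * θ * N ^ (s + 2) := by ring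
          _ = (q + 1).choose (s + 2) * (b ^ (s + 2) * N ^ (s + 2))
              + ((q : ℝ) + 3) * q.choose s * b ^ (s + 1) * ρ * (N ^ (s + 1) * N)
              - (M + C) * ρ ^ 2 * (N ^ s * N ^ 2) - ρ * θ * (N ^ (s + 1) * N) := by
              rw [← e1, ← e2]
          _ = (q + 1).choose (s + 2) * (b ^ (s + 2) * N ^ (s + 2))
              + ((q : ℝ) + 3) * q.choose s * (b ^ (s + 1) * N ^ (s + 1)) * (ρ * N)
              - (M + C) * N ^ s * (ρ * N) ^ 2 - θ * N ^ (s + 1) * (ρ * N) := by ring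
          _ = _ := by rw [hρN, mul_pow, mul_pow]; ring
      rw [h1]
      refine le_trans ?_ hT
      have : 0 ≤ M * N ^ s := by positivity
      linarith
  -- choice of the classes for the exceptional vertices
  have hexj : ∀ z : V, ∃ j : Fin (q + 1), ∀ k, ze G c0 A N z j / al c0 A N j
      ≤ ze G c0 A N z k / al c0 A N k := by
    intro z
    obtain ⟨j, _, hj⟩ := exists_min_image (univ : Finset (Fin (q + 1)))
      (fun k => ze G c0 A N z k / al c0 A N k) ⟨0, mem_univ _⟩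
    exact ⟨j, fun k => hj k (mem_univ _)⟩
  choose jj hjj using hexj
  have hexk : ∀ z : V, ∃ j : Fin (q + 1), j ≠ jj z ∧ ∀ k, k ≠ jj z →
      ze G c0 A N z j / al c0 A N j ≤ ze G c0 A N z k / al c0 A N k := by
    intro z
    have hne : (univ.erase (jj z)).Nonempty := by
      rw [← card_pos, card_erase_of_mem (mem_univ _), card_univ, Fintype.card_fin]
      omega
    obtain ⟨j, hj1, hj⟩ := exists_min_image (univ.erase (jj z))
      (fun k => ze G c0 A N z k / al c0 A N k) hne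
    exact ⟨j, (mem_erase.1 hj1).1, fun k hk => hj k (mem_erase.2 ⟨hk, mem_univ _⟩)⟩
  choose kk hkk1 hkk2 using hexk
  obtain ⟨f1, f2, f3, f4, f5⟩ := hfin V Z ρ δ θ ι μ _ _ w X (al c0 A N) (ze G c0 A N) jj kk
    hcore hkk1 (fun z _ k => hjj z k) (fun z _ k hk => hkk2 z k hk) hX hX1
  -- final colouring
  obtain ⟨R, hRdef⟩ : ∃ R : ℝ, R = √X := ⟨_, rfl⟩
  rw [← hRdef] at f1 f2 f3 f4 f5
  have hR0 : 0 ≤ R := by rw [hRdef]; exact Real.sqrt_nonneg _
  have hRε : (3 * K + 1) * R ≤ ε := by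
    refine le_trans ?_ hθ2
    apply mul_le_mul_of_nonneg_left _ (by positivity)
    rw [hRdef]
    exact Real.sqrt_le_sqrt hX2
  have hKR : 0 ≤ K * R := mul_nonneg hK0 hR0
  let c' : V → Fin (q + 1) := fun v => if v ∈ Z then jj v else c0 v
  have hc'Z : ∀ v, v ∉ Z → c' v = c0 v := fun v hv => if_neg hv
  have hc'z : ∀ v ∈ Z, c' v = jj v := fun v hv => if_pos hv
  refine ⟨c', ?_, ?_, ?_⟩
  · have h1 := Msum_split (G := G) (c := c0) (c' := c') (Z := Z) hc'Z
    rw [← hA] at h1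
    have h2 : (Msum G c' univ : ℝ) ≤ Msum G c0 A
        + 2 * ∑ z ∈ Z, ((A.filter (fun w => c0 w ≠ c' z ∧ ¬ G.Adj z w)).card : ℝ)
        + w ^ 2 := by
      rw [hw]; exact_mod_cast h1
    have h3 : ∑ z ∈ Z, ((A.filter (fun w => c0 w ≠ c' z ∧ ¬ G.Adj z w)).card : ℝ)
        = N * ∑ z ∈ Z, ∑ k ∈ univ.erase (jj z), (al c0 A N k - ze G c0 A N z k) := by
      rw [mul_sum]
      apply sum_congr rfl
      intro z hz
      rw [hc'z z hz]
      exact mis_z hNpos z (jj z)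
    rw [h3] at h2
    have h4 : (Msum G c0 A : ℝ) = μ * N := by rw [hμ]; field_simp
    have h5 : w ^ 2 = (ρ * w ^ 2) * N := by
      calc w ^ 2 = (ρ * N) * w ^ 2 := by rw [hρN, one_mul]
        _ = _ := by ring
    rw [h4, h5] at h2
    have h6 : N * ∑ z ∈ Z, ∑ k ∈ univ.erase (jj z), (al c0 A N k - ze G c0 A N z k)
        ≤ N * (K * R) := mul_le_mul_of_nonneg_left f2 hNpos.le
    have h7 : μ * N ≤ (K * R) * N := mul_le_mul_of_nonneg_right f1 hNpos.le
    have h8 : (ρ * w ^ 2) * N ≤ R * N := mul_le_mul_of_nonneg_right f4 hNpos.le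
    have h9 : ((3 * K + 1) * R) * N ≤ ε * N := mul_le_mul_of_nonneg_right hRε hNpos.le
    have e : ((3 * K + 1) * R) * N = (K * R) * N + 2 * (N * (K * R)) + R * N := by ring
    rw [e] at h9
    linarith
  · have h1 := Isum_split (G := G) (c := c0) (c' := c') (Z := Z) hc'Z
    rw [← hA] at h1
    have h2 : (Isum G c' univ : ℝ) ≤ Isum G c0 A
        + 2 * ∑ z ∈ Z, ((A.filter (fun w => c0 w = c' z ∧ G.Adj z w)).card : ℝ)
        + w ^ 2 := by
      rw [hw]; exact_mod_cast h1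
    have h3 : ∑ z ∈ Z, ((A.filter (fun w => c0 w = c' z ∧ G.Adj z w)).card : ℝ)
        = N * ∑ z ∈ Z, ze G c0 A N z (jj z) := by
      rw [mul_sum]
      apply sum_congr rfl
      intro z hz
      rw [hc'z z hz]
      exact ins_z hNpos z (jj z)
    rw [h3] at h2
    have h4 : (Isum G c0 A : ℝ) = ι * N := by rw [hι]; field_simp
    have h5 : w ^ 2 = (ρ * w ^ 2) * N := by
      calc w ^ 2 = (ρ * N) * w ^ 2 := by rw [hρN, one_mul]
        _ = _ := by ring
    rw [h4, h5] at h2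
    have h8 : (ρ * w ^ 2) * N ≤ R * N := mul_le_mul_of_nonneg_right f4 hNpos.le
    have h9 : ((3 * K + 1) * R) * N ≤ ε * N := mul_le_mul_of_nonneg_right hRε hNpos.le
    have e : ((3 * K + 1) * R) * N = 3 * (K * R * N) + R * N := by ring
    rw [e] at h9
    rw [← hb] at f3
    have h10 := mul_le_mul_of_nonneg_right f3 hNpos.le
    have h11 : 0 ≤ K * R * N := by positivity
    have e2 : (2 * ((q : ℝ) + 3) * b + K * R) * N = 2 * ((q : ℝ) + 3) * b * N + K * R * N := by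
      ring
    rw [e2] at h10
    have e3 : (ι + 2 * ∑ z ∈ Z, ze G c0 A N z (jj z)) * N
        = ι * N + 2 * (N * ∑ z ∈ Z, ze G c0 A N z (jj z)) := by ring
    rw [e3] at h10
    have e4 : (2 * ((q : ℝ) + 3) * b + ε) * N = 2 * ((q : ℝ) + 3) * b * N + ε * N := by ring
    rw [e4]
    linarith
  · intro j
    have h1 : cls c0 A j ⊆ cls c' univ j := by
      intro v hv
      rw [mem_cls] at hv ⊢
      refine ⟨mem_univ _, ?_⟩
      rw [hA, mem_sdiff] at hv
      rw [hc'Z v hv.1.2]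
      exact hv.2
    have h2 : ((cls c0 A j).card : ℝ) ≤ (cls c' univ j).card := by
      exact_mod_cast card_le_card h1
    refine le_trans ?_ (le_trans (hlow j) h2)
    apply mul_le_mul_of_nonneg_right _ hNpos.le
    have h3 : R ≤ (3 * K + 1) * R := by
      have : (3 * K + 1) * R = 3 * (K * R) + R := by ring
      rw [this]
      linarith
    linarith

end Pool.Agent.H44
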