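import Pool.Agent.H44.Norm2

/-!
Recolouring a small exceptional set.
-/

namespace Pool.Agent.H44

open Finset

set_option linter.unusedSectionVars false

variable {V : Type*} [Fintype V] [DecidableEq V] {q : ℕ}
variable {G : SimpleGraph V} [DecidableRel G.Adj] {c : V → Fin (q + 1)}

/-- general splitting of a symmetric relation count -/
lemma split_count (R R' : V → V → Prop) [DecidableRel R] [DecidableRel R'] (Z : Finset V)
    (hsymm : ∀ x y, R x y → R y x) (h : ∀ x y, x ∉ Z → y ∉ Z → R x y → R' x y) :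
    ∑ v : V, (univ.filter (fun w => R v w)).card
      ≤ ∑ v ∈ univ \ Z, ((univ \ Z).filter (fun w => R' v w)).card
        + 2 * ∑ z ∈ Z, ((univ \ Z).filter (fun w => R z w)).card + Z.card ^ 2 := by
  have h1 : ∑ v : V, (univ.filter (fun w => R v w)).card
      = ∑ v ∈ univ \ Z, (univ.filter (fun w => R v w)).card
        + ∑ v ∈ Z, (univ.filter (fun w => R v w)).card := by
    rw [sum_sdiff (subset_univ Z)]
  have h2 : ∀ v : V, (univ.filter (fun w => R v w)).card
      ≤ ((univ \ Z).filter (fun w => R v w)).card + (Z.filter (fun w => R v w)).card := by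
    intro v
    rw [← card_union_of_disjoint]
    · apply card_le_card
      intro w hw
      rw [mem_filter] at hw
      rw [mem_union, mem_filter, mem_filter, mem_sdiff]
      by_cases hwZ : w ∈ Z
      · exact Or.inr ⟨hwZ, hw.2⟩
      · exact Or.inl ⟨⟨mem_univ _, hwZ⟩, hw.2⟩
    · rw [Finset.disjoint_left]
      intro w hw hw'
      rw [mem_filter, mem_sdiff] at hw
      rw [mem_filter] at hw'
      exact hw.1.2 hw'.1
  have h3 : ∑ v ∈ univ \ Z, (Z.filter (fun w => R v w)).card
      = ∑ z ∈ Z, ((univ \ Z).filter (fun w => R z w)).card := by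
    simp only [card_filter]
    rw [sum_comm]
    apply sum_congr rfl
    intro z _
    apply sum_congr rfl
    intro w _
    by_cases hr : R w z
    · rw [if_pos hr, if_pos (hsymm _ _ hr)]
    · rw [if_neg hr, if_neg (fun h => hr (hsymm _ _ h))]
  have h4 : ∑ v ∈ univ \ Z, ((univ \ Z).filter (fun w => R v w)).card
      ≤ ∑ v ∈ univ \ Z, ((univ \ Z).filter (fun w => R' v w)).card := by
    apply sum_le_sum
    intro v hv
    apply card_le_card
    intro w hw
    rw [mem_filter] at hw ⊢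
    rw [mem_sdiff] at hv
    exact ⟨hw.1, h v w hv.2 (mem_sdiff.1 hw.1).2 hw.2⟩
  have h5 : ∑ v ∈ Z, (Z.filter (fun w => R v w)).card ≤ Z.card ^ 2 := by
    calc ∑ v ∈ Z, (Z.filter (fun w => R v w)).card ≤ ∑ _v ∈ Z, Z.card :=
          sum_le_sum (fun v _ => card_filter_le _ _)
      _ = Z.card ^ 2 := by rw [sum_const, smul_eq_mul, sq]
  have h6 : ∑ v ∈ univ \ Z, (univ.filter (fun w => R v w)).card
      ≤ ∑ v ∈ univ \ Z, ((univ \ Z).filter (fun w => R v w)).card
        + ∑ v ∈ univ \ Z, (Z.filter (fun w => R v w)).card := by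
    rw [← sum_add_distrib]
    exact sum_le_sum (fun v _ => h2 v)
  have h7 : ∑ v ∈ Z, (univ.filter (fun w => R v w)).card
      ≤ ∑ v ∈ Z, ((univ \ Z).filter (fun w => R v w)).card
        + ∑ v ∈ Z, (Z.filter (fun w => R v w)).card := by
    rw [← sum_add_distrib]
    exact sum_le_sum (fun v _ => h2 v)
  rw [h1]
  rw [h3] at h6
  omega

lemma Msum_split {c' : V → Fin (q + 1)} {Z : Finset V} (h : ∀ v, v ∉ Z → c' v = c v) :
    Msum G c' univ ≤ Msum G c (univ \ Z)
      + 2 * ∑ z ∈ Z, ((univ \ Z).filter (fun w => c w ≠ c' z ∧ ¬ G.Adj z w)).card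
      + Z.card ^ 2 := by
  have h1 := split_count (fun v w => c' w ≠ c' v ∧ ¬ G.Adj v w)
    (fun v w => c w ≠ c v ∧ ¬ G.Adj v w) Z
    (fun x y hxy => ⟨hxy.1.symm, fun h => hxy.2 h.symm⟩)
    (fun x y hx hy hxy => by rw [h x hx, h y hy] at hxy; exact hxy)
  have h2 : ∀ z ∈ Z, ((univ \ Z).filter (fun w => c' w ≠ c' z ∧ ¬ G.Adj z w))
      = ((univ \ Z).filter (fun w => c w ≠ c' z ∧ ¬ G.Adj z w)) := by
    intro z _
    apply filter_congr
    intro w hw
    rw [h w (mem_sdiff.1 hw).2]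
  have h3 : ∑ z ∈ Z, ((univ \ Z).filter (fun w => c' w ≠ c' z ∧ ¬ G.Adj z w)).card
      = ∑ z ∈ Z, ((univ \ Z).filter (fun w => c w ≠ c' z ∧ ¬ G.Adj z w)).card :=
    sum_congr rfl (fun z hz => by rw [h2 z hz])
  rw [h3] at h1
  exact h1

lemma Isum_split {c' : V → Fin (q + 1)} {Z : Finset V} (h : ∀ v, v ∉ Z → c' v = c v) :
    Isum G c' univ ≤ Isum G c (univ \ Z)
      + 2 * ∑ z ∈ Z, ((univ \ Z).filter (fun w => c w = c' z ∧ G.Adj z w)).card
      + Z.card ^ 2 := by
  have h1 := split_count (fun v w => c' w = c' v ∧ G.Adj v w)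
    (fun v w => c w = c v ∧ G.Adj v w) Z
    (fun x y hxy => ⟨hxy.1.symm, hxy.2.symm⟩)
    (fun x y hx hy hxy => by rw [h x hx, h y hy] at hxy; exact hxy)
  have h2 : ∀ z ∈ Z, ((univ \ Z).filter (fun w => c' w = c' z ∧ G.Adj z w))
      = ((univ \ Z).filter (fun w => c w = c' z ∧ G.Adj z w)) := by
    intro z _
    apply filter_congr
    intro w hw
    rw [h w (mem_sdiff.1 hw).2]
  have h3 : ∑ z ∈ Z, ((univ \ Z).filter (fun w => c' w = c' z ∧ G.Adj z w)).card
      = ∑ z ∈ Z, ((univ \ Z).filter (fun w => c w = c' z ∧ G.Adj z w)).card :=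
    sum_congr rfl (fun z hz => by rw [h2 z hz])
  rw [h3] at h1
  exact h1

/-- missing pairs at `z` in terms of normalised degrees -/
lemma mis_z {A : Finset V} {N : ℝ} (hN : 0 < N) (z : V) (j : Fin (q + 1)) :
    ((A.filter (fun w => c w ≠ j ∧ ¬ G.Adj z w)).card : ℝ)
      = N * ∑ k ∈ univ.erase j, (al c A N k - ze G c A N z k) := by
  have h1 : (A.filter (fun w => c w ≠ j ∧ ¬ G.Adj z w)).card
      = ∑ k ∈ univ.erase j, ((cls c A k).filter (fun w => ¬ G.Adj z w)).card := by
    rw [← card_biUnion]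
    · congr 1
      ext w
      rw [mem_filter, mem_biUnion]
      constructor
      · rintro ⟨hw, h1, h2⟩
        refine ⟨c w, mem_erase.2 ⟨h1, mem_univ _⟩, ?_⟩
        rw [mem_filter, mem_cls]
        exact ⟨⟨hw, rfl⟩, h2⟩
      · rintro ⟨k, hk, hw⟩
        rw [mem_filter, mem_cls] at hw
        rw [mem_erase] at hk
        refine ⟨hw.1.1, ?_, hw.2⟩
        rw [hw.1.2]
        exact hk.1
    · intro k _ k' _ hkk
      simp only [Function.onFun]
      rw [Finset.disjoint_left]
      intro w hw hw'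
      rw [mem_filter, mem_cls] at hw hw'
      exact hkk (hw.1.2.symm.trans hw'.1.2)
  rw [h1, mul_sum]
  push_cast
  apply sum_congr rfl
  intro k _
  have h2 : ((cls c A k).filter (fun w => ¬ G.Adj z w)).card + (cls c (A ∩ cn G {z}) k).card
      = (cls c A k).card := by
    rw [← Finset.card_filter_add_card_filter_not (s := cls c A k) (fun w => G.Adj z w), add_comm]
    congr 2
    ext w
    rw [mem_cls, mem_inter, mem_cn, mem_filter, mem_cls]
    constructor
    · rintro ⟨⟨h1, h2⟩, h3⟩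
      exact ⟨⟨h1, h3⟩, (h2 z (mem_singleton_self z)).symm⟩
    · rintro ⟨⟨h1, h3⟩, h2⟩
      refine ⟨⟨h1, ?_⟩, h3⟩
      intro x hx
      rw [mem_singleton] at hx
      subst hx
      exact h2.symm
  have h3 : (((cls c A k).filter (fun w => ¬ G.Adj z w)).card : ℝ)
      = (cls c A k).card - (cls c (A ∩ cn G {z}) k).card := by
    rw [← h2]; push_cast; ring
  rw [h3]
  unfold al ze
  field_simp

/-- inside degree of `z` in terms of normalised degrees -/
lemma ins_z {A : Finset V} {N : ℝ} (hN : 0 < N) (z : V) (j : Fin (q + 1)) :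
    ((A.filter (fun w => c w = j ∧ G.Adj z w)).card : ℝ) = N * ze G c A N z j := by
  unfold ze
  rw [mul_div_cancel₀ _ hN.ne']
  congr 2
  ext w
  rw [mem_filter, mem_cls, mem_inter, mem_cn]
  constructor
  · rintro ⟨h1, h2, h3⟩
    refine ⟨⟨h1, ?_⟩, h2⟩
    intro x hx
    rw [mem_singleton] at hx
    subst hx
    exact h3.symm
  · rintro ⟨⟨h1, h2⟩, h3⟩
    exact ⟨h1, h3, (h2 z (mem_singleton_self z)).symm⟩

end Pool.Agent.H44
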