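import Pool.Agent.H44.Refine
import Pool.Agent.H44.Part
import Pool.Agent.H44.GammaBound

/-!
The stability theorem: a flag Eulerian complex of dimension `2r` with nearly as many `i`-cliques
as `J_r^*(n)` is nearly a join.
-/

namespace Pool.Agent.H44

open Finset

set_option linter.unusedSectionVars false

universe u

theorem stability (q s : ℕ) (hs : s + 1 ≤ q) (C' ε : ℝ) (hC' : 0 ≤ C') (hε : 0 < ε) :
    ∃ η : ℝ, 0 < η ∧ η ≤ 1 ∧
      ∃ N0 : ℝ, ∀ (V : Type u) [Fintype V] [DecidableEq V] (G : SimpleGraph V) [DecidableRel G.Adj]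
      (N b : ℝ), Eul G (2 * (q + 1) + 1) →
      N = Fintype.card V → b = 1 / ((q : ℝ) + 1) → N0 ≤ N →
      (q + 1).choose (s + 2) * (b * N) ^ (s + 2) + ((q : ℝ) + 3) * q.choose s * (b * N) ^ (s + 1)
        - C' * N ^ s - η * N ^ (s + 1) ≤ kr G (s + 2) →
      ∃ c : V → Fin (q + 1), (Msum G c univ : ℝ) ≤ ε * N ∧
        (Isum G c univ : ℝ) ≤ (2 * ((q : ℝ) + 3) * b + ε) * N ∧
        ∀ j, (b - ε) * N ≤ ((cls c univ j).card : ℝ) := by
  obtain ⟨C3, hC3, hgf⟩ := gamma_facts.{u} (q + 1)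
  obtain ⟨C, c, Nc, hC, hc, hNc, hchain⟩ := chain_main (q + 1) (s + 1) (by omega) (by omega)
    (C' + 1) C3 (by linarith) hC3
  obtain ⟨C0, hC0⟩ : ∃ C0 : ℝ, C0 = C + (q + 4) := ⟨_, rfl⟩
  have hC00 : 0 ≤ C0 := by rw [hC0]; positivity
  obtain ⟨M, hM⟩ : ∃ M : ℝ, M = (C0 + (q + 2) * C0
    + (C0 + ((q + 1) * C0) ^ 2 + (q + 1) * (q + 2) * C0 + (q + 1) * C0)) := ⟨_, rfl⟩
  have hM0 : 0 ≤ M := by rw [hM]; positivity
  obtain ⟨C4, hC4⟩ : ∃ C4 : ℝ, C4 = C' + ((q + 3) * C + C3) := ⟨_, rfl⟩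
  have hC40 : 0 ≤ C4 := by rw [hC4]; positivity
  obtain ⟨η, hη0, hη1, N1, href⟩ := refine_partition.{u} q s hs M C4 ε hM0 hC40 hε
  refine ⟨η, hη0, hη1, 1 + Nc + ((q : ℝ) + 1) ^ 2 * (C0 + 1) + |N1|, ?_⟩
  intro V _ _ G _ N b hE hN hb hN0 hT
  have hq1 : (0 : ℝ) < (q : ℝ) + 1 := by positivity
  have ha1 : 0 ≤ ((q : ℝ) + 1) ^ 2 * (C0 + 1) := by positivity
  have ha2 : 0 ≤ |N1| := abs_nonneg _
  have hN1 : 1 ≤ N := by linarith
  have hNc' : Nc ≤ N := by linarith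
  have hNq : ((q : ℝ) + 1) ^ 2 * (C0 + 1) ≤ N := by linarith
  have hN1' : N1 ≤ N := by
    have := le_abs_self N1
    linarith
  have hNpos : 0 < N := by linarith
  have hcard : 1 ≤ Fintype.card V := by
    rw [hN] at hN1
    exact_mod_cast hN1
  obtain ⟨γ, hγ⟩ := hE.exists_gamma
  have hgf3 := (hgf V G γ hE hcard hγ).2.2 q rfl
  rw [← hN] at hgf3
  have hk3 : kr G (q + 2) ≤ ((q : ℝ) + 3) * kr G (q + 1) + C3 * N ^ q := by
    have h1 := (abs_le.1 hgf3).2
    unfold kr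
    push_cast at h1
    have e : (q : ℝ) + 1 + 2 = q + 3 := by ring
    rw [e] at h1
    linarith
  have hch := ch_inst (r := q + 1) (by omega) hE
  rw [← hN] at hch
  have hbN : N / ((q + 1 : ℕ) : ℝ) = b * N := by rw [hb]; push_cast; ring
  have hyp1 : ((q + 1).choose (s + 1 + 1) : ℝ) * (N / ((q + 1 : ℕ) : ℝ)) ^ (s + 1 + 1)
      - (C' + 1) * N ^ (s + 1) ≤ kr G (s + 1 + 1) := by
    rw [hbN]
    refine le_trans ?_ hT
    have h5 : η * N ^ (s + 1) ≤ 1 * N ^ (s + 1) :=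
      mul_le_mul_of_nonneg_right hη1 (by positivity)
    have h1 : 0 ≤ ((q : ℝ) + 3) * q.choose s * (b * N) ^ (s + 1) := by
      rw [hb]; positivity
    have h2 : C' * N ^ s ≤ C' * N ^ (s + 1) :=
      mul_le_mul_of_nonneg_left (pow_le_pow_right₀ hN1 (by omega)) hC'
    have e : s + 1 + 1 = s + 2 := rfl
    rw [e]
    linarith
  have hyp2 : kr G (q + 1 + 1) ≤ (((q + 1 : ℕ) : ℝ) + 2) * kr G (q + 1)
      + C3 * N ^ (q + 1 - 1) := by
    rw [Nat.add_sub_cancel]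
    push_cast
    have e : (q : ℝ) + 1 + 2 = q + 3 := by ring
    rw [e]
    exact hk3
  obtain ⟨x1, x2, x3, x4, x5, x6⟩ := hchain (kr G) N hch hNc' hyp1 hyp2
  have hk0 : 0 < kr G q := kr_pos hE (by omega)
  have hk1 : 0 < kr G (q + 1) := kr_pos hE (by omega)
  -- the good clique
  have hx1 : - C0 ≤ xi (q + 1) (kr G) N q := by
    have := x2 q hs (by omega)
    have h2 : (0 : ℝ) ≤ q := by positivity
    rw [hC0]
    linarith
  have hx2 : xi (q + 1) (kr G) N q ≤ C0 := by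
    have := x1 q (by omega)
    push_cast at this
    rw [hC0]
    linarith
  have hB : btot G (q + 1) + (sq2 G q - (((q : ℝ) + 1) * kr G (q + 1)) ^ 2 / kr G q)
      ≤ C0 * kr G (q + 1) := by
    have h1 := x6 (btot G (q + 1) + (sq2 G q - (((q : ℝ) + 1) * kr G (q + 1)) ^ 2 / kr G q)) ?_
    · refine h1.trans ?_
      apply mul_le_mul_of_nonneg_right _ hk1.le
      have h2 : (0 : ℝ) ≤ q := by positivity
      rw [hC0]
      linarith
    · apply le_of_eq
      rw [Nat.add_sub_cancel]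
      have hmm := moon_moser_real (G := G) q
      rw [← hN] at hmm
      have e1 : (((q + 1 : ℕ) : ℝ)) ^ 2 * (kr G (q + 1)) ^ 2 + kr G q * (btot G (q + 1)
          + (sq2 G q - (((q : ℝ) + 1) * kr G (q + 1)) ^ 2 / kr G q))
          = kr G q * (sq2 G q + btot G (q + 1)) := by
        push_cast
        field_simp
        ring
      rw [e1, hmm]
      push_cast
      ring
  have hk2 : kr G (q + 2) ≤ C0 * kr G (q + 1) := by
    have h1 := hch.succ_eq (s := q + 1) (by omega)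
    have h2 := x1 (q + 1) le_rfl
    have e : q + 1 + 1 = q + 2 := rfl
    rw [e, sub_self, zero_div, zero_mul, zero_add] at h1
    rw [h1, mul_comm]
    apply mul_le_mul_of_nonneg_right _ hk1.le
    push_cast at h2
    rw [hC0]
    linarith
  obtain ⟨t, ht, hPh⟩ := good_clique (G := G) q C0 hC00 hE (by rw [← hN]; exact hNq)
    (by rw [← hN]; exact hx1) (by rw [← hN]; exact hx2) hB hk2
  rw [← hM] at hPh
  obtain ⟨c0, W, w1, w2, w3, w4⟩ := rough_partition (M := M) ht (by rw [← hN]; exact hN1) hPh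
  rw [← hN] at w2 w3 w4
  have hR : ((Kc G univ (q + 2)).card : ℝ) ≤ ((q : ℝ) + 3) * (b * N) ^ (q + 1) + C4 * N ^ q := by
    have h1 : kr G (q + 2) ≤ ((q : ℝ) + 3) * (b * N) ^ (q + 1) + C4 * N ^ q := by
      rw [Nat.add_sub_cancel, hbN] at x4
      have h2 : ((q : ℝ) + 3) * kr G (q + 1) ≤ ((q : ℝ) + 3) * ((b * N) ^ (q + 1) + C * N ^ q) :=
        mul_le_mul_of_nonneg_left x4 (by positivity)
      have h3 : 0 ≤ C' * N ^ q := by positivity
      have e : C4 * N ^ q = C' * N ^ q + ((q : ℝ) + 3) * (C * N ^ q) + C3 * N ^ q := by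
        rw [hC4]; ring
      rw [e]
      linarith
    exact h1
  have hT2 : (q + 1).choose (s + 2) * (b * N) ^ (s + 2)
      + ((q : ℝ) + 3) * q.choose s * (b * N) ^ (s + 1)
      - C4 * N ^ s - η * N ^ (s + 1) ≤ ((Kc G univ (s + 2)).card : ℝ) := by
    refine le_trans ?_ hT
    have h3 : 0 ≤ ((q + 3) * C + C3) * N ^ s := by positivity
    have e : C4 * N ^ s = C' * N ^ s + ((q + 3) * C + C3) * N ^ s := by rw [hC4]; ring
    rw [e]
    linarith
  exact href V G N b c0 W hN hb hN1' w1 w2 w3 w4 hR hT2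

end Pool.Agent.H44
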