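import Pool.Agent.H44.Structure
import Pool.Agent.H44.Rainbow
import Pool.Agent.H44.Gamma
import Pool.Agent.H44.FullExist

/-!
The gamma vector of a structured flag Eulerian complex counts rainbow cliques.
-/

namespace Pool.Agent.H44

open Finset Polynomial

set_option linter.unusedSectionVars false

variable {V : Type*} [Fintype V] [DecidableEq V] {r : ℕ}
variable {G : SimpleGraph V} [DecidableRel G.Adj] {c : V → Fin r}

/-- rainbow cliques of `B` with colour set `T` -/
def RC (G : SimpleGraph V) [DecidableRel G.Adj] (c : V → Fin r) (B : Finset V)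
    (T : Finset (Fin r)) : Finset (Finset V) :=
  (rb c B T).filter (fun s : Finset V => G.IsClique (s : Set V))

lemma mem_RC {B : Finset V} {T : Finset (Fin r)} {s : Finset V} :
    s ∈ RC G c B T ↔ s ∈ rb c B T ∧ G.IsClique (s : Set V) := by
  simp [RC]

lemma filter_supp_eq (P : Finset V) (T : Finset (Fin r)) :
    (cl G univ).filter (fun σ => supp c P σ = T ∧ σ.card = T.card) = RC G c (univ \ P) T := by
  ext σ
  rw [mem_filter, mem_cl, mem_RC, mem_rb]
  unfold supp
  constructor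
  · rintro ⟨⟨_, h1⟩, h2, h3⟩
    have h4 : ((σ \ P).image c).card ≤ (σ \ P).card := card_image_le
    rw [h2] at h4
    have h5 : (σ \ P).card ≤ σ.card := card_le_card sdiff_subset
    have h6 : σ \ P = σ := eq_of_subset_of_card_le sdiff_subset (by omega)
    rw [h6] at h2
    refine ⟨⟨?_, h2, h3⟩, h1⟩
    rw [← h6]
    exact sdiff_subset_sdiff (subset_univ _) (Subset.refl _)
  · rintro ⟨⟨h1, h2, h3⟩, h4⟩
    have h6 : σ \ P = σ := by
      rw [Finset.sdiff_eq_self_iff_disjoint, Finset.disjoint_left]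
      intro x hx
      exact (mem_sdiff.1 (h1 hx)).2
    rw [h6]
    exact ⟨⟨subset_univ _, h4⟩, h2, h3⟩

lemma union_mem_rb {B1 B2 : Finset V} {T1 T2 : Finset (Fin r)} {s1 s2 : Finset V}
    (h1 : s1 ∈ rb c B1 T1) (h2 : s2 ∈ rb c B2 T2) (hT : Disjoint T1 T2) :
    s1 ∪ s2 ∈ rb c (B1 ∪ B2) (T1 ∪ T2) := by
  have hd : Disjoint s1 s2 := by
    rw [Finset.disjoint_left]
    intro x hx hx'
    exact Finset.disjoint_left.1 hT (rb_color h1 hx) (rb_color h2 hx')
  rw [mem_rb] at *
  refine ⟨union_subset_union h1.1 h2.1, ?_, ?_⟩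
  · rw [image_union, h1.2.1, h2.2.1]
  · rw [card_union_of_disjoint hd, card_union_of_disjoint hT, h1.2.2, h2.2.2]

lemma inter_mem_rb {B1 B2 : Finset V} {T : Finset (Fin r)} {s : Finset V}
    (h : s ∈ rb c (B1 ∪ B2) T) : s ∩ B1 ∈ rb c B1 ((s ∩ B1).image c) := by
  apply rb_of_injOn inter_subset_right
  exact (rb_injOn h).mono (by exact_mod_cast inter_subset_left)

/-- decomposition of rainbow cliques along a set of full vertices -/
lemma RC_card_union {B1 B2 : Finset V} (hd : Disjoint B1 B2)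
    (hfull : ∀ x ∈ B1, ∀ w, c w ≠ c x → G.Adj w x) (T : Finset (Fin r)) :
    (RC G c (B1 ∪ B2) T).card
      = ∑ T1 ∈ T.powerset, (rb c B1 T1).card * (RC G c B2 (T \ T1)).card := by
  have h1 : ∑ T1 ∈ T.powerset, (rb c B1 T1).card * (RC G c B2 (T \ T1)).card
      = (T.powerset.sigma (fun T1 => rb c B1 T1 ×ˢ RC G c B2 (T \ T1))).card := by
    rw [card_sigma]
    apply sum_congr rfl
    intro T1 _
    rw [card_product]
  rw [h1]
  symm
  refine Finset.card_bij (fun p _ => p.2.1 ∪ p.2.2) ?_ ?_ ?_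
  · rintro ⟨T1, s1, s2⟩ hp
    rw [mem_sigma, mem_product, mem_powerset, mem_RC] at hp
    simp only at hp ⊢
    obtain ⟨hT1, hs1, hs2, hcl⟩ := hp
    rw [mem_RC]
    refine ⟨?_, ?_⟩
    · have h2 := union_mem_rb hs1 hs2 disjoint_sdiff
      rwa [union_sdiff_of_subset hT1] at h2
    · rw [isClique_union]
      refine ⟨?_, hcl, ?_⟩
      · intro x hx y hy hxy
        have hx' : x ∈ s1 := by exact_mod_cast hx
        have hy' : y ∈ s1 := by exact_mod_cast hy
        apply hfull y ((mem_rb.1 hs1).1 hy') x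
        intro hc
        exact hxy (rb_injOn hs1 hx hy hc)
      · intro x hx y hy _
        apply (hfull x ((mem_rb.1 hs1).1 hx) y _).symm
        intro hc
        have h2 := rb_color hs2 hy
        rw [mem_sdiff, hc] at h2
        exact h2.2 (rb_color hs1 hx)
  · rintro ⟨T1, s1, s2⟩ hp ⟨T1', s1', s2'⟩ hp' heq
    rw [mem_sigma, mem_product, mem_powerset, mem_RC] at hp hp'
    simp only at hp hp' heq
    have key : ∀ {a b : Finset V}, a ⊆ B1 → b ⊆ B2 → (a ∪ b) ∩ B1 = a ∧ (a ∪ b) ∩ B2 = b := by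
      intro a b ha hb
      constructor
      · ext x
        rw [mem_inter, mem_union]
        constructor
        · rintro ⟨h | h, h'⟩
          · exact h
          · exact absurd (hb h) (Finset.disjoint_left.1 hd h')
        · intro h; exact ⟨Or.inl h, ha h⟩
      · ext x
        rw [mem_inter, mem_union]
        constructor
        · rintro ⟨h | h, h'⟩
          · exact absurd h' (Finset.disjoint_left.1 hd (ha h))
          · exact h
        · intro h; exact ⟨Or.inr h, hb h⟩
    have k1 := key (mem_rb.1 hp.2.1).1 (mem_rb.1 hp.2.2.1).1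
    have k2 := key (mem_rb.1 hp'.2.1).1 (mem_rb.1 hp'.2.2.1).1
    have e1 : s1 = s1' := by rw [← k1.1, heq, k2.1]
    have e2 : s2 = s2' := by rw [← k1.2, heq, k2.2]
    have e3 : T1 = T1' := by
      rw [← (mem_rb.1 hp.2.1).2.1, ← (mem_rb.1 hp'.2.1).2.1, e1]
    subst e1; subst e2; subst e3
    rfl
  · intro s hs
    rw [mem_RC] at hs
    obtain ⟨hs, hcl⟩ := hs
    have hinj := rb_injOn hs
    have hsB := (mem_rb.1 hs).1
    have hsT := (mem_rb.1 hs).2.1
    have hsplit : s ∩ B1 ∪ s ∩ B2 = s := by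
      rw [← inter_union_distrib_left]
      exact inter_eq_left.2 hsB
    have hT1 : (s ∩ B1).image c ⊆ T := by
      rw [← hsT]; exact image_subset_image inter_subset_left
    have hT2 : (s ∩ B2).image c = T \ (s ∩ B1).image c := by
      ext k
      rw [mem_image, mem_sdiff, mem_image, ← hsT, mem_image]
      constructor
      · rintro ⟨x, hx, rfl⟩
        rw [mem_inter] at hx
        refine ⟨⟨x, hx.1, rfl⟩, ?_⟩
        rintro ⟨y, hy, hyc⟩
        rw [mem_inter] at hy
        have : y = x := hinj (by exact_mod_cast hy.1) (by exact_mod_cast hx.1) hyc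
        subst this
        exact Finset.disjoint_left.1 hd hy.2 hx.2
      · rintro ⟨⟨x, hx, rfl⟩, h2⟩
        refine ⟨x, ?_, rfl⟩
        rw [mem_inter]
        refine ⟨hx, ?_⟩
        rcases mem_union.1 (hsB hx) with h | h
        · exact absurd ⟨x, mem_inter.2 ⟨hx, h⟩, rfl⟩ h2
        · exact h
    refine ⟨⟨(s ∩ B1).image c, s ∩ B1, s ∩ B2⟩, ?_, hsplit⟩
    rw [mem_sigma, mem_product, mem_powerset, mem_RC]
    refine ⟨hT1, ?_, ?_, isClique_mono inter_subset_left hcl⟩
    · exact rb_of_injOn inter_subset_right (hinj.mono (by exact_mod_cast inter_subset_left))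
    · simp only
      rw [← hT2]
      exact rb_of_injOn inter_subset_right (hinj.mono (by exact_mod_cast inter_subset_left))

lemma gb_eq {r e j : ℕ} (hj : j ≤ r) (he : e ≤ 1) :
    gb (2 * r + e) j = (X * (1 + X)) ^ j * (1 + 4 * (X * (1 + X))) ^ (r - j) * (1 + 2 * X) ^ e := by
  unfold gb
  have h1 : (1 + 4 * (X * (1 + X)) : ℤ[X]) = (1 + 2 * X) ^ 2 := by ring
  have h2 : 2 * r + e - 2 * j = 2 * (r - j) + e := by omega
  rw [h1, h2, mul_pow, pow_add, pow_mul]
  ring

/-- regrouping a double sum over pairs of disjoint colour sets -/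
lemma regroup (f : Finset (Fin r) → ℕ) (x : ℤ[X]) (y : ℤ[X]) :
    ∑ T : Finset (Fin r), C (((∑ T1 ∈ T.powerset, 4 ^ T1.card * f (T \ T1) : ℕ) : ℤ))
        * (x ^ T.card * y)
      = ∑ T : Finset (Fin r), C ((f T : ℕ) : ℤ) * (x ^ T.card * (1 + 4 * x) ^ (r - T.card) * y) := by
  have h1 : ∑ T : Finset (Fin r), C (((∑ T1 ∈ T.powerset, 4 ^ T1.card * f (T \ T1) : ℕ) : ℤ))
        * (x ^ T.card * y)
      = ∑ T : Finset (Fin r), ∑ T1 ∈ T.powerset,
        C ((f (T \ T1) : ℕ) : ℤ) * (4 ^ T1.card * x ^ T.card * y) := by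
    apply sum_congr rfl
    intro T _
    push_cast
    rw [map_sum, sum_mul]
    apply sum_congr rfl
    intro T1 _
    rw [map_mul, map_pow]
    have : (C (4 : ℤ) : ℤ[X]) = 4 := rfl
    rw [this]
    ring
  have h2 : ∀ T : Finset (Fin r), C ((f T : ℕ) : ℤ)
      * (x ^ T.card * (1 + 4 * x) ^ (r - T.card) * y)
      = ∑ T1 ∈ (univ \ T).powerset, C ((f T : ℕ) : ℤ) * (x ^ T.card * (4 * x) ^ T1.card * y) := by
    intro T
    have h3 := Finset.sum_pow_mul_eq_add_pow (4 * x) 1 (univ \ T)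
    simp only [one_pow, mul_one] at h3
    have h4 : (univ \ T).card = r - T.card := by
      rw [card_sdiff_of_subset (subset_univ _), card_univ, Fintype.card_fin]
    rw [h4] at h3
    rw [add_comm 1 (4 * x), ← h3, mul_sum, sum_mul, mul_sum]
  rw [h1, sum_congr rfl (fun T _ => h2 T), Finset.sum_sigma', Finset.sum_sigma']
  refine Finset.sum_bij' (fun p _ => ⟨p.1 \ p.2, p.2⟩) (fun p _ => ⟨p.1 ∪ p.2, p.2⟩)
    ?_ ?_ ?_ ?_ ?_
  · rintro ⟨T, T1⟩ hp
    rw [mem_sigma, mem_powerset] at hp ⊢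
    simp only at hp ⊢
    refine ⟨mem_univ _, ?_⟩
    intro k hk
    rw [mem_sdiff, mem_sdiff]
    exact ⟨mem_univ _, fun h => h.2 hk⟩
  · rintro ⟨T, T1⟩ hp
    rw [mem_sigma, mem_powerset] at hp ⊢
    simp only at hp ⊢
    exact ⟨mem_univ _, subset_union_right⟩
  · rintro ⟨T, T1⟩ hp
    rw [mem_sigma, mem_powerset] at hp
    simp only at hp ⊢
    rw [sdiff_union_of_subset hp.2]
  · rintro ⟨T, T1⟩ hp
    rw [mem_sigma, mem_powerset] at hp
    simp only at hp ⊢
    have hd : Disjoint T T1 := by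
      rw [Finset.disjoint_right]
      intro k hk
      exact (mem_sdiff.1 (hp.2 hk)).2
    rw [union_sdiff_right, sdiff_eq_self_of_disjoint hd]
  · rintro ⟨T, T1⟩ hp
    rw [mem_sigma, mem_powerset] at hp
    simp only at hp ⊢
    have h3 : T.card = (T \ T1).card + T1.card := by
      rw [card_sdiff_add_card_eq_card hp.2]
    rw [h3, pow_add, mul_pow]
    ring

/-- The gamma formula of a structured complex. -/
theorem FullEdges.cp_gamma {e : ℕ} (he : e ≤ 1) {u v : Fin r → V} (hE : Eul G (2 * r + e))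
    (h : FullEdges G c u v) {Q : Finset V} (hQP : Disjoint Q (cn G (tau u v ∅)))
    (hQ4 : ∀ j, (cls c Q j).card = 4) (hfull : ∀ x ∈ Q, ∀ w, c w ≠ c x → G.Adj w x) :
    cp G univ = ∑ T : Finset (Fin r),
      C (((RC G c ((univ \ cn G (tau u v ∅)) \ Q) T).card : ℕ) : ℤ) * gb (2 * r + e) T.card := by
  set P := cn G (tau u v ∅) with hP
  have h1 := h.cp_univ he hE
  rw [← hP] at h1
  have hQsub : Q ⊆ univ \ P := by
    intro x hx
    rw [mem_sdiff]
    exact ⟨mem_univ _, Finset.disjoint_left.1 hQP hx⟩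
  have h2 : ∀ T : Finset (Fin r), ((cl G univ).filter
      (fun σ => supp c P σ = T ∧ σ.card = T.card)).card
      = ∑ T1 ∈ T.powerset, 4 ^ T1.card * (RC G c ((univ \ P) \ Q) (T \ T1)).card := by
    intro T
    rw [filter_supp_eq]
    have h3 : univ \ P = Q ∪ ((univ \ P) \ Q) := (union_sdiff_of_subset hQsub).symm
    conv_lhs => rw [h3]
    rw [RC_card_union disjoint_sdiff hfull]
    apply sum_congr rfl
    intro T1 _
    rw [rb_card, prod_congr rfl (fun j _ => hQ4 j), prod_const]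
  have h4 : ∀ T : Finset (Fin r), (C ((((cl G univ).filter (fun σ => supp c P σ = T
      ∧ σ.card = T.card)).card : ℕ) : ℤ) * (X ^ T.card * (1 + X) ^ T.card * (1 + 2 * X) ^ e) : ℤ[X])
      = C (((∑ T1 ∈ T.powerset, 4 ^ T1.card
        * (fun T' => (RC G c ((univ \ P) \ Q) T').card) (T \ T1) : ℕ) : ℤ))
        * ((X * (1 + X)) ^ T.card * (1 + 2 * X) ^ e) := by
    intro T
    rw [h2 T, mul_pow]
  rw [h1, sum_congr rfl (fun T _ => h4 T),
    regroup (fun T' => (RC G c ((univ \ P) \ Q) T').card) (X * (1 + X)) ((1 + 2 * X) ^ e)]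
  apply sum_congr rfl
  intro T _
  have hT : T.card ≤ r := by
    have := Finset.card_le_univ T
    rwa [Fintype.card_fin] at this
  rw [gb_eq hT he]

end Pool.Agent.H44
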