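import Pool.Agent.H44.DS
import Pool.Agent.H44.PolyLemma

/-!
The structure theorem: a flag Eulerian complex with `2r+e` vertices per facet (`e = 0, 1`), whose
vertex set has a colouring with `r` colours and an edge of each colour `i` whose two ends are
adjacent to all vertices of the other colours, has clique polynomial
`(1+2x)^e * ∑_T c_T (x(1+x))^{|T|}`, `c_T` counting the rainbow cliques with colour set `T`.
-/

namespace Pool.Agent.H44

open Finset Polynomial

set_option linter.unusedSectionVars false

variable {V : Type*} [Fintype V] [DecidableEq V]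

/-- a system of full edges for the colouring `c`. -/
structure FullEdges (G : SimpleGraph V) {r : ℕ} (c : V → Fin r) (u v : Fin r → V) : Prop where
  cu : ∀ i, c (u i) = i
  cv : ∀ i, c (v i) = i
  adj : ∀ i, G.Adj (u i) (v i)
  fu : ∀ i w, c w ≠ i → G.Adj w (u i)
  fv : ∀ i w, c w ≠ i → G.Adj w (v i)

/-- the clique spanned by the full edges with colours outside `T`. -/
def tau {r : ℕ} (u v : Fin r → V) (T : Finset (Fin r)) : Finset V :=
  (univ \ T).image u ∪ (univ \ T).image v

variable {G : SimpleGraph V} [DecidableRel G.Adj] {r : ℕ} {c : V → Fin r} {u v : Fin r → V}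

lemma mem_tau {T : Finset (Fin r)} {x : V} :
    x ∈ tau u v T ↔ ∃ j, j ∉ T ∧ (x = u j ∨ x = v j) := by
  simp only [tau, mem_union, mem_image, mem_sdiff, mem_univ, true_and]
  constructor
  · rintro (⟨j, hj, rfl⟩ | ⟨j, hj, rfl⟩)
    · exact ⟨j, hj, Or.inl rfl⟩
    · exact ⟨j, hj, Or.inr rfl⟩
  · rintro ⟨j, hj, rfl | rfl⟩
    · exact Or.inl ⟨j, hj, rfl⟩
    · exact Or.inr ⟨j, hj, rfl⟩

lemma FullEdges.u_inj (h : FullEdges G c u v) : Function.Injective u := by
  intro i j hij
  rw [← h.cu i, ← h.cu j, hij]

lemma FullEdges.v_inj (h : FullEdges G c u v) : Function.Injective v := by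
  intro i j hij
  rw [← h.cv i, ← h.cv j, hij]

lemma FullEdges.u_ne_v (h : FullEdges G c u v) (i j : Fin r) : u i ≠ v j := by
  intro hij
  have h1 : i = j := by rw [← h.cu i, ← h.cv j, hij]
  subst h1
  exact G.ne_of_adj (h.adj i) hij

lemma FullEdges.tau_clique (h : FullEdges G c u v) (T : Finset (Fin r)) :
    G.IsClique ((tau u v T : Finset V) : Set V) := by
  intro x hx y hy hxy
  rw [mem_coe, mem_tau] at hx hy
  obtain ⟨i, _, hi⟩ := hx
  obtain ⟨j, _, hj⟩ := hy
  by_cases hij : i = j
  · subst hij
    rcases hi with rfl | rfl <;> rcases hj with rfl | rfl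
    · exact absurd rfl hxy
    · exact h.adj i
    · exact (h.adj i).symm
    · exact absurd rfl hxy
  · have hcx : c x = i := by rcases hi with rfl | rfl; exacts [h.cu i, h.cv i]
    have hne : c x ≠ j := by rw [hcx]; exact hij
    rcases hj with rfl | rfl
    · exact h.fu j x hne
    · exact h.fv j x hne

lemma FullEdges.tau_card (h : FullEdges G c u v) (T : Finset (Fin r)) :
    (tau u v T).card = 2 * (r - T.card) := by
  unfold tau
  rw [Finset.card_union_of_disjoint, Finset.card_image_of_injective _ h.u_inj,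
    Finset.card_image_of_injective _ h.v_inj]
  · rw [Finset.card_sdiff_of_subset (subset_univ T), Finset.card_univ, Fintype.card_fin]
    ring
  · rw [Finset.disjoint_left]
    intro x hx hx'
    simp only [mem_image] at hx hx'
    obtain ⟨i, _, rfl⟩ := hx
    obtain ⟨j, _, hj⟩ := hx'
    exact h.u_ne_v i j hj.symm

lemma FullEdges.mem_cn_tau (h : FullEdges G c u v) (T : Finset (Fin r)) (w : V) :
    w ∈ cn G (tau u v T) ↔ w ∈ cn G (tau u v ∅) ∨ c w ∈ T := by
  constructor
  · intro hw
    by_cases hT : c w ∈ T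
    · exact Or.inr hT
    · left
      rw [mem_cn] at *
      intro x hx
      rw [mem_tau] at hx
      obtain ⟨j, _, hj⟩ := hx
      by_cases hjT : j ∈ T
      · have hne : c w ≠ j := by rintro rfl; exact hT hjT
        rcases hj with rfl | rfl
        · exact h.fu j w hne
        · exact h.fv j w hne
      · exact hw x (mem_tau.2 ⟨j, hjT, hj⟩)
  · rintro (hw | hT)
    · apply cn_anti _ hw
      intro x hx
      rw [mem_tau] at *
      obtain ⟨j, _, hj⟩ := hx
      exact ⟨j, by simp, hj⟩
    · rw [mem_cn]
      intro x hx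
      rw [mem_tau] at hx
      obtain ⟨j, hjT, hj⟩ := hx
      have hne : c w ≠ j := by rintro rfl; exact hjT hT
      rcases hj with rfl | rfl
      · exact h.fu j w hne
      · exact h.fv j w hne

/-- colour support of a set of vertices, away from the poles. -/
def supp (c : V → Fin r) (P σ : Finset V) : Finset (Fin r) := (σ \ P).image c

/-- generating polynomial of the cliques with colour support exactly `T`. -/
noncomputable def Phi (G : SimpleGraph V) [DecidableRel G.Adj] (c : V → Fin r) (P : Finset V)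
    (T : Finset (Fin r)) : ℤ[X] :=
  ∑ σ ∈ (cl G univ).filter (fun σ => supp c P σ = T), X ^ σ.card

lemma FullEdges.cp_cn_tau (h : FullEdges G c u v) (T : Finset (Fin r)) :
    cp G (cn G (tau u v T)) = ∑ T' ∈ T.powerset, Phi G c (cn G (tau u v ∅)) T' := by
  set P := cn G (tau u v ∅) with hP
  have h1 : cl G (cn G (tau u v T)) = (cl G univ).filter (fun σ => supp c P σ ⊆ T) := by
    ext σ
    rw [mem_filter, mem_cl, mem_cl]
    unfold supp
    constructor
    · rintro ⟨h1, h2⟩
      refine ⟨⟨subset_univ _, h2⟩, ?_⟩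
      intro i hi
      rw [mem_image] at hi
      obtain ⟨w, hw, rfl⟩ := hi
      rw [mem_sdiff] at hw
      rcases (h.mem_cn_tau T w).1 (h1 hw.1) with h' | h'
      · exact absurd h' hw.2
      · exact h'
    · rintro ⟨⟨_, h2⟩, h1⟩
      refine ⟨?_, h2⟩
      intro w hw
      rw [h.mem_cn_tau]
      by_cases hwP : w ∈ P
      · exact Or.inl hwP
      · exact Or.inr (h1 (mem_image_of_mem c (mem_sdiff.2 ⟨hw, hwP⟩)))
  unfold cp Phi
  rw [h1]
  have h2 : (cl G univ).filter (fun σ => supp c P σ ⊆ T)
      = T.powerset.biUnion (fun T' => (cl G univ).filter (fun σ => supp c P σ = T')) := by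
    ext σ
    simp only [mem_filter, mem_biUnion, mem_powerset]
    constructor
    · rintro ⟨ha, hb⟩
      exact ⟨_, hb, ha, rfl⟩
    · rintro ⟨T', hT', ha, hb⟩
      exact ⟨ha, hb ▸ hT'⟩
  rw [h2, Finset.sum_biUnion]
  intro T1 _ T2 _ hne
  simp only [Function.onFun]
  rw [Finset.disjoint_left]
  intro σ h1 h2
  simp only [mem_filter] at h1 h2
  exact hne (h1.2.symm.trans h2.2)

lemma FullEdges.Phi_symm {e : ℕ} (hE : Eul G (2 * r + e)) (h : FullEdges G c u v)
    (T : Finset (Fin r)) :
    (Phi G c (cn G (tau u v ∅)) T).comp (-1 - X) = (-1) ^ e * Phi G c (cn G (tau u v ∅)) T := by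
  induction T using Finset.strongInduction with
  | H T ih =>
    set P := cn G (tau u v ∅) with hP
    have h1 := h.cp_cn_tau T
    have h2 := ds hE (h.tau_clique T)
    rw [h.tau_card T] at h2
    have hTr : T.card ≤ r := by
      have := Finset.card_le_univ T
      rwa [Fintype.card_fin] at this
    have h3 : (-1 : ℤ[X]) ^ (2 * r + e - 2 * (r - T.card)) = (-1) ^ e := by
      have : 2 * r + e - 2 * (r - T.card) = 2 * T.card + e := by omega
      rw [this, pow_add, pow_mul]; norm_num
    rw [h3, h1, Polynomial.sum_comp] at h2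
    have h4 : T ∈ T.powerset := mem_powerset.2 (Subset.refl T)
    rw [← Finset.sum_erase_add _ _ h4] at h2
    rw [← Finset.sum_erase_add (f := fun T' => Phi G c P T') _ h4] at h2
    rw [mul_add, Finset.mul_sum] at h2
    have h5 : ∑ x ∈ T.powerset.erase T, (Phi G c P x).comp (-1 - X)
        = ∑ x ∈ T.powerset.erase T, (-1) ^ e * Phi G c P x := by
      apply Finset.sum_congr rfl
      intro T' hT'
      rw [mem_erase, mem_powerset] at hT'
      exact ih T' (hT'.2.ssubset_of_ne hT'.1)
    rw [h5] at h2
    exact add_left_cancel h2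

lemma FullEdges.Phi_form {e : ℕ} (he : e ≤ 1) (hE : Eul G (2 * r + e)) (h : FullEdges G c u v)
    (T : Finset (Fin r)) :
    Phi G c (cn G (tau u v ∅)) T
      = C ((((cl G univ).filter (fun σ => supp c (cn G (tau u v ∅)) σ = T ∧ σ.card = T.card)).card
          : ℕ) : ℤ) * (X ^ T.card * (1 + X) ^ T.card * (1 + 2 * X) ^ e) := by
  set P := cn G (tau u v ∅) with hP
  have hTr : T.card ≤ r := by
    have := Finset.card_le_univ T
    rwa [Fintype.card_fin] at this
  have h1 : (X : ℤ[X]) ^ T.card ∣ Phi G c P T := by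
    unfold Phi
    apply Finset.dvd_sum
    intro σ hσ
    apply pow_dvd_pow
    rw [mem_filter] at hσ
    rw [← hσ.2]
    exact Finset.card_image_le.trans (Finset.card_le_card sdiff_subset)
  have h2 : (Phi G c P T).natDegree ≤ 2 * T.card + e := by
    unfold Phi
    apply Polynomial.natDegree_sum_le_of_forall_le
    intro σ hσ
    rw [Polynomial.natDegree_X_pow]
    rw [mem_filter, mem_cl] at hσ
    have hsub : σ ⊆ cn G (tau u v T) := by
      intro w hw
      rw [h.mem_cn_tau]
      by_cases hwP : w ∈ P
      · exact Or.inl hwP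
      · right
        rw [← hσ.2]
        exact mem_image_of_mem c (mem_sdiff.2 ⟨hw, hwP⟩)
    have h3 := hE.card_le _ (isClique_union_of_subset_cn (h.tau_clique T) hσ.1.2 hsub)
    rw [Finset.card_union_of_disjoint (disjoint_of_subset_cn hsub), h.tau_card] at h3
    omega
  have h3 := poly_form he h1 (h.Phi_symm hE T) h2
  rw [h3]
  congr 2
  unfold Phi
  rw [Polynomial.finsetSum_coeff]
  simp only [Polynomial.coeff_X_pow]
  rw [Finset.sum_ite, Finset.sum_const_zero, add_zero, Finset.sum_const, nsmul_eq_mul, mul_one,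
    Finset.filter_filter]
  congr 2
  ext σ
  simp only [mem_filter]
  constructor
  · rintro ⟨ha, hb, hc⟩
    exact ⟨ha, hb, hc.symm⟩
  · rintro ⟨ha, hb, hc⟩
    exact ⟨ha, hb, hc.symm⟩

/-- The structure theorem. -/
theorem FullEdges.cp_univ {e : ℕ} (he : e ≤ 1) (hE : Eul G (2 * r + e))
    (h : FullEdges G c u v) :
    cp G univ = ∑ T : Finset (Fin r),
      C ((((cl G univ).filter (fun σ => supp c (cn G (tau u v ∅)) σ = T ∧ σ.card = T.card)).card
          : ℕ) : ℤ) * (X ^ T.card * (1 + X) ^ T.card * (1 + 2 * X) ^ e) := by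
  have h0 : tau u v (univ : Finset (Fin r)) = ∅ := by
    simp [tau]
  have h1 := h.cp_cn_tau univ
  rw [h0, cn_empty, Finset.powerset_univ] at h1
  rw [h1]
  apply Finset.sum_congr rfl
  intro T _
  exact h.Phi_form he hE T

end Pool.Agent.H44
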