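import Pool.Agent.H44.Types

/-!
Counting cliques by type with respect to a colouring, part 2.
-/

namespace Pool.Agent.H44

open Finset

set_option linter.unusedSectionVars false

variable {V : Type*} [Fintype V] [DecidableEq V] {r : ℕ}
variable {G : SimpleGraph V} [DecidableRel G.Adj] {c : V → Fin r}

/-- (S5) -/
lemma Msum_le_brs {A : Finset V} {L s : ℕ} (hL : ∀ j, L ≤ (cls c A j).card) (hs : s + 2 ≤ r) :
    Msum G c A * L ^ s ≤ (brs G c A (s + 2)).card * (s + 2) ^ 2 := by
  -- lower bound for each pair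
  have h1 : ∀ x ∈ A, ∀ y ∈ misA G c A x,
      L ^ s ≤ ((rbs c A (s + 2)).filter (fun T => x ∈ T ∧ y ∈ T)).card := by
    intro x hx y hy
    rw [mem_misA] at hy
    obtain ⟨hyA, hc, _⟩ := hy
    obtain ⟨J, hJ, hJc⟩ := Finset.exists_subset_card_eq
      (s := (univ : Finset (Fin r)) \ {c x, c y}) (n := s) (by
        rw [card_sdiff_of_subset (subset_univ _), card_univ, Fintype.card_fin,
          card_pair hc.symm]
        omega)
    have hxJ : c x ∉ J := fun h => by
      have := hJ h
      simp at this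
    have hyJ : c y ∉ J := fun h => by
      have := hJ h
      simp at this
    have h2 : L ^ s ≤ (rb c A J).card := by
      rw [rb_card, ← hJc, ← prod_const]
      apply prod_le_prod'
      intro j _
      exact hL j
    refine h2.trans ?_
    apply Finset.card_le_card_of_injOn (fun T => insert x (insert y T))
    · intro T hT
      rw [mem_coe] at hT
      have h3 := insert_mem_rb hT hyA hyJ
      have hxJ' : c x ∉ insert (c y) J := by
        rw [mem_insert]; push Not; exact ⟨hc.symm, hxJ⟩
      have h4 := insert_mem_rb h3 hx hxJ'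
      rw [mem_coe, mem_filter]
      refine ⟨?_, mem_insert_self _ _, mem_insert_of_mem (mem_insert_self _ _)⟩
      have h5 := rb_injOn h4
      rw [mem_rb] at h4
      rw [mem_rbs]
      refine ⟨h4.1, ?_, h5⟩
      rw [h4.2.2, card_insert_of_notMem hxJ', card_insert_of_notMem hyJ, hJc]
    · intro T hT T' hT' heq
      rw [mem_coe] at hT hT'
      simp only at heq
      have hxT : x ∉ T := fun h => hxJ (rb_color hT h)
      have hxT' : x ∉ T' := fun h => hxJ (rb_color hT' h)
      have hyT : y ∉ T := fun h => hyJ (rb_color hT h)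
      have hyT' : y ∉ T' := fun h => hyJ (rb_color hT' h)
      have hxy : x ≠ y := fun h => hc (by rw [h])
      have e1 : insert y T = insert y T' := by
        rw [← erase_insert (a := x) (s := insert y T), heq, erase_insert]
        · rw [mem_insert]; push Not; exact ⟨hxy, hxT'⟩
        · rw [mem_insert]; push Not; exact ⟨hxy, hxT⟩
      rw [← erase_insert hyT, e1, erase_insert hyT']
  have h2 : Msum G c A * L ^ s ≤ ∑ x ∈ A, ∑ y ∈ misA G c A x,
      ((rbs c A (s + 2)).filter (fun T => x ∈ T ∧ y ∈ T)).card := by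
    unfold Msum
    rw [sum_mul]
    apply sum_le_sum
    intro x hx
    rw [← smul_eq_mul, ← sum_const]
    apply sum_le_sum
    intro y hy
    exact h1 x hx y hy
  refine h2.trans ?_
  -- upper bound by double counting
  have h3 : ∑ x ∈ A, ∑ y ∈ misA G c A x,
      ((rbs c A (s + 2)).filter (fun T => x ∈ T ∧ y ∈ T)).card
      = (A.sigma (fun x => (misA G c A x).sigma (fun y =>
        (rbs c A (s + 2)).filter (fun T => x ∈ T ∧ y ∈ T)))).card := by
    rw [card_sigma]
    apply sum_congr rfl
    intro x _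
    rw [card_sigma]
  have h4 : (brs G c A (s + 2)).card * (s + 2) ^ 2
      = ((brs G c A (s + 2)).sigma (fun T => T ×ˢ T)).card := by
    rw [card_sigma, ← smul_eq_mul, ← sum_const]
    apply sum_congr rfl
    intro T hT
    rw [card_product, (mem_rbs.1 (mem_brs.1 hT).1).2.1, sq]
  rw [h3, h4]
  apply Finset.card_le_card_of_injOn
    (fun p => (⟨p.2.2, (p.1, p.2.1)⟩ : Σ _ : Finset V, V × V))
  · rintro ⟨x, y, T⟩ hp
    rw [mem_coe, mem_sigma, mem_sigma, mem_filter] at hp
    simp only at hp
    obtain ⟨hx, hy, hT, hxT, hyT⟩ := hp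
    rw [mem_misA] at hy
    rw [mem_coe, mem_sigma, mem_brs, mem_product]
    refine ⟨⟨hT, ?_⟩, hxT, hyT⟩
    intro hcl
    apply hy.2.2
    refine hcl (by exact_mod_cast hxT) (by exact_mod_cast hyT) ?_
    rintro rfl
    exact hy.2.1 rfl
  · rintro ⟨x, y, T⟩ _ ⟨x', y', T'⟩ _ heq
    simp only [Sigma.mk.injEq, heq_eq_eq, Prod.mk.injEq] at heq
    obtain ⟨rfl, rfl, rfl⟩ := heq
    rfl

/-- (Z1) -/
lemma card_Kc_le_Z (Z : Finset V) (s : ℕ) :
    (Kc G univ (s + 1)).card * Fintype.card V ^ 2
      ≤ ((Kc G (univ \ Z) (s + 1)).card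
        + ∑ z ∈ Z, (Kc G ((univ \ Z) ∩ cn G {z}) s).card) * Fintype.card V ^ 2
        + Z.card ^ 2 * Fintype.card V ^ (s + 1) := by
  set F2 := (Kc G univ (s + 1)).filter (fun T => ∃ x ∈ Z, ∃ y ∈ Z, x ≠ y ∧ x ∈ T ∧ y ∈ T) with hF2
  have h2 : F2.card * Fintype.card V ^ 2 ≤ Z.card ^ 2 * Fintype.card V ^ (s + 1) := by
    have := card_mul_le_of_pairs (F := F2) (m := s + 1) (A := Z) (N := fun _ => Z)
      (fun T hT => (mem_Kc.1 (mem_filter.1 hT).1).2.2)
      (fun T hT => (mem_filter.1 hT).2)
    rwa [sum_const, smul_eq_mul, ← sq] at this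
  have h1 : (Kc G univ (s + 1)).card ≤ (Kc G (univ \ Z) (s + 1)).card
      + ∑ z ∈ Z, (Kc G ((univ \ Z) ∩ cn G {z}) s).card + F2.card := by
    have hsub : Kc G univ (s + 1) ⊆ Kc G (univ \ Z) (s + 1)
        ∪ (Z.sigma (fun z => Kc G ((univ \ Z) ∩ cn G {z}) s)).image (fun p => insert p.1 p.2)
        ∪ F2 := by
      intro T hT
      rw [mem_union, mem_union]
      by_cases h2 : T ∈ F2
      · exact Or.inr h2
      left
      have hT' := hT
      rw [mem_Kc] at hT
      by_cases h1 : ∃ z ∈ Z, z ∈ T
      · right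
        obtain ⟨z, hz, hzT⟩ := h1
        rw [mem_image]
        refine ⟨⟨z, T.erase z⟩, ?_, insert_erase hzT⟩
        rw [mem_sigma]
        refine ⟨hz, ?_⟩
        rw [mem_Kc]
        refine ⟨?_, isClique_mono (erase_subset _ _) hT.2.1, ?_⟩
        · intro w hw
          rw [mem_erase] at hw
          rw [mem_inter, mem_sdiff, mem_cn]
          refine ⟨⟨mem_univ _, ?_⟩, ?_⟩
          · intro hwZ
            apply h2
            rw [hF2, mem_filter]
            exact ⟨hT', w, hwZ, z, hz, hw.1, hw.2, hzT⟩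
          · intro x hx
            rw [mem_singleton] at hx
            subst hx
            exact hT.2.1 (by exact_mod_cast hw.2) (by exact_mod_cast hzT) hw.1
        · rw [card_erase_of_mem hzT, hT.2.2]; rfl
      · left
        push Not at h1
        rw [mem_Kc]
        refine ⟨?_, hT.2.1, hT.2.2⟩
        intro w hw
        rw [mem_sdiff]
        exact ⟨mem_univ _, fun hwZ => h1 w hwZ hw⟩
    refine (card_le_card hsub).trans ?_
    refine (card_union_le _ _).trans ?_
    apply Nat.add_le_add_right
    refine (card_union_le _ _).trans ?_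
    apply Nat.add_le_add_left
    refine card_image_le.trans ?_
    rw [card_sigma]
  calc (Kc G univ (s + 1)).card * Fintype.card V ^ 2
      ≤ ((Kc G (univ \ Z) (s + 1)).card
      + ∑ z ∈ Z, (Kc G ((univ \ Z) ∩ cn G {z}) s).card + F2.card) * Fintype.card V ^ 2 :=
        Nat.mul_le_mul_right _ h1
    _ = ((Kc G (univ \ Z) (s + 1)).card
      + ∑ z ∈ Z, (Kc G ((univ \ Z) ∩ cn G {z}) s).card) * Fintype.card V ^ 2
        + F2.card * Fintype.card V ^ 2 := by ring
    _ ≤ _ := Nat.add_le_add_left h2 _

/-- (Z2) -/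
lemma Z_le_card_Kc (Z : Finset V) (s : ℕ) :
    (Kc G (univ \ Z) (s + 1)).card + ∑ z ∈ Z, (Kc G ((univ \ Z) ∩ cn G {z}) s).card
      ≤ (Kc G univ (s + 1)).card := by
  rw [← card_sigma]
  have h1 : (Z.sigma (fun z => Kc G ((univ \ Z) ∩ cn G {z}) s)).card
      = ((Z.sigma (fun z => Kc G ((univ \ Z) ∩ cn G {z}) s)).image
        (fun p => insert p.1 p.2)).card := by
    rw [card_image_of_injOn]
    rintro ⟨z, T⟩ hp ⟨z', T'⟩ hp' heq
    rw [mem_coe, mem_sigma, mem_Kc] at hp hp'
    simp only at hp hp' heq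
    have hzT : z ∉ T := fun h => by
      have := hp.2.1 h
      rw [mem_inter, mem_sdiff] at this
      exact this.1.2 hp.1
    have hzT' : z ∉ T' := fun h => by
      have := hp'.2.1 h
      rw [mem_inter, mem_sdiff] at this
      exact this.1.2 hp.1
    have hzz : z = z' := by
      have h2 : z ∈ insert z' T' := by rw [← heq]; exact mem_insert_self _ _
      rw [mem_insert] at h2
      rcases h2 with h2 | h2
      · exact h2
      · exact absurd h2 hzT'
    subst hzz
    have : T = T' := by
      rw [← erase_insert hzT, heq, erase_insert hzT']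
    rw [this]
  rw [h1, ← card_union_of_disjoint]
  · apply card_le_card
    intro T hT
    rw [mem_union] at hT
    rcases hT with hT | hT
    · rw [mem_Kc] at *
      exact ⟨subset_univ _, hT.2⟩
    · rw [mem_image] at hT
      obtain ⟨⟨z, T'⟩, hp, rfl⟩ := hT
      rw [mem_sigma, mem_Kc] at hp
      simp only at hp ⊢
      have hz : z ∈ cn G T' := by
        rw [mem_cn]
        intro w hw
        have := hp.2.1 hw
        rw [mem_inter, mem_cn] at this
        exact (this.2 z (mem_singleton_self z)).symm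
      rw [mem_Kc]
      refine ⟨subset_univ _, isClique_insert_of_mem_cn hp.2.2.1 hz, ?_⟩
      rw [card_insert_of_notMem (not_mem_of_mem_cn hz), hp.2.2.2]
  · rw [Finset.disjoint_left]
    intro T hT hT'
    rw [mem_image] at hT'
    obtain ⟨⟨z, T'⟩, hp, rfl⟩ := hT'
    rw [mem_sigma] at hp
    rw [mem_Kc] at hT
    have := hT.1 (mem_insert_self z T')
    rw [mem_sdiff] at this
    exact this.2 hp.1

end Pool.Agent.H44
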