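import Pool.Agent.H44.Types2

/-!
Counting cliques by type with respect to a colouring, part 3: lower bounds for the number of
cliques with one more vertex than colours.
-/

namespace Pool.Agent.H44

open Finset

set_option linter.unusedSectionVars false

variable {V : Type*} [Fintype V] [DecidableEq V] {q : ℕ}
variable {G : SimpleGraph V} [DecidableRel G.Adj] {c : V → Fin (q + 1)}

/-- rainbow cliques on the other colours completing the pair `x, y` -/
def Wxy (G : SimpleGraph V) [DecidableRel G.Adj] (c : V → Fin (q + 1)) (A : Finset V) (x y : V) :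
    Finset (Finset V) :=
  (rb c A (univ.erase (c x))).filter (fun T => G.IsClique (T : Set V) ∧ T ⊆ cn G {x, y})

lemma mem_Wxy {A : Finset V} {x y : V} {T : Finset V} : T ∈ Wxy G c A x y ↔
    T ∈ rb c A (univ.erase (c x)) ∧ G.IsClique (T : Set V) ∧ T ⊆ cn G {x, y} := by
  simp [Wxy]

/-- admissible pairs of a clique -/
def apr (c : V → Fin (q + 1)) (A : Finset V) (T : Finset V) : Finset (V × V) :=
  (prs c T).filter (fun p => T \ {p.1, p.2} ∈ rb c A (univ.erase (c p.1)))

lemma apr_card_le {A T : Finset V} : (apr c A T).card ≤ 2 := by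
  by_cases h : apr c A T = ∅
  · rw [h]; simp
  obtain ⟨⟨x, y⟩, hp⟩ := nonempty_iff_ne_empty.2 h
  unfold apr at hp
  rw [mem_filter, mem_prs] at hp
  simp only at hp
  obtain ⟨⟨⟨hx, hy⟩, hne, hc⟩, hrb⟩ := hp
  have hsub : apr c A T ⊆ {(x, y), (y, x)} := by
    rintro ⟨x', y'⟩ hp'
    unfold apr at hp'
    rw [mem_filter, mem_prs] at hp'
    simp only at hp'
    obtain ⟨⟨⟨hx', hy'⟩, hne', hc'⟩, _⟩ := hp'
    have hcol : ∀ w ∈ T, w ≠ x → w ≠ y → c w ≠ c x := by
      intro w hw h1 h2
      have h3 : w ∈ T \ {x, y} := by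
        rw [mem_sdiff, mem_insert, mem_singleton]
        push Not
        exact ⟨hw, h1, h2⟩
      have h4 := rb_color hrb h3
      rw [mem_erase] at h4
      exact h4.1
    have hinj := rb_injOn hrb
    have hX : x' = x ∨ x' = y := by
      by_contra hcon
      push Not at hcon
      have h1 := hcol x' hx' hcon.1 hcon.2
      have h2 : y' ≠ x := by rintro rfl; exact h1 hc'
      have h3 : y' ≠ y := by rintro rfl; exact h1 (hc'.trans hc.symm)
      apply hne'
      apply hinj _ _ hc'
      · rw [mem_coe, mem_sdiff, mem_insert, mem_singleton]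
        push Not
        exact ⟨hx', hcon.1, hcon.2⟩
      · rw [mem_coe, mem_sdiff, mem_insert, mem_singleton]
        push Not
        exact ⟨hy', h2, h3⟩
    have hcx' : c x' = c x := by
      rcases hX with rfl | rfl
      · rfl
      · exact hc.symm
    have hY : y' = x ∨ y' = y := by
      by_contra hcon
      push Not at hcon
      have h1 := hcol y' hy' hcon.1 hcon.2
      exact h1 (hc'.symm.trans hcx')
    rw [mem_insert, mem_singleton, Prod.mk.injEq, Prod.mk.injEq]
    rcases hX with rfl | rfl <;> rcases hY with rfl | rfl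
    · exact absurd rfl hne'
    · exact Or.inl ⟨rfl, rfl⟩
    · exact Or.inr ⟨rfl, rfl⟩
    · exact absurd rfl hne'
  exact (card_le_card hsub).trans card_le_two

/-- (L1) -/
lemma sum_Wxy_le (A : Finset V) :
    ∑ x ∈ A, ∑ y ∈ innA G c A x, (Wxy G c A x y).card ≤ 2 * (Kc G A (q + 2)).card := by
  have h1 : ∑ T ∈ Kc G A (q + 2), (apr c A T).card ≤ 2 * (Kc G A (q + 2)).card := by
    rw [mul_comm, ← smul_eq_mul, ← sum_const]
    apply sum_le_sum
    intro T _
    exact apr_card_le
  refine le_trans ?_ h1
  rw [← card_sigma]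
  have h2 : ∑ x ∈ A, ∑ y ∈ innA G c A x, (Wxy G c A x y).card
      = (A.sigma (fun x => (innA G c A x).sigma (fun y => Wxy G c A x y))).card := by
    rw [card_sigma]
    apply sum_congr rfl
    intro x _
    rw [card_sigma]
  rw [h2]
  apply Finset.card_le_card_of_injOn
    (fun p => (⟨insert p.1 (insert p.2.1 p.2.2), (p.1, p.2.1)⟩ : Σ _ : Finset V, V × V))
  · rintro ⟨x, y, T⟩ hp
    rw [mem_coe, mem_sigma, mem_sigma, mem_innA, mem_Wxy] at hp
    simp only at hp
    obtain ⟨hx, ⟨hy, hc, hadj⟩, hT, hcl, hcn⟩ := hp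
    have hyT : y ∈ cn G T := by
      rw [mem_cn]
      intro w hw
      exact (mem_cn.1 (hcn hw) y (by simp)).symm
    have hxT : x ∈ cn G (insert y T) := by
      rw [mem_cn]
      intro w hw
      rw [mem_insert] at hw
      rcases hw with rfl | hw
      · exact hadj
      · exact (mem_cn.1 (hcn hw) x (by simp)).symm
    have hTA := (mem_rb.1 hT).1
    have hTc := (mem_rb.1 hT).2.2
    rw [card_erase_of_mem (mem_univ _), card_univ, Fintype.card_fin] at hTc
    have hyT' := not_mem_of_mem_cn hyT
    have hxT' := not_mem_of_mem_cn hxT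
    rw [mem_coe, mem_sigma]
    constructor
    · rw [mem_Kc]
      refine ⟨insert_subset hx (insert_subset hy hTA),
        isClique_insert_of_mem_cn (isClique_insert_of_mem_cn hcl hyT) hxT, ?_⟩
      simp only
      rw [card_insert_of_notMem hxT', card_insert_of_notMem hyT', hTc]
      omega
    · unfold apr
      rw [mem_filter, mem_prs]
      simp only
      refine ⟨⟨⟨mem_insert_self _ _, mem_insert_of_mem (mem_insert_self _ _)⟩,
        G.ne_of_adj hadj, hc.symm⟩, ?_⟩
      have e : insert x (insert y T) \ {x, y} = T := by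
        ext w
        rw [mem_sdiff, mem_insert, mem_insert, mem_insert, mem_singleton]
        constructor
        · rintro ⟨h1 | h1 | h1, h2⟩
          · exact absurd (Or.inl h1) h2
          · exact absurd (Or.inr h1) h2
          · exact h1
        · intro h
          refine ⟨Or.inr (Or.inr h), ?_⟩
          rintro (rfl | rfl)
          · exact hxT' (mem_insert_of_mem h)
          · exact hyT' h
      rw [e]
      exact hT
  · rintro ⟨x, y, T⟩ hp ⟨x', y', T'⟩ hp' heq
    rw [mem_coe, mem_sigma, mem_sigma, mem_innA, mem_Wxy] at hp hp'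
    simp only at hp hp'
    simp only [Sigma.mk.injEq, heq_eq_eq, Prod.mk.injEq] at heq
    obtain ⟨h3, rfl, rfl⟩ := heq
    obtain ⟨hx, ⟨hy, hc, hadj⟩, hT, hcl, hcn⟩ := hp
    obtain ⟨_, _, _, _, hcn'⟩ := hp'
    have key : ∀ S : Finset V, S ⊆ cn G {x, y} → insert x (insert y S) \ {x, y} = S := by
      intro S hS
      ext w
      rw [mem_sdiff, mem_insert, mem_insert, mem_insert, mem_singleton]
      constructor
      · rintro ⟨h1 | h1 | h1, h2⟩
        · exact absurd (Or.inl h1) h2
        · exact absurd (Or.inr h1) h2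
        · exact h1
      · intro h
        refine ⟨Or.inr (Or.inr h), ?_⟩
        have h4 := mem_cn.1 (hS h)
        rintro (rfl | rfl)
        · exact G.irrefl (h4 w (by simp))
        · exact G.irrefl (h4 w (by simp))
    have : T = T' := by
      rw [← key T hcn, h3, key T' hcn']
    subst this
    rfl

/-- (L3) -/
lemma rb_le_Wxy {A : Finset V} {x y : V} (hxy : c y = c x) :
    (rb c A (univ.erase (c x))).card * Fintype.card V ^ 2
      ≤ (Wxy G c A x y).card * Fintype.card V ^ 2 + Msum G c A * Fintype.card V ^ q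
        + ((misA G c A x).card + (misA G c A y).card) * Fintype.card V ^ (q + 1) := by
  set F1 := (rb c A (univ.erase (c x))).filter
    (fun T : Finset V => ¬ G.IsClique (T : Set V)) with hF1
  set F2 := (rb c A (univ.erase (c x))).filter (fun T : Finset V => ¬ T ⊆ cn G {x, y}) with hF2
  have hcard : ∀ T ∈ rb c A (univ.erase (c x)), T.card = q := by
    intro T hT
    rw [(mem_rb.1 hT).2.2, card_erase_of_mem (mem_univ _), card_univ, Fintype.card_fin]
    rfl
  have h1 : (rb c A (univ.erase (c x))).card ≤ (Wxy G c A x y).card + F1.card + F2.card := by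
    have hsub : rb c A (univ.erase (c x)) ⊆ Wxy G c A x y ∪ F1 ∪ F2 := by
      intro T hT
      rw [mem_union, mem_union, mem_Wxy, hF1, hF2, mem_filter, mem_filter]
      by_cases h2 : G.IsClique (T : Set V)
      · by_cases h3 : T ⊆ cn G {x, y}
        · exact Or.inl (Or.inl ⟨hT, h2, h3⟩)
        · exact Or.inr ⟨hT, h3⟩
      · exact Or.inl (Or.inr ⟨hT, h2⟩)
    refine (card_le_card hsub).trans ?_
    refine (card_union_le _ _).trans ?_
    exact Nat.add_le_add_right (card_union_le _ _) _
  have h2 : F1.card * Fintype.card V ^ 2 ≤ Msum G c A * Fintype.card V ^ q := by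
    refine le_trans ?_ (brs_card_mul (G := G) (c := c) (Subset.refl A) q)
    apply Nat.mul_le_mul_right
    apply card_le_card
    intro T hT
    rw [hF1, mem_filter] at hT
    rw [mem_brs, mem_rbs]
    exact ⟨⟨(mem_rb.1 hT.1).1, hcard T hT.1, rb_injOn hT.1⟩, hT.2⟩
  have h3 : F2.card * Fintype.card V
      ≤ ((misA G c A x).card + (misA G c A y).card) * Fintype.card V ^ q := by
    have hsub : F2 ⊆ (misA G c A x ∪ misA G c A y).biUnion (fun w =>
        (powersetCard q (univ : Finset V)).filter (fun T => {w} ⊆ T)) := by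
      intro T hT
      rw [hF2, mem_filter] at hT
      obtain ⟨hT1, hT2⟩ := hT
      rw [Finset.not_subset] at hT2
      obtain ⟨w, hw, hwn⟩ := hT2
      rw [mem_cn] at hwn
      push Not at hwn
      obtain ⟨z, hz, hwz⟩ := hwn
      have hcw := rb_color hT1 hw
      rw [mem_erase] at hcw
      rw [mem_biUnion]
      refine ⟨w, ?_, ?_⟩
      · rw [mem_union, mem_misA, mem_misA]
        rw [mem_insert, mem_singleton] at hz
        rcases hz with rfl | rfl
        · left
          exact ⟨(mem_rb.1 hT1).1 hw, hcw.1, fun h => hwz h.symm⟩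
        · right
          exact ⟨(mem_rb.1 hT1).1 hw, by rw [hxy]; exact hcw.1, fun h => hwz h.symm⟩
      · rw [mem_filter, mem_powersetCard]
        exact ⟨⟨subset_univ _, hcard T hT1⟩, singleton_subset_iff.2 hw⟩
    have h4 : F2.card ≤ ∑ w ∈ misA G c A x ∪ misA G c A y,
        ((powersetCard q (univ : Finset V)).filter (fun T => {w} ⊆ T)).card :=
      (card_le_card hsub).trans card_biUnion_le
    calc F2.card * Fintype.card V
        ≤ (∑ w ∈ misA G c A x ∪ misA G c A y,
        ((powersetCard q (univ : Finset V)).filter (fun T => {w} ⊆ T)).card) * Fintype.card V :=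
          Nat.mul_le_mul_right _ h4
      _ = ∑ w ∈ misA G c A x ∪ misA G c A y,
        ((powersetCard q (univ : Finset V)).filter (fun T => {w} ⊆ T)).card * Fintype.card V := by
          rw [sum_mul]
      _ ≤ ∑ w ∈ misA G c A x ∪ misA G c A y, Fintype.card V ^ q := by
          apply sum_le_sum
          intro w _
          have := card_containing ({w} : Finset V) q
          rwa [card_singleton, pow_one] at this
      _ = (misA G c A x ∪ misA G c A y).card * Fintype.card V ^ q := by
          rw [sum_const, smul_eq_mul]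
      _ ≤ _ := Nat.mul_le_mul_right _ (card_union_le _ _)
  calc (rb c A (univ.erase (c x))).card * Fintype.card V ^ 2
      ≤ ((Wxy G c A x y).card + F1.card + F2.card) * Fintype.card V ^ 2 :=
        Nat.mul_le_mul_right _ h1
    _ = (Wxy G c A x y).card * Fintype.card V ^ 2 + F1.card * Fintype.card V ^ 2
        + (F2.card * Fintype.card V) * Fintype.card V := by ring
    _ ≤ (Wxy G c A x y).card * Fintype.card V ^ 2 + Msum G c A * Fintype.card V ^ q
        + (((misA G c A x).card + (misA G c A y).card) * Fintype.card V ^ q)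
          * Fintype.card V := by
        apply Nat.add_le_add
        · exact Nat.add_le_add_left h2 _
        · exact Nat.mul_le_mul_right _ h3
    _ = _ := by ring

lemma sum_mis_le {A : Finset V} {D : ℕ} (hD : ∀ x ∈ A, (innA G c A x).card ≤ D) :
    ∑ x ∈ A, ∑ y ∈ innA G c A x, ((misA G c A x).card + (misA G c A y).card)
      ≤ 2 * D * Msum G c A := by
  have h1 : ∑ x ∈ A, ∑ y ∈ innA G c A x, (misA G c A x).card ≤ D * Msum G c A := by
    unfold Msum
    rw [mul_sum]
    apply sum_le_sum
    intro x hx
    rw [sum_const, smul_eq_mul]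
    exact Nat.mul_le_mul_right _ (hD x hx)
  have h2 : ∑ x ∈ A, ∑ y ∈ innA G c A x, (misA G c A y).card
      = ∑ x ∈ A, ∑ y ∈ innA G c A x, (misA G c A x).card := by
    apply Finset.sum_comm'
    intro x y
    rw [mem_innA, mem_innA]
    constructor
    · rintro ⟨h1, h2, h3, h4⟩
      exact ⟨⟨h1, h3.symm, h4.symm⟩, h2⟩
    · rintro ⟨⟨h1, h3, h4⟩, h2⟩
      exact ⟨h1, h2, h3.symm, h4.symm⟩
  have h3 : ∑ x ∈ A, ∑ y ∈ innA G c A x, ((misA G c A x).card + (misA G c A y).card)
      = ∑ x ∈ A, ∑ y ∈ innA G c A x, (misA G c A x).card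
        + ∑ x ∈ A, ∑ y ∈ innA G c A x, (misA G c A y).card := by
    rw [← sum_add_distrib]
    apply sum_congr rfl
    intro x _
    rw [sum_add_distrib]
  rw [h3, h2]
  nlinarith

/-- lower bound for the cliques with `q+2` vertices inside `A` -/
theorem lower_A {A : Finset V} {D L : ℕ} (hD : ∀ x ∈ A, (innA G c A x).card ≤ D)
    (hL : ∀ j, L ≤ (cls c A j).card) :
    Isum G c A * L ^ q * Fintype.card V ^ 2
      ≤ 2 * (Kc G A (q + 2)).card * Fintype.card V ^ 2
        + Isum G c A * Msum G c A * Fintype.card V ^ q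
        + 2 * D * Msum G c A * Fintype.card V ^ (q + 1) := by
  have h1 : ∀ x ∈ A, ∀ y ∈ innA G c A x, L ^ q * Fintype.card V ^ 2
      ≤ (Wxy G c A x y).card * Fintype.card V ^ 2 + Msum G c A * Fintype.card V ^ q
        + ((misA G c A x).card + (misA G c A y).card) * Fintype.card V ^ (q + 1) := by
    intro x _ y hy
    refine le_trans ?_ (rb_le_Wxy (G := G) (A := A) (mem_innA.1 hy).2.1)
    apply Nat.mul_le_mul_right
    rw [rb_card]
    have h2 : (univ.erase (c x)).card = q := by
      rw [card_erase_of_mem (mem_univ _), card_univ, Fintype.card_fin]; rfl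
    conv_lhs => rw [← h2]
    rw [← prod_const]
    apply prod_le_prod'
    intro j _
    exact hL j
  have h2 : Isum G c A * L ^ q * Fintype.card V ^ 2
      ≤ ∑ x ∈ A, ∑ y ∈ innA G c A x, ((Wxy G c A x y).card * Fintype.card V ^ 2
        + Msum G c A * Fintype.card V ^ q
        + ((misA G c A x).card + (misA G c A y).card) * Fintype.card V ^ (q + 1)) := by
    unfold Isum
    rw [mul_assoc, sum_mul]
    apply sum_le_sum
    intro x hx
    rw [← smul_eq_mul, ← sum_const]
    apply sum_le_sum
    intro y hy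
    exact h1 x hx y hy
  refine h2.trans ?_
  have h3 : ∑ x ∈ A, ∑ y ∈ innA G c A x, ((Wxy G c A x y).card * Fintype.card V ^ 2
        + Msum G c A * Fintype.card V ^ q
        + ((misA G c A x).card + (misA G c A y).card) * Fintype.card V ^ (q + 1))
      = (∑ x ∈ A, ∑ y ∈ innA G c A x, (Wxy G c A x y).card) * Fintype.card V ^ 2
        + Isum G c A * (Msum G c A * Fintype.card V ^ q)
        + (∑ x ∈ A, ∑ y ∈ innA G c A x, ((misA G c A x).card + (misA G c A y).card))
          * Fintype.card V ^ (q + 1) := by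
    unfold Isum
    rw [sum_mul, sum_mul, sum_mul, ← sum_add_distrib, ← sum_add_distrib]
    apply sum_congr rfl
    intro x _
    rw [sum_add_distrib, sum_add_distrib, sum_const, smul_eq_mul, ← sum_mul, ← sum_mul]
  rw [h3]
  have h4 := sum_Wxy_le (G := G) (c := c) A
  have h5 := sum_mis_le (G := G) (c := c) hD
  have h6 := Nat.mul_le_mul_right (Fintype.card V ^ 2) h4
  have h7 := Nat.mul_le_mul_right (Fintype.card V ^ (q + 1)) h5
  have e : Isum G c A * (Msum G c A * Fintype.card V ^ q)
      = Isum G c A * Msum G c A * Fintype.card V ^ q := by ring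
  rw [e]
  exact Nat.add_le_add (Nat.add_le_add_right h6 _) h7

/-- (L2) -/
lemma prod_cls_le {A : Finset V} (z : V) :
    (∏ j, (cls c (A ∩ cn G {z}) j).card) * Fintype.card V ^ 2
      ≤ (Kc G (A ∩ cn G {z}) (q + 1)).card * Fintype.card V ^ 2
        + Msum G c A * Fintype.card V ^ (q + 1) := by
  have h1 : (∏ j, (cls c (A ∩ cn G {z}) j).card) ≤ (rbs c (A ∩ cn G {z}) (q + 1)).card := by
    rw [← rb_card]
    apply card_le_card
    intro T hT
    have hinj := rb_injOn hT
    rw [mem_rb] at hT
    rw [mem_rbs]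
    refine ⟨hT.1, ?_, hinj⟩
    rw [hT.2.2, card_univ, Fintype.card_fin]
  have h2 := rbs_le_card_Kc_add (G := G) (c := c) (A ∩ cn G {z}) (q + 1)
  have h3 := brs_card_mul (G := G) (c := c) (A := A) (B := A ∩ cn G {z}) inter_subset_left (q + 1)
  calc (∏ j, (cls c (A ∩ cn G {z}) j).card) * Fintype.card V ^ 2
      ≤ ((Kc G (A ∩ cn G {z}) (q + 1)).card + (brs G c (A ∩ cn G {z}) (q + 1)).card)
        * Fintype.card V ^ 2 := Nat.mul_le_mul_right _ (h1.trans h2)
    _ = (Kc G (A ∩ cn G {z}) (q + 1)).card * Fintype.card V ^ 2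
        + (brs G c (A ∩ cn G {z}) (q + 1)).card * Fintype.card V ^ 2 := by ring
    _ ≤ _ := Nat.add_le_add_left h3 _

end Pool.Agent.H44
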